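import Mathlib

set_option autoImplicit false

namespace Pool.Agent.P.MP_9ed2cf_gt.H14

/-- One elementary slice of a sliced (Morse) diagram of an oriented tangle, read from bottom to
top.  Strands of a row are numbered `0, 1, 2, ...` from the left.
* `cross i pos`: the strands `i`, `i+1`, both oriented upwards, cross; if `pos = true` the strand
  going from bottom left to top right is the over-strand (positive crossing), otherwise it is the
  under-strand (negative crossing).
* `cup i d`: a local minimum creates new strands `i`, `i+1`; the left one points up iff `d`.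
* `cap i d`: a local maximum joins the strands `i`, `i+1`; the left one points up iff `d`. -/
inductive Slice where
  | cross (i : ℕ) (pos : Bool)
  | cup (i : ℕ) (d : Bool)
  | cap (i : ℕ) (d : Bool)

/-- A row of strands; a strand is a pair (points up?, the next crossing met when travelling along
the orientation is passed as an over-crossing?).  `s.Alt l l'` says that the slice `s` fits on the
row `l`, gives the row `l'`, and that over- and under-passages alternate at `s`: an incoming
over-arm has label `true` and continues with label `false`, an incoming under-arm has label `false`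
and continues with label `true`. -/
def Slice.Alt : Slice → List (Bool × Bool) → List (Bool × Bool) → Prop
  | .cross i pos, l, l' => ∃ p q : List (Bool × Bool), p.length = i ∧
      l = p ++ (true, pos) :: (true, !pos) :: q ∧ l' = p ++ (true, pos) :: (true, !pos) :: q
  | .cup i d, l, l' => ∃ (p q : List (Bool × Bool)) (b : Bool), p.length = i ∧
      l = p ++ q ∧ l' = p ++ (d, b) :: (!d, b) :: q
  | .cap i d, l, l' => ∃ (p q : List (Bool × Bool)) (b : Bool), p.length = i ∧
      l = p ++ (d, b) :: (!d, b) :: q ∧ l' = p ++ q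

/-- `AltRun l D l'`: the slices `D`, stacked from bottom to top, form an oriented alternating
tangle diagram from the row `l` to the row `l'`. -/
inductive AltRun : List (Bool × Bool) → List Slice → List (Bool × Bool) → Prop
  | nil (l : List (Bool × Bool)) : AltRun l [] l
  | cons {l l' l'' : List (Bool × Bool)} {s : Slice} {D : List Slice} :
      s.Alt l l' → AltRun l' D l'' → AltRun l (s :: D) l''

/-- `D` is an oriented (1,1)-tangle diagram (one upward strand at the bottom and at the top) whose
closure is an alternating link diagram. -/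
def IsAlternating (D : List Slice) : Prop := ∃ b : Bool, AltRun [(true, b)] D [(true, b)]

section RT

variable {A : Type} [CommRing A]

/-- Coefficient of `e a ⊗ e b` in `R (e a ⊗ e b)`; `s0 = t0^(1/2)`, `s1 = t1^(1/2)`,
`Y = ((t0 - 1)(1 - t1))^(1/2)`. -/
def Rdiag (s0 s1 Y : A) : Matrix (Fin 4) (Fin 4) A :=
  !![s0 ^ 2, 0, 0, 0;
     s0 ^ 2 - 1, -1, s0 ^ 2 * s1 ^ 2 - 1, 0;
     s0 ^ 2 - 1, 0, -1, 0;
     Y ^ 2, s1 ^ 2 - 1, s1 ^ 2 - 1, s1 ^ 2]

/-- Coefficient of `e b ⊗ e a` in `R (e a ⊗ e b)` for `a ≠ b`. -/
def Rswap (s0 s1 : A) : Matrix (Fin 4) (Fin 4) A :=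
  !![0, s0, s0, 1;
     s0, 0, -(s0 * s1), s1;
     s0, -(s0 * s1), 0, s1;
     1, s1, s1, 0]

/-- The remaining entries, between `e 3 ⊗ e 0` and `e 1 ⊗ e 2`, `e 2 ⊗ e 1`. -/
def Rext (s0 s1 Y : A) (p : Fin 4 × Fin 4) : A :=
  if p = (1, 2) then -(s0 * s1 * Y) else if p = (2, 1) then Y else 0

/-- The Links-Gould braiding on `V ⊗ V`, `V` with basis `e 0, ..., e 3`, as a (symmetric) 16 by 16
matrix (row = output pair, column = input pair). -/
def Rmat (s0 s1 Y : A) : Matrix (Fin 4 × Fin 4) (Fin 4 × Fin 4) A := fun o i =>
  (if o = i then Rdiag s0 s1 Y i.1 i.2 else 0) + (if o = i.swap then Rswap s0 s1 i.1 i.2 else 0) +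
    (if o = (3, 0) then Rext s0 s1 Y i else 0) + (if i = (3, 0) then Rext s0 s1 Y o else 0)

/-- The pivotal element `μ = diag(t0⁻¹, -t1, -t0⁻¹, t1)`. -/
def mu (s0 s1 : Aˣ) : Fin 4 → Aˣ := ![(s0 ^ 2)⁻¹, -(s1 ^ 2), -(s0 ^ 2)⁻¹, s1 ^ 2]

/-- `sliceMap s0 s1 Y s H u`: apply the Reshetikhin-Turaev map of the slice `s` to the basis tensor
`u` (a basis vector of `V` on an upward strand, of the dual basis of `V*` on a downward strand) and
then the linear form whose value on the basis tensor `v` is `H v`.
Positive crossing: `Rmat`; negative crossing: its inverse; cups and caps: coevaluation and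
evaluation, twisted by `μ` on the cap whose left strand points up and by `μ⁻¹` on the cup whose
left strand points down. -/
noncomputable def sliceMap (s0 s1 Y : Aˣ) : Slice → (List (Fin 4) → A) → List (Fin 4) → A
  | .cross i pos, H, u => ∑ c : Fin 4, ∑ e : Fin 4,
      (if pos then Rmat (s0 : A) s1 Y else (Rmat (s0 : A) s1 Y)⁻¹) (c, e)
          (u.getD i 0, u.getD (i + 1) 0) * H (u.take i ++ c :: e :: u.drop (i + 2))
  | .cup i d, H, u => ∑ a : Fin 4,
      (if d then 1 else (((mu s0 s1 a)⁻¹ : Aˣ) : A)) * H (u.take i ++ a :: a :: u.drop i)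
  | .cap i d, H, u =>
      if u.getD i 0 = u.getD (i + 1) 0 then
        (if d then ((mu s0 s1 (u.getD i 0) : Aˣ) : A) else 1) * H (u.take i ++ u.drop (i + 2))
      else 0

/-- The Reshetikhin-Turaev state sum: the slices of `D` are applied from bottom to top, then the
linear form `H`. -/
noncomputable def rt (s0 s1 Y : Aˣ) (H : List (Fin 4) → A) (D : List Slice) : List (Fin 4) → A :=
  D.foldr (sliceMap s0 s1 Y) H

/-- The Links-Gould invariant of the closure of the (1,1)-tangle diagram `D`: the map `V → V` of
`D` is a scalar, and this is its `(k, k)` entry. -/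
noncomputable def LG (s0 s1 Y : Aˣ) (D : List Slice) (k : Fin 4) : A :=
  rt s0 s1 Y (fun v => if v = [k] then 1 else 0) D [k]

end RT

end Pool.Agent.P.MP_9ed2cf_gt.H14
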