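import Mathlib

set_option autoImplicit false

noncomputable section

namespace Pool.Agent.P.MP_9ed2cf_gt

/-- The entry of the braiding with digits `k = c d a b`: the coefficient of `e_c ⊗ e_d` in the
image of `e_a ⊗ e_b`; here `t0 = s0 ^ 2`, `t1 = s1 ^ 2`, `Y ^ 2 = (t0 - 1) * (1 - t1)`. -/
def Rent (s0 s1 Y : ℂ) (k : ℕ) : ℂ :=
  if k = 1111 then s0 ^ 2 else if k = 2222 ∨ k = 3333 then -1 else if k = 4444 then s1 ^ 2
  else if k = 2112 ∨ k = 1221 ∨ k = 3113 ∨ k = 1331 then s0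
  else if k = 2121 ∨ k = 3131 then s0 ^ 2 - 1
  else if k = 4224 ∨ k = 2442 ∨ k = 4334 ∨ k = 3443 then s1
  else if k = 4242 ∨ k = 4343 then s1 ^ 2 - 1
  else if k = 4114 ∨ k = 1441 then 1
  else if k = 4141 then Y ^ 2
  else if k = 2323 then s0 ^ 2 * s1 ^ 2 - 1
  else if k = 3223 ∨ k = 2332 then -(s0 * s1)
  else if k = 2341 ∨ k = 4123 then -(s0 * s1 * Y)
  else if k = 3241 ∨ k = 4132 then Y else 0

/-- the braiding on `V ⊗ V`, `dim V = 4` -/
def Rmat (s0 s1 Y : ℂ) : Matrix (Fin 4 × Fin 4) (Fin 4 × Fin 4) ℂ := fun o i =>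
  Rent s0 s1 Y (1000 * (o.1 + 1) + 100 * (o.2 + 1) + 10 * (i.1 + 1) + (i.2 + 1))

/-- the pivotal element -/
def mu (s0 s1 : ℂ) : Fin 4 → ℂ := ![(s0 ^ 2)⁻¹, -s1 ^ 2, -(s0 ^ 2)⁻¹, s1 ^ 2]

/-- elementary slices of an oriented tangle diagram, read upwards -/
inductive Move : Type
  | cross (pos : Bool) (i : ℕ) : Move
  | cupR (i : ℕ) : Move
  | cupL (i : ℕ) : Move
  | capR (i : ℕ) : Move
  | capL (i : ℕ) : Move

/-- the state sum of one slice: `l` is the state below it, `k` the value of what lies above -/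
def step (s0 s1 Y : ℂ) : Move → (List (Fin 4) → ℂ) → List (Fin 4) → ℂ
  | .cross pos i, k, l => ∑ c, ∑ d,
      (if pos then Rmat s0 s1 Y else (Rmat s0 s1 Y)⁻¹) (c, d) (l.getD i 0, l.getD (i + 1) 0) *
        k (l.take i ++ c :: d :: l.drop (i + 2))
  | .cupR i, k, l => ∑ e, (mu s0 s1 e)⁻¹ * k (l.take i ++ e :: e :: l.drop i)
  | .cupL i, k, l => ∑ e, k (l.take i ++ e :: e :: l.drop i)
  | .capR i, k, l => if l.getD i 0 = l.getD (i + 1) 0 then
      mu s0 s1 (l.getD i 0) * k (l.take i ++ l.drop (i + 2)) else 0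
  | .capL i, k, l => if l.getD i 0 = l.getD (i + 1) 0 then k (l.take i ++ l.drop (i + 2)) else 0

/-- the Links-Gould invariant of a (1,1)-tangle diagram -/
def LG (s0 s1 Y : ℂ) (D : List Move) : ℂ :=
  D.foldr (step s0 s1 Y) (fun l => if l = [0] then 1 else 0) [0]

/-- a crossing of an upward strand `i` and a downward strand `i + 1` -/
def twR (pos : Bool) (i : ℕ) : List Move := [.cupR i, .cross pos (i + 1), .capR (i + 2)]

/-- a crossing of a downward strand `i` and an upward strand `i + 1` -/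
def twL (pos : Bool) (i : ℕ) : List Move := [.cupL (i + 2), .cross pos (i + 1), .capL i]

/-- a vertical twist region of `|p|` crossings (`p` odd) of sign `p` -/
def column (p : ℤ) (i : ℕ) : List Move :=
  twR (0 < p) i ++ (List.replicate (p.natAbs / 2) (twL (0 < p) i ++ twR (0 < p) i)).flatten

/-- the pretzel knot diagram `P(p, q, r)` cut open at one point -/
def pretzel (p q r : ℤ) : List Move :=
  [.cupR 1, .cupR 3, .cupR 5] ++ column p 0 ++ column q 2 ++ column r 4 ++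
    [.capR 1, .capR 1, .capL 0]

end Pool.Agent.P.MP_9ed2cf_gt
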