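import Pool.Agent.P.MP_9ed2cf_gt.Tab
import Pool.Agent.P.MP_9ed2cf_gt.Defs

/-! The matrix identities over the complex numbers. -/

set_option autoImplicit false

noncomputable section

namespace Pool.Agent.P.MP_9ed2cf_gt

abbrev Mx : Type := Matrix (Fin 4 × Fin 4) (Fin 4 × Fin 4) ℂ

def ev2 (s0 s1 : ℂ) : R2 → ℂ := lev (lev (fun n : ℤ => (n : ℂ)) s1) s0

def evE (s0 s1 Y : ℂ) (x : E) : ℂ := ev2 s0 s1 x.1.p + Y * ev2 s0 s1 x.2.p

def evM (s0 s1 Y : ℂ) (M : M4) : Mx := fun o i => evE s0 s1 Y (M o.1 o.2 i.1 i.2)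

def TR (s0 s1 : ℂ) (M : Mx) : Mx := fun o i =>
  (mu s0 s1 o.1)⁻¹ * M (o.2, i.2) (o.1, i.1) * mu s0 s1 i.2

def TL (M : Mx) : Mx := fun o i => M (i.1, o.1) (i.2, o.2)

def cl (s0 s1 : ℂ) (M1 M2 M3 : Mx) : ℂ :=
  ∑ e1, ∑ e2, ∑ c1, ∑ d1, ∑ d2, M1 (c1, d1) (0, e1) * (M2 (d1, d2) (e1, e2) *
    (M3 (d2, c1) (e2, 0) * ((mu s0 s1 0)⁻¹ * (mu s0 s1 e1)⁻¹ * (mu s0 s1 e2)⁻¹ * mu s0 s1 d1 *
      mu s0 s1 d2)))

/-- admissible parameters -/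
structure Par (s0 s1 Y : ℂ) : Prop where
  h0 : s0 ≠ 0
  h1 : s1 ≠ 0
  hY : Y ^ 2 = (s0 ^ 2 - 1) * (1 - s1 ^ 2)

variable {s0 s1 Y : ℂ}

theorem TL_smul (x : ℂ) (M : Mx) : TL (x • M) = x • TL M := rfl

theorem TR_smul (x : ℂ) (M : Mx) : TR s0 s1 (x • M) = x • TR s0 s1 M := by
  ext o i
  simp only [TR, Matrix.smul_apply, smul_eq_mul]
  ring

theorem cl_lin1 (u : Fin 3 → ℂ) (B : Fin 3 → Mx) (M N : Mx) :
    cl s0 s1 (∑ i, u i • B i) M N = ∑ i, u i * cl s0 s1 (B i) M N := by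
  simp only [cl, Fin.sum_univ_three, Matrix.add_apply, Matrix.smul_apply, smul_eq_mul,
    Finset.mul_sum, ← Finset.sum_add_distrib]
  iterate 5 refine Finset.sum_congr rfl fun _ _ => ?_
  ring

theorem cl_lin2 (u : Fin 3 → ℂ) (B : Fin 3 → Mx) (M N : Mx) :
    cl s0 s1 M (∑ i, u i • B i) N = ∑ i, u i * cl s0 s1 M (B i) N := by
  simp only [cl, Fin.sum_univ_three, Matrix.add_apply, Matrix.smul_apply, smul_eq_mul,
    Finset.mul_sum, ← Finset.sum_add_distrib]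
  iterate 5 refine Finset.sum_congr rfl fun _ _ => ?_
  ring

theorem cl_lin3 (u : Fin 3 → ℂ) (B : Fin 3 → Mx) (M N : Mx) :
    cl s0 s1 M N (∑ i, u i • B i) = ∑ i, u i * cl s0 s1 M N (B i) := by
  simp only [cl, Fin.sum_univ_three, Matrix.add_apply, Matrix.smul_apply, smul_eq_mul,
    Finset.mul_sum, ← Finset.sum_add_distrib]
  iterate 5 refine Finset.sum_congr rfl fun _ _ => ?_
  ring

theorem ev_mk (u v : R2) : evE s0 s1 Y (mkE u v) = ev2 s0 s1 u + Y * ev2 s0 s1 v := rfl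

theorem ev_zero : evE s0 s1 Y (mkE [] []) = 0 := by simp [ev_mk, ev2, lev]

theorem ev_qE : evE s0 s1 Y qE = s0 ^ 2 * s1 ^ 2 := by simp [ev_mk, ev2, lev, qE]; ring

theorem ev_tlP (M : M4) : evM s0 s1 Y (tlP M) = TL (evM s0 s1 Y M) := rfl

theorem ev_m1 : evM s0 s1 Y m1 = 1 := by
  ext o i
  simp only [evM, m1, Matrix.one_apply, Prod.mk.eta]
  split_ifs <;> simp [ev_mk, ev2, lev]

namespace Par

variable (h : Par s0 s1 Y)

include h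

theorem good : Good AE (evE s0 s1 Y) :=
  good_quad (good_k S2 (good_lift (good_lift (good_int ℂ) s1) s0)) (by
    rw [h.hY]
    change _ = ev2 s0 s1 y2
    simp [y2, ev2, lev]
    ring)

theorem q_ne : s0 ^ 2 * s1 ^ 2 ≠ 0 := mul_ne_zero (pow_ne_zero _ h.h0) (pow_ne_zero _ h.h1)

theorem ev_RP (k : ℕ) : evE s0 s1 Y (RP k) = Rent s0 s1 Y k := by
  have st : ∀ (p : Prop) [Decidable p] (x y : E) (u v : ℂ), evE s0 s1 Y x = u →
      evE s0 s1 Y y = v → evE s0 s1 Y (if p then x else y) = if p then u else v := by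
    intro p _ x y u v h1 h2
    split_ifs <;> assumption
  unfold RP Rent
  iterate 13 refine st _ _ _ _ _ (by simp [ev_mk, ev2, lev, y2, h.hY] <;> ring) ?_
  exact ev_zero

theorem ev_RM : evM s0 s1 Y RM = Rmat s0 s1 Y := by
  ext o i
  exact h.ev_RP _

theorem ev_mE (b : Fin 4) : evE s0 s1 Y (mE b) = s0 ^ 2 * mu s0 s1 b := by
  have := h.h0
  fin_cases b <;> simp [mE, mu, ev_mk, ev2, lev, qE] <;> field_simp

theorem ev_nE (b : Fin 4) : evE s0 s1 Y (nE b) = s1 ^ 2 * (mu s0 s1 b)⁻¹ := by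
  have := h.h1
  fin_cases b <;> simp [nE, mu, ev_mk, ev2, lev, qE] <;> field_simp

theorem ev_s4 (f : Fin 4 → E) : evE s0 s1 Y (s4 f) = ∑ i, evE s0 s1 Y (f i) := by
  simp only [s4, h.good.add, Fin.sum_univ_four]

theorem ev_mulz (x y : E) : evE s0 s1 Y (mulz x y) = evE s0 s1 Y x * evE s0 s1 Y y := by
  cases hz : AE.isZ x
  · simp only [mulz, hz, cond_false, h.good.mul]
  · simp only [mulz, hz, cond_true, h.good.isZ x hz, h.good.zero, zero_mul]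

theorem ev_mm (M N : M4) : evM s0 s1 Y (mm M N) = evM s0 s1 Y M * evM s0 s1 Y N := by
  ext o i
  simp only [evM, mm, h.ev_s4, h.ev_mulz, Matrix.mul_apply, Fintype.sum_prod_type]

theorem ev_ms (M : M4) : evM s0 s1 Y (ms qE M) = (s0 ^ 2 * s1 ^ 2) • evM s0 s1 Y M := by
  ext o i
  simp only [evM, ms, h.ev_mulz, ev_qE, Matrix.smul_apply, smul_eq_mul, mul_comm]

theorem ev_ma (M N : M4) : evM s0 s1 Y (ma M N) = evM s0 s1 Y M + evM s0 s1 Y N := by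
  ext o i
  simp only [evM, ma, h.good.add, Matrix.add_apply]

theorem ev_trP (M : M4) :
    evM s0 s1 Y (trP M) = (s0 ^ 2 * s1 ^ 2) • TR s0 s1 (evM s0 s1 Y M) := by
  ext o i
  simp only [evM, trP, TR, h.ev_mulz, h.good.mul, h.ev_mE, h.ev_nE, Matrix.smul_apply, smul_eq_mul]
  ring

theorem eqE_sound {x y : E} (H : eqE x y = true) : evE s0 s1 Y x = evE s0 s1 Y y := by
  have := h.good.isZ _ H
  rw [h.good.add, h.good.sc] at this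
  push_cast at this
  linear_combination this

omit h in
theorem all4_sound {p : Fin 4 → Bool} (H : all4 p = true) (i : Fin 4) : p i = true := by
  simp only [all4, Bool.and_eq_true] at H
  fin_cases i
  exacts [H.1.1.1, H.1.1.2, H.1.2, H.2]

theorem eqM_sound {M N : M4} (H : eqM M N = true) : evM s0 s1 Y M = evM s0 s1 Y N := by
  ext o i
  exact h.eqE_sound (all4_sound (all4_sound (all4_sound (all4_sound H o.1) o.2) i.1) i.2)

theorem ev_clP (M1 M2 M3 : M4) : s0 ^ 2 * evE s0 s1 Y (clP M1 M2 M3) =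
    (s0 ^ 2 * s1 ^ 2) ^ 2 * cl s0 s1 (evM s0 s1 Y M1) (evM s0 s1 Y M2) (evM s0 s1 Y M3) := by
  simp only [clP, cl, h.ev_s4, h.ev_mulz, h.good.mul, h.ev_mE, h.ev_nE, Finset.mul_sum, evM]
  iterate 5 refine Finset.sum_congr rfl fun _ _ => ?_
  have : (mu s0 s1 0)⁻¹ = s0 ^ 2 := by simp [mu]
  rw [this]
  ring

theorem ev_hE : ∀ l, evE s0 s1 Y (hE l) = hv (s0 ^ 2 * s1 ^ 2) l
  | [] => ev_zero
  | c :: l => by rw [hE, h.good.add, h.good.mul, h.good.ofInt, ev_qE, ev_hE l, hv_cons]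

theorem inv_R : evM s0 s1 Y (tb tRi) = (s0 ^ 2 * s1 ^ 2) • (Rmat s0 s1 Y)⁻¹ := by
  have h1 := h.eqM_sound ck1
  rw [h.ev_mm, h.ev_ms, ev_m1, h.ev_RM] at h1
  have h2 : Rmat s0 s1 Y * ((s0 ^ 2 * s1 ^ 2)⁻¹ • evM s0 s1 Y (tb tRi)) = 1 := by
    rw [Matrix.mul_smul, h1, smul_smul, inv_mul_cancel₀ h.q_ne, one_smul]
  rw [Matrix.inv_eq_right_inv h2, smul_smul, mul_inv_cancel₀ h.q_ne, one_smul]

omit h in
/-- the three basic tangles -/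
def BB (s0 s1 Y : ℂ) (i : Fin 3) : Mx := (s0 ^ 2 * s1 ^ 2)⁻¹ • evM s0 s1 Y (bP i)

theorem ev_bP (i : Fin 3) : evM s0 s1 Y (bP i) = (s0 ^ 2 * s1 ^ 2) • BB s0 s1 Y i := by
  rw [BB, smul_smul, mul_inv_cancel₀ h.q_ne, one_smul]

theorem cancel {M N : Mx} (H : (s0 ^ 2 * s1 ^ 2) • M = (s0 ^ 2 * s1 ^ 2) • N) : M = N :=
  smul_right_injective _ h.q_ne H

theorem BB0 : BB s0 s1 Y 0 = TR s0 s1 (Rmat s0 s1 Y) := by
  have h1 := h.eqM_sound ck2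
  rw [h.ev_trP, h.ev_RM] at h1
  exact h.cancel ((h.ev_bP 0).symm.trans h1)

theorem ev_D : evM s0 s1 Y (tb tD) =
    (s0 ^ 2 * s1 ^ 2) • (TR s0 s1 (Rmat s0 s1 Y) * TL (Rmat s0 s1 Y)) := by
  have h1 := h.eqM_sound ck3
  have h0 : evM s0 s1 Y (tb tB0) = _ := h.ev_bP 0
  rw [h.ev_mm, ev_tlP, h.ev_RM, h0, h.BB0, Matrix.smul_mul] at h1
  exact h1.symm

theorem D_BB (x y z : ℂ) : (TR s0 s1 (Rmat s0 s1 Y) * TL (Rmat s0 s1 Y)) *
    (∑ i, ![x, y, z] i • BB s0 s1 Y i) =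
      ∑ i, ![x, x + y, y + (s0 ^ 2 * s1 ^ 2) * z] i • BB s0 s1 Y i := by
  have h0 : evM s0 s1 Y (tb tB0) = _ := h.ev_bP 0
  have h1 : evM s0 s1 Y (tb tB1) = _ := h.ev_bP 1
  have h2 : evM s0 s1 Y (tb tB2) = _ := h.ev_bP 2
  have e0 := h.eqM_sound ck4
  have e1 := h.eqM_sound ck5
  have e2 := h.eqM_sound ck6
  simp only [h.ev_mm, h.ev_ms, h.ev_ma, h.ev_D, h0, h1, h2, Matrix.smul_mul, Matrix.mul_smul,
    ← smul_add] at e0 e1 e2
  replace e0 := h.cancel (h.cancel e0)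
  replace e1 := h.cancel (h.cancel e1)
  replace e2 := h.cancel (h.cancel e2)
  simp only [Fin.sum_univ_three, Matrix.mul_add, Matrix.mul_smul, e0, e1, e2, Matrix.cons_val_zero,
    Matrix.cons_val_one, Matrix.cons_val_two, Matrix.head_cons, Matrix.tail_cons]
  module

theorem inv1 : TL (Rmat s0 s1 Y)⁻¹ * TR s0 s1 (Rmat s0 s1 Y) = 1 := by
  have h0 : evM s0 s1 Y (tb tB0) = _ := h.ev_bP 0
  have e := h.eqM_sound ck7
  simp only [h.ev_mm, h.ev_ms, ev_tlP, h.inv_R, h0, h.BB0, TL_smul, Matrix.smul_mul,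
    Matrix.mul_smul, ev_m1] at e
  exact h.cancel (h.cancel e)

theorem inv2 : TR s0 s1 (Rmat s0 s1 Y)⁻¹ * TL (Rmat s0 s1 Y) = 1 := by
  have e := h.eqM_sound ck8
  simp only [h.ev_mm, h.ev_ms, ev_tlP, h.ev_trP, h.inv_R, h.ev_RM, TR_smul, Matrix.smul_mul,
    ev_m1] at e
  exact h.cancel (h.cancel e)

theorem cl_BB (i j k : Fin 3) : cl s0 s1 (BB s0 s1 Y i) (BB s0 s1 Y j) (BB s0 s1 Y k) =
    hv (s0 ^ 2 * s1 ^ 2) (gC i j k) - (s0 ^ 2 + s1 ^ 2) * hv (s0 ^ 2 * s1 ^ 2) (gB i j k) +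
      (s0 ^ 4 + s1 ^ 4) * hv (s0 ^ 2 * s1 ^ 2) (gA i j k) := by
  have e := h.eqE_sound (ck9 i j k)
  have a1 : evE s0 s1 Y (mkE [[], [], [1]] []) = s0 ^ 2 := by simp [ev_mk, ev2, lev]; ring
  have a2 : evE s0 s1 Y (mkE [[0, 0, -1], [], [-1]] []) = -(s0 ^ 2 + s1 ^ 2) := by
    simp [ev_mk, ev2, lev]; ring
  have a3 : evE s0 s1 Y (mkE [[0, 0, 0, 0, 1], [], [], [], [1]] []) = s0 ^ 4 + s1 ^ 4 := by
    simp [ev_mk, ev2, lev]; ring
  have a4 : hv (s0 ^ 2 * s1 ^ 2) [0, 0, 0, 0, 0, 1] = (s0 ^ 2 * s1 ^ 2) ^ 5 := by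
    simp only [hv_cons, hv_nil]; push_cast; ring
  have a5 : ∀ M1 M2 M3 : Mx, cl s0 s1 ((s0 ^ 2 * s1 ^ 2) • M1) ((s0 ^ 2 * s1 ^ 2) • M2)
      ((s0 ^ 2 * s1 ^ 2) • M3) = (s0 ^ 2 * s1 ^ 2) ^ 3 * cl s0 s1 M1 M2 M3 := by
    intro M1 M2 M3
    simp only [cl, Matrix.smul_apply, smul_eq_mul, Finset.mul_sum]
    iterate 5 refine Finset.sum_congr rfl fun _ _ => ?_
    ring
  simp only [GE, h.good.mul, h.good.add, a1, a2, a3, h.ev_hE, a4, h.ev_clP, h.ev_bP, a5] at e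
  refine mul_left_cancel₀ (pow_ne_zero 5 h.q_ne) ?_
  linear_combination e

end Par

end Pool.Agent.P.MP_9ed2cf_gt
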