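import Mathlib

/-! Executable polynomial arithmetic with a soundness proof. -/

set_option autoImplicit false

namespace Pool.Agent.P.MP_9ed2cf_gt

/-- executable ring operations -/
structure Ar (α : Type) where
  ofInt : ℤ → α
  zero : α
  add : α → α → α
  mul : α → α → α
  sc : ℤ → α → α
  isZ : α → Bool
  nn : α → Bool

/-- the operations are sound for the evaluation `ev` -/
structure Good {α K : Type} [CommRing K] (A : Ar α) (ev : α → K) : Prop where
  ofInt : ∀ n, ev (A.ofInt n) = n
  zero : ev A.zero = 0
  add : ∀ x y, ev (A.add x y) = ev x + ev y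
  mul : ∀ x y, ev (A.mul x y) = ev x * ev y
  sc : ∀ n x, ev (A.sc n x) = n * ev x
  isZ : ∀ x, A.isZ x = true → ev x = 0

def intAr : Ar ℤ where
  ofInt := fun n => n
  zero := 0
  add := Int.add
  mul := Int.mul
  sc := Int.mul
  isZ := fun n => match n with
    | Int.ofNat k => Nat.beq k 0
    | Int.negSucc _ => false
  nn := fun n => match n with
    | Int.ofNat _ => true
    | Int.negSucc _ => false

theorem good_int (K : Type) [CommRing K] : Good intAr (fun n : ℤ => (n : K)) where
  ofInt _ := rfl
  zero := Int.cast_zero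
  add := Int.cast_add
  mul := Int.cast_mul
  sc := Int.cast_mul
  isZ x h := by
    cases x with
    | ofNat k =>
      have : k = 0 := Nat.eq_of_beq_eq_true h
      simp [this]
    | negSucc k => exact absurd h (by simp [intAr])

theorem nn_int (x : ℤ) (h : intAr.nn x = true) : 0 ≤ ((x : ℤ) : ℤ) := by
  cases x with
  | ofNat k => simp
  | negSucc k => exact absurd h (by simp [intAr])

variable {α K : Type} [CommRing K]

def ladd (A : Ar α) : List α → List α → List α
  | [], g => g
  | a :: f, [] => a :: f
  | a :: f, b :: g => A.add a b :: ladd A f g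

def lmap (h : α → α) : List α → List α
  | [] => []
  | a :: f => h a :: lmap h f

def lmul (A : Ar α) : List α → List α → List α
  | [], _ => []
  | a :: f, g => cond (A.isZ a) (A.zero :: lmul A f g)
      (ladd A (lmap (A.mul a) g) (A.zero :: lmul A f g))

def lall (h : α → Bool) : List α → Bool
  | [] => true
  | a :: f => cond (h a) (lall h f) false

def lift (A : Ar α) : Ar (List α) where
  ofInt := fun n => [A.ofInt n]
  zero := []
  add := ladd A
  mul := lmul A
  sc := fun n => lmap (A.sc n)
  isZ := lall A.isZ
  nn := lall A.nn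

/-- Horner evaluation -/
def lev (ev : α → K) (x : K) : List α → K
  | [] => 0
  | a :: f => ev a + x * lev ev x f

theorem lev_add {A : Ar α} {ev : α → K} (h : Good A ev) (x : K) :
    ∀ f g, lev ev x (ladd A f g) = lev ev x f + lev ev x g
  | [], g => by simp [ladd, lev]
  | a :: f, [] => by simp [ladd, lev]
  | a :: f, b :: g => by
    simp only [ladd, lev, h.add, lev_add h x f g]; ring

theorem lev_map {ev : α → K} {h : α → α} {c : K} (hh : ∀ a, ev (h a) = c * ev a) (x : K) :
    ∀ f, lev ev x (lmap h f) = c * lev ev x f
  | [] => by simp [lmap, lev]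
  | a :: f => by simp only [lmap, lev, hh, lev_map hh x f]; ring

theorem lev_mul {A : Ar α} {ev : α → K} (h : Good A ev) (x : K) (g : List α) :
    ∀ f, lev ev x (lmul A f g) = lev ev x f * lev ev x g
  | [] => by simp [lmul, lev]
  | a :: f => by
    cases hz : A.isZ a
    · simp only [lmul, hz, cond_false, lev_add h, lev, lev_map (h.mul a), h.zero, lev_mul h x g f]
      ring
    · simp only [lmul, hz, cond_true, lev, h.zero, lev_mul h x g f, h.isZ a hz]
      ring

theorem lall_cons {h : α → Bool} {a : α} {f : List α} (H : lall h (a :: f) = true) :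
    h a = true ∧ lall h f = true := by
  cases ha : h a <;> simp_all [lall]

theorem good_lift {A : Ar α} {ev : α → K} (h : Good A ev) (x : K) : Good (lift A) (lev ev x) where
  ofInt n := by simp [lift, lev, h.ofInt]
  zero := rfl
  add := lev_add h x
  mul f g := lev_mul h x g f
  sc n := lev_map (h.sc n) x
  isZ f := by
    induction f with
    | nil => intro _; rfl
    | cons a f ih =>
      intro H
      obtain ⟨h1, h2⟩ := lall_cons H
      simp [lev, h.isZ a h1, ih h2]

theorem nn_lift {A : Ar α} {ev : α → ℤ} (h : ∀ a, A.nn a = true → 0 ≤ ev a) {x : ℤ} (hx : 0 ≤ x)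
    (f : List α) : (lift A).nn f = true → 0 ≤ lev ev x f := by
  induction f with
  | nil => intro _; exact le_rfl
  | cons a f ih =>
    intro H
    obtain ⟨h1, h2⟩ := lall_cons H
    exact add_nonneg (h a h1) (mul_nonneg hx (ih h2))

/-- adjoining a square root of `w` -/
def quad (A : Ar α) (w : α) : Ar (α × α) where
  ofInt := fun n => (A.ofInt n, A.zero)
  zero := (A.zero, A.zero)
  add := fun x y => (A.add x.1 y.1, A.add x.2 y.2)
  mul := fun x y => (A.add (A.mul x.1 y.1) (A.mul (A.mul x.2 y.2) w),
    A.add (A.mul x.1 y.2) (A.mul x.2 y.1))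
  sc := fun n x => (A.sc n x.1, A.sc n x.2)
  isZ := fun x => A.isZ x.1 && A.isZ x.2
  nn := fun _ => false

theorem good_quad {A : Ar α} {ev : α → K} (h : Good A ev) {w : α} {Y : K} (hY : Y ^ 2 = ev w) :
    Good (quad A w) (fun x => ev x.1 + Y * ev x.2) where
  ofInt n := by simp [quad, h.ofInt, h.zero]
  zero := by simp [quad, h.zero]
  add x y := by simp only [quad, h.add]; ring
  mul x y := by simp only [quad, h.add, h.mul, ← hY]; ring
  sc n x := by simp only [quad, h.sc]; ring
  isZ x H := by
    simp only [quad, Bool.and_eq_true] at H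
    simp [h.isZ _ H.1, h.isZ _ H.2]

end Pool.Agent.P.MP_9ed2cf_gt
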