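import Pool.Agent.P.MP_9ed2cf_gt.Eng

/-! The three diagonals as Laurent polynomials and their coefficients. -/

set_option autoImplicit false

open LaurentPolynomial

noncomputable section

namespace Pool.Agent.P.MP_9ed2cf_gt

def gC : Fin 3 → Fin 3 → Fin 3 → List ℤ :=
  ![![![[1, 2], [2, 8, 4], [0, 2, 6, 4]],
      ![[2, 8, 4], [4, 20, 20, 6], [0, 2, 12, 16, 6]],
      ![[0, 2, 6, 4], [0, 2, 12, 16, 6], [0, 0, 0, 6, 12, 6]]],
    ![![[2, 8, 4], [4, 20, 20, 6], [0, 2, 12, 16, 6]],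
      ![[4, 20, 20, 6], [0, 6, 28, 30, 8], [0, -4, -12, 8, 24, 8]],
      ![[0, 2, 12, 16, 6], [0, -4, -12, 8, 24, 8], [0, 2, 0, -20, -8, 18, 8]]],
    ![![[0, 2, 6, 4], [0, 2, 12, 16, 6], [0, 0, 0, 6, 12, 6]],
      ![[0, 2, 12, 16, 6], [0, -4, -12, 8, 24, 8], [0, 2, 0, -20, -8, 18, 8]],
      ![[0, 0, 0, 6, 12, 6], [0, 2, 0, -20, -8, 18, 8], [0, 0, 8, 12, -20, -20, 12, 8]]]]

def gB : Fin 3 → Fin 3 → Fin 3 → List ℤ :=
  ![![![[1, 1], [4, 5, 1], [0, 3, 4, 1]],
      ![[4, 5, 1], [8, 16, 9, 1], [0, 4, 11, 8, 1]],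
      ![[0, 3, 4, 1], [0, 4, 11, 8, 1], [0, 0, 1, 7, 7, 1]]],
    ![![[4, 5, 1], [8, 16, 9, 1], [0, 4, 11, 8, 1]],
      ![[8, 16, 9, 1], [0, 11, 23, 13, 1], [0, -7, -4, 14, 12, 1]],
      ![[0, 4, 11, 8, 1], [0, -7, -4, 14, 12, 1], [0, 3, -7, -14, 6, 11, 1]]],
    ![![[0, 3, 4, 1], [0, 4, 11, 8, 1], [0, 0, 1, 7, 7, 1]],
      ![[0, 4, 11, 8, 1], [0, -7, -4, 14, 12, 1], [0, 3, -7, -14, 6, 11, 1]],
      ![[0, 0, 1, 7, 7, 1], [0, 3, -7, -14, 6, 11, 1], [0, 1, 10, -1, -20, -1, 10, 1]]]]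

def gA : Fin 3 → Fin 3 → Fin 3 → List ℤ :=
  ![![![[1], [2, 1], [0, 1, 1]],
      ![[2, 1], [4, 4, 1], [0, 2, 3, 1]],
      ![[0, 1, 1], [0, 2, 3, 1], [0, 0, 1, 2, 1]]],
    ![![[2, 1], [4, 4, 1], [0, 2, 3, 1]],
      ![[4, 4, 1], [0, 5, 6, 1], [0, -3, 1, 5, 1]],
      ![[0, 2, 3, 1], [0, -3, 1, 5, 1], [0, 1, -4, -2, 4, 1]]],
    ![![[0, 1, 1], [0, 2, 3, 1], [0, 0, 1, 2, 1]],
      ![[0, 2, 3, 1], [0, -3, 1, 5, 1], [0, 1, -4, -2, 4, 1]],
      ![[0, 0, 1, 2, 1], [0, 1, -4, -2, 4, 1], [0, 1, 3, -4, -4, 3, 1]]]]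

section ring

variable {K K' : Type} [CommRing K] [CommRing K']

/-- evaluation of an integer polynomial -/
def hv (X : K) (l : List ℤ) : K := lev (fun n : ℤ => (n : K)) X l

theorem hv_nil (X : K) : hv X [] = 0 := rfl

theorem hv_cons (X : K) (c : ℤ) (l : List ℤ) : hv X (c :: l) = c + X * hv X l := rfl

theorem map_hv (φ : K →+* K') (X : K) : ∀ l, φ (hv X l) = hv (φ X) l
  | [] => by simp [hv_nil]
  | c :: l => by simp [hv_cons, map_hv φ X l]

def Up (X : K) : ℕ → K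
  | 0 => 0
  | n + 1 => n + X * Up X n

def Um (X' : K) : ℕ → K
  | 0 => 0
  | n + 1 => X' * (Um X' n + (n + 1))

def Uu (X X' : K) : ℤ → K
  | Int.ofNat n => Up X n
  | Int.negSucc n => Um X' (n + 1)

theorem Uu_zero (X X' : K) : Uu X X' 0 = 0 := rfl

theorem Uu_succ {X X' : K} (h : X * X' = 1) : ∀ a : ℤ, Uu X X' (a + 1) = a + X * Uu X X' a
  | Int.ofNat n => by
    change Up X (n + 1) = _
    simp [Up, Uu]
  | Int.negSucc 0 => by
    change Up X 0 = _
    simp only [Up, Uu, Um, Int.cast_negSucc]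
    push_cast
    linear_combination (-1 : K) * h
  | Int.negSucc (n + 1) => by
    change Um X' (n + 1) = _
    rw [Uu, Um.eq_2 X' (n + 1), Int.cast_negSucc]
    push_cast
    linear_combination (-(Um X' (n + 1) + (n + 1 + 1))) * h

theorem map_Uu (φ : K →+* K') (X X' : K) (a : ℤ) : φ (Uu X X' a) = Uu (φ X) (φ X') a := by
  have h1 : ∀ n, φ (Up X n) = Up (φ X) n := fun n => by
    induction n with
    | zero => simp [Up]
    | succ n ih => simp [Up, ih]
  have h2 : ∀ n, φ (Um X' n) = Um (φ X') n := fun n => by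
    induction n with
    | zero => simp [Um]
    | succ n ih => simp [Um, ih]
  cases a with
  | ofNat n => exact h1 n
  | negSucc n => exact h2 _

def PP (g : Fin 3 → Fin 3 → Fin 3 → List ℤ) (X a b c u v w : K) : K :=
  ∑ i, ∑ j, ∑ k, hv X (g i j k) * ![1, a, u] i * ![1, b, v] j * ![1, c, w] k

theorem map_PP (φ : K →+* K') (g : Fin 3 → Fin 3 → Fin 3 → List ℤ) (X a b c u v w : K) :
    φ (PP g X a b c u v w) = PP g (φ X) (φ a) (φ b) (φ c) (φ u) (φ v) (φ w) := by
  simp [PP, Fin.sum_univ_three, map_hv]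

def NN (N : Nm) (X a b c x y z : K) : K :=
  hv X N.r0 + (a + b + c) * hv X N.r1 + (a * b + a * c + b * c) * hv X N.r2
    + x * hv X N.s + y * hv X N.s + z * hv X N.s
    + (y * z * hv X N.t0 + a * (y * z * hv X N.t1))
    + (x * z * hv X N.t0 + b * (x * z * hv X N.t1))
    + (x * y * hv X N.t0 + c * (x * y * hv X N.t1))
    + x * y * z * hv X N.w

theorem map_NN (φ : K →+* K') (N : Nm) (X a b c x y z : K) :
    φ (NN N X a b c x y z) = NN N (φ X) (φ a) (φ b) (φ c) (φ x) (φ y) (φ z) := by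
  simp [NN, map_hv]

/-- the three diagonals -/
inductive Dg : (Fin 3 → Fin 3 → Fin 3 → List ℤ) → Nm → ℕ → Prop
  | C : Dg gC NC 0
  | B : Dg gB NB 1
  | A : Dg gA NA 2

variable {g : Fin 3 → Fin 3 → Fin 3 → List ℤ} {N : Nm} {d : ℕ}

theorem key (h : Dg g N d) (X a b c u v w : K) :
    (1 - X) ^ 4 * PP g X a b c u v w = NN N X a b c ((1 - X) ^ 2 * u + 1 - a * (1 - X))
      ((1 - X) ^ 2 * v + 1 - b * (1 - X)) ((1 - X) ^ 2 * w + 1 - c * (1 - X)) := by
  cases h <;>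
  · simp only [PP, NN, Fin.sum_univ_three, gA, gB, gC, NA, NB, NC, hv_cons, hv_nil,
      Matrix.cons_val_zero, Matrix.cons_val_one, Matrix.cons_val_two, Matrix.head_cons,
      Matrix.tail_cons]
    push_cast
    ring

end ring

section field

variable {K : Type} [Field K] {g : Fin 3 → Fin 3 → Fin 3 → List ℤ} {N : Nm} {d : ℕ}

theorem NN_mirror (h : Dg g N d) {X : K} (hX : X ≠ 0) (a b c x y z : K) :
    NN N X (-1 - a) (-1 - b) (-1 - c) (X⁻¹ * x) (X⁻¹ * y) (X⁻¹ * z) =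
      X⁻¹ ^ d * X ^ 4 * NN N X⁻¹ a b c x y z := by
  cases h <;>
  · simp only [NN, NA, NB, NC, hv_cons, hv_nil]
    push_cast
    field_simp
    ring

theorem NN_flype (h : Dg g N d) {X : K} (hX : X ≠ 0) (a b x y : K) :
    NN N X (a + 1) (b + 1) (-1) (x * X) (y * X) X⁻¹ = NN N X a b 0 x y 1 := by
  cases h <;>
  · simp only [NN, NA, NB, NC, hv_cons, hv_nil]
    push_cast
    field_simp
    ring

theorem NN_unknot (h : Dg g N d) {X : K} (hX : X ≠ 0) (b y : K) :
    NN N X (-1) b 0 X⁻¹ y 1 = (1 - X) ^ 4 * if d = 0 then 1 else 0 := by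
  cases h <;>
  · simp only [NN, NA, NB, NC, hv_cons, hv_nil]
    push_cast
    field_simp
    simp
    ring

end field

abbrev LL : Type := LaurentPolynomial ℤ

theorem T_mul_T : (T 1 : LL) * T (-1) = 1 := by rw [← T_add]; simp

def UL (a : ℤ) : LL := Uu (T 1) (T (-1)) a

theorem T_eq (a : ℤ) : (T a : LL) = (1 - T 1) ^ 2 * UL a + 1 - (a : LL) * (1 - T 1) := by
  induction a using Int.induction_on with
  | zero => simp [UL, Uu_zero]
  | succ n ih =>
    rw [T_add, ih, UL, UL, Uu_succ T_mul_T]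
    push_cast
    ring
  | pred n ih =>
    have h := Uu_succ T_mul_T (-(n : ℤ) - 1)
    rw [sub_add_cancel] at h
    rw [T_sub, ih, UL, UL, h]
    push_cast
    linear_combination ((1 - T 1) ^ 2 * Uu (T 1 : LL) (T (-1)) (-(n : ℤ) - 1) + 1 +
      ((n : LL) + 1) * (1 - T 1)) * T_mul_T

/-- a diagonal -/
def PL (g : Fin 3 → Fin 3 → Fin 3 → List ℤ) (a b c : ℤ) : LL :=
  PP g (T 1) a b c (UL a) (UL b) (UL c)

variable {g : Fin 3 → Fin 3 → Fin 3 → List ℤ} {N : Nm} {d : ℕ}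

theorem PL_key (h : Dg g N d) (a b c : ℤ) :
    (1 - T 1) ^ 4 * PL g a b c = NN N (T 1) a b c (T a) (T b) (T c) := by
  rw [PL, key h, ← T_eq, ← T_eq, ← T_eq]

def Phi (n : ℤ) : LL →ₗ[ℤ] ℤ :=
  (Finsupp.linearCombination ℤ fun k => T6 (n - k)) ∘ₗ
    (AddMonoidAlgebra.coeffLinearEquiv ℤ).toLinearMap

theorem Phi_T (n k : ℤ) : Phi n (T k) = T6 (n - k) := by
  simp only [Phi, T, LinearMap.comp_apply, LinearEquiv.coe_coe,
    AddMonoidAlgebra.coeffLinearEquiv_apply, AddMonoidAlgebra.coeff_single,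
    Finsupp.linearCombination_single, one_smul]

theorem Phi_int (n c : ℤ) (f : LL) : Phi n ((c : LL) * f) = c * Phi n f := by
  rw [← zsmul_eq_mul, map_zsmul, smul_eq_mul]

theorem Phi_hv (n : ℤ) : ∀ (l : List ℤ) (k : ℤ), Phi n (T k * hv (T 1) l) = ser l (n - k)
  | [], k => by simp [hv_nil, ser]
  | c :: l, k => by
    rw [hv_cons, mul_add, ← mul_assoc, ← T_add, map_add, Phi_hv n l, mul_comm, Phi_int, Phi_T, ser,
      sub_sub]

theorem T6_diff (y : ℤ) : T6 y - 4 * T6 (y - 1) + 6 * T6 (y - 2) - 4 * T6 (y - 3) + T6 (y - 4) =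
    if y = 0 then 6 else 0 := by
  rcases lt_trichotomy y 0 with h | rfl | h
  · rw [T6_neg (by omega), T6_neg (by omega), T6_neg (by omega), T6_neg (by omega),
      T6_neg (by omega), if_neg h.ne]
    rfl
  · decide
  · rw [T6_pos (by omega), T6_pos (by omega), T6_pos (by omega), T6_pos (by omega),
      T6_pos (by omega), if_neg h.ne']
    ring

theorem Phi_mul (n : ℤ) (f : LL) : Phi n ((1 - T 1) ^ 4 * f) = 6 * f.coeff n := by
  induction f using LaurentPolynomial.induction_on' with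
  | add p q hp hq => rw [mul_add, map_add, hp, hq]; simp [mul_add]
  | C_mul_T k a =>
    have h : (1 - T 1) ^ 4 * (C a * T k : LL) = (a : LL) * (T k * hv (T 1) [1, -4, 6, -4, 1]) := by
      simp only [hv_cons, hv_nil, eq_intCast]
      push_cast
      ring
    have h2 := T6_diff (n - k)
    rw [h, Phi_int, Phi_hv, ← single_eq_C_mul_T]
    simp only [ser, sub_sub, add_assoc, AddMonoidAlgebra.coeff_single, Finsupp.single_apply]
      at h2 ⊢
    norm_num at h2 ⊢
    by_cases hk : k = n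
    · rw [if_pos (by omega)] at h2
      rw [if_pos hk]
      linear_combination a * h2
    · rw [if_neg (by omega)] at h2
      rw [if_neg hk]
      linear_combination a * h2

theorem coeff_PL (h : Dg g N d) (a b c n : ℤ) : 6 * (PL g a b c).coeff n = al N a b c n := by
  have h0 : ∀ l, Phi n (hv (T 1) l) = ser l n := fun l => by simpa using Phi_hv n l 0
  have e1 : ((a : LL) + b + c) = ((a + b + c : ℤ) : LL) := by push_cast; rfl
  have e2 : ((a : LL) * b + a * c + b * c) = ((a * b + a * c + b * c : ℤ) : LL) := by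
    push_cast; rfl
  rw [← Phi_mul, PL_key h, NN, e1, e2]
  simp only [map_add, Phi_int, ← T_add, Phi_hv, h0, al, sub_sub]

theorem PL_eq (h : Dg g N d) {a b c : ℤ} {f : LL}
    (H : NN N (T 1) a b c (T a) (T b) (T c) = (1 - T 1) ^ 4 * f) : PL g a b c = f := by
  ext n
  have := Phi_mul n f
  rw [← H, ← PL_key h, Phi_mul] at this
  omega

theorem frac_T : algebraMap LL (FractionRing LL) (T 1) ≠ 0 ∧
    algebraMap LL (FractionRing LL) (T (-1)) = (algebraMap LL (FractionRing LL) (T 1))⁻¹ := by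
  have := congrArg (algebraMap LL (FractionRing LL)) T_mul_T
  rw [map_mul, map_one] at this
  exact ⟨left_ne_zero_of_mul_eq_one this, (inv_eq_of_mul_eq_one_right this).symm⟩

theorem PL_mirror (h : Dg g N d) (a b c n : ℤ) :
    (PL g (-1 - a) (-1 - b) (-1 - c)).coeff n = (PL g a b c).coeff (-n - d) := by
  have h1 : PL g (-1 - a) (-1 - b) (-1 - c) = invert (T d * PL g a b c) := by
    refine PL_eq h ?_
    have h2 := congrArg (invert (R := ℤ)).toRingEquiv.toRingHom (PL_key h a b c)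
    rw [map_NN] at h2
    simp only [RingEquiv.toRingHom_eq_coe, AlgEquiv.toRingEquiv_toRingHom, RingHom.coe_coe,
      map_mul, map_pow, map_sub, map_one, invert_T, map_intCast] at h2
    have h3 : ((1 : LL) - T 1) ^ 4 = T 1 ^ 4 * (1 - T (-1)) ^ 4 := by
      rw [← mul_pow, mul_sub, T_mul_T, mul_one, ← neg_sub, neg_pow]; norm_num
    have h4 : (T (-(d : ℤ)) : LL) = T (-1) ^ d := by rw [T_pow]; simp
    rw [map_mul, invert_T, h3, h4, mul_assoc, mul_left_comm ((1 - T (-1)) ^ 4), h2]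
    apply IsFractionRing.injective LL (FractionRing LL)
    simp only [T_sub, map_NN, map_mul, map_pow, map_intCast, frac_T.2]
    push_cast
    rw [NN_mirror h frac_T.1]
    ring
  rw [h1, invert_apply, T, AddMonoidAlgebra.coeff_single_mul_apply]
  simp only [one_mul]
  congr 1
  ring

theorem PL_flype (h : Dg g N d) (a b : ℤ) : PL g (a + 1) (b + 1) (-1) = PL g a b 0 := by
  refine PL_eq h ?_
  rw [PL_key h]
  apply IsFractionRing.injective LL (FractionRing LL)
  simp only [T_add, map_NN, map_mul, map_intCast, frac_T.2, T_zero, map_one]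
  push_cast
  exact NN_flype h frac_T.1 _ _ _ _

theorem PL_unknot (h : Dg g N d) (b : ℤ) : PL g (-1) b 0 = if d = 0 then 1 else 0 := by
  refine PL_eq h ?_
  apply IsFractionRing.injective LL (FractionRing LL)
  simp only [map_NN, map_mul, map_intCast, frac_T.2, T_zero, map_one, map_pow, map_sub]
  push_cast
  rw [NN_unknot h frac_T.1]
  split_ifs <;> simp

end Pool.Agent.P.MP_9ed2cf_gt
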