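import Pool.Agent.P.MP_9ed2cf_gt.Alg

/-! Evaluation of the invariant on pretzel diagrams. -/

set_option autoImplicit false

noncomputable section

namespace Pool.Agent.P.MP_9ed2cf_gt

variable {s0 s1 Y : ℂ}

section lists

variable {α : Type} {pre : List α} {i : ℕ}

theorem take_pre (h : pre.length = i) (l : List α) : (pre ++ l).take i = pre := by
  subst h; simp

theorem drop_pre (h : pre.length = i) (l : List α) : (pre ++ l).drop i = l := by
  subst h; simp

theorem drop_pre2 (h : pre.length = i) (a b : α) (l : List α) :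
    (pre ++ a :: b :: l).drop (i + 2) = l := by
  subst h; simp

theorem getD_pre (h : pre.length = i) (a z : α) (l : List α) : (pre ++ a :: l).getD i z = a := by
  subst h; simp

theorem getD_pre1 (h : pre.length = i) (a b z : α) (l : List α) :
    (pre ++ a :: b :: l).getD (i + 1) z = b := by
  subst h; simp

end lists

/-- the word `W` acts by the matrix `M` on the strands `i`, `i + 1` -/
def Acts (s0 s1 Y : ℂ) (W : List Move) (i : ℕ) (M : Mx) : Prop :=
  ∀ (k : List (Fin 4) → ℂ) (pre : List (Fin 4)) (a b : Fin 4) (post : List (Fin 4)),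
    pre.length = i → W.foldr (step s0 s1 Y) k (pre ++ a :: b :: post) =
      ∑ c, ∑ d, M (c, d) (a, b) * k (pre ++ c :: d :: post)

theorem sum4_comm (f : Fin 4 → Fin 4 → Fin 4 → Fin 4 → ℂ) :
    ∑ a, ∑ b, ∑ c, ∑ d, f a b c d = ∑ c, ∑ d, ∑ a, ∑ b, f a b c d := by
  have := Finset.sum_comm (s := Finset.univ) (t := Finset.univ)
    (f := fun (x y : Fin 4 × Fin 4) => f x.1 x.2 y.1 y.2)
  simpa only [Fintype.sum_prod_type] using this

theorem Acts.append {W W' : List Move} {i : ℕ} {M M' : Mx} (h : Acts s0 s1 Y W i M)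
    (h' : Acts s0 s1 Y W' i M') : Acts s0 s1 Y (W ++ W') i (M' * M) := by
  intro k pre a b post hp
  rw [List.foldr_append, h _ pre a b post hp]
  simp only [h' k pre _ _ post hp, Matrix.mul_apply, Fintype.sum_prod_type, Finset.mul_sum,
    Finset.sum_mul]
  rw [sum4_comm]
  iterate 4 refine Finset.sum_congr rfl fun _ _ => ?_
  ring

theorem Acts.nil (i : ℕ) : Acts s0 s1 Y [] i 1 := by
  intro k pre a b post _
  simp [Matrix.one_apply, ite_and]

theorem Acts.rep {W : List Move} {i : ℕ} {M : Mx} (h : Acts s0 s1 Y W i M) (n : ℕ) :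
    Acts s0 s1 Y (List.replicate n W).flatten i (M ^ n) := by
  induction n with
  | zero => simpa using Acts.nil i
  | succ n ih =>
    rw [List.replicate_succ, List.flatten_cons, pow_succ]
    exact h.append ih

/-- the matrix of a crossing -/
def XX (s0 s1 Y : ℂ) (pos : Bool) : Mx := if pos then Rmat s0 s1 Y else (Rmat s0 s1 Y)⁻¹

theorem step_cross (pos : Bool) (k : List (Fin 4) → ℂ) {pre : List (Fin 4)} {i : ℕ}
    (h : pre.length = i) (a b : Fin 4) (post : List (Fin 4)) :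
    step s0 s1 Y (.cross pos i) k (pre ++ a :: b :: post) =
      ∑ c, ∑ d, XX s0 s1 Y pos (c, d) (a, b) * k (pre ++ c :: d :: post) := by
  simp only [step, take_pre h, drop_pre2 h, getD_pre h, getD_pre1 h, XX]

theorem step_cupR (k : List (Fin 4) → ℂ) {pre : List (Fin 4)} {i : ℕ}
    (h : pre.length = i) (post : List (Fin 4)) :
    step s0 s1 Y (.cupR i) k (pre ++ post) = ∑ e, (mu s0 s1 e)⁻¹ * k (pre ++ e :: e :: post) := by
  simp only [step, take_pre h, drop_pre h]

theorem step_cupL (k : List (Fin 4) → ℂ) {pre : List (Fin 4)} {i : ℕ}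
    (h : pre.length = i) (post : List (Fin 4)) :
    step s0 s1 Y (.cupL i) k (pre ++ post) = ∑ e, k (pre ++ e :: e :: post) := by
  simp only [step, take_pre h, drop_pre h]

theorem step_capR (k : List (Fin 4) → ℂ) {pre : List (Fin 4)} {i : ℕ}
    (h : pre.length = i) (a b : Fin 4) (post : List (Fin 4)) :
    step s0 s1 Y (.capR i) k (pre ++ a :: b :: post) =
      if a = b then mu s0 s1 a * k (pre ++ post) else 0 := by
  simp only [step, take_pre h, drop_pre2 h, getD_pre h, getD_pre1 h]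

theorem step_capL (k : List (Fin 4) → ℂ) {pre : List (Fin 4)} {i : ℕ}
    (h : pre.length = i) (a b : Fin 4) (post : List (Fin 4)) :
    step s0 s1 Y (.capL i) k (pre ++ a :: b :: post) = if a = b then k (pre ++ post) else 0 := by
  simp only [step, take_pre h, drop_pre2 h, getD_pre h, getD_pre1 h]

theorem acts_twR (pos : Bool) (i : ℕ) : Acts s0 s1 Y (twR pos i) i (TR s0 s1 (XX s0 s1 Y pos)) := by
  intro k pre a b post hp
  simp only [twR, List.foldr_cons, List.foldr_nil]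
  rw [step_cupR _ hp]
  refine Finset.sum_congr rfl fun e _ => ?_
  have h1 : (pre ++ [e]).length = i + 1 := by simp [hp]
  rw [show pre ++ e :: e :: a :: b :: post = (pre ++ [e]) ++ e :: a :: b :: post by simp,
    step_cross _ _ h1, Finset.mul_sum]
  refine Finset.sum_congr rfl fun c _ => ?_
  have h2 : (pre ++ [e, c]).length = i + 2 := by simp [hp]
  have h3 : ∀ d, (pre ++ [e]) ++ c :: d :: b :: post = (pre ++ [e, c]) ++ d :: b :: post := by simp
  simp only [h3, step_capR _ h2, mul_ite, mul_zero, Finset.sum_ite_eq', Finset.mem_univ, if_true]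
  simp only [TR, List.append_assoc, List.cons_append, List.nil_append]
  ring

theorem acts_twL (pos : Bool) (i : ℕ) : Acts s0 s1 Y (twL pos i) i (TL (XX s0 s1 Y pos)) := by
  intro k pre a b post hp
  simp only [twL, List.foldr_cons, List.foldr_nil]
  have h2 : (pre ++ [a, b]).length = i + 2 := by simp [hp]
  have h1 : (pre ++ [a]).length = i + 1 := by simp [hp]
  rw [show pre ++ a :: b :: post = (pre ++ [a, b]) ++ post by simp, step_cupL _ h2,
    Finset.sum_comm]
  refine Finset.sum_congr rfl fun e _ => ?_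
  rw [show (pre ++ [a, b]) ++ e :: e :: post = (pre ++ [a]) ++ b :: e :: e :: post by simp,
    step_cross _ _ h1, Finset.sum_comm]
  refine Finset.sum_congr rfl fun d _ => ?_
  have h3 : ∀ c, (pre ++ [a]) ++ c :: d :: e :: post = pre ++ a :: c :: d :: e :: post := by simp
  simp only [h3, step_capL _ hp, mul_ite, mul_zero, Finset.sum_ite_eq, Finset.mem_univ, if_true,
    TL]

/-- the matrix of a column -/
def colM (s0 s1 Y : ℂ) (p : ℤ) : Mx :=
  (TR s0 s1 (XX s0 s1 Y (0 < p)) * TL (XX s0 s1 Y (0 < p))) ^ (p.natAbs / 2) *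
    TR s0 s1 (XX s0 s1 Y (0 < p))

theorem acts_column (p : ℤ) (i : ℕ) : Acts s0 s1 Y (column p i) i (colM s0 s1 Y p) :=
  (acts_twR _ i).append (((acts_twL _ i).append (acts_twR _ i)).rep _)

theorem LG_cl (p q r : ℤ) : LG s0 s1 Y (pretzel p q r) =
    cl s0 s1 (colM s0 s1 Y p) (colM s0 s1 Y q) (colM s0 s1 Y r) := by
  simp only [LG, pretzel, List.foldr_append]
  set k3 := List.foldr (step s0 s1 Y) (fun l => if l = [0] then 1 else 0)
    [Move.capR 1, Move.capR 1, Move.capL 0] with hk3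
  have e3 : ∀ c1 d1 c2 d2 c3 d3 e : Fin 4, k3 [c1, d1, c2, d2, c3, d3, e] =
      if d1 = c2 then if d2 = c3 then if c1 = d3 then if e = 0 then mu s0 s1 d1 * mu s0 s1 d2
        else 0 else 0 else 0 else 0 := by
    intro c1 d1 c2 d2 c3 d3 e
    simp only [hk3, List.foldr_cons, List.foldr_nil, step]
    simp
  set k2 := List.foldr (step s0 s1 Y) k3 (column r 4) with hk2
  have e2 : ∀ c1 d1 c2 d2 a b e : Fin 4, k2 [c1, d1, c2, d2, a, b, e] =
      if d1 = c2 then if e = 0 then colM s0 s1 Y r (d2, c1) (a, b) * (mu s0 s1 d1 * mu s0 s1 d2)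
        else 0 else 0 := by
    intro c1 d1 c2 d2 a b e
    have := acts_column (s0 := s0) (s1 := s1) (Y := Y) r 4 k3 [c1, d1, c2, d2] a b [e] rfl
    simp only [List.cons_append, List.nil_append, e3] at this
    rw [hk2, this]
    split_ifs <;> simp
  set k1 := List.foldr (step s0 s1 Y) k2 (column q 2) with hk1
  have e1 : ∀ c1 d1 a' b' a b e : Fin 4, k1 [c1, d1, a', b', a, b, e] =
      if e = 0 then ∑ d2, colM s0 s1 Y q (d1, d2) (a', b') *
        (colM s0 s1 Y r (d2, c1) (a, b) * (mu s0 s1 d1 * mu s0 s1 d2)) else 0 := by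
    intro c1 d1 a' b' a b e
    have := acts_column (s0 := s0) (s1 := s1) (Y := Y) q 2 k2 [c1, d1] a' b' [a, b, e] rfl
    simp only [List.cons_append, List.nil_append, e2] at this
    rw [hk1, this, Finset.sum_comm]
    split_ifs <;> simp
  set k0 := List.foldr (step s0 s1 Y) k1 (column p 0) with hk0
  have e0 : ∀ a'' b'' a' b' a b e : Fin 4, k0 [a'', b'', a', b', a, b, e] =
      if e = 0 then ∑ c1, ∑ d1, ∑ d2, colM s0 s1 Y p (c1, d1) (a'', b'') *
        (colM s0 s1 Y q (d1, d2) (a', b') *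
        (colM s0 s1 Y r (d2, c1) (a, b) * (mu s0 s1 d1 * mu s0 s1 d2))) else 0 := by
    intro a'' b'' a' b' a b e
    have := acts_column (s0 := s0) (s1 := s1) (Y := Y) p 0 k1 [] a'' b'' [a', b', a, b, e] rfl
    simp only [List.nil_append, e1] at this
    rw [hk0, this]
    split_ifs <;> simp [Finset.mul_sum]
  simp only [List.foldr_cons, List.foldr_nil, step]
  simp only [List.take_succ_cons, List.take_zero, List.drop_succ_cons, List.drop_zero,
    List.cons_append, List.nil_append, e0, mul_ite, mul_zero, Finset.sum_ite_eq', Finset.mem_univ,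
    if_true, cl, Finset.mul_sum]
  iterate 5 refine Finset.sum_congr rfl fun _ _ => ?_
  ring

theorem Par.colM_eq (h : Par s0 s1 Y) (a : ℤ) : colM s0 s1 Y (2 * a + 1) =
    ∑ i, ![1, (a : ℂ), Uu (s0 ^ 2 * s1 ^ 2) (s0 ^ 2 * s1 ^ 2)⁻¹ a] i • Par.BB s0 s1 Y i := by
  set D := TR s0 s1 (Rmat s0 s1 Y) * TL (Rmat s0 s1 Y) with hD
  set F : ℤ → Mx := fun a =>
    ∑ i, ![1, (a : ℂ), Uu (s0 ^ 2 * s1 ^ 2) (s0 ^ 2 * s1 ^ 2)⁻¹ a] i • Par.BB s0 s1 Y i with hF
  have hs : ∀ a, F (a + 1) = D * F a := fun a => by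
    simp only [hF, hD, h.D_BB, Uu_succ (mul_inv_cancel₀ h.q_ne), Int.cast_add, Int.cast_one,
      add_comm (1 : ℂ)]
  have h0 : F 0 = TR s0 s1 (Rmat s0 s1 Y) := by
    simp [hF, Fin.sum_univ_three, Uu_zero, h.BB0]
  have hi : TR s0 s1 (Rmat s0 s1 Y)⁻¹ * TL (Rmat s0 s1 Y)⁻¹ * D = 1 := by
    rw [hD, mul_assoc, ← mul_assoc (TL _), h.inv1, one_mul, h.inv2]
  have hp : ∀ n : ℕ, F n = D ^ n * TR s0 s1 (Rmat s0 s1 Y) := fun n => by
    induction n with
    | zero => simpa using h0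
    | succ n ih => rw [Nat.cast_succ, hs, ih, pow_succ', mul_assoc D]
  have hb : ∀ a, F a = TR s0 s1 (Rmat s0 s1 Y)⁻¹ * TL (Rmat s0 s1 Y)⁻¹ * F (a + 1) := fun a => by
    rw [hs, ← mul_assoc, hi, one_mul]
  have hn : ∀ n : ℕ, F (-1 - n) = (TR s0 s1 (Rmat s0 s1 Y)⁻¹ * TL (Rmat s0 s1 Y)⁻¹) ^ n *
      TR s0 s1 (Rmat s0 s1 Y)⁻¹ := fun n => by
    induction n with
    | zero =>
      rw [hb, show (-1 - ((0 : ℕ) : ℤ) + 1) = 0 by simp, h0, mul_assoc, h.inv1]
      simp
    | succ n ih =>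
      rw [hb, show (-1 - ((n + 1 : ℕ) : ℤ) + 1) = -1 - n by push_cast; ring, ih, pow_succ',
        mul_assoc _ _ (TR _ _ _)]
  change _ = F a
  rcases le_or_gt 0 a with ha | ha
  · obtain ⟨n, rfl⟩ := Int.eq_ofNat_of_zero_le ha
    rw [hp, colM, decide_eq_true (by omega), show (2 * (n : ℤ) + 1).natAbs / 2 = n by omega]
    rfl
  · obtain ⟨n, rfl⟩ : ∃ n : ℕ, a = -1 - n := ⟨(-1 - a).toNat, by omega⟩
    rw [hn, colM, decide_eq_false (by omega),
      show (2 * (-1 - (n : ℤ)) + 1).natAbs / 2 = n by omega]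
    rfl

theorem Par.LG_eq (h : Par s0 s1 Y) (a b c : ℤ) :
    let q := s0 ^ 2 * s1 ^ 2
    LG s0 s1 Y (pretzel (2 * a + 1) (2 * b + 1) (2 * c + 1)) =
      PP gC q a b c (Uu q q⁻¹ a) (Uu q q⁻¹ b) (Uu q q⁻¹ c) -
      (s0 ^ 2 + s1 ^ 2) * PP gB q a b c (Uu q q⁻¹ a) (Uu q q⁻¹ b) (Uu q q⁻¹ c) +
      (s0 ^ 4 + s1 ^ 4) * PP gA q a b c (Uu q q⁻¹ a) (Uu q q⁻¹ b) (Uu q q⁻¹ c) := by
  intro q
  rw [LG_cl, h.colM_eq, h.colM_eq, h.colM_eq]
  rw [cl_lin1]
  simp only [cl_lin2]
  simp only [cl_lin3, h.cl_BB, PP, Finset.mul_sum, ← Finset.sum_add_distrib,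
    ← Finset.sum_sub_distrib]
  iterate 3 refine Finset.sum_congr rfl fun _ _ => ?_
  ring

end Pool.Agent.P.MP_9ed2cf_gt
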