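import Pool.Agent.P.MP_9ed2cf_gt.Kron

/-! A verified checker for piecewise polynomial inequalities. -/

set_option autoImplicit false
set_option exponentiation.threshold 30000
set_option maxRecDepth 10000

namespace Pool.Agent.P.MP_9ed2cf_gt

/-- six times the coefficient of `X ^ y` in `1 / (1 - X) ^ 4` -/
def T6 (y : ℤ) : ℤ := if 0 ≤ y then (y + 1) * (y + 2) * (y + 3) else 0

def ser : List ℤ → ℤ → ℤ
  | [], _ => 0
  | c :: l, y => c * T6 y + ser l (y - 1)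

/-- numerators of the decomposition into fractions -/
structure Nm where
  r0 : List ℤ
  r1 : List ℤ
  r2 : List ℤ
  s : List ℤ
  t0 : List ℤ
  t1 : List ℤ
  w : List ℤ

def al (N : Nm) (a b c n : ℤ) : ℤ :=
  ser N.r0 n + (a + b + c) * ser N.r1 n + (a * b + a * c + b * c) * ser N.r2 n
    + ser N.s (n - a) + ser N.s (n - b) + ser N.s (n - c)
    + (ser N.t0 (n - b - c) + a * ser N.t1 (n - b - c))
    + (ser N.t0 (n - a - c) + b * ser N.t1 (n - a - c))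
    + (ser N.t0 (n - a - b) + c * ser N.t1 (n - a - b))
    + ser N.w (n - a - b - c)

def NC : Nm := ⟨[1, -8, -16, 16, 7], [2, 0, -24, 16, 6], [4, 8, -24, 8, 4], [0, 2, 10, 10, 2],
  [0, 0, -8, -22, -16, -2], [0, 2, 8, 0, -8, -2], [0, 0, 8, 28, 28, 8]⟩

def NB : Nm := ⟨[1, -13, -1, 13], [4, -12, -4, 12], [8, -8, -8, 8], [0, 4, 8, 4],
  [0, -1, -11, -15, -5], [0, 4, 4, -4, -4], [0, 1, 12, 22, 12, 1]⟩

def NA : Nm := ⟨[1, -8, 7], [2, -8, 6], [4, -8, 4], [0, 2, 2],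
  [0, -1, -4, -3], [0, 2, 0, -2], [0, 1, 5, 5, 1]⟩

/-- affine forms in four variables -/
structure Fm where
  c0 : ℤ
  c1 : ℤ
  c2 : ℤ
  c3 : ℤ
  k : ℤ

/-- points -/
structure Pt where
  x0 : ℤ
  x1 : ℤ
  x2 : ℤ
  x3 : ℤ

def Pt.NN (x : Pt) : Prop := 0 ≤ x.x0 ∧ 0 ≤ x.x1 ∧ 0 ≤ x.x2 ∧ 0 ≤ x.x3

namespace Fm

def ev (f : Fm) (x : Pt) : ℤ := f.c0 * x.x0 + f.c1 * x.x1 + f.c2 * x.x2 + f.c3 * x.x3 + f.k

def sub (f g : Fm) : Fm := ⟨f.c0 - g.c0, f.c1 - g.c1, f.c2 - g.c2, f.c3 - g.c3, f.k - g.k⟩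

def add (f g : Fm) : Fm := ⟨f.c0 + g.c0, f.c1 + g.c1, f.c2 + g.c2, f.c3 + g.c3, f.k + g.k⟩

def up (f : Fm) : Bool :=
  intAr.nn f.c0 && intAr.nn f.c1 && intAr.nn f.c2 && intAr.nn f.c3

def dn (f : Fm) : Bool :=
  intAr.nn (-f.c0) && intAr.nn (-f.c1) && intAr.nn (-f.c2) && intAr.nn (-f.c3)

theorem ev_sub (f g : Fm) (x : Pt) : (f.sub g).ev x = f.ev x - g.ev x := by
  simp only [sub, ev]; ring

theorem ev_add (f g : Fm) (x : Pt) : (f.add g).ev x = f.ev x + g.ev x := by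
  simp only [add, ev]; ring

theorem le_ev {f : Fm} {x : Pt} (hx : x.NN) (h : f.up = true) : f.k ≤ f.ev x := by
  simp only [up, Bool.and_eq_true] at h
  obtain ⟨⟨⟨h0, h1⟩, h2⟩, h3⟩ := h
  have := mul_nonneg (nn_int _ h0) hx.1
  have := mul_nonneg (nn_int _ h1) hx.2.1
  have := mul_nonneg (nn_int _ h2) hx.2.2.1
  have := mul_nonneg (nn_int _ h3) hx.2.2.2
  simp only [ev]; linarith

theorem ev_le {f : Fm} {x : Pt} (hx : x.NN) (h : f.dn = true) : f.ev x ≤ f.k := by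
  simp only [dn, Bool.and_eq_true] at h
  obtain ⟨⟨⟨h0, h1⟩, h2⟩, h3⟩ := h
  have := mul_nonneg (nn_int _ h0) hx.1
  have := mul_nonneg (nn_int _ h1) hx.2.1
  have := mul_nonneg (nn_int _ h2) hx.2.2.1
  have := mul_nonneg (nn_int _ h3) hx.2.2.2
  simp only [ev]; linarith

/-- set a variable to zero -/
def z0 (f : Fm) : ℕ → Fm
  | 0 => ⟨0, f.c1, f.c2, f.c3, f.k⟩
  | 1 => ⟨f.c0, 0, f.c2, f.c3, f.k⟩
  | 2 => ⟨f.c0, f.c1, 0, f.c3, f.k⟩
  | _ => ⟨f.c0, f.c1, f.c2, 0, f.k⟩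

def co (f : Fm) : ℕ → ℤ
  | 0 => f.c0
  | 1 => f.c1
  | 2 => f.c2
  | _ => f.c3

/-- add `v` to a coefficient -/
def inc (f : Fm) (v : ℤ) : ℕ → Fm
  | 0 => ⟨f.c0 + v, f.c1, f.c2, f.c3, f.k⟩
  | 1 => ⟨f.c0, f.c1 + v, f.c2, f.c3, f.k⟩
  | 2 => ⟨f.c0, f.c1, f.c2 + v, f.c3, f.k⟩
  | _ => ⟨f.c0, f.c1, f.c2, f.c3 + v, f.k⟩

def sh (f : Fm) (v : ℤ) : Fm := ⟨f.c0, f.c1, f.c2, f.c3, f.k + v⟩

/-- `x i := x i + 1` -/
def z1 (f : Fm) (i : ℕ) : Fm := f.sh (f.co i)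

/-- `x i := x i + x j` -/
def ge (f : Fm) (i j : ℕ) : Fm := f.inc (f.co i) j

/-- `x j := x j + x i + 1` -/
def lt (f : Fm) (i j : ℕ) : Fm := (f.inc (f.co j) i).sh (f.co j)

end Fm

namespace Pt

def co (x : Pt) : ℕ → ℤ
  | 0 => x.x0
  | 1 => x.x1
  | 2 => x.x2
  | _ => x.x3

/-- subtract `v` from a coordinate -/
def dec (x : Pt) (v : ℤ) : ℕ → Pt
  | 0 => ⟨x.x0 - v, x.x1, x.x2, x.x3⟩
  | 1 => ⟨x.x0, x.x1 - v, x.x2, x.x3⟩
  | 2 => ⟨x.x0, x.x1, x.x2 - v, x.x3⟩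
  | _ => ⟨x.x0, x.x1, x.x2, x.x3 - v⟩

theorem co_nn {x : Pt} (hx : x.NN) (i : ℕ) : 0 ≤ x.co i := by
  obtain ⟨h0, h1, h2, h3⟩ := hx
  rcases i with _ | _ | _ | i <;> simpa [co]

theorem dec_nn {x : Pt} (hx : x.NN) {v : ℤ} {i : ℕ} (h : v ≤ x.co i) : (x.dec v i).NN := by
  obtain ⟨h0, h1, h2, h3⟩ := hx
  rcases i with _ | _ | _ | i <;> simp only [co] at h <;> refine ⟨?_, ?_, ?_, ?_⟩ <;>
    simp only [dec] <;> omega

end Pt

theorem ev_z0 (f : Fm) {x : Pt} {i : ℕ} (h : x.co i = 0) : (f.z0 i).ev x = f.ev x := by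
  rcases i with _ | _ | _ | i <;> simp only [Pt.co] at h <;> simp [Fm.z0, Fm.ev, h]

theorem ev_z1 (f : Fm) (x : Pt) (i : ℕ) : (f.z1 i).ev (x.dec 1 i) = f.ev x := by
  rcases i with _ | _ | _ | i <;> simp only [Fm.z1, Fm.sh, Fm.co, Fm.ev, Pt.dec] <;> ring

theorem ev_ge (f : Fm) (x : Pt) {i j : ℕ} (h : i ≠ j) (hi : i < 4) (hj : j < 4) :
    (f.ge i j).ev (x.dec (x.co j) i) = f.ev x ∧ (f.lt i j).ev (x.dec (x.co i + 1) j) = f.ev x := by
  interval_cases i <;> interval_cases j <;> first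
    | exact absurd rfl h
    | (constructor <;> simp only [Fm.ge, Fm.lt, Fm.inc, Fm.sh, Fm.co, Fm.ev, Pt.dec, Pt.co] <;> ring)

/-- the four quantities `a, b, c, n` -/
structure St where
  a : Fm
  b : Fm
  c : Fm
  n : Fm

def St.map (s : St) (h : Fm → Fm) : St := ⟨h s.a, h s.b, h s.c, h s.n⟩

/-- case distinctions -/
inductive Tr : Type
  | L : Tr
  | z : ℕ → Tr → Tr → Tr
  | c : ℕ → ℕ → Tr → Tr → Tr

def chk (lf : St → Bool) : Tr → St → Bool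
  | .L, s => lf s
  | .z i l r, s => chk lf l (s.map fun f => f.z0 i) && chk lf r (s.map fun f => f.z1 i)
  | .c i j l r, s => !(Nat.beq i j) && Nat.blt i 4 && Nat.blt j 4 && chk lf l (s.map fun f => f.ge i j) &&
      chk lf r (s.map fun f => f.lt i j)

def St.Holds (s : St) (P : ℤ → ℤ → ℤ → ℤ → Prop) : Prop :=
  ∀ x : Pt, x.NN → P (s.a.ev x) (s.b.ev x) (s.c.ev x) (s.n.ev x)

theorem chk_sound {lf : St → Bool} {P : ℤ → ℤ → ℤ → ℤ → Prop}
    (h : ∀ s, lf s = true → s.Holds P) : ∀ (t : Tr) (s : St), chk lf t s = true → s.Holds P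
  | .L, s, H => h s H
  | .z i l r, s, H => by
    simp only [chk, Bool.and_eq_true] at H
    intro x hx
    rcases (Pt.co_nn hx i).eq_or_lt with h0 | h0
    · have := chk_sound h l _ H.1 x hx
      simpa only [St.map, ev_z0 _ h0.symm] using this
    · have := chk_sound h r _ H.2 _ (Pt.dec_nn hx (v := 1) (i := i) (by omega))
      simpa only [St.map, ev_z1] using this
  | .c i j l r, s, H => by
    simp only [chk, Bool.and_eq_true, Nat.blt_eq] at H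
    obtain ⟨⟨⟨⟨h1, h2⟩, h2'⟩, h3⟩, h4⟩ := H
    replace h1 : i ≠ j := fun e => by simp [e] at h1
    intro x hx
    rcases le_or_gt (x.co j) (x.co i) with h0 | h0
    · have := chk_sound h l _ h3 _ (Pt.dec_nn hx h0)
      simpa only [St.map, (ev_ge _ x h1 h2 h2').1] using this
    · have := chk_sound h r _ h4 _ (Pt.dec_nn hx (v := x.co i + 1) (i := j) (by omega))
      simpa only [St.map, (ev_ge _ x h1 h2 h2').2] using this

/-! polynomials in four variables -/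

abbrev R4 : Type := List (List (List (List ℤ)))

def evR (x : Pt) : R4 → ℤ := lev (lev (lev (lev (fun n : ℤ => (n : ℤ)) x.x3) x.x2) x.x1) x.x0

def S4 : Kd R4 where
  A := lift (lift (lift (lift intAr)))
  N := liftNr (liftNr (liftNr (liftNr intNr)))
  ev := lev (lev (lev (lev (fun n : ℤ => ((n : ℤ) : ℤ)) (2 ^ ((79 + 1) * (0 + 1))))
    (2 ^ ((79 + 1) * (6 + 1)))) (2 ^ ((79 + 1) * (48 + 1)))) (2 ^ ((79 + 1) * (342 + 1)))
  D := 6
  w := 79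
  t := 2400
  good := good_lift (good_lift (good_lift (good_lift (good_int ℤ) _) _) _) _
  ok := nrOk_lift (nrOk_lift (nrOk_lift (nrOk_lift nrOk_int)))
  dec := dec_lift (t := 342) (dec_lift (t := 48) (dec_lift (t := 6) (dec_lift (dec_int 6 79))))

abbrev P4 : Type := KP S4

def A4 : Ar P4 := kAr S4

def ev4 (x : Pt) (p : P4) : ℤ := evR x p.p

theorem good4 (x : Pt) : Good A4 (ev4 x) :=
  good_k S4 (good_lift (good_lift (good_lift (good_lift (good_int ℤ) _) _) _) _)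

theorem nn4 {x : Pt} (hx : x.NN) (p : P4) (h : A4.nn p = true) : 0 ≤ ev4 x p :=
  nn_lift (nn_lift (nn_lift (nn_lift nn_int hx.2.2.2) hx.2.2.1) hx.2.1) hx.1 p.p (nn_k S4 p h)

theorem pow2 (n : ℕ) : (2 : ℤ) ^ n = Int.ofNat (Nat.pow 2 n) := (Int.natCast_pow 2 n).symm

def X0 : P4 := ⟨[[], [[[1]]]], Int.ofNat (Nat.pow 2 ((79 + 1) * (342 + 1))), 1, 1,
  by rw [← pow2]; simp only [S4, lev, mul_zero, add_zero, zero_add, mul_one],
  by simp [S4, liftNr, intNr], by simp [S4, liftNr, intNr]⟩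

def X1 : P4 := ⟨[[[], [[1]]]], Int.ofNat (Nat.pow 2 ((79 + 1) * (48 + 1))), 1, 1,
  by rw [← pow2]; simp only [S4, lev, mul_zero, add_zero, zero_add, mul_one],
  by simp [S4, liftNr, intNr], by simp [S4, liftNr, intNr]⟩

def X2 : P4 := ⟨[[[[], [1]]]], Int.ofNat (Nat.pow 2 ((79 + 1) * (6 + 1))), 1, 1,
  by rw [← pow2]; simp only [S4, lev, mul_zero, add_zero, zero_add, mul_one],
  by simp [S4, liftNr, intNr], by simp [S4, liftNr, intNr]⟩

def X3 : P4 := ⟨[[[[0, 1]]]], Int.ofNat (Nat.pow 2 ((79 + 1) * (0 + 1))), 1, 1,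
  by rw [← pow2]; simp only [S4, lev, mul_zero, add_zero, zero_add, mul_one],
  by simp [S4, liftNr, intNr], by simp [S4, liftNr, intNr]⟩

def sca (c : ℤ) (p q : P4) : P4 := cond (intAr.isZ c) q (A4.add (A4.sc c p) q)

theorem ev_sca (x : Pt) (c : ℤ) (p q : P4) : ev4 x (sca c p q) = c * ev4 x p + ev4 x q := by
  cases hz : intAr.isZ c
  · simp [sca, hz, (good4 x).add, (good4 x).sc]
  · have : c = 0 := (good_int ℤ).isZ c hz
    simp only [sca, hz, cond_true]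
    simp [this]

def Fm.poly (f : Fm) : P4 :=
  sca f.c0 X0 (sca f.c1 X1 (sca f.c2 X2 (sca f.c3 X3 (A4.ofInt f.k))))

theorem ev_poly (f : Fm) (x : Pt) : ev4 x f.poly = f.ev x := by
  simp only [Fm.poly, ev_sca, (good4 x).ofInt, Fm.ev]
  have e0 : ev4 x X0 = x.x0 := by change evR x [[], [[[1]]]] = _; simp [evR, lev]
  have e1 : ev4 x X1 = x.x1 := by change evR x [[[], [[1]]]] = _; simp [evR, lev]
  have e2 : ev4 x X2 = x.x2 := by change evR x [[[[], [1]]]] = _; simp [evR, lev]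
  have e3 : ev4 x X3 = x.x3 := by change evR x [[[[0, 1]]]] = _; simp [evR, lev]
  simp only [e0, e1, e2, e3, Int.cast_id, add_assoc]

/-- a form with its powers -/
structure Pw where
  up : Bool
  dn : Bool
  k : ℤ
  p1 : P4
  p2 : P4
  p3 : P4

def Fm.pw (f : Fm) : Pw :=
  let p := f.poly
  let p2 := A4.mul p p
  ⟨f.up, f.dn, f.k, p, p2, A4.mul p p2⟩

structure Pw.Ok (w : Pw) (x : Pt) (y : ℤ) : Prop where
  up : w.up = true → w.k ≤ y
  dn : w.dn = true → y ≤ w.k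
  p1 : ev4 x w.p1 = y
  p2 : ev4 x w.p2 = y ^ 2
  p3 : ev4 x w.p3 = y ^ 3

theorem pw_ok (f : Fm) {x : Pt} (hx : x.NN) : f.pw.Ok x (f.ev x) where
  up := Fm.le_ev hx
  dn := Fm.ev_le hx
  p1 := ev_poly f x
  p2 := by simp only [Fm.pw, (good4 x).mul, ev_poly]; ring
  p3 := by simp only [Fm.pw, (good4 x).mul, ev_poly]; ring

/-- cubic coefficients with a validity flag -/
structure Cu where
  ok : Bool
  c0 : ℤ
  c1 : ℤ
  c2 : ℤ
  c3 : ℤ

def serC (w : Pw) : List ℤ → ℤ → Cu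
  | [], _ => ⟨true, 0, 0, 0, 0⟩
  | c :: l, s =>
    let r := serC w l (s - 1)
    cond (intAr.isZ c || (w.dn && intAr.nn (-1 - (w.k + s)))) r
      ⟨r.ok && w.up && intAr.nn (w.k + s + 3), r.c0 + c * ((s + 1) * (s + 2) * (s + 3)),
        r.c1 + c * (3 * s * s + 12 * s + 11), r.c2 + c * (3 * s + 6), r.c3 + c⟩

theorem T6_neg {y : ℤ} (h : y ≤ -1) : T6 y = 0 := if_neg (by omega)

theorem T6_pos {y : ℤ} (h : -3 ≤ y) : T6 y = (y + 1) * (y + 2) * (y + 3) := by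
  unfold T6
  split_ifs with h0
  · rfl
  · have : y = -1 ∨ y = -2 ∨ y = -3 := by omega
    rcases this with rfl | rfl | rfl <;> rfl

theorem serC_ok {w : Pw} {x : Pt} {y : ℤ} (h : w.Ok x y) : ∀ (l : List ℤ) (s : ℤ),
    (serC w l s).ok = true → ser l (y + s) =
      (serC w l s).c0 + (serC w l s).c1 * y + (serC w l s).c2 * y ^ 2 + (serC w l s).c3 * y ^ 3
  | [], s, _ => by simp [ser, serC]
  | c :: l, s, H => by
    have ih := serC_ok h l (s - 1)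
    rw [← add_sub_assoc] at ih
    cases hz : (intAr.isZ c || (w.dn && intAr.nn (-1 - (w.k + s))))
    · simp only [serC, hz, cond_false, Bool.and_eq_true] at H ⊢
      have h1 := h.up H.1.2
      have h2 := nn_int _ H.2
      rw [ser, ih H.1.1, T6_pos (by omega)]
      ring
    · simp only [serC, hz, cond_true] at H ⊢
      rw [ser, ih H]
      simp only [Bool.or_eq_true, Bool.and_eq_true] at hz
      rcases hz with hz | hz
      · have : c = 0 := (good_int ℤ).isZ c hz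
        simp [this]
      · have h1 := h.dn hz.1
        have h2 := nn_int _ hz.2
        rw [T6_neg (by omega)]
        simp

def Cu.poly (r : Cu) (w : Pw) : P4 :=
  sca r.c3 w.p3 (sca r.c2 w.p2 (sca r.c1 w.p1 (A4.ofInt r.c0)))

theorem ev_cu {w : Pw} {x : Pt} {y : ℤ} (h : w.Ok x y) (l : List ℤ) (s : ℤ)
    (H : (serC w l s).ok = true) : ev4 x ((serC w l s).poly w) = ser l (y + s) := by
  rw [serC_ok h l s H]
  simp only [Cu.poly, ev_sca, h.p1, h.p2, h.p3, (good4 x).ofInt, Int.cast_id]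
  ring

/-- the data shared by all evaluations at a leaf -/
structure Dat where
  a : P4
  b : P4
  c : P4
  e1 : P4
  e2 : P4
  w0 : Pw
  wa : Pw
  wb : Pw
  wc : Pw
  wbc : Pw
  wac : Pw
  wab : Pw
  wabc : Pw

def St.dat (s : St) : Dat :=
  let a := s.a.poly
  let b := s.b.poly
  let c := s.c.poly
  let na := s.n.sub s.a
  let nb := s.n.sub s.b
  ⟨a, b, c, ((s.a.add s.b).add s.c).poly, A4.add (A4.mul a (s.b.add s.c).poly) (A4.mul b c),
    s.n.pw, na.pw, nb.pw, (s.n.sub s.c).pw, (nb.sub s.c).pw, (na.sub s.c).pw, (na.sub s.b).pw,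
    ((na.sub s.b).sub s.c).pw⟩

def alOk (D : Dat) (N : Nm) (s : ℤ) : Bool :=
  (serC D.w0 N.r0 s).ok && (serC D.w0 N.r1 s).ok && (serC D.w0 N.r2 s).ok &&
  (serC D.wa N.s s).ok && (serC D.wb N.s s).ok && (serC D.wc N.s s).ok &&
  (serC D.wbc N.t0 s).ok && (serC D.wbc N.t1 s).ok &&
  (serC D.wac N.t0 s).ok && (serC D.wac N.t1 s).ok &&
  (serC D.wab N.t0 s).ok && (serC D.wab N.t1 s).ok && (serC D.wabc N.w s).ok

def alP (D : Dat) (N : Nm) (s : ℤ) : P4 :=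
  A4.add ((serC D.w0 N.r0 s).poly D.w0) <|
  A4.add (A4.mul ((serC D.w0 N.r1 s).poly D.w0) D.e1) <|
  A4.add (A4.mul ((serC D.w0 N.r2 s).poly D.w0) D.e2) <|
  A4.add ((serC D.wa N.s s).poly D.wa) <|
  A4.add ((serC D.wb N.s s).poly D.wb) <|
  A4.add ((serC D.wc N.s s).poly D.wc) <|
  A4.add ((serC D.wbc N.t0 s).poly D.wbc) <|
  A4.add (A4.mul ((serC D.wbc N.t1 s).poly D.wbc) D.a) <|
  A4.add ((serC D.wac N.t0 s).poly D.wac) <|
  A4.add (A4.mul ((serC D.wac N.t1 s).poly D.wac) D.b) <|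
  A4.add ((serC D.wab N.t0 s).poly D.wab) <|
  A4.add (A4.mul ((serC D.wab N.t1 s).poly D.wab) D.c) ((serC D.wabc N.w s).poly D.wabc)

theorem ev_alP (s : St) {x : Pt} (hx : x.NN) (N : Nm) (k : ℤ) (H : alOk s.dat N k = true) :
    ev4 x (alP s.dat N k) = al N (s.a.ev x) (s.b.ev x) (s.c.ev x) (s.n.ev x + k) := by
  simp only [alOk, Bool.and_eq_true, St.dat] at H
  obtain ⟨⟨⟨⟨⟨⟨⟨⟨⟨⟨⟨⟨h1, h2⟩, h3⟩, h4⟩, h5⟩, h6⟩, h7⟩, h8⟩, h9⟩, h10⟩, h11⟩, h12⟩, h13⟩ := H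
  simp only [alP, St.dat, (good4 x).add, (good4 x).mul, ev_poly, ev_cu (pw_ok _ hx) _ _ h1,
    ev_cu (pw_ok _ hx) _ _ h2, ev_cu (pw_ok _ hx) _ _ h3, ev_cu (pw_ok _ hx) _ _ h4,
    ev_cu (pw_ok _ hx) _ _ h5, ev_cu (pw_ok _ hx) _ _ h6, ev_cu (pw_ok _ hx) _ _ h7,
    ev_cu (pw_ok _ hx) _ _ h8, ev_cu (pw_ok _ hx) _ _ h9, ev_cu (pw_ok _ hx) _ _ h10,
    ev_cu (pw_ok _ hx) _ _ h11, ev_cu (pw_ok _ hx) _ _ h12, ev_cu (pw_ok _ hx) _ _ h13,
    Fm.ev_sub, Fm.ev_add, al, sub_add_eq_add_sub]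
  ring

/-- leaf test for a quadratic inequality -/
def lfQ (N1 N2 N3 N4 : Nm) (k1 k2 k3 k4 : ℤ) (s : St) : Bool :=
  let D := s.dat
  alOk D N1 k1 && alOk D N2 k2 && alOk D N3 k3 && alOk D N4 k4 &&
    A4.nn (A4.add (A4.mul (alP D N3 k3) (alP D N4 k4))
      (A4.mul (A4.sc (-1) (alP D N1 k1)) (alP D N2 k2)))

theorem lfQ_sound (N1 N2 N3 N4 : Nm) (k1 k2 k3 k4 : ℤ) (s : St)
    (H : lfQ N1 N2 N3 N4 k1 k2 k3 k4 s = true) : s.Holds fun a b c n =>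
      al N1 a b c (n + k1) * al N2 a b c (n + k2) ≤ al N3 a b c (n + k3) * al N4 a b c (n + k4) := by
  simp only [lfQ, Bool.and_eq_true] at H
  obtain ⟨⟨⟨⟨h1, h2⟩, h3⟩, h4⟩, h5⟩ := H
  intro x hx
  have := nn4 hx _ h5
  simp only [(good4 x).add, (good4 x).mul, (good4 x).sc, ev_alP s hx _ _ h1, ev_alP s hx _ _ h2,
    ev_alP s hx _ _ h3, ev_alP s hx _ _ h4] at this
  push_cast at this
  linarith

/-- leaf test: zero beyond `a + b * u + c + k`, positive up to there -/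
def lfS (N : Nm) (u k : ℤ) (s : St) : Bool :=
  let D := s.dat
  let h : Fm := (((s.n.sub s.b).sub s.c).sub ⟨u * s.a.c0, u * s.a.c1, u * s.a.c2, u * s.a.c3,
    u * s.a.k + k⟩)
  alOk D N 0 && cond (h.up && intAr.nn (h.k - 1)) (A4.isZ (alP D N 0))
    (h.dn && intAr.nn (-h.k) && A4.nn (A4.add (alP D N 0) (A4.ofInt (-1))))

theorem lfS_sound (N : Nm) (u k : ℤ) (s : St) (H : lfS N u k s = true) : s.Holds fun a b c n =>
    (u * a + b + c + k < n ∧ al N a b c n = 0) ∨ (n ≤ u * a + b + c + k ∧ 0 < al N a b c n) := by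
  intro x hx
  simp only [lfS, Bool.and_eq_true] at H
  obtain ⟨h1, h2⟩ := H
  have e := ev_alP s hx _ _ h1
  rw [add_zero] at e
  set h : Fm := (((s.n.sub s.b).sub s.c).sub ⟨u * s.a.c0, u * s.a.c1, u * s.a.c2, u * s.a.c3,
    u * s.a.k + k⟩) with hh
  have e2 : h.ev x = s.n.ev x - (u * s.a.ev x + s.b.ev x + s.c.ev x + k) := by
    simp only [hh, Fm.ev_sub]
    simp only [Fm.ev]
    ring
  cases hz : (h.up && intAr.nn (h.k - 1))
  · simp only [hz, cond_false, Bool.and_eq_true] at h2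
    have h3 := Fm.ev_le hx h2.1.1
    have h4 := nn_int _ h2.1.2
    have h5 := nn4 hx _ h2.2
    rw [(good4 x).add, (good4 x).ofInt, e] at h5
    push_cast at h5
    right
    constructor <;> omega
  · simp only [hz, cond_true] at h2
    simp only [Bool.and_eq_true] at hz
    have h3 := Fm.le_ev hx hz.1
    have h4 := nn_int _ hz.2
    have h5 := (good4 x).isZ _ h2
    left
    exact ⟨by omega, e ▸ h5⟩

def sP : St := ⟨⟨1, 0, 0, 0, 0⟩, ⟨1, 1, 0, 0, 0⟩, ⟨1, 1, 1, 0, 0⟩, ⟨0, 0, 0, 1, 0⟩⟩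

def sD : St := ⟨⟨-1, 0, 0, 0, -2⟩, ⟨0, 1, 0, 0, 0⟩, ⟨0, 0, 0, 0, 0⟩, ⟨-1, 0, 0, 1, -1⟩⟩

end Pool.Agent.P.MP_9ed2cf_gt
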