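import Mathlib

set_option autoImplicit false

namespace Pool.Agent.P.MP_9ed2cf_gt.H14

/-- signed Laurent monomials in five variables -/
structure Mono where
  neg : Bool
  e0 : ℤ
  e1 : ℤ
  er : ℤ
  ex : ℤ
  ey : ℤ
deriving DecidableEq

structure Env (A : Type) [CommRing A] where
  s0 : Aˣ
  s1 : Aˣ
  r : Aˣ
  lx : Aˣ
  ly : Aˣ

namespace Mono

def one : Mono := ⟨false, 0, 0, 0, 0, 0⟩
def mul (a b : Mono) : Mono :=
  ⟨xor a.neg b.neg, a.e0 + b.e0, a.e1 + b.e1, a.er + b.er, a.ex + b.ex, a.ey + b.ey⟩
def zp (a : Mono) (k : ℤ) : Mono :=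
  ⟨a.neg && decide (k % 2 = 1), k * a.e0, k * a.e1, k * a.er, k * a.ex, k * a.ey⟩
def sub (g : Mono × Mono) (m : Mono) : Mono :=
  ((⟨m.neg, m.e0, m.e1, m.er, 0, 0⟩ : Mono).mul (g.1.zp m.ex)).mul (g.2.zp m.ey)
def flip (a : Mono) : Mono := ⟨!a.neg, a.e0, a.e1, a.er, a.ex, a.ey⟩
def abs (a : Mono) : Mono := ⟨false, a.e0, a.e1, a.er, a.ex, a.ey⟩

end Mono

variable {A : Type} [CommRing A]

def evU (E : Env A) (m : Mono) : Aˣ :=
  (if m.neg then -1 else 1) * (E.s0 ^ m.e0 * E.s1 ^ m.e1 * E.r ^ m.er * E.lx ^ m.ex * E.ly ^ m.ey)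

def Env.upd (E : Env A) (g : Mono × Mono) : Env A := ⟨E.s0, E.s1, E.r, evU E g.1, evU E g.2⟩

theorem evU_one (E : Env A) : evU E Mono.one = 1 := by simp [evU, Mono.one]

theorem evU_mul (E : Env A) (a b : Mono) : evU E (a.mul b) = evU E a * evU E b := by
  rcases a with ⟨n, a0, a1, ar, ax, ay⟩
  rcases b with ⟨n', b0, b1, br, bx, by'⟩
  cases n <;> cases n' <;> simp [evU, Mono.mul, zpow_add] <;> ac_rfl

theorem evU_zp (E : Env A) (a : Mono) (k : ℤ) : evU E (a.zp k) = evU E a ^ k := by
  rcases a with ⟨n, a0, a1, ar, ax, ay⟩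
  have h : ((if (n && decide (k % 2 = 1)) = true then -1 else 1 : Aˣ)) =
      (if n = true then -1 else 1 : Aˣ) ^ k := by
    cases n
    · simp
    · simp only [Bool.true_and, decide_eq_true_eq, if_true, neg_one_zpow_eq_ite]
      rcases Int.emod_two_eq_zero_or_one k with h | h
      · rw [if_neg (by omega), if_pos (Int.even_iff.2 h)]
      · rw [if_pos h, if_neg (by rw [Int.even_iff]; omega)]
  simp only [evU, Mono.zp, h, mul_zpow, ← zpow_mul, mul_comm k]

theorem evU_sub (E : Env A) (g : Mono × Mono) (m : Mono) :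
    evU (E.upd g) m = evU E (Mono.sub g m) := by
  rw [Mono.sub, evU_mul, evU_mul, evU_zp, evU_zp]
  simp [evU, Env.upd, mul_assoc]

theorem evU_flip (E : Env A) (a : Mono) : evU E a.flip = - evU E a := by
  rcases a with ⟨n, a0, a1, ar, ax, ay⟩
  cases n <;> simp [evU, Mono.flip]

theorem evU_abs (E : Env A) (a : Mono) :
    (evU E a : A) = (((if a.neg then -1 else 1 : ℤ)) : A) * (evU E a.abs : A) := by
  rcases a with ⟨n, a0, a1, ar, ax, ay⟩
  cases n <;> simp [evU, Mono.abs]

def gsub (g h : Mono × Mono) : Mono × Mono := (Mono.sub g h.1, Mono.sub g h.2)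

theorem upd_upd (E : Env A) (g h : Mono × Mono) : (E.upd g).upd h = E.upd (gsub g h) := by
  have h1 := evU_sub E g h.1
  have h2 := evU_sub E g h.2
  simp only [Env.upd, gsub] at *
  rw [h1, h2]

def gid : Mono × Mono := (⟨false, 0, 0, 0, 1, 0⟩, ⟨false, 0, 0, 0, 0, 1⟩)

theorem upd_gid (E : Env A) : E.upd gid = E := by
  cases E; simp [Env.upd, gid, evU]

/-- value of a polynomial given as a list of monomials -/
def evP (E : Env A) (p : List Mono) : A := (p.map fun m => (evU E m : A)).sum

@[simp] theorem evP_nil (E : Env A) : evP E [] = 0 := rfl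
theorem evP_cons (E : Env A) (m : Mono) (p : List Mono) :
    evP E (m :: p) = (evU E m : A) + evP E p := by simp [evP]

def psub (g : Mono × Mono) (p : List Mono) : List Mono := p.map (Mono.sub g)

theorem evP_sub (E : Env A) (g : Mono × Mono) (p : List Mono) :
    evP (E.upd g) p = evP E (psub g p) := by
  simp [evP, psub, evU_sub, Function.comp_def]

abbrev Face := Bool × Bool

section LC

variable {κ : Type}

/-- value of a formal linear combination -/
def val (E : Env A) (Z : κ → A) (L : List (κ × Mono)) : A :=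
  (L.map fun x => (evU E x.2 : A) * Z x.1).sum

@[simp] theorem val_nil (E : Env A) (Z : κ → A) : val E Z [] = 0 := rfl

theorem val_cons (E : Env A) (Z : κ → A) (x : κ × Mono) (L : List (κ × Mono)) :
    val E Z (x :: L) = (evU E x.2 : A) * Z x.1 + val E Z L := by simp [val]

theorem val_append (E : Env A) (Z : κ → A) (L L' : List (κ × Mono)) :
    val E Z (L ++ L') = val E Z L + val E Z L' := by simp [val]

def scale (m : Mono) (L : List (κ × Mono)) : List (κ × Mono) := L.map fun x => (x.1, m.mul x.2)

theorem val_scale (E : Env A) (Z : κ → A) (m : Mono) (L : List (κ × Mono)) :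
    val E Z (scale m L) = (evU E m : A) * val E Z L := by
  induction L with
  | nil => simp [scale]
  | cons x L ih =>
    have : scale m (x :: L) = (x.1, m.mul x.2) :: scale m L := rfl
    rw [this, val_cons, val_cons, ih, evU_mul]; push_cast; ring

def pscale : List Mono → List (κ × Mono) → List (κ × Mono)
  | [], _ => []
  | m :: p, L => scale m L ++ pscale p L

theorem val_pscale (E : Env A) (Z : κ → A) (p : List Mono) (L : List (κ × Mono)) :
    val E Z (pscale p L) = evP E p * val E Z L := by
  induction p with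
  | nil => simp [pscale]
  | cons m p ih => rw [pscale, val_append, val_scale, ih, evP_cons]; ring

def single (k : κ) : List (κ × Mono) := [(k, Mono.one)]

theorem val_single (E : Env A) (Z : κ → A) (k : κ) : val E Z (single k) = Z k := by
  simp [single, val, evU_one]

def sumF (f : Face → List (κ × Mono)) : List (κ × Mono) :=
  f (false, false) ++ (f (false, true) ++ (f (true, false) ++ f (true, true)))

theorem val_sumF (E : Env A) (Z : κ → A) (f : Face → List (κ × Mono)) :
    val E Z (sumF f) = ∑ e : Face, val E Z (f e) := by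
  simp only [sumF, val_append, Fintype.sum_prod_type, Fintype.sum_bool]; ring

def sum4 (f : Fin 4 → List (κ × Mono)) : List (κ × Mono) := f 0 ++ (f 1 ++ (f 2 ++ f 3))

theorem val_sum4 (E : Env A) (Z : κ → A) (f : Fin 4 → List (κ × Mono)) :
    val E Z (sum4 f) = ∑ a : Fin 4, val E Z (f a) := by
  simp only [sum4, val_append, Fin.sum_univ_four]; ring

def negL (L : List (κ × Mono)) : List (κ × Mono) := L.map fun x => (x.1, x.2.flip)

theorem val_negL (E : Env A) (Z : κ → A) (L : List (κ × Mono)) :
    val E Z (negL L) = - val E Z L := by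
  induction L with
  | nil => simp [negL]
  | cons x L ih =>
    have : negL (x :: L) = (x.1, x.2.flip) :: negL L := rfl
    rw [this, val_cons, val_cons, ih, evU_flip]; push_cast; ring

variable [DecidableEq κ]

def ins (k : κ × Mono) (c : ℤ) : List ((κ × Mono) × ℤ) → List ((κ × Mono) × ℤ)
  | [] => [(k, c)]
  | y :: N => if k = y.1 then (if c + y.2 = 0 then N else (k, c + y.2) :: N) else y :: ins k c N

def valN (E : Env A) (Z : κ → A) (N : List ((κ × Mono) × ℤ)) : A :=
  (N.map fun y => (y.2 : A) * ((evU E y.1.2 : A) * Z y.1.1)).sum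

theorem valN_ins (E : Env A) (Z : κ → A) (k : κ × Mono) (c : ℤ) (N : List ((κ × Mono) × ℤ)) :
    valN E Z (ins k c N) = (c : A) * ((evU E k.2 : A) * Z k.1) + valN E Z N := by
  induction N with
  | nil => simp [ins, valN]
  | cons y N ih =>
    unfold ins
    split_ifs with h h2
    · subst h
      have : ((c : A) + (y.2 : A)) = 0 := by exact_mod_cast congrArg (Int.cast : ℤ → A) h2
      simp only [valN, List.map_cons, List.sum_cons]
      linear_combination (-((evU E y.1.2 : A) * Z y.1.1)) * this
    · subst h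
      simp only [valN, List.map_cons, List.sum_cons]; push_cast; ring
    · simp only [valN, List.map_cons, List.sum_cons] at ih ⊢
      rw [ih]; ring

def nf : List (κ × Mono) → List ((κ × Mono) × ℤ)
  | [] => []
  | x :: L => ins (x.1, x.2.abs) (if x.2.neg then -1 else 1) (nf L)

theorem valN_nf (E : Env A) (Z : κ → A) (L : List (κ × Mono)) : valN E Z (nf L) = val E Z L := by
  induction L with
  | nil => simp [nf, valN]
  | cons x L ih => rw [nf, valN_ins, ih, val_cons, evU_abs E x.2]; ring

def chk (L : List (κ × Mono)) : Bool := (nf L).isEmpty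

theorem val_of_chk (E : Env A) (Z : κ → A) (L : List (κ × Mono)) (h : chk L = true) :
    val E Z L = 0 := by
  rw [← valN_nf]
  have : nf L = [] := by simpa [chk] using h
  simp [this, valN]

end LC

end Pool.Agent.P.MP_9ed2cf_gt.H14
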