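import Mathlib
import Pool.Agent.P.MP_9ed2cf_gt.H14Defs
import Pool.Agent.P.MP_9ed2cf_gt.H14Mono

set_option autoImplicit false

namespace Pool.Agent.P.MP_9ed2cf_gt.H14

/-! The face model: two independent systems of markers (Kauffman states). -/

def okM (m : Fin 4) (L B R : Bool) : Bool :=
  match m.val with
  | 0 => !B
  | 1 => B && !R
  | 2 => B
  | _ => B && !L
def outL (m : Fin 4) (L : Bool) : Bool := L || decide (m.val = 3)
def outT (m : Fin 4) : Bool := decide (m.val = 2)
def outR (m : Fin 4) (R : Bool) : Bool := R || decide (m.val = 1)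
/-- the marker is adjacent to the incoming left arm (corners bottom, left) -/
def adjL (m : Fin 4) : Bool := decide (m.val = 0) || decide (m.val = 3)
/-- the marker is adjacent to the incoming right arm (corners bottom, right) -/
def adjR (m : Fin 4) : Bool := decide (m.val = 0) || decide (m.val = 1)
def io (pos : Bool) (m : Fin 4) : Bool := if pos then adjL m else adjR m
def iu (pos : Bool) (m : Fin 4) : Bool := if pos then adjR m else adjL m

def ff : Face := (false, false)
def tt : Face := (true, true)
def orF (a b : Face) : Face := (a.1 || b.1, a.2 || b.2)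
def clash (a b : Face) : Bool := (a.1 && b.1) || (a.2 && b.2)

section Face

variable {S : Type} [CommSemiring S]

def fcross (K : Bool → Bool → Bool → S) (pos : Bool) (L B R : Face) (X : Face → Face → Face → S) :
    S :=
  ∑ mx : Fin 4, ∑ my : Fin 4,
    (if okM mx L.1 B.1 R.1 && okM my L.2 B.2 R.2 then K pos (io pos mx) (iu pos my) else 0) *
      X (outL mx L.1, outL my L.2) (outT mx, outT my) (outR mx R.1, outR my R.2)

def fcup (s : Face) (X : Face → Face → Face → S) : S :=
  ∑ z : Face, (if clash s z then 0 else 1) * X (orF s (!z.1, !z.2)) ff (orF s z)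

def fcap (L B R : Face) (X : Face → S) : S :=
  (if decide (B = tt) && !clash L R then 1 else 0) * X (orF L R)

def fstep (K : Bool → Bool → Bool → S) : Slice → (List Face → S) → List Face → S
  | .cross i pos, G, t => fcross K pos (t.getD i ff) (t.getD (i + 1) ff) (t.getD (i + 2) ff)
      fun a b c => G (t.take i ++ a :: b :: c :: t.drop (i + 3))
  | .cup i _, G, t => fcup (t.getD i ff) fun a b c => G (t.take i ++ a :: b :: c :: t.drop (i + 1))
  | .cap i _, G, t => fcap (t.getD i ff) (t.getD (i + 1) ff) (t.getD (i + 2) ff)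
      fun a => G (t.take i ++ a :: t.drop (i + 3))

def frun (K : Bool → Bool → Bool → S) (G : List Face → S) : List Slice → List Face → S
  | [], t => G t
  | s :: D, t => fstep K s (frun K G D) t

def Slice.shift : Slice → Slice
  | .cross i pos => .cross (i + 1) pos
  | .cup i d => .cup (i + 1) d
  | .cap i d => .cap (i + 1) d

theorem fstep_shift (K : Bool → Bool → Bool → S) (s : Slice) (G : List Face → S) (a : Face)
    (t : List Face) : fstep K s.shift G (a :: t) = fstep K s (fun t => G (a :: t)) t := by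
  cases s <;> simp [fstep, Slice.shift]

theorem map_fstep {S' : Type} [CommSemiring S'] (φ : S →+* S') (c : S')
    (K : Bool → Bool → Bool → S) (s : Slice) (G : List Face → S) (t : List Face) :
    fstep (fun a b e => φ (K a b e)) s (fun t => c * φ (G t)) t = c * φ (fstep K s G t) := by
  cases s with
  | cross i pos =>
    simp only [fstep, fcross, map_sum, map_mul, Finset.mul_sum, apply_ite φ, map_zero]
    refine Finset.sum_congr rfl fun _ _ => Finset.sum_congr rfl fun _ _ => ?_
    ring
  | cup i d =>
    simp only [fstep, fcup, map_sum, map_mul, Finset.mul_sum, apply_ite φ, map_zero, map_one]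
    refine Finset.sum_congr rfl fun _ _ => ?_
    ring
  | cap i d =>
    simp only [fstep, fcap, map_mul, apply_ite φ, map_zero, map_one]
    ring

theorem map_frun {S' : Type} [CommSemiring S'] (φ : S →+* S') (c : S')
    (K : Bool → Bool → Bool → S) (G : List Face → S) (D : List Slice) (t : List Face) :
    frun (fun a b e => φ (K a b e)) (fun t => c * φ (G t)) D t = c * φ (frun K G D t) := by
  induction D generalizing t with
  | nil => rfl
  | cons s D ih =>
    have : frun (fun a b e => φ (K a b e)) (fun t => c * φ (G t)) D =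
        fun t => c * φ (frun K G D t) := funext ih
    rw [frun, frun, this, map_fstep]

end Face

/-! The vertex-face intertwiner. -/

def nUp (a : Fin 4) : Face :=
  (decide (a.val = 2) || decide (a.val = 3), decide (a.val = 1) || decide (a.val = 3))

def rem (d : Bool) (a : Fin 4) (l : Face) : Face :=
  ((if d then (nUp a).1 else !(nUp a).1) && !l.1, (if d then (nUp a).2 else !(nUp a).2) && !l.2)

def Wp (d : Bool) (a : Fin 4) (l : Face) : List Mono :=
  match d, a.val, l.1, l.2 with
  | true, 0, false, false => [⟨false, 0, 0, 0, 0, 0⟩]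
  | true, 1, false, false => [⟨false, 0, 0, 0, 0, 0⟩]
  | true, 1, false, true => [⟨true, 1, 0, 0, 0, 0⟩]
  | true, 2, false, false => [⟨false, 0, 0, 0, 0, 0⟩]
  | true, 2, true, false => [⟨true, 1, 0, 0, 0, 0⟩]
  | true, 3, false, false => [⟨true, 0, 1, 1, 0, 0⟩]
  | true, 3, true, false => [⟨true, 0, 0, 1, 0, 0⟩]
  | true, 3, false, true => [⟨false, 1, 1, 1, 0, 0⟩]
  | true, 3, true, true => [⟨false, 1, 0, 1, 0, 0⟩]
  | false, 0, false, false => [⟨true, 0, 0, 0, -1, -1⟩]
  | false, 0, false, true => [⟨true, -1, 0, 0, -1, -1⟩]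
  | false, 0, true, false => [⟨true, -1, 0, 0, -1, -1⟩]
  | false, 0, true, true => [⟨true, -2, 0, 0, -1, -1⟩]
  | false, 1, false, false => [⟨true, 0, 1, 0, -1, -1⟩]
  | false, 1, true, false => [⟨false, 0, 2, 0, -1, -1⟩]
  | false, 2, false, false => [⟨false, -1, 0, 0, -1, -1⟩]
  | false, 2, false, true => [⟨false, -2, 0, 0, -1, -1⟩]
  | false, 3, false, false => [⟨false, 0, 1, -1, -1, -1⟩]
  | _, _, _, _ => []

def Fg (d β : Bool) (a : Fin 4) : Mono × Mono :=
  (if (nUp a).2 then ⟨β, 0, if d then 1 else -1, 0, 1, 0⟩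
    else ⟨!β, if d then -1 else 1, 0, 0, 1, 0⟩,
   ⟨β, if d then 1 else -1, 0, 0, 0, 1⟩)

def cmp (b l : Face) : List Mono :=
  if clash b l then []
  else [⟨false, 0, 0, 0, if (orF b l).1 then 1 else 0, if (orF b l).2 then 1 else 0⟩]

variable {A : Type} [CommRing A]

def Psi : List (Bool × Bool) → Env A → Face → List (Fin 4) → (List Face → A) → A
  | [], _, l, _, G => if l = ff then G [] else 0
  | x :: q, E, l, u, G => evP E (Wp x.1 (u.headD 0) l) *
      ∑ l' : Face, evP (E.upd (Fg x.1 x.2 (u.headD 0))) (cmp (rem x.1 (u.headD 0) l) l') *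
        Psi q (E.upd (Fg x.1 x.2 (u.headD 0))) l' u.tail
          fun t => G (orF (rem x.1 (u.headD 0) l) l' :: t)

def Phi (q : List (Bool × Bool)) (E : Env A) (b : Face) (u : List (Fin 4)) (G : List Face → A) :
    A :=
  ∑ l : Face, evP E (cmp b l) * Psi q E l u fun t => G (orF b l :: t)

theorem Phi_cons (x : Bool × Bool) (q : List (Bool × Bool)) (E : Env A) (b : Face) (a : Fin 4)
    (u : List (Fin 4)) (G : List Face → A) :
    Phi (x :: q) E b (a :: u) G = ∑ l : Face, evP E (cmp b l) * (evP E (Wp x.1 a l) *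
      Phi q (E.upd (Fg x.1 x.2 a)) (rem x.1 a l) u fun t => G (orF b l :: t)) := rfl

theorem Psi_sum {ι : Type} [Fintype ι] (c : ι → A) (q : List (Bool × Bool)) :
    ∀ (E : Env A) (l : Face) (u : List (Fin 4)) (H : ι → List Face → A),
      Psi q E l u (fun t => ∑ i, c i * H i t) = ∑ i, c i * Psi q E l u (H i) := by
  induction q with
  | nil =>
    intro E l u H
    simp only [Psi]
    split_ifs <;> simp
  | cons x q ih =>
    intro E l u H
    simp only [Psi, ih, Finset.mul_sum]
    rw [Finset.sum_comm]
    refine Finset.sum_congr rfl fun _ _ => Finset.sum_congr rfl fun _ _ => ?_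
    ring

theorem Psi_mul (c : A) (q : List (Bool × Bool)) (E : Env A) (l : Face) (u : List (Fin 4))
    (H : List Face → A) : Psi q E l u (fun t => c * H t) = c * Psi q E l u H := by
  have := Psi_sum (ι := Unit) (fun _ => c) q E l u (fun _ => H)
  simpa using this

theorem Psi_sum2 (c : Fin 4 → Fin 4 → A) (q : List (Bool × Bool)) (E : Env A) (l : Face)
    (u : List (Fin 4)) (H : Fin 4 → Fin 4 → List Face → A) :
    Psi q E l u (fun t => ∑ i, ∑ j, c i j * H i j t) = ∑ i, ∑ j, c i j * Psi q E l u (H i j) := by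
  have := Psi_sum (ι := Fin 4 × Fin 4) (fun x => c x.1 x.2) q E l u (fun x => H x.1 x.2)
  simpa only [Fintype.sum_prod_type] using this

/-! Reflection of two sites of the intertwiner. -/

def phi2 {κ : Type} (x0 x1 : Bool × Bool) (b : Face) (c e : Fin 4)
    (cont : Mono × Mono → Face → Face → Face → Face → List (κ × Mono)) : List (κ × Mono) :=
  sumF fun e0 => pscale (cmp b e0) (pscale (Wp x0.1 c e0)
    (sumF fun e1 => pscale (psub (Fg x0.1 x0.2 c) (cmp (rem x0.1 c e0) e1))
      (pscale (psub (Fg x0.1 x0.2 c) (Wp x1.1 e e1))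
        (sumF fun l => pscale
          (psub (gsub (Fg x0.1 x0.2 c) (Fg x1.1 x1.2 e)) (cmp (rem x1.1 e e1) l))
          (cont (gsub (Fg x0.1 x0.2 c) (Fg x1.1 x1.2 e)) l (orF b e0) (orF (rem x0.1 c e0) e1)
            (orF (rem x1.1 e e1) l))))))

theorem phi2_val {κ : Type} (x0 x1 : Bool × Bool) (q : List (Bool × Bool)) (E : Env A) (b : Face)
    (c e : Fin 4) (u : List (Fin 4)) (G : List Face → A) (Z : κ → A)
    (cont : Mono × Mono → Face → Face → Face → Face → List (κ × Mono))
    (h : ∀ g l s1 s2 s3, val E Z (cont g l s1 s2 s3) =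
      Psi q (E.upd g) l u fun t => G (s1 :: s2 :: s3 :: t)) :
    Phi (x0 :: x1 :: q) E b (c :: e :: u) G = val E Z (phi2 x0 x1 b c e cont) := by
  simp only [Phi_cons, phi2, val_sumF, val_pscale, h, ← evP_sub, upd_upd]
  rfl

def phi0 {κ : Type} (b : Face) (cont : Face → Face → List (κ × Mono)) : List (κ × Mono) :=
  sumF fun l => pscale (cmp b l) (cont l (orF b l))

theorem phi0_val {κ : Type} (q : List (Bool × Bool)) (E : Env A) (b : Face)
    (u : List (Fin 4)) (G : List Face → A) (Z : κ → A) (cont : Face → Face → List (κ × Mono))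
    (h : ∀ l s, val E Z (cont l s) = Psi q (E.upd gid) l u fun t => G (s :: t)) :
    Phi q E b u G = val E Z (phi0 b cont) := by
  simp only [phi0, val_sumF, val_pscale, h, upd_gid]
  rfl

end Pool.Agent.P.MP_9ed2cf_gt.H14
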