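import Mathlib
import Pool.Agent.P.MP_9ed2cf_gt.H14Chk

set_option autoImplicit false

namespace Pool.Agent.P.MP_9ed2cf_gt.H14

variable {A : Type} [CommRing A]

def Good (E : Env A) (Y : Aˣ) : Prop :=
  (Y : A) = E.r * (1 - (E.s1 : A) ^ 2) ∧ (Y : A) = ((E.r⁻¹ : Aˣ) : A) * ((E.s0 : A) ^ 2 - 1)

theorem Rmat_eq (E : Env A) (Y : Aˣ) (h : Good E Y) (o i : Fin 4 × Fin 4) :
    Rmat (E.s0 : A) E.s1 Y o i = evP E (Rp o i) := by
  obtain ⟨h1, h2⟩ := h
  have h3 : (Y : A) ^ 2 = ((E.s0 : A) ^ 2 - 1) * (1 - (E.s1 : A) ^ 2) := by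
    have hr : ((E.r⁻¹ : Aˣ) : A) * E.r = 1 := Units.inv_mul _
    rw [sq]; nth_rewrite 1 [h1]; nth_rewrite 1 [h2]
    linear_combination (((E.s0 : A) ^ 2 - 1) * (1 - (E.s1 : A) ^ 2)) * hr
  rcases o with ⟨a, b⟩
  rcases i with ⟨c, d⟩
  fin_cases a <;> fin_cases b <;> fin_cases c <;> fin_cases d <;>
    first
    | (simp [Rmat, Rdiag, Rswap, Rext, Rp, evP, evU, zpow_ofNat]; done)
    | (simp [Rmat, Rdiag, Rswap, Rext, Rp, evP, evU, zpow_ofNat]; ring1)
    | (simp [Rmat, Rdiag, Rswap, Rext, Rp, evP, evU, zpow_ofNat]; linear_combination h3)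
    | (simp [Rmat, Rdiag, Rswap, Rext, Rp, evP, evU, zpow_ofNat]; linear_combination h1)
    | (simp [Rmat, Rdiag, Rswap, Rext, Rp, evP, evU, zpow_ofNat]; linear_combination h2)
    | (simp [Rmat, Rdiag, Rswap, Rext, Rp, evP, evU, zpow_ofNat]
       linear_combination (-((E.s0 : A) * E.s1)) * h1)
    | (simp [Rmat, Rdiag, Rswap, Rext, Rp, evP, evU, zpow_ofNat]
       linear_combination (-((E.s0 : A) * E.s1)) * h2)

theorem Rinv_eq (E : Env A) (Y : Aˣ) (h : Good E Y) (o i : Fin 4 × Fin 4) :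
    (Rmat (E.s0 : A) E.s1 Y)⁻¹ o i = evP E (Rq o i) := by
  have : (Rmat (E.s0 : A) E.s1 Y)⁻¹ = Matrix.of fun o i => evP E (Rq o i) := by
    apply Matrix.inv_eq_right_inv
    ext o i
    have hc := val_of_chk E (fun _ => (1 : A)) _ (inv_chk o i)
    rw [invL, val_append] at hc
    simp only [val_sum4, val_pscale, val_single, mul_one] at hc
    rw [Matrix.mul_apply, Fintype.sum_prod_type]
    simp only [Rmat_eq E Y h, Matrix.of_apply, Matrix.one_apply]
    split_ifs at hc ⊢ with hoi
    · rw [val_negL, val_single] at hc; linear_combination hc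
    · simpa using hc
  rw [this]; rfl

theorem Rpq_eq (E : Env A) (Y : Aˣ) (h : Good E Y) (pos : Bool) (o i : Fin 4 × Fin 4) :
    (if pos then Rmat (E.s0 : A) E.s1 Y else (Rmat (E.s0 : A) E.s1 Y)⁻¹) o i =
      evP E (Rpq pos o i) := by
  cases pos
  · simpa [Rpq] using Rinv_eq E Y h o i
  · simpa [Rpq] using Rmat_eq E Y h o i

theorem mu_eq (E : Env A) (a : Fin 4) : mu E.s0 E.s1 a = evU E (muM a) := by
  fin_cases a <;> simp [mu, muM, evU, zpow_ofNat]

theorem muI_eq (E : Env A) (a : Fin 4) : (mu E.s0 E.s1 a)⁻¹ = evU E (muI a) := by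
  rw [muI, evU_zp, mu_eq, zpow_neg_one]

/-- the weights of the face model -/
def KA (s0 s1 : Aˣ) (pos a b : Bool) : A := (evU ⟨s0, s1, 1, 1, 1⟩ (Km pos a b) : A)

theorem KA_eq (E : Env A) (pos a b : Bool) : KA E.s0 E.s1 pos a b = evU E (Km pos a b) := by
  cases pos <;> cases a <;> cases b <;> simp [KA, Km, evU, Mono.one]

theorem evP_ite (E : Env A) (c : Bool) (m : Mono) :
    evP E (if c then [m] else []) = if c then (evU E m : A) else 0 := by
  cases c <;> simp [evP]

theorem evP_ite' (E : Env A) (c : Bool) (m : Mono) :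
    evP E (if c then [] else [m]) = if c then 0 else (evU E m : A) := by
  cases c <;> simp [evP]

theorem cross_loc (E : Env A) (Y : Aˣ) (h : Good E Y) (pos : Bool) (q : List (Bool × Bool))
    (b : Face) (a0 a1 : Fin 4) (u : List (Fin 4)) (G : List Face → A) :
    ∑ c : Fin 4, ∑ e : Fin 4,
      (if pos then Rmat (E.s0 : A) E.s1 Y else (Rmat (E.s0 : A) E.s1 Y)⁻¹) (c, e) (a0, a1) *
        Phi ((true, pos) :: (true, !pos) :: q) E b (c :: e :: u) G =
      -1 * Phi ((true, pos) :: (true, !pos) :: q) E b (a0 :: a1 :: u)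
        (fstep (KA E.s0 E.s1) (.cross 0 pos) G) := by
  let Z : Key → A := fun k => Psi q (E.upd k.g) k.l u fun t => G (k.s1 :: k.s2 :: k.s3 :: t)
  have hc : val E Z (crossL pos b a0 a1 ++ crossR pos b a0 a1) = 0 := by
    apply val_of_chk
    cases pos
    · exact cross_chk_false b a0 a1
    · exact cross_chk_true b a0 a1
  rw [val_append] at hc
  have hL : ∀ c e, Phi ((true, pos) :: (true, !pos) :: q) E b (c :: e :: u) G =
      val E Z (phi2 (true, pos) (true, !pos) b c e contId) := fun c e =>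
    phi2_val _ _ q E b c e u G Z contId fun g l s1 s2 s3 => by rw [contId, val_single]
  have hR : Phi ((true, pos) :: (true, !pos) :: q) E b (a0 :: a1 :: u)
      (fstep (KA E.s0 E.s1) (.cross 0 pos) G) = val E Z (crossR pos b a0 a1) := by
    refine phi2_val _ _ q E b a0 a1 u _ Z (contCross pos) fun g l s1 s2 s3 => ?_
    simp only [contCross, val_sum4, val_pscale, val_single, evP_ite, ← KA_eq]
    exact (Psi_sum2 (fun mx my => if okM mx s1.1 s2.1 s3.1 && okM my s1.2 s2.2 s3.2 then
      KA E.s0 E.s1 pos (io pos mx) (iu pos my) else 0) q (E.upd g) l u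
      (fun mx my t => G ((outL mx s1.1, outL my s1.2) :: (outT mx, outT my) ::
        (outR mx s3.1, outR my s3.2) :: t))).symm
  simp only [crossL, val_sum4, val_pscale, ← hL, ← Rpq_eq E Y h, ← hR] at hc
  linear_combination hc

theorem cup_loc (E : Env A) (d β : Bool) (q : List (Bool × Bool))
    (b : Face) (u : List (Fin 4)) (G : List Face → A) :
    ∑ a : Fin 4, (if d then 1 else (((mu E.s0 E.s1 a)⁻¹ : Aˣ) : A)) *
        Phi ((d, β) :: (!d, β) :: q) E b (a :: a :: u) G =
      (if d then 1 else -1) * Phi q E b u (fstep (KA E.s0 E.s1) (.cup 0 d) G) := by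
  let Z : Key → A := fun k => Psi q (E.upd k.g) k.l u fun t => G (k.s1 :: k.s2 :: k.s3 :: t)
  have hc := val_of_chk E Z _ (cup_chk d β b)
  rw [val_append] at hc
  have hL : ∀ c, Phi ((d, β) :: (!d, β) :: q) E b (c :: c :: u) G =
      val E Z (phi2 (d, β) (!d, β) b c c contId) := fun c =>
    phi2_val _ _ q E b c c u G Z contId fun g l s1 s2 s3 => by rw [contId, val_single]
  have hR : Phi q E b u (fstep (KA E.s0 E.s1) (.cup 0 d) G) = val E Z (cupR b) := by
    refine phi0_val q E b u _ Z contCup fun l s => ?_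
    simp only [contCup, val_sumF, val_pscale, val_single, evP_ite', evU_one, Units.val_one]
    exact (Psi_sum (fun z : Face => if clash s z then (0 : A) else 1) q (E.upd gid) l u
      (fun z t => G (orF s (!z.1, !z.2) :: ff :: orF s z :: t))).symm
  have hw : ∀ a, evP E [if d then Mono.one else muI a] =
      (if d then 1 else (((mu E.s0 E.s1 a)⁻¹ : Aˣ) : A)) := by
    intro a; cases d <;> simp [evP, evU_one, muI_eq]
  simp only [cupL, val_sum4, val_pscale, ← hL, hw] at hc
  cases d
  · simp only [Bool.false_eq_true, if_false] at hc ⊢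
    rw [hR]; linear_combination hc
  · simp only [if_true, val_negL] at hc ⊢
    rw [hR]; linear_combination hc

theorem cap_loc (E : Env A) (d β : Bool) (q : List (Bool × Bool))
    (b : Face) (a0 a1 : Fin 4) (u : List (Fin 4)) (G : List Face → A) :
    (if a0 = a1 then (if d then ((mu E.s0 E.s1 a0 : Aˣ) : A) else 1) * Phi q E b u G else 0) =
      (if d then -1 else 1) * Phi ((d, β) :: (!d, β) :: q) E b (a0 :: a1 :: u)
        (fstep (KA E.s0 E.s1) (.cap 0 d) G) := by
  let Z : Key → A := fun k => Psi q (E.upd k.g) k.l u fun t => G (k.s1 :: t)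
  have hc := val_of_chk E Z _ (cap_chk d β b a0 a1)
  rw [val_append] at hc
  have hL : Phi q E b u G = val E Z (phi0 b fun l s => single ⟨s, ff, ff, l, gid⟩) :=
    phi0_val q E b u G Z _ fun l s => by rw [val_single]
  have hR : Phi ((d, β) :: (!d, β) :: q) E b (a0 :: a1 :: u)
      (fstep (KA E.s0 E.s1) (.cap 0 d) G) = val E Z (capR d β b a0 a1) := by
    refine phi2_val _ _ q E b a0 a1 u _ Z contCap fun g l s1 s2 s3 => ?_
    simp only [contCap, val_pscale, val_single, evP_ite, evU_one, Units.val_one]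
    exact (Psi_mul _ q _ l u _).symm
  have hw : val E Z (capL d b a0 a1) =
      (if a0 = a1 then (if d then ((mu E.s0 E.s1 a0 : Aˣ) : A) else 1) * Phi q E b u G else 0) := by
    rw [capL, val_pscale, ← hL]
    by_cases h : a0 = a1
    · cases d <;> simp [h, evP, evU_one, mu_eq]
    · simp [h]
  rw [hw] at hc
  cases d
  · simp only [Bool.false_eq_true, if_false, val_negL] at hc ⊢
    rw [hR]; linear_combination hc
  · simp only [if_true] at hc ⊢
    rw [hR]; linear_combination hc

end Pool.Agent.P.MP_9ed2cf_gt.H14
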