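import Mathlib
import Pool.Agent.P.MP_9ed2cf_gt.H14Loc

set_option autoImplicit false

namespace Pool.Agent.P.MP_9ed2cf_gt.H14

variable {A : Type} [CommRing A]

noncomputable def rstep (s0 s1 Y : Aˣ) (s : Slice) (H : List (Fin 4) → A) (u : List (Fin 4)) : A :=
  sliceMap s0 s1 Y s H u

theorem rt_cons (s0 s1 Y : Aˣ) (H : List (Fin 4) → A) (s : Slice) (D : List Slice)
    (u : List (Fin 4)) : rt s0 s1 Y H (s :: D) u = rstep s0 s1 Y s (rt s0 s1 Y H D) u := rfl

theorem rstep_shift (s0 s1 Y : Aˣ) (s : Slice) (H : List (Fin 4) → A) (a : Fin 4)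
    (u : List (Fin 4)) :
    rstep s0 s1 Y s.shift H (a :: u) = rstep s0 s1 Y s (fun w => H (a :: w)) u := by
  cases s <;> simp [rstep, sliceMap, Slice.shift]

theorem rstep_sum {ι : Type} [Fintype ι] (c : ι → A) (s0 s1 Y : Aˣ) (s : Slice)
    (H : ι → List (Fin 4) → A) (u : List (Fin 4)) :
    rstep s0 s1 Y s (fun w => ∑ i, c i * H i w) u = ∑ i, c i * rstep s0 s1 Y s (H i) u := by
  cases s with
  | cross i pos =>
    simp only [rstep, sliceMap, Finset.mul_sum]
    symm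
    rw [Finset.sum_comm]
    refine Finset.sum_congr rfl fun _ _ => ?_
    rw [Finset.sum_comm]
    refine Finset.sum_congr rfl fun _ _ => Finset.sum_congr rfl fun _ _ => ?_
    ring
  | cup i d =>
    simp only [rstep, sliceMap, Finset.mul_sum]
    rw [Finset.sum_comm]
    refine Finset.sum_congr rfl fun _ _ => Finset.sum_congr rfl fun _ _ => ?_
    ring
  | cap i d =>
    simp only [rstep, sliceMap, Finset.mul_sum]
    split_ifs
    · refine Finset.sum_congr rfl fun _ _ => ?_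
      ring
    · simp
    · simp

theorem rstep_mul (c : A) (s0 s1 Y : Aˣ) (s : Slice) (H : List (Fin 4) → A) (u : List (Fin 4)) :
    rstep s0 s1 Y s (fun w => c * H w) u = c * rstep s0 s1 Y s H u := by
  simpa using rstep_sum (ι := Unit) (fun _ => c) s0 s1 Y s (fun _ => H) u

theorem rstep_congr (s0 s1 Y : Aˣ) (s : Slice) {l l' : List (Bool × Bool)} (h : s.Alt l l')
    (H H' : List (Fin 4) → A) (hH : ∀ w, w.length = l'.length → H w = H' w)
    (u : List (Fin 4)) (hu : u.length = l.length) :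
    rstep s0 s1 Y s H u = rstep s0 s1 Y s H' u := by
  cases s with
  | cross i pos =>
    obtain ⟨p, q, rfl, rfl, rfl⟩ := h
    simp only [rstep, sliceMap]
    refine Finset.sum_congr rfl fun _ _ => Finset.sum_congr rfl fun _ _ => ?_
    rw [hH]
    simp at hu ⊢; omega
  | cup i d =>
    obtain ⟨p, q, b, rfl, rfl, rfl⟩ := h
    simp only [rstep, sliceMap]
    refine Finset.sum_congr rfl fun _ _ => ?_
    rw [hH]
    simp at hu ⊢; omega
  | cap i d =>
    obtain ⟨p, q, b, rfl, rfl, rfl⟩ := h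
    simp only [rstep, sliceMap]
    rw [hH]
    simp at hu ⊢; omega

def Slice.sgn : Slice → ℤˣ
  | .cross _ _ => -1
  | .cup _ d => if d then 1 else -1
  | .cap _ d => if d then -1 else 1

def Slice.pos : Slice → ℕ
  | .cross i _ => i
  | .cup i _ => i
  | .cap i _ => i

theorem alt_succ (s : Slice) {l l' : List (Bool × Bool)} (h : s.Alt l l') (hp : s.pos ≠ 0) :
    ∃ (s' : Slice) (x : Bool × Bool) (m m' : List (Bool × Bool)), s = s'.shift ∧ l = x :: m ∧
      l' = x :: m' ∧ s'.Alt m m' ∧ s'.pos + 1 = s.pos ∧ s'.sgn = s.sgn := by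
  cases s with
  | cross i pos =>
    obtain ⟨p, q, rfl, rfl, rfl⟩ := h
    cases p with
    | nil => exact absurd rfl hp
    | cons x p => exact ⟨.cross p.length pos, x, _, _, rfl, rfl, rfl, ⟨p, q, rfl, rfl, rfl⟩, rfl, rfl⟩
  | cup i d =>
    obtain ⟨p, q, b, rfl, rfl, rfl⟩ := h
    cases p with
    | nil => exact absurd rfl hp
    | cons x p => exact ⟨.cup p.length d, x, _, _, rfl, rfl, rfl, ⟨p, q, b, rfl, rfl, rfl⟩, rfl, rfl⟩
  | cap i d =>
    obtain ⟨p, q, b, rfl, rfl, rfl⟩ := h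
    cases p with
    | nil => exact absurd rfl hp
    | cons x p => exact ⟨.cap p.length d, x, _, _, rfl, rfl, rfl, ⟨p, q, b, rfl, rfl, rfl⟩, rfl, rfl⟩

theorem step_zero (E : Env A) (Y : Aˣ) (hg : Good E Y) (s : Slice) {l l' : List (Bool × Bool)}
    (h : s.Alt l l') (hp : s.pos = 0) (b : Face) (u : List (Fin 4)) (hu : u.length = l.length)
    (G : List Face → A) :
    rstep E.s0 E.s1 Y s (fun w => Phi l' E b w G) u =
      ((s.sgn : ℤ) : A) * Phi l E b u (fstep (KA E.s0 E.s1) s G) := by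
  cases s with
  | cross i pos =>
    obtain ⟨p, q, rfl, rfl, rfl⟩ := h
    obtain rfl : p = [] := List.length_eq_zero_iff.1 hp
    rcases u with _ | ⟨a0, _ | ⟨a1, u⟩⟩
    · simp at hu
    · simp at hu
    · have := cross_loc E Y hg pos q b a0 a1 u G
      simpa [rstep, sliceMap, Slice.sgn] using this
  | cup i d =>
    obtain ⟨p, q, β, rfl, rfl, rfl⟩ := h
    obtain rfl : p = [] := List.length_eq_zero_iff.1 hp
    have := cup_loc E d β q b u G
    cases d <;> simpa [rstep, sliceMap, Slice.sgn] using this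
  | cap i d =>
    obtain ⟨p, q, β, rfl, rfl, rfl⟩ := h
    obtain rfl : p = [] := List.length_eq_zero_iff.1 hp
    rcases u with _ | ⟨a0, _ | ⟨a1, u⟩⟩
    · simp at hu
    · simp at hu
    · have := cap_loc E d β q b a0 a1 u G
      cases d <;> simpa [rstep, sliceMap, Slice.sgn] using this

theorem step_all (Y : Aˣ) (n : ℕ) : ∀ (E : Env A), Good E Y → ∀ (s : Slice)
    {l l' : List (Bool × Bool)}, s.Alt l l' → s.pos = n → ∀ (b : Face) (u : List (Fin 4)),
    u.length = l.length → ∀ G : List Face → A,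
    rstep E.s0 E.s1 Y s (fun w => Phi l' E b w G) u =
      ((s.sgn : ℤ) : A) * Phi l E b u (fstep (KA E.s0 E.s1) s G) := by
  induction n with
  | zero => intro E hg s l l' h hp b u hu G; exact step_zero E Y hg s h hp b u hu G
  | succ n ih =>
    intro E hg s l l' h hp b u hu G
    obtain ⟨s', x, m, m', rfl, rfl, rfl, h', hp', hs⟩ := alt_succ s h (by omega)
    rcases u with _ | ⟨a, u⟩
    · simp at hu
    rw [rstep_shift, Phi_cons, ← hs]
    simp only [Phi_cons, ← mul_assoc]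
    rw [rstep_sum, Finset.mul_sum]
    refine Finset.sum_congr rfl fun l _ => ?_
    have := ih (E.upd (Fg x.1 x.2 a)) hg s' h' (by omega) (rem x.1 a l) u (by simpa using hu)
      (fun t => G (orF b l :: t))
    have e0 : (E.upd (Fg x.1 x.2 a)).s0 = E.s0 := rfl
    have e1 : (E.upd (Fg x.1 x.2 a)).s1 = E.s1 := rfl
    rw [e0, e1] at this
    rw [this]
    simp only [fstep_shift]
    ring

theorem run_all (E : Env A) (Y : Aˣ) (hg : Good E Y) (b : Face) (G : List Face → A)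
    {l l' : List (Bool × Bool)} {D : List Slice} (h : AltRun l D l') (H : List (Fin 4) → A)
    (hH : ∀ v, v.length = l'.length → H v = Phi l' E b v G) :
    ∀ u, u.length = l.length → rt E.s0 E.s1 Y H D u =
      (((D.map Slice.sgn).prod : ℤˣ) : ℤ) * Phi l E b u (frun (KA E.s0 E.s1) G D) := by
  induction h with
  | nil l => intro u hu; simpa [rt, frun] using hH u hu
  | @cons l l1 l2 s D hs _ ih =>
    intro u hu
    rw [rt_cons, rstep_congr E.s0 E.s1 Y s hs _ _ (ih hH) u hu, rstep_mul,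
      step_all Y s.pos E hg s hs rfl b u hu]
    have : frun (KA E.s0 E.s1) G (s :: D) = fstep (KA E.s0 E.s1) s (frun (KA E.s0 E.s1) G D) :=
      rfl
    rw [this, List.map_cons, List.prod_cons]
    push_cast
    ring

theorem Phi_one (E : Env A) (β : Bool) (a : Fin 4) :
    ∃ c : Aˣ, ∀ G : List Face → A, Phi [(true, β)] E tt [a] G = c * G [tt, nUp a] := by
  fin_cases a <;>
    simp [Phi, Psi, Fintype.sum_prod_type, cmp, clash, tt, ff, orF, Wp, rem, nUp, evP, ← mul_assoc,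
      ← Units.val_mul] <;>
    exact ⟨_, fun _ => rfl⟩

theorem nUp_inj : ∀ a k : Fin 4, nUp a = nUp k → a = k := by decide

/-- exponent of the weight of a pair of markers -/
def Kexp (pos a b : Bool) : ℤ × ℤ :=
  if a && b then (if pos then 1 else -1, 0) else if !a && !b then (0, if pos then 1 else -1)
  else (0, 0)

noncomputable def KS (pos a b : Bool) : AddMonoidAlgebra ℕ (ℤ × ℤ) :=
  AddMonoidAlgebra.single (Kexp pos a b) 1

/-- the generating function of pairs of Kauffman states -/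
noncomputable def pairCount (D : List Slice) (k : Fin 4) : AddMonoidAlgebra ℕ (ℤ × ℤ) :=
  frun KS (fun t => if t = [tt, nUp k] then 1 else 0) D [tt, nUp k]

def chi (s0 s1 : Aˣ) : Multiplicative (ℤ × ℤ) →* A where
  toFun x := (((-(s0 ^ 2)) ^ x.toAdd.1 * (-(s1 ^ 2)) ^ x.toAdd.2 : Aˣ) : A)
  map_one' := by simp
  map_mul' x y := by
    rw [← Units.val_mul]
    congr 1
    simp only [toAdd_mul, Prod.fst_add, Prod.snd_add, zpow_add]
    ac_rfl

theorem chi_KS (s0 s1 : Aˣ) (pos a b : Bool) :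
    AddMonoidAlgebra.lift ℕ A (ℤ × ℤ) (chi s0 s1) (KS pos a b) = KA s0 s1 pos a b := by
  rw [KS, AddMonoidAlgebra.lift_single, one_smul]
  cases pos <;> cases a <;> cases b <;>
    simp [chi, Kexp, KA, Km, evU, Mono.one, zpow_ofNat, inv_neg]

theorem LG_eq (D : List Slice) (hD : IsAlternating D) (k : Fin 4) (s0 s1 Y : Aˣ)
    (hY : (Y : A) ^ 2 = ((s0 : A) ^ 2 - 1) * (1 - (s1 : A) ^ 2)) :
    LG s0 s1 Y D k = (((D.map Slice.sgn).prod : ℤˣ) : ℤ) *
      AddMonoidAlgebra.lift ℕ A (ℤ × ℤ) (chi s0 s1) (pairCount D k) := by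
  obtain ⟨β, h⟩ := hD
  have hi : (Y : A) * ((Y⁻¹ : Aˣ) : A) = 1 := Units.mul_inv _
  let r : Aˣ := Units.mkOfMulEqOne (((s0 : A) ^ 2 - 1) * ((Y⁻¹ : Aˣ) : A))
    ((1 - (s1 : A) ^ 2) * ((Y⁻¹ : Aˣ) : A)) (by
      linear_combination (-((Y⁻¹ : Aˣ) : A) ^ 2) * hY + ((Y : A) * ((Y⁻¹ : Aˣ) : A) + 1) * hi)
  let E : Env A := ⟨s0, s1, r, 1, 1⟩
  have hg : Good E Y := by
    constructor
    · change (Y : A) = (((s0 : A) ^ 2 - 1) * ((Y⁻¹ : Aˣ) : A)) * (1 - (s1 : A) ^ 2)
      linear_combination ((Y⁻¹ : Aˣ) : A) * hY - (Y : A) * hi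
    · change (Y : A) = ((1 - (s1 : A) ^ 2) * ((Y⁻¹ : Aˣ) : A)) * ((s0 : A) ^ 2 - 1)
      linear_combination ((Y⁻¹ : Aˣ) : A) * hY - (Y : A) * hi
  obtain ⟨c, hc⟩ := Phi_one E β k
  let φ : AddMonoidAlgebra ℕ (ℤ × ℤ) →+* A :=
    (AddMonoidAlgebra.lift ℕ A (ℤ × ℤ) (chi s0 s1) : AddMonoidAlgebra ℕ (ℤ × ℤ) →ₐ[ℕ] A)
  let G : List Face → A := fun t =>
    ((c⁻¹ : Aˣ) : A) * φ (if t = [tt, nUp k] then 1 else 0)
  have hH : ∀ v : List (Fin 4), v.length = [(true, β)].length →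
      (if v = [k] then (1 : A) else 0) = Phi [(true, β)] E tt v G := by
    intro v hv
    obtain ⟨a, rfl⟩ := List.length_eq_one_iff.1 hv
    by_cases hak : a = k
    · subst hak
      rw [hc]; simp [G]
    · obtain ⟨c', hc'⟩ := Phi_one E β a
      have : nUp a ≠ nUp k := fun h => hak (nUp_inj a k h)
      rw [hc']; simp [G, hak, this]
  have := run_all E Y hg tt G h _ hH [k] rfl
  rw [LG]
  refine this.trans ?_
  rw [hc]
  have hK : KA E.s0 E.s1 = fun a b e => φ (KS a b e) := by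
    funext a b e; exact (chi_KS s0 s1 a b e).symm
  rw [hK, map_frun φ, ← mul_assoc (c : A), Units.mul_inv, one_mul]
  rfl

theorem main (D : List Slice) (hD : IsAlternating D) (k : Fin 4) :
    ∃ (ε : ℤˣ) (b : ℤ × ℤ →₀ ℕ), ∀ (A : Type) [CommRing A] (s0 s1 Y : Aˣ),
      (Y : A) ^ 2 = ((s0 : A) ^ 2 - 1) * (1 - (s1 : A) ^ 2) →
      LG s0 s1 Y D k = b.sum fun ij n =>
        (((((ε * (-1) ^ (ij.1 + ij.2) : ℤˣ) : ℤ) * (n : ℤ) : ℤ) : A)) *
          (((s0 ^ 2) ^ ij.1 * (s1 ^ 2) ^ ij.2 : Aˣ) : A) := by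
  refine ⟨(D.map Slice.sgn).prod, (pairCount D k).coeff, fun A _ s0 s1 Y hY => ?_⟩
  rw [LG_eq D hD k s0 s1 Y hY, AddMonoidAlgebra.lift_apply, Finsupp.mul_sum]
  refine Finsupp.sum_congr fun ij _ => ?_
  have h1 : ∀ (x : Aˣ) (m : ℤ), (((-x) ^ m : Aˣ) : A) =
      ((((-1 : ℤˣ) ^ m : ℤˣ) : ℤ) : A) * ((x ^ m : Aˣ) : A) := by
    intro x m
    rw [neg_eq_neg_one_mul x, mul_zpow, neg_one_zpow_eq_ite, neg_one_zpow_eq_ite]
    split_ifs <;> simp
  simp only [chi, MonoidHom.coe_mk, OneHom.coe_mk, toAdd_ofAdd, Units.val_mul, h1, zpow_add,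
    nsmul_eq_mul]
  push_cast
  ring

end Pool.Agent.P.MP_9ed2cf_gt.H14
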