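import Pool.Agent.P.MP_9ed2cf_gt.Ar

/-! Kronecker substitution: tests on polynomials through one big integer. -/

set_option autoImplicit false

namespace Pool.Agent.P.MP_9ed2cf_gt

/-- a norm and a degree bound -/
structure Nr (α : Type) where
  n1 : α → ℕ
  len : ℕ → α → Prop

structure NrOk {α : Type} (A : Ar α) (N : Nr α) : Prop where
  n_zero : N.n1 A.zero = 0
  n_int : ∀ n, N.n1 (A.ofInt n) ≤ n.natAbs
  n_add : ∀ x y, N.n1 (A.add x y) ≤ N.n1 x + N.n1 y
  n_mul : ∀ x y, N.n1 (A.mul x y) ≤ N.n1 x * N.n1 y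
  n_sc : ∀ n x, N.n1 (A.sc n x) ≤ n.natAbs * N.n1 x
  l_zero : ∀ d, N.len d A.zero
  l_int : ∀ d n, N.len d (A.ofInt n)
  l_mono : ∀ d e x, d ≤ e → N.len d x → N.len e x
  l_add : ∀ d x y, N.len d x → N.len d y → N.len d (A.add x y)
  l_mul : ∀ d e x y, N.len d x → N.len e y → N.len (d + e) (A.mul x y)
  l_sc : ∀ d n x, N.len d x → N.len d (A.sc n x)
  z_of : ∀ x, A.nn x = true → A.nn (A.sc (-1) x) = true → A.isZ x = true
  z_n : ∀ x, N.n1 x = 0 → A.isZ x = true

def intNr : Nr ℤ := ⟨Int.natAbs, fun _ _ => True⟩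

theorem isZ_zero : intAr.isZ 0 = true := rfl

theorem nrOk_int : NrOk intAr intNr where
  n_zero := rfl
  n_int _ := le_rfl
  n_add := Int.natAbs_add_le
  n_mul x y := (Int.natAbs_mul x y).le
  n_sc x y := (Int.natAbs_mul x y).le
  l_zero _ := trivial
  l_int _ _ := trivial
  l_mono _ _ _ _ _ := trivial
  l_add _ _ _ _ _ := trivial
  l_mul _ _ _ _ _ _ := trivial
  l_sc _ _ _ _ := trivial
  z_of x h1 h2 := by
    have a1 := nn_int _ h1
    have a2 : 0 ≤ -1 * x := nn_int _ h2
    rw [show x = 0 by omega]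
    rfl
  z_n x h := by
    rw [Int.natAbs_eq_zero.1 h]
    rfl

variable {α : Type}

def liftNr (N : Nr α) : Nr (List α) :=
  ⟨fun f => (f.map N.n1).sum, fun d f => f.length ≤ d + 1 ∧ ∀ a ∈ f, N.len d a⟩

theorem lmap_eq (h : α → α) : ∀ f, lmap h f = f.map h
  | [] => rfl
  | a :: f => by rw [lmap, lmap_eq h f, List.map_cons]

theorem lall_iff {h : α → Bool} : ∀ {f : List α}, lall h f = true ↔ ∀ a ∈ f, h a = true
  | [] => by simp [lall]
  | a :: f => by cases ha : h a <;> simp [lall, ha, lall_iff (f := f)]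

variable {A : Ar α} {N : Nr α}

theorem n_ladd (h : NrOk A N) : ∀ f g, ((ladd A f g).map N.n1).sum ≤
    (f.map N.n1).sum + (g.map N.n1).sum
  | [], g => by simp [ladd]
  | a :: f, [] => by simp [ladd]
  | a :: f, b :: g => by
    have := n_ladd h f g
    have := h.n_add a b
    simp only [ladd, List.map_cons, List.sum_cons]
    omega

theorem n_map {h : α → α} {c : ℕ} (hh : ∀ a, N.n1 (h a) ≤ c * N.n1 a) :
    ∀ f : List α, ((lmap h f).map N.n1).sum ≤ c * (f.map N.n1).sum
  | [] => by simp [lmap]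
  | a :: f => by
    have := n_map hh f
    have := hh a
    simp only [lmap, List.map_cons, List.sum_cons, mul_add]
    omega

theorem n_lmul (h : NrOk A N) (g : List α) : ∀ f, ((lmul A f g).map N.n1).sum ≤
    (f.map N.n1).sum * (g.map N.n1).sum
  | [] => by simp [lmul]
  | a :: f => by
    have h1 := n_lmul h g f
    have h2 := n_map (h.n_mul a) g
    have h3 := n_ladd h (lmap (A.mul a) g) (A.zero :: lmul A f g)
    cases hz : A.isZ a <;>
      simp only [lmul, hz, cond_true, cond_false, List.map_cons, List.sum_cons, h.n_zero,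
        add_mul] at h3 ⊢ <;> omega

theorem len_ladd (h : NrOk A N) (d : ℕ) : ∀ (f g : List α) (m : ℕ), f.length ≤ m → g.length ≤ m →
    (∀ a ∈ f, N.len d a) → (∀ a ∈ g, N.len d a) →
    (ladd A f g).length ≤ m ∧ ∀ a ∈ ladd A f g, N.len d a
  | [], g, _, _, h2, _, h4 => ⟨h2, h4⟩
  | a :: f, [], _, h1, _, h3, _ => ⟨h1, h3⟩
  | a :: f, b :: g, m, h1, h2, h3, h4 => by
    simp only [List.length_cons, List.forall_mem_cons] at h1 h2 h3 h4
    have := len_ladd h d f g (m - 1) (by omega) (by omega) h3.2 h4.2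
    simp only [ladd, List.length_cons, List.forall_mem_cons]
    exact ⟨by omega, h.l_add d a b h3.1 h4.1, this.2⟩

theorem len_lmul (h : NrOk A N) (d e : ℕ) (g : List α) (hg : g.length ≤ e + 1)
    (hg' : ∀ a ∈ g, N.len e a) : ∀ (f : List α), (∀ a ∈ f, N.len d a) →
    (f ≠ [] → (lmul A f g).length ≤ f.length + e) ∧ ∀ a ∈ lmul A f g, N.len (d + e) a
  | [], _ => by simp [lmul]
  | a :: f, hf => by
    simp only [List.forall_mem_cons] at hf
    obtain ⟨h1, h2⟩ := len_lmul h d e g hg hg' f hf.2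
    have h3 : (A.zero :: lmul A f g).length ≤ (a :: f).length + e := by
      cases f with
      | nil => simp [lmul]
      | cons b f =>
        have := h1 (by simp)
        simp only [List.length_cons] at this ⊢
        omega
    have h4 : ∀ x ∈ A.zero :: lmul A f g, N.len (d + e) x :=
      List.forall_mem_cons.2 ⟨h.l_zero _, h2⟩
    cases hz : A.isZ a
    · simp only [lmul, hz, cond_false]
      have := len_ladd h (d + e) (lmap (A.mul a) g) _ ((a :: f).length + e)
        (by rw [lmap_eq]; simp only [List.length_map, List.length_cons]; omega) h3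
        (by rw [lmap_eq]; simp only [List.forall_mem_map]; exact fun b hb =>
          h.l_mul d e a b hf.1 (hg' b hb)) h4
      exact ⟨fun _ => this.1, this.2⟩
    · simp only [lmul, hz, cond_true]
      exact ⟨fun _ => h3, h4⟩

theorem nrOk_lift (h : NrOk A N) : NrOk (lift A) (liftNr N) where
  n_zero := rfl
  n_int n := by simpa [lift, liftNr] using h.n_int n
  n_add := n_ladd h
  n_mul f g := n_lmul h g f
  n_sc n := n_map (h.n_sc n)
  l_zero d := by simp [lift, liftNr]
  l_int d n := by simpa [lift, liftNr] using h.l_int d n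
  l_mono d e f hde hf := ⟨hf.1.trans (by omega), fun a ha => h.l_mono d e a hde (hf.2 a ha)⟩
  l_add d f g hf hg := len_ladd h d f g _ hf.1 hg.1 hf.2 hg.2
  l_mul d e f g hf hg := by
    have := len_lmul h d e g hg.1 hg.2 f hf.2
    refine ⟨?_, this.2⟩
    by_cases h0 : f = []
    · simp [h0, lift, lmul]
    · have h1 := this.1 h0
      have h2 := hf.1
      change (lmul A f g).length ≤ _
      omega
  l_sc d n f hf := by
    change (liftNr N).len d (lmap (A.sc n) f)
    rw [lmap_eq]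
    exact ⟨by simpa using hf.1, List.forall_mem_map.2 fun a ha => h.l_sc d n a (hf.2 a ha)⟩
  z_of f h1 h2 := by
    change lall A.nn (lmap (A.sc (-1)) f) = true at h2
    rw [lmap_eq, lall_iff, List.forall_mem_map] at h2
    exact lall_iff.2 fun a ha => h.z_of a (lall_iff.1 h1 a ha) (h2 a ha)
  z_n f h1 := by
    refine lall_iff.2 fun a ha => h.z_n a ?_
    exact List.sum_eq_zero_iff.1 h1 _ (List.mem_map_of_mem ha)

/-- all digits in base `2 ^ (w + 1)` are small -/
def Dig (w : ℕ) (v : ℤ) : Prop := 0 ≤ v ∧ ∀ i, v.toNat.testBit ((w + 1) * i + w) = false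

theorem Dig.split {w t : ℕ} {u r : ℤ} (h : Dig w (u + 2 ^ ((w + 1) * (t + 1)) * r))
    (hu : 2 * |u| < 2 ^ ((w + 1) * (t + 1))) : Dig w u ∧ Dig w r := by
  obtain ⟨h1, h2⟩ := h
  set s := (w + 1) * t + w with hs
  have e : (w + 1) * (t + 1) = s + 1 := by rw [hs]; ring
  rw [e] at h1 h2 hu
  obtain ⟨V, hV⟩ := Int.eq_ofNat_of_zero_le h1
  rw [hV, Int.toNat_natCast] at h2
  have hp : (0 : ℤ) < 2 ^ (s + 1) := by positivity
  have hm : V % 2 ^ (s + 1) < 2 ^ s := by
    have := h2 t
    rw [Nat.testBit_eq_decide_div_mod_eq, decide_eq_false_iff_not] at this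
    rw [Nat.mod_pow_succ]
    have h3 := Nat.mod_lt V (show 0 < 2 ^ s by positivity)
    have h4 : V / 2 ^ s % 2 = 0 := (Nat.mod_two_eq_zero_or_one _).resolve_right this
    rw [h4]
    simpa using h3
  have hm' : ((V % 2 ^ (s + 1) : ℕ) : ℤ) < 2 ^ s := by exact_mod_cast hm
  have hd : (V : ℤ) = ((V % 2 ^ (s + 1) : ℕ) : ℤ) + 2 ^ (s + 1) * ((V / 2 ^ (s + 1) : ℕ) : ℤ) := by
    exact_mod_cast (Nat.mod_add_div V _).symm
  have h0 : (0 : ℤ) ≤ ((V % 2 ^ (s + 1) : ℕ) : ℤ) := Int.natCast_nonneg _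
  have hr : r = ((V / 2 ^ (s + 1) : ℕ) : ℤ) := by
    have a1 := abs_lt.1 (show |u| < 2 ^ s by rw [pow_succ] at hu; linarith)
    have a2 : (2 : ℤ) ^ (s + 1) = 2 * 2 ^ s := by ring
    generalize ((V / 2 ^ (s + 1) : ℕ) : ℤ) = k at *
    generalize ((V % 2 ^ (s + 1) : ℕ) : ℤ) = m at *
    rw [a2] at hV hd
    have b1 : r - k < 1 := by
      by_contra hc
      nlinarith [a1.1, a1.2]
    have b2 : -1 < r - k := by
      by_contra hc
      nlinarith [a1.1, a1.2]
    omega
  have hu' : u = ((V % 2 ^ (s + 1) : ℕ) : ℤ) := by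
    rw [hr, hd] at hV
    linarith
  refine ⟨⟨hu' ▸ h0, fun i => ?_⟩, ⟨hr ▸ Int.natCast_nonneg _, fun i => ?_⟩⟩
  · rw [hu', Int.toNat_natCast, Nat.testBit_mod_two_pow, h2, Bool.and_false]
  · rw [hr, Int.toNat_natCast, Nat.testBit_div_two_pow,
      show (w + 1) * i + w + (s + 1) = (w + 1) * (i + t + 1) + w by rw [hs]; ring, h2]

/-- decoding property of the evaluation `ev` with blocks of `t + 1` digits -/
structure Dec (A : Ar α) (N : Nr α) (ev : α → ℤ) (D w t : ℕ) : Prop where
  bd : ∀ a, N.len D a → |ev a| ≤ N.n1 a * 2 ^ ((w + 1) * t)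
  dec : ∀ a, N.len D a → N.n1 a < 2 ^ w → Dig w (ev a) → A.nn a = true

theorem dec_int (D w : ℕ) : Dec intAr intNr (fun n : ℤ => ((n : ℤ) : ℤ)) D w 0 where
  bd a _ := by simp [intNr]
  dec a _ _ h := by
    obtain ⟨k, rfl⟩ := Int.eq_ofNat_of_zero_le (show 0 ≤ a from h.1)
    rfl

theorem dec_lift {ev : α → ℤ} {D w t : ℕ} (h : Dec A N ev D w t) :
    Dec (lift A) (liftNr N) (lev ev (2 ^ ((w + 1) * (t + 1)))) D w (t + (t + 1) * D) where
  bd f hf := by
    have key : ∀ (f : List α) (m : ℕ), f.length ≤ m + 1 → (∀ a ∈ f, N.len D a) →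
        |lev ev (2 ^ ((w + 1) * (t + 1))) f| ≤
          ((f.map N.n1).sum : ℕ) * 2 ^ ((w + 1) * (t + (t + 1) * m)) := by
      intro f
      induction f with
      | nil => intro m _ _; simp [lev]
      | cons a f ih =>
        intro m h1 h2
        simp only [List.forall_mem_cons, List.length_cons] at h1 h2
        have a1 := h.bd a h2.1
        have a2 : (2 : ℤ) ^ ((w + 1) * t) ≤ 2 ^ ((w + 1) * (t + (t + 1) * m)) :=
          pow_le_pow_right₀ (by norm_num) (Nat.mul_le_mul_left _ (by omega))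
        have a3 := mul_le_mul_of_nonneg_left a2 (Int.natCast_nonneg (N.n1 a))
        rw [lev, List.map_cons, List.sum_cons, Nat.cast_add, add_mul (N.n1 a : ℤ)]
        refine (abs_add_le _ _).trans (add_le_add (a1.trans a3) ?_)
        cases m with
        | zero =>
          rw [List.length_eq_zero_iff.1 (show f.length = 0 by omega)]
          simp [lev]
        | succ m =>
          rw [abs_mul, abs_of_nonneg (by positivity)]
          refine (mul_le_mul_of_nonneg_left (ih m (by omega) h2.2) (by positivity)).trans_eq ?_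
          rw [mul_left_comm, ← pow_add]
          congr 2
          ring
    exact key f D hf.1 hf.2
  dec f hf := by
    have h2 := hf.2
    clear hf
    induction f with
    | nil => intro _ _; rfl
    | cons a f ih =>
      intro h3 h4
      simp only [List.forall_mem_cons, liftNr, List.map_cons, List.sum_cons] at h2 h3
      have a1 := h.bd a h2.1
      have a2 : ((N.n1 a : ℕ) : ℤ) < 2 ^ w := by exact_mod_cast (show N.n1 a < 2 ^ w by omega)
      have a3 : 2 * |ev a| < 2 ^ ((w + 1) * (t + 1)) := by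
        rw [mul_add, mul_one, pow_add, pow_succ]
        have : (0 : ℤ) < 2 ^ ((w + 1) * t) := by positivity
        nlinarith
      obtain ⟨b1, b2⟩ := Dig.split h4 a3
      refine lall_iff.2 (List.forall_mem_cons.2 ⟨h.dec a h2.1 (by omega) b1, lall_iff.1 ?_⟩)
      exact ih h2.2 (show (f.map N.n1).sum < _ by omega) b2

def mask (w : ℕ) : ℕ → ℕ
  | 0 => 0
  | n + 1 => 2 ^ (w + 1) * mask w n + 2 ^ w

theorem testBit_mask (w : ℕ) : ∀ n i, i < n → (mask w n).testBit ((w + 1) * i + w) = true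
  | 0, _, h => absurd h (by omega)
  | n + 1, i, h => by
    rw [mask, Nat.testBit_two_pow_mul_add _ (Nat.pow_lt_pow_right (by norm_num) (by omega))]
    cases i with
    | zero => simp
    | succ i =>
      rw [if_neg (by rw [mul_add]; omega),
        show (w + 1) * (i + 1) + w - (w + 1) = (w + 1) * i + w by rw [mul_add]; omega]
      exact testBit_mask w n i (by omega)

def maskC (w n : ℕ) : ℕ := 2 ^ w * (2 ^ ((w + 1) * n) - 1) / (2 ^ (w + 1) - 1)

theorem maskC_eq (w n : ℕ) : maskC w n = mask w n := by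
  have hp : 1 < 2 ^ (w + 1) := Nat.one_lt_two_pow (by omega)
  refine Nat.div_eq_of_eq_mul_left (by omega) ?_
  zify [hp.le, Nat.one_le_two_pow]
  induction n with
  | zero => simp [mask]
  | succ n ih =>
    rw [mask, mul_add (w + 1), mul_one, pow_add]
    push_cast
    linear_combination (2 : ℤ) ^ (w + 1) * ih

def digT (w n : ℕ) : ℤ → Bool
  | Int.ofNat v => Nat.beq (Nat.land v (maskC w n)) 0 && Nat.beq (Nat.shiftRight v ((w + 1) * n)) 0
  | Int.negSucc _ => false

theorem digT_sound {w n : ℕ} {v : ℤ} (h : digT w n v = true) : Dig w v := by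
  cases v with
  | negSucc _ => exact absurd h (by simp [digT])
  | ofNat v =>
    simp only [digT, Bool.and_eq_true, Nat.beq_eq] at h
    refine ⟨Int.natCast_nonneg v, fun i => ?_⟩
    change v.testBit _ = false
    rcases lt_or_ge i n with hi | hi
    · have h1 : (v &&& mask w n).testBit ((w + 1) * i + w) = false := by
        rw [← maskC_eq, show v &&& maskC w n = 0 from h.1, Nat.zero_testBit]
      rwa [Nat.testBit_and, testBit_mask w n i hi, Bool.and_true] at h1
    · have h1 : v / 2 ^ ((w + 1) * n) = 0 := by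
        rw [← Nat.shiftRight_eq_div_pow]; exact h.2
      refine Nat.testBit_lt_two_pow ((Nat.lt_of_div_eq_zero (by positivity) h1).trans_le ?_)
      exact Nat.pow_le_pow_right (by norm_num) ((Nat.mul_le_mul_left _ hi).trans (by omega))

/-- all data for a Kronecker arithmetic -/
structure Kd (α : Type) where
  A : Ar α
  N : Nr α
  ev : α → ℤ
  D : ℕ
  w : ℕ
  t : ℕ
  good : Good A ev
  ok : NrOk A N
  dec : Dec A N ev D w t

/-- a polynomial (never evaluated) with its value at the Kronecker point and bounds -/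
structure KP (S : Kd α) where
  p : α
  v : ℤ
  nb : ℕ
  dg : ℕ
  hv : S.ev p = v
  hn : S.N.n1 p ≤ nb
  hd : S.N.len dg p

namespace KP

variable {S : Kd α}

def zero (S : Kd α) : KP S := ⟨S.A.zero, 0, 0, 0, S.good.zero, S.ok.n_zero.le, S.ok.l_zero 0⟩

def mul (x y : KP S) : KP S :=
  ⟨S.A.mul x.p y.p, Int.mul x.v y.v, Nat.mul x.nb y.nb, Nat.add x.dg y.dg,
    by rw [S.good.mul, x.hv, y.hv]; rfl,
    (S.ok.n_mul _ _).trans (Nat.mul_le_mul x.hn y.hn), S.ok.l_mul _ _ _ _ x.hd y.hd⟩

def mx (a b : ℕ) : ℕ := Nat.add a (Nat.sub b a)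

theorem le_mx (a b : ℕ) : a ≤ mx a b ∧ b ≤ mx a b := by
  change a ≤ a + (b - a) ∧ b ≤ a + (b - a)
  omega

def add (x y : KP S) : KP S :=
  ⟨S.A.add x.p y.p, Int.add x.v y.v, Nat.add x.nb y.nb, mx x.dg y.dg,
    by rw [S.good.add, x.hv, y.hv]; rfl,
    (S.ok.n_add _ _).trans (Nat.add_le_add x.hn y.hn),
    S.ok.l_add _ _ _ (S.ok.l_mono _ _ _ (le_mx _ _).1 x.hd) (S.ok.l_mono _ _ _ (le_mx _ _).2 y.hd)⟩

def sc (n : ℤ) (x : KP S) : KP S :=
  ⟨S.A.sc n x.p, Int.mul n x.v, Nat.mul n.natAbs x.nb, x.dg, by rw [S.good.sc, x.hv]; rfl,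
    (S.ok.n_sc _ _).trans (Nat.mul_le_mul_left _ x.hn), S.ok.l_sc _ _ _ x.hd⟩

def small (x : KP S) : Bool := Nat.ble x.dg S.D && Nat.ble (Nat.succ x.nb) (Nat.pow 2 S.w)

theorem nn_of (x : KP S) (h : x.small = true) (h' : Dig S.w x.v) : S.A.nn x.p = true := by
  simp only [small, Bool.and_eq_true, Nat.ble_eq] at h
  exact S.dec.dec _ (S.ok.l_mono _ _ _ h.1 x.hd) (x.hn.trans_lt h.2) (x.hv ▸ h')

theorem isZ_of (x : KP S) (h : x.small = true) (h' : x.v = 0) : S.A.isZ x.p = true := by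
  have h0 : Dig S.w 0 := ⟨le_rfl, fun i => by simp⟩
  refine S.ok.z_of _ (x.nn_of h (h' ▸ h0)) ((sc (-1) x).nn_of ?_ ?_)
  · simpa [small, sc] using h
  · change Dig S.w (-1 * x.v)
    rw [h', mul_zero]
    exact h0

end KP

/-- the fast arithmetic -/
def kAr (S : Kd α) : Ar (KP S) where
  ofInt := fun n => ⟨S.A.ofInt n, n, n.natAbs, 0, S.good.ofInt n, S.ok.n_int n, S.ok.l_int 0 n⟩
  zero := KP.zero S
  add := KP.add
  mul := fun x y => cond (Nat.beq x.nb 0) (KP.zero S) (cond (Nat.beq y.nb 0) (KP.zero S) (x.mul y))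
  sc := KP.sc
  isZ := fun x => intAr.isZ x.v && x.small
  nn := fun x => x.small && digT S.w (S.t + 1) x.v

theorem good_k {K : Type} [CommRing K] (S : Kd α) {ev : α → K} (h : Good S.A ev) :
    Good (kAr S) (fun x => ev x.p) where
  ofInt := h.ofInt
  zero := h.zero
  add x y := h.add _ _
  mul x y := by
    have z : ∀ x : KP S, Nat.beq x.nb 0 = true → ev x.p = 0 := fun x hx =>
      h.isZ _ (S.ok.z_n _ (Nat.le_zero.1 (Nat.eq_of_beq_eq_true hx ▸ x.hn)))
    cases hx : Nat.beq x.nb 0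
    · cases hy : Nat.beq y.nb 0
      · simp only [kAr, hx, hy, cond_false]
        exact h.mul _ _
      · simp only [kAr, hx, hy, cond_false, cond_true, z y hy, mul_zero]
        exact h.zero
    · simp only [kAr, hx, cond_true, z x hx, zero_mul]
      exact h.zero
  sc n x := h.sc _ _
  isZ x H := by
    simp only [kAr, Bool.and_eq_true] at H
    exact h.isZ _ (x.isZ_of H.2 ((good_int ℤ).isZ _ H.1))

theorem nn_k (S : Kd α) (x : KP S) (H : (kAr S).nn x = true) : S.A.nn x.p = true := by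
  simp only [kAr, Bool.and_eq_true] at H
  exact x.nn_of H.1 (digT_sound H.2)

end Pool.Agent.P.MP_9ed2cf_gt
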