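import Mathlib

/-! From local inequalities between three diagonals to two-dimensional log-concavity. -/

set_option autoImplicit false

namespace Pool.Agent.P.MP_9ed2cf_gt

/-- two-dimensional log-concavity and absence of interior zeros -/
def Nice (f : ℤ × ℤ → ℤ) : Prop :=
  (∀ i j k l : ℤ, |f (i + k, j + l)| * |f (i - k, j - l)| ≤ |f (i, j)| ^ 2) ∧
  ∀ m : ℤ × ℤ, ((m.1 : ℝ), (m.2 : ℝ)) ∈
    convexHull ℝ ((fun m : ℤ × ℤ => ((m.1 : ℝ), (m.2 : ℝ))) '' {m | f m ≠ 0}) → f m ≠ 0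

theorem Nice.neg {f : ℤ × ℤ → ℤ} (h : Nice f) : Nice fun m => f (-m) := by
  refine ⟨fun i j k l => ?_, fun m hm => h.2 (-m) ?_⟩
  · have := h.1 (-i) (-j) (-k) (-l)
    simp only [Prod.neg_mk, neg_add_rev, neg_sub]
    convert this using 5 <;> ring
  · have h1 := Set.mem_image_of_mem (-LinearMap.id : ℝ × ℝ →ₗ[ℝ] ℝ × ℝ) hm
    rw [LinearMap.image_convexHull] at h1
    have h2 : (-LinearMap.id : ℝ × ℝ →ₗ[ℝ] ℝ × ℝ) ((m.1 : ℝ), (m.2 : ℝ)) =
        (((-m).1 : ℝ), ((-m).2 : ℝ)) := by simp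
    rw [h2] at h1
    refine convexHull_mono ?_ h1
    rintro _ ⟨_, ⟨x, hx, rfl⟩, rfl⟩
    exact ⟨-x, hx, by simp⟩

/-- comparison of ratios -/
def Dom (f g : ℤ → ℤ) (x y : ℤ) : Prop := f (x + 1) * g y ≤ f x * g (y + 1)

theorem Dom.trans {f g h : ℤ → ℤ} {x y z : ℤ} (h1 : Dom f g x y) (h2 : Dom g h y z)
    (hg : 0 < g y) (hf : 0 ≤ f x) (hh : 0 ≤ h z) : Dom f h x z := by
  unfold Dom at *
  refine le_of_mul_le_mul_right ?_ hg
  have a1 := mul_le_mul_of_nonneg_right h1 hh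
  have a2 := mul_le_mul_of_nonneg_left h2 hf
  nlinarith

theorem spread {f g : ℤ → ℤ} {x y : ℤ} (h : ∀ t : ℕ, Dom f g (x + t) (y - t - 1)) (k : ℕ) :
    f (x + k) * g (y - k) ≤ f x * g y := by
  induction k with
  | zero => simp
  | succ k ih =>
    have := h k
    unfold Dom at this
    rw [sub_add_cancel] at this
    push_cast
    rw [← add_assoc, ← sub_sub]
    exact this.trans ih

/-- the three diagonals -/
structure Tri (A B C : ℤ → ℤ) (lo hA hC : ℤ) : Prop where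
  hc : hC = hA + 1 ∨ hC = hA + 2
  lA : ∀ n, n < lo → A n = 0
  lB : ∀ n, n < lo → B n = 0
  lC : ∀ n, n < lo → C n = 0
  sA : ∀ n, lo ≤ n → (hA < n ∧ A n = 0) ∨ (n ≤ hA ∧ 0 < A n)
  sB : ∀ n, lo ≤ n → (hA + 1 < n ∧ B n = 0) ∨ (n ≤ hA + 1 ∧ 0 < B n)
  sC : ∀ n, lo ≤ n → (hC < n ∧ C n = 0) ∨ (n ≤ hC ∧ 0 < C n)
  ra : ∀ n, lo ≤ n → Dom A B n n
  rb : ∀ n, lo ≤ n → Dom B C n n
  rc : ∀ n, lo ≤ n → C (n + 1) * B (n - 1) ≤ C n * B n
  rd : ∀ n, lo ≤ n → B (n + 1) * A (n - 1) ≤ B n * A n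
  x1 : ∀ n, lo ≤ n → B n * B (n - 1) ≤ C n * C n
  x2 : ∀ n, lo ≤ n → A (n - 1) * A (n - 1) ≤ C n * C n
  x3 : ∀ n, lo ≤ n → A n * C n ≤ B n * B n
  x4 : ∀ n, lo ≤ n → A (n - 1) * C (n + 1) ≤ B n * B n

/-- the array with the given diagonals -/
def arr (A B C : ℤ → ℤ) (m : ℤ × ℤ) : ℤ :=
  if m.1 = m.2 then C m.1 else if m.1 = m.2 + 1 then B m.2 else if m.2 = m.1 + 1 then B m.1
  else if m.1 = m.2 + 2 then A m.2 else if m.2 = m.1 + 2 then A m.1 else 0

namespace Tri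

variable {A B C : ℤ → ℤ} {lo hA hC : ℤ} (T : Tri A B C lo hA hC)

include T

theorem tA (n : ℤ) : A n = 0 ∨ (lo ≤ n ∧ n ≤ hA ∧ 0 < A n) := by
  rcases lt_or_ge n lo with h | h
  · exact Or.inl (T.lA n h)
  · rcases T.sA n h with h1 | h1
    · exact Or.inl h1.2
    · exact Or.inr ⟨h, h1⟩

theorem tB (n : ℤ) : B n = 0 ∨ (lo ≤ n ∧ n ≤ hA + 1 ∧ 0 < B n) := by
  rcases lt_or_ge n lo with h | h
  · exact Or.inl (T.lB n h)
  · rcases T.sB n h with h1 | h1
    · exact Or.inl h1.2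
    · exact Or.inr ⟨h, h1⟩

theorem tC (n : ℤ) : C n = 0 ∨ (lo ≤ n ∧ n ≤ hC ∧ 0 < C n) := by
  rcases lt_or_ge n lo with h | h
  · exact Or.inl (T.lC n h)
  · rcases T.sC n h with h1 | h1
    · exact Or.inl h1.2
    · exact Or.inr ⟨h, h1⟩

theorem nA (n : ℤ) : 0 ≤ A n := by rcases T.tA n with h | h <;> omega

theorem nB (n : ℤ) : 0 ≤ B n := by rcases T.tB n with h | h <;> omega

theorem nC (n : ℤ) : 0 ≤ C n := by rcases T.tC n with h | h <;> omega

theorem pA {n : ℤ} (h1 : lo ≤ n) (h2 : n ≤ hA) : 0 < A n := by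
  rcases T.sA n h1 with h | h <;> omega

theorem pB {n : ℤ} (h1 : lo ≤ n) (h2 : n ≤ hA + 1) : 0 < B n := by
  rcases T.sB n h1 with h | h <;> omega

theorem pC {n : ℤ} (h1 : lo ≤ n) (h2 : n ≤ hC) : 0 < C n := by
  rcases T.sC n h1 with h | h <;> omega

theorem dCB {n : ℤ} (h : lo ≤ n + 1) : Dom C B (n + 1) n := by
  have := T.rc (n + 1) h
  rwa [add_sub_cancel_right] at this

theorem dBA {n : ℤ} (h : lo ≤ n + 1) : Dom B A (n + 1) n := by
  have := T.rd (n + 1) h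
  rwa [add_sub_cancel_right] at this

theorem dBB {x y : ℤ} (h : y ≤ x) : Dom B B x y := by
  rcases T.tB y with h0 | h0
  · unfold Dom; rw [h0, mul_zero]; exact mul_nonneg (T.nB _) (T.nB _)
  induction x, h using Int.le_induction with
  | base => exact (mul_comm _ _).le
  | succ x hx ih =>
    rcases T.tB (x + 1 + 1) with h1 | h1
    · unfold Dom; rw [h1, zero_mul]; exact mul_nonneg (T.nB _) (T.nB _)
    have hc := T.hc
    exact ((T.rb (x + 1) (by omega)).trans (T.dCB (by omega)) (T.pC (by omega) (by omega))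
      (T.nB _) (T.nB _)).trans ih (T.pB (by omega) (by omega)) (T.nB _) (T.nB _)

theorem dAB {x y : ℤ} (h : y ≤ x) : Dom A B x y := by
  rcases T.tB y with h0 | h0
  · unfold Dom; rw [h0, mul_zero]; exact mul_nonneg (T.nA _) (T.nB _)
  rcases T.tA (x + 1) with h1 | h1
  · unfold Dom; rw [h1, zero_mul]; exact mul_nonneg (T.nA _) (T.nB _)
  exact (T.ra x (by omega)).trans (T.dBB h) (T.pB (by omega) (by omega)) (T.nA _) (T.nB _)

theorem dCB' {x y : ℤ} (h : y < x) : Dom C B x y := by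
  rcases T.tB y with h0 | h0
  · unfold Dom; rw [h0, mul_zero]; exact mul_nonneg (T.nC _) (T.nB _)
  rcases T.tC (x + 1) with h1 | h1
  · unfold Dom; rw [h1, zero_mul]; exact mul_nonneg (T.nC _) (T.nB _)
  have hc := T.hc
  have := T.dCB (n := x - 1) (by omega)
  rw [sub_add_cancel] at this
  exact this.trans (T.dBB (by omega)) (T.pB (by omega) (by omega)) (T.nC _) (T.nB _)

theorem dAA {x y : ℤ} (h : y < x) : Dom A A x y := by
  rcases T.tA y with h0 | h0
  · unfold Dom; rw [h0, mul_zero]; exact mul_nonneg (T.nA _) (T.nA _)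
  exact (T.dAB (y := y + 1) (by omega)).trans (T.dBA (by omega)) (T.pB (by omega) (by omega))
    (T.nA _) (T.nA _)

theorem dCA {x y : ℤ} (h : y + 1 < x) : Dom C A x y := by
  rcases T.tA y with h0 | h0
  · unfold Dom; rw [h0, mul_zero]; exact mul_nonneg (T.nC _) (T.nA _)
  exact (T.dCB' h).trans (T.dBA (by omega)) (T.pB (by omega) (by omega)) (T.nC _) (T.nA _)

theorem dAC {x y : ℤ} (h : y ≤ x) : Dom A C x y := by
  rcases T.tC y with h0 | h0
  · unfold Dom; rw [h0, mul_zero]; exact mul_nonneg (T.nA _) (T.nC _)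
  rcases T.tA (x + 1) with h1 | h1
  · unfold Dom; rw [h1, zero_mul]; exact mul_nonneg (T.nA _) (T.nC _)
  exact (T.dAB h).trans (T.rb y (by omega)) (T.pB (by omega) (by omega)) (T.nA _) (T.nC _)

theorem dCC {x y : ℤ} (h : y < x) : Dom C C x y := by
  rcases T.tC y with h0 | h0
  · unfold Dom; rw [h0, mul_zero]; exact mul_nonneg (T.nC _) (T.nC _)
  rcases T.tC (x + 1) with h1 | h1
  · unfold Dom; rw [h1, zero_mul]; exact mul_nonneg (T.nC _) (T.nC _)
  have hc := T.hc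
  exact (T.dCB' h).trans (T.rb y (by omega)) (T.pB (by omega) (by omega)) (T.nC _) (T.nC _)

omit T in
theorem spread' {f g : ℤ → ℤ} {x y u v : ℤ} {e : ℤ} (h : ∀ s t, t + e ≤ s → Dom f g s t)
    (hx : y - 1 + e ≤ x) (h1 : x ≤ u) (h2 : u + v = x + y) : f u * g v ≤ f x * g y := by
  obtain ⟨k, hk⟩ := Int.eq_ofNat_of_zero_le (sub_nonneg.2 h1)
  have := spread (f := f) (g := g) (x := x) (y := y) (fun t => h _ _ (by omega)) k
  rwa [show x + k = u by omega, show y - k = v by omega] at this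

theorem cAA {u v m : ℤ} (h : u + v = 2 * m) : A u * A v ≤ A m * A m := by
  rcases le_total m u with h1 | h1
  · exact spread' (e := 1) (fun s t h => T.dAA (by omega)) (by omega) h1 (by omega)
  · rw [mul_comm]
    exact spread' (e := 1) (fun s t h => T.dAA (by omega)) (by omega) (by omega) (by omega)

theorem cBB {u v m : ℤ} (h : u + v = 2 * m) : B u * B v ≤ B m * B m := by
  rcases le_total m u with h1 | h1
  · exact spread' (e := 1) (fun s t h => T.dBB (by omega)) (by omega) h1 (by omega)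
  · rw [mul_comm]
    exact spread' (e := 1) (fun s t h => T.dBB (by omega)) (by omega) (by omega) (by omega)

theorem cCC {u v m : ℤ} (h : u + v = 2 * m) : C u * C v ≤ C m * C m := by
  rcases le_total m u with h1 | h1
  · exact spread' (e := 1) (fun s t h => T.dCC (by omega)) (by omega) h1 (by omega)
  · rw [mul_comm]
    exact spread' (e := 1) (fun s t h => T.dCC (by omega)) (by omega) (by omega) (by omega)

theorem cBBC {u v m : ℤ} (h : u + v + 1 = 2 * m) : B u * B v ≤ C m * C m := by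
  have h0 : B m * B (m - 1) ≤ C m * C m := by
    rcases lt_or_ge m lo with h1 | h1
    · rw [T.lB m h1, zero_mul]; exact mul_self_nonneg _
    · exact T.x1 m h1
  refine le_trans ?_ h0
  rcases le_or_gt m u with h1 | h1
  · exact spread' (e := 1) (fun s t h => T.dBB (by omega)) (by omega) h1 (by omega)
  · rw [mul_comm]
    exact spread' (e := 1) (fun s t h => T.dBB (by omega)) (by omega) (by omega) (by omega)

theorem cAAC {u v m : ℤ} (h : u + v + 2 = 2 * m) : A u * A v ≤ C m * C m := by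
  refine (T.cAA (m := m - 1) (by omega)).trans ?_
  rcases lt_or_ge m lo with h1 | h1
  · rw [T.lA (m - 1) (by omega), zero_mul]; exact mul_self_nonneg _
  · exact T.x2 m h1

theorem cACB {u v m : ℤ} (h : u + v = 2 * m) : A u * C v ≤ B m * B m := by
  rcases le_or_gt m u with h1 | h1
  · refine le_trans (spread' (e := 0) (x := m) (y := m) (fun s t h => T.dAC (by omega)) (by omega)
      h1 (by omega)) ?_
    rcases lt_or_ge m lo with h1 | h1
    · rw [T.lA m h1, zero_mul]; exact mul_self_nonneg _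
    · exact T.x3 m h1
  · rw [mul_comm]
    refine le_trans (spread' (e := 2) (x := m + 1) (y := m - 1) (fun s t h => T.dCA (by omega))
      (by omega) (by omega) (by omega)) ?_
    rw [mul_comm]
    rcases lt_or_ge m lo with h1 | h1
    · rw [T.lA (m - 1) (by omega), zero_mul]; exact mul_self_nonneg _
    · exact T.x4 m h1

theorem cCAB {u v m : ℤ} (h : u + v = 2 * m) : C u * A v ≤ B m * B m := by
  rw [mul_comm]; exact T.cACB (by omega)

omit T in
theorem arr_cases (i j : ℤ) :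
    (i = j ∧ arr A B C (i, j) = C i) ∨ (i = j + 1 ∧ arr A B C (i, j) = B j) ∨
    (j = i + 1 ∧ arr A B C (i, j) = B i) ∨ (i = j + 2 ∧ arr A B C (i, j) = A j) ∨
    (j = i + 2 ∧ arr A B C (i, j) = A i) ∨ ((j + 2 < i ∨ i + 2 < j) ∧ arr A B C (i, j) = 0) := by
  unfold arr
  dsimp only
  split_ifs <;> simp_all <;> omega

theorem arr_nn (m : ℤ × ℤ) : 0 ≤ arr A B C m := by
  unfold arr
  split_ifs <;> first | exact T.nA _ | exact T.nB _ | exact T.nC _ | exact le_rfl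

theorem lc (i j k l : ℤ) :
    arr A B C (i + k, j + l) * arr A B C (i - k, j - l) ≤ arr A B C (i, j) ^ 2 := by
  rw [sq]
  rcases arr_cases (A := A) (B := B) (C := C) (i + k) (j + l) with
    ⟨h1, e1⟩ | ⟨h1, e1⟩ | ⟨h1, e1⟩ | ⟨h1, e1⟩ | ⟨h1, e1⟩ | ⟨h1, e1⟩ <;> rw [e1]
  rotate_right
  · rw [zero_mul]; exact mul_self_nonneg _
  all_goals
    rcases arr_cases (A := A) (B := B) (C := C) (i - k) (j - l) with
      ⟨h2, e2⟩ | ⟨h2, e2⟩ | ⟨h2, e2⟩ | ⟨h2, e2⟩ | ⟨h2, e2⟩ | ⟨h2, e2⟩ <;> rw [e2]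
    rotate_right
    · rw [mul_zero]; exact mul_self_nonneg _
    all_goals
      rcases arr_cases (A := A) (B := B) (C := C) i j with
        ⟨h3, e3⟩ | ⟨h3, e3⟩ | ⟨h3, e3⟩ | ⟨h3, e3⟩ | ⟨h3, e3⟩ | ⟨h3, e3⟩ <;> rw [e3] <;>
      first
        | (exfalso; omega)
        | exact T.cAA (by omega)
        | exact T.cBB (by omega)
        | exact T.cCC (by omega)
        | exact T.cBBC (by omega)
        | exact T.cAAC (by omega)
        | exact T.cACB (by omega)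
        | exact T.cCAB (by omega)

theorem supp (i j : ℤ) : arr A B C (i, j) ≠ 0 ↔ lo ≤ i ∧ lo ≤ j ∧ i ≤ hA + 2 ∧ j ≤ hA + 2 ∧
    i + j ≤ hA + hC + 2 ∧ i ≤ j + 2 ∧ j ≤ i + 2 := by
  have hc := T.hc
  rcases arr_cases (A := A) (B := B) (C := C) i j with
    ⟨h1, e1⟩ | ⟨h1, e1⟩ | ⟨h1, e1⟩ | ⟨h1, e1⟩ | ⟨h1, e1⟩ | ⟨h1, e1⟩ <;> rw [e1]
  · exact ⟨fun h => by rcases T.tC i with h0 | h0 <;> omega,
      fun h => (T.pC (by omega) (by omega)).ne'⟩
  · exact ⟨fun h => by rcases T.tB j with h0 | h0 <;> omega,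
      fun h => (T.pB (by omega) (by omega)).ne'⟩
  · exact ⟨fun h => by rcases T.tB i with h0 | h0 <;> omega,
      fun h => (T.pB (by omega) (by omega)).ne'⟩
  · exact ⟨fun h => by rcases T.tA j with h0 | h0 <;> omega,
      fun h => (T.pA (by omega) (by omega)).ne'⟩
  · exact ⟨fun h => by rcases T.tA i with h0 | h0 <;> omega,
      fun h => (T.pA (by omega) (by omega)).ne'⟩
  · exact ⟨fun h => absurd rfl h, fun h => by omega⟩

theorem nice {f : ℤ × ℤ → ℤ} {c : ℤ} (hc : 0 < c) (hf : ∀ m, c * |f m| = arr A B C m) : Nice f := by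
  have h0 : ∀ m, f m ≠ 0 ↔ arr A B C m ≠ 0 := fun m => by
    rw [← hf]; simp [hc.ne']
  refine ⟨fun i j k l => ?_, fun m hm => ?_⟩
  · have := T.lc i j k l
    rw [← hf, ← hf, ← hf] at this
    refine le_of_mul_le_mul_left ?_ (mul_pos hc hc)
    nlinarith
  · let S : Set (ℝ × ℝ) := {p | (lo : ℝ) ≤ p.1 ∧ (lo : ℝ) ≤ p.2 ∧ p.1 ≤ hA + 2 ∧ p.2 ≤ hA + 2 ∧
      p.1 + p.2 ≤ hA + hC + 2 ∧ p.1 ≤ p.2 + 2 ∧ p.2 ≤ p.1 + 2}
    have hS : Convex ℝ S := by
      rintro p ⟨p1, p2, p3, p4, p5, p6, p7⟩ q ⟨q1, q2, q3, q4, q5, q6, q7⟩ a b ha hb hab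
      obtain rfl : b = 1 - a := by linarith
      simp only [S, Set.mem_setOf_eq, Prod.fst_add, Prod.snd_add, Prod.smul_fst, Prod.smul_snd,
        smul_eq_mul]
      refine ⟨?_, ?_, ?_, ?_, ?_, ?_, ?_⟩ <;> nlinarith
    have h1 : ((m.1 : ℝ), (m.2 : ℝ)) ∈ S := by
      refine convexHull_min ?_ hS hm
      rintro _ ⟨⟨i, j⟩, hx, rfl⟩
      have := (T.supp i j).1 ((h0 _).1 hx)
      simp only [S, Set.mem_setOf_eq]
      exact_mod_cast this
    refine (h0 m).2 ((T.supp m.1 m.2).2 ?_)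
    simp only [S, Set.mem_setOf_eq] at h1
    exact_mod_cast h1

end Tri

end Pool.Agent.P.MP_9ed2cf_gt
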