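import Mathlib

set_option autoImplicit false

namespace Pool.Agent.P.MP_9ed2cf_gt.Nz

open Equiv Finset
open scoped Classical

/-- Nodes `A` (pieces of strands, directed from over to under), crossings `V`.  `σ` is the next node
on the Seifert circle, `ty` the type of the circle, `inn t x` the arm of type `t` that enters the
crossing `x`, and `s x` the sign. -/
structure Pl (A V : Type) where
  σ : Perm A
  inn : Bool → V → A
  ty : A → Bool
  s : V → Bool
  inj : ∀ t x t' x', inn t x = inn t' x' → x = x'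
  ty_σ : ∀ a, ty (σ a) = ty a
  ty_inn : ∀ t x, ty (inn t x) = t

/-- number of `x ∈ Q` with `X x = true`, `Y x = false` -/
noncomputable def cn {V : Type} (Q : Finset V) (X Y : V → Bool) : ℕ :=
  (Q.filter fun x => X x = true ∧ Y x = false).card

/-- number of `x ∈ Q` with `χ x ≠ t` -/
noncomputable def nf {V : Type} (Q : Finset V) (χ : V → Bool) (t : Bool) : ℕ :=
  (Q.filter fun x => χ x ≠ t).card

namespace Pl

variable {A V : Type} (P : Pl A V)

def out (t : Bool) (x : V) : A := P.σ (P.inn t x)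

def Pass (a : A) : Prop := ∀ t x, a ≠ P.inn t x

def SC (a a' : A) : Prop := P.σ.SameCycle a a'

def Cons (g : A → ℤ) : Prop :=
  (∀ a, P.Pass a → g (P.σ a) = g a) ∧
    ∀ x, g (P.out false x) + g (P.out true x) = g (P.inn false x) + g (P.inn true x)

/-- functions on the faces whose boundary changes type at the crossings of sign `e` -/
def FaceFn (e : Bool) (W : A → ℤ) : Prop :=
  (∀ a, P.Pass a → W (P.σ a) = W a) ∧
    ∀ t x, W (P.out (if P.s x = e then !t else t) x) = W (P.inn t x)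

def Planar : Prop :=
  ∀ g : A → ℤ, P.Cons g → ∃ L R : A → ℤ, P.FaceFn true L ∧ P.FaceFn false R ∧ ∀ a, L a - R a = g a

noncomputable def nxt (χ : V → Bool) (a : A) : A :=
  if h : ∃ x, a = P.inn (P.ty a) x then P.out (χ h.choose) h.choose else P.σ a

def Reach (χ : V → Bool) (a a' : A) : Prop := ∃ n : ℕ, (P.nxt χ)^[n] a = a'

def Tree (χ : V → Bool) (b : A) : Prop := ∀ a, P.Reach χ a b

def rev : Pl A V where
  σ := P.σ⁻¹
  inn := fun t x => P.σ (P.inn t x)
  ty := P.ty
  s := P.s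
  inj := fun t x t' x' h => P.inj t x t' x' (P.σ.injective h)
  ty_σ := fun a => by rw [← P.ty_σ (P.σ⁻¹ a)]; simp
  ty_inn := fun t x => by rw [P.ty_σ, P.ty_inn]

def neg : Pl A V where
  σ := P.σ
  inn := P.inn
  ty := P.ty
  s := fun x => !P.s x
  inj := P.inj
  ty_σ := P.ty_σ
  ty_inn := P.ty_inn

/-- `d` is the distance of the circles from the circle of `b` -/
structure Dist (b : A) (d : A → ℕ) : Prop where
  d_σ : ∀ a, d (P.σ a) = d a
  d_zero : ∀ a, d a = 0 ↔ P.SC a b
  d_adj : ∀ x, d (P.inn false x) + 1 = d (P.inn true x) ∨ d (P.inn true x) + 1 = d (P.inn false x)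
  d_par : ∀ a, 0 < d a → ∃ t x, P.SC a (P.inn t x) ∧ d (P.inn (!t) x) + 1 = d a

/-- `sd c a` is the side of the circle of `c` on which the node `a` (not on that circle) lies -/
structure Side (sd : A → A → Bool) : Prop where
  sd_c : ∀ c c', P.SC c c' → sd c = sd c'
  sd_σ : ∀ c a, ¬ P.SC c a → sd c (P.σ a) = sd c a
  sd_x : ∀ c x, ¬ P.SC c (P.inn false x) → ¬ P.SC c (P.inn true x) →
    sd c (P.inn false x) = sd c (P.inn true x)
  sd_s : ∀ c t x, P.SC c (P.inn t x) → sd c (P.inn (!t) x) = P.s x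

/-- follow the nearer circle -/
def Z (d : A → ℕ) (x : V) : Bool := decide (d (P.inn true x) < d (P.inn false x))

/-- the circle of `c` is a root for the crossings of sign `e` -/
def Root (sd : A → A → Bool) (b : A) (e : Bool) (c : A) : Prop := P.SC c b ∨ sd c b ≠ e

/-- the crossing `x` is on the positive side of the circle of `c` -/
def PS (sd : A → A → Bool) (c : A) (x : V) : Prop :=
  ∀ t, ¬ P.SC c (P.inn t x) → sd c (P.inn t x) = true

/-- `Q` is a union of components of positive crossings -/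
def Act (Q : Finset V) : Prop :=
  (∀ x ∈ Q, P.s x = true) ∧
    ∀ x ∈ Q, ∀ y t, P.s y = true → P.SC (P.inn t x) (P.inn t y) → y ∈ Q

def Fam (d : A → ℕ) (Q : Finset V) (χ : V → Bool) : Prop := ∀ x, x ∉ Q → χ x = P.Z d x

structure Key (d : A → ℕ) (Q : Finset V) (key : A → ℕ) : Prop where
  k_σ : ∀ a, key (P.σ a) = key a
  k_in : ∀ x ∈ Q, key (P.inn false x) = key (P.inn true x)
  k_out : ∀ x, x ∉ Q → key (P.inn (P.Z d x) x) < key (P.inn (!P.Z d x) x)

def cl (a : A) : Set A := {a' | P.SC a a'}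

/-- number of circles of type `t` that are the farther circle of a crossing in `Q` -/
noncomputable def beta (d : A → ℕ) (Q : Finset V) (t : Bool) : ℕ :=
  ((Q.filter fun x => P.Z d x ≠ t).image fun x => P.cl (P.inn t x)).card

/-- no directed cut: `D1` points to the `true` end, `D2` to the `false` end -/
def NDC (Q D1 D2 : Finset V) : Prop :=
  ∀ T : A → Prop, (∀ a, T (P.σ a) ↔ T a) →
    (∀ x ∈ Q, T (P.inn true x) → ¬ T (P.inn false x) → x ∈ D1) →
    (∀ x ∈ Q, T (P.inn false x) → ¬ T (P.inn true x) → x ∈ D2) →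
    ∀ x ∈ Q, (T (P.inn true x) ↔ T (P.inn false x))

/-- the face permutation that changes type exactly at the crossings in `Q` -/
def IsPhi (Q : Finset V) (φ : Perm A) : Prop :=
  (∀ a, (∀ t, ∀ x ∈ Q, a ≠ P.inn t x) → φ a = P.σ a) ∧
    ∀ t, ∀ x ∈ Q, φ (P.inn t x) = P.out (!t) x

/-- the crossings of `Q` that are not loops -/
noncomputable def nl (Q : Finset V) (φ : Perm A) : Finset V :=
  Q.filter fun x => ¬ φ.SameCycle (P.inn false x) (P.inn true x)

/-- a rank function on the faces -/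
def Rank (Q : Finset V) (φ : Perm A) (r : A → ℕ) : Prop :=
  (∀ a, r (φ a) = r a) ∧ ∀ x ∈ P.nl Q φ, r (P.inn false x) ≠ r (P.inn true x)

noncomputable def asc (Q : Finset V) (r : A → ℕ) : Finset V :=
  Q.filter fun x => r (P.inn false x) < r (P.inn true x)

/-- exit node of a face -/
def Ex (d : A → ℕ) (b : A) (Q : Finset V) (r : A → ℕ) (n : A) : Prop :=
  n = b ∨ ∃ t x, n = P.inn t x ∧
    ((x ∉ Q ∧ P.Z d x ≠ t) ∨ (x ∈ Q ∧ r (P.inn (!t) x) < r (P.inn t x)))

def AllEx (d : A → ℕ) (b : A) (Q : Finset V) (φ : Perm A) (r : A → ℕ) : Prop :=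
  ∀ a, ∃ n, φ.SameCycle a n ∧ P.Ex d b Q r n

/-- a pair of trees equal to `Z` off `Q` with the counts i, j on `Q` -/
def Pair (d : A → ℕ) (b : A) (Q : Finset V) (i j : ℕ) : Prop :=
  ∃ X Y : V → Bool, P.Tree X b ∧ P.rev.Tree Y b ∧ P.Fam d Q X ∧ P.Fam d Q Y ∧
    cn Q X Y = i ∧ cn Q Y X = j

noncomputable def sg [Fintype V] (e : Bool) : Finset V := univ.filter fun x => P.s x = e

noncomputable def sc [Fintype V] (X Y : V → Bool) : ℤ :=
  (cn (P.sg true) X Y : ℤ) - cn (P.sg false) X Y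

def InS [Fintype V] (b : A) (i j : ℤ) : Prop :=
  ∃ X Y : V → Bool, P.Tree X b ∧ P.rev.Tree Y b ∧ i = P.sc X Y ∧ j = P.sc Y X

end Pl

/-- totally cyclic orientation of the edges `E` (`O x = true`: from `f x` to `g x`) -/
def TC {V U : Type} (E : Finset V) (f g : V → U) (O : V → Bool) : Prop :=
  ∀ T : U → Prop, (∃ x ∈ E, ¬ (T (f x) ↔ T (g x))) →
    ∃ x ∈ E, T (if O x then f x else g x) ∧ ¬ T (if O x then g x else f x)

/-- two families of choice functions with the exchange properties -/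
structure FamD {V : Type} (Q : Finset V) (I O : (V → Bool) → Prop) (β : Bool → ℕ)
    (z : V → Bool) : Prop where
  zI : I z
  zO : O z
  offI : ∀ χ, I χ → ∀ x, x ∉ Q → χ x = z x
  offO : ∀ χ, O χ → ∀ x, x ∉ Q → χ x = z x
  lbI : ∀ χ, I χ → ∀ t, β t ≤ nf Q χ t
  lbO : ∀ χ, O χ → ∀ t, β t ≤ nf Q χ t
  flipI : ∀ χ, I χ → ∀ t, β t < nf Q χ t → ∃ x ∈ Q, χ x ≠ t ∧ I (Function.update χ x t)
  flipO : ∀ χ, O χ → ∀ t, β t < nf Q χ t → ∃ x ∈ Q, χ x ≠ t ∧ O (Function.update χ x t)
  arbI : ∀ χ χ', I χ → I χ' → nf Q χ true = β true → nf Q χ' true = β true → χ ≠ χ' →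
    ∃ x ∈ Q, ∃ x' ∈ Q, χ x = false ∧ χ' x = true ∧ χ x' = true ∧ χ' x' = false ∧
      I (Function.update (Function.update χ x true) x' false)
  arbO : ∀ χ χ', O χ → O χ' → nf Q χ false = β false → nf Q χ' false = β false → χ ≠ χ' →
    ∃ x ∈ Q, ∃ x' ∈ Q, χ x = true ∧ χ' x = false ∧ χ x' = false ∧ χ' x' = true ∧
      O (Function.update (Function.update χ x false) x' true)

end Pool.Agent.P.MP_9ed2cf_gt.Nz
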