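import Mathlib
import Pool.Agent.P.MP_9ed2cf_gt.NzDefs

set_option autoImplicit false

namespace Pool.Agent.P.MP_9ed2cf_gt.Nz

open Equiv Finset
open scoped Classical

namespace Pl

variable {A V : Type} {P : Pl A V}

theorem inn_ty {t t' : Bool} {x x' : V} (h : P.inn t x = P.inn t' x') : t = t' := by
  rw [← P.ty_inn t x, h, P.ty_inn]

theorem pass_or (a : A) : P.Pass a ∨ ∃ t x, a = P.inn t x := by
  by_cases h : ∃ t x, a = P.inn t x
  · exact Or.inr h
  · exact Or.inl fun t x e => h ⟨t, x, e⟩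

theorem nxt_inn (χ : V → Bool) (t : Bool) (x : V) : P.nxt χ (P.inn t x) = P.out (χ x) x := by
  have h : ∃ y, P.inn t x = P.inn (P.ty (P.inn t x)) y := ⟨x, by rw [P.ty_inn]⟩
  have e : h.choose = x := (P.inj _ _ _ _ h.choose_spec).symm
  rw [nxt, dif_pos h, e]

theorem nxt_pass (χ : V → Bool) {a : A} (h : P.Pass a) : P.nxt χ a = P.σ a := by
  rw [nxt, dif_neg]
  rintro ⟨x, hx⟩
  exact h _ _ hx

theorem SC.refl (a : A) : P.SC a a := Perm.SameCycle.refl _ _
theorem SC.symm {a a' : A} (h : P.SC a a') : P.SC a' a := Perm.SameCycle.symm h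
theorem SC.trans {a a' a'' : A} (h : P.SC a a') (h' : P.SC a' a'') : P.SC a a'' :=
  Perm.SameCycle.trans h h'
theorem sc_σ_right {a a' : A} : P.SC a (P.σ a') ↔ P.SC a a' := Perm.sameCycle_apply_right
theorem sc_σ_left {a a' : A} : P.SC (P.σ a) a' ↔ P.SC a a' := Perm.sameCycle_apply_left

theorem SC.exists_pow [Fintype A] {a a' : A} (h : P.SC a a') : ∃ n : ℕ, (P.σ ^ n) a = a' := by
  obtain ⟨n, -, hn⟩ := Perm.SameCycle.exists_pow_eq' h
  exact ⟨n, hn⟩

/-- induction along a circle -/
theorem SC.ind [Fintype A] {p : A → Prop} (hp : ∀ a, p a → p (P.σ a)) {a a' : A}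
    (h : P.SC a a') (ha : p a) : p a' := by
  obtain ⟨n, rfl⟩ := h.exists_pow
  clear h
  induction n with
  | zero => simpa using ha
  | succ n ih => rw [pow_succ', Perm.mul_apply]; exact hp _ ih

/-- a function that is invariant under `σ` is constant on circles -/
theorem SC.inv [Fintype A] {β : Type} {F : A → β} (hF : ∀ a, F (P.σ a) = F a) {a a' : A}
    (h : P.SC a a') : F a = F a' :=
  SC.ind (p := fun c => F a = F c) (fun c hc => by rw [hF]; exact hc) h rfl

theorem SC.ty_eq [Fintype A] {a a' : A} (h : P.SC a a') : P.ty a = P.ty a' := SC.inv P.ty_σ h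

theorem not_sc_inn [Fintype A] {c : A} {t : Bool} {x : V} (h : P.SC c (P.inn t x)) :
    ¬ P.SC c (P.inn (!t) x) := fun h' => by
  have := (h.symm.trans h').ty_eq
  rw [P.ty_inn, P.ty_inn] at this
  cases t <;> simp at this

theorem Reach.refl (χ : V → Bool) (a : A) : P.Reach χ a a := ⟨0, rfl⟩
theorem Reach.trans {χ : V → Bool} {a a' a'' : A} (h : P.Reach χ a a') (h' : P.Reach χ a' a'') :
    P.Reach χ a a'' := by
  obtain ⟨n, rfl⟩ := h
  obtain ⟨m, rfl⟩ := h'
  exact ⟨m + n, by rw [Function.iterate_add_apply]⟩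
theorem Reach.head {χ : V → Bool} {a a' : A} (h : P.Reach χ (P.nxt χ a) a') : P.Reach χ a a' :=
  Reach.trans ⟨1, rfl⟩ h

/-- a closed set that is not empty contains the base node -/
theorem Tree.closed {χ : V → Bool} {b : A} (h : P.Tree χ b) {U : A → Prop}
    (hU : ∀ a, U a → a ≠ b → U (P.nxt χ a)) {a : A} (ha : U a) : U b := by
  obtain ⟨n, hn⟩ := h a
  induction n generalizing a with
  | zero => exact hn ▸ ha
  | succ n ih =>
    by_cases e : a = b
    · exact e ▸ ha
    · exact ih (hU a ha e) hn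

theorem Tree.exists_dp {χ : V → Bool} {b : A} (h : P.Tree χ b) :
    ∃ dp : A → ℕ, dp b = 0 ∧ ∀ a, a ≠ b → dp (P.nxt χ a) + 1 = dp a := by
  refine ⟨fun a => Nat.find (h a), (Nat.find_eq_zero _).2 rfl, fun a ha => ?_⟩
  apply le_antisymm
  · have h0 : Nat.find (h a) ≠ 0 := fun e => ha ((Nat.find_eq_zero _).1 e)
    obtain ⟨k, hk⟩ := Nat.exists_eq_succ_of_ne_zero h0
    have h1 := Nat.find_spec (h a)
    rw [hk] at h1
    have := Nat.find_min' (h (P.nxt χ a)) (m := k) h1
    beta_reduce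
    omega
  · exact Nat.find_min' (h a) (Nat.find_spec (h (P.nxt χ a)))

theorem tree_of_pot {χ : V → Bool} {b : A} {β : Type} {lt : β → β → Prop} (wf : WellFounded lt)
    (Φ : A → β) (h : ∀ a, a ≠ b → lt (Φ (P.nxt χ a)) (Φ a)) : P.Tree χ b := by
  intro a
  induction a using (InvImage.wf Φ wf).induction with
  | _ a ih =>
    by_cases e : a = b
    · exact e ▸ Reach.refl χ a
    · exact (ih _ (h a e)).head

/-- walk along a circle until the target or the first crossing that does not follow the circle -/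
theorem walk [Fintype A] (χ : V → Bool) {a a' : A} (h : P.SC a a') :
    ∃ n : ℕ, (∀ k ≤ n, (P.nxt χ)^[k] a = (P.σ ^ k) a) ∧
      ((P.nxt χ)^[n] a = a' ∨ ∃ t x, (P.nxt χ)^[n] a = P.inn t x ∧ χ x ≠ t) := by
  obtain ⟨m, rfl⟩ := h.exists_pow
  clear h
  induction m generalizing a with
  | zero => exact ⟨0, fun k hk => by obtain rfl : k = 0 := by omega
                                     simp, Or.inl (by simp)⟩
  | succ m ih =>
    by_cases hx : ∃ t x, a = P.inn t x ∧ χ x ≠ t
    · exact ⟨0, fun k hk => by obtain rfl : k = 0 := by omega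
                               simp, Or.inr hx⟩
    · have e : P.nxt χ a = P.σ a := by
        rcases pass_or (P := P) a with h | ⟨t, x, rfl⟩
        · exact nxt_pass χ h
        · have : χ x = t := by
            by_contra hne
            exact hx ⟨t, x, rfl, hne⟩
          rw [nxt_inn, this, out]
      obtain ⟨n, h1, h2⟩ := ih (a := P.σ a)
      refine ⟨n + 1, fun k hk => ?_, ?_⟩
      · cases k with
        | zero => simp
        | succ k => rw [Function.iterate_succ_apply, e, h1 k (by omega), pow_succ, Perm.mul_apply]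
      · rw [Function.iterate_succ_apply, e, pow_succ, Perm.mul_apply]
        exact h2

/-- change of a tree -/
theorem Tree.change {χ χ' : V → Bool} {b : A} (h : P.Tree χ b)
    (h' : ∀ x, χ' x ≠ χ x → P.Reach χ' (P.out (χ' x) x) b) : P.Tree χ' b := by
  intro a
  obtain ⟨n, hn⟩ := h a
  induction n generalizing a with
  | zero => exact ⟨0, hn⟩
  | succ n ih =>
    apply Reach.head
    rcases pass_or (P := P) a with hp | ⟨t, x, rfl⟩
    · rw [nxt_pass χ' hp, ← nxt_pass χ hp]
      exact ih _ hn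
    · rw [nxt_inn]
      by_cases e : χ' x = χ x
      · rw [e, ← nxt_inn χ t x]
        exact ih _ hn
      · exact h' x e

/-- a tree that follows the circle of its base is a tree for every base on that circle -/
theorem Tree.rebase [Fintype A] {χ : V → Bool} {b b' : A} (h : P.Tree χ b) (hb : P.SC b b')
    (hf : ∀ t x, P.SC b (P.inn t x) → χ x = t) : P.Tree χ b' := by
  intro a
  refine (h a).trans ?_
  obtain ⟨n, h1, h2 | ⟨t, x, h2, h3⟩⟩ := walk χ hb
  · exact ⟨n, h2⟩
  · refine absurd (hf t x ?_) h3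
    rw [← h2, h1 n le_rfl]
    exact Perm.sameCycle_pow_right.2 (SC.refl b)

theorem nxt_eq_σ {χ : V → Bool} {a c : A} (h : P.nxt χ a = P.σ c) :
    (P.Pass a ∧ a = c) ∨ ∃ t x, a = P.inn t x ∧ c = P.inn (χ x) x := by
  rcases pass_or (P := P) a with hp | ⟨t, x, rfl⟩
  · rw [nxt_pass χ hp] at h
    exact Or.inl ⟨hp, P.σ.injective h⟩
  · rw [nxt_inn] at h
    exact Or.inr ⟨t, x, rfl, (P.σ.injective h).symm⟩

theorem Tree.cut {χ : V → Bool} {c : A} (h : P.Tree χ (P.σ c)) (hc : P.Pass c) : P.Tree χ c := by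
  intro a
  obtain ⟨n, hn⟩ := h (P.nxt χ a)
  rw [← Function.iterate_succ_apply, Function.iterate_succ_apply'] at hn
  rcases nxt_eq_σ hn with ⟨-, e⟩ | ⟨t, x, -, e⟩
  · exact ⟨n, e⟩
  · exact absurd e (hc _ _)

theorem Tree.pot {χ : V → Bool} {c : A} (h : P.Tree χ c) {β : Type} {u : A → β}
    (hu : ∀ a, a ≠ c → u (P.nxt χ a) = u a) (a : A) : u a = u c :=
  h.closed (U := fun e => u a = u e) (fun e he hne => by rw [hu e hne]; exact he) rfl

theorem sum_split [Fintype A] [Fintype V] (g : A → ℤ) (hg : ∀ a, P.Pass a → g a = 0) :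
    ∑ a, g a = ∑ x, (g (P.inn false x) + g (P.inn true x)) := by
  have hi : Function.Injective fun p : V × Bool => P.inn p.2 p.1 := by
    rintro ⟨x, t⟩ ⟨x', t'⟩ h
    exact Prod.ext (P.inj _ _ _ _ h) (inn_ty h)
  have h1 : ∑ a ∈ univ.image (fun p : V × Bool => P.inn p.2 p.1), g a = ∑ a, g a := by
    refine sum_subset (subset_univ _) fun a _ ha => hg a fun t x e => ha ?_
    exact mem_image.2 ⟨(x, t), mem_univ _, e.symm⟩
  rw [← h1, sum_image fun p _ q _ h => hi h, Fintype.sum_prod_type]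
  refine sum_congr rfl fun x _ => ?_
  simp [add_comm]

theorem weak_single [Fintype A] (g : A → ℤ) (c : A) :
    ∑ a, g a * ((if a = c then 1 else 0) - (if P.σ⁻¹ a = c then 1 else 0)) = g c - g (P.σ c) := by
  have : ∀ a, (P.σ⁻¹ a = c) = (a = P.σ c) := fun a => by
    rw [Perm.inv_eq_iff_eq]
  simp only [this]
  simp [mul_sub, sum_sub_distrib]

/-- weak form of the conservation law -/
theorem cons_of_weak [Fintype A] (g : A → ℤ)
    (h : ∀ W : A → ℤ, (∀ x, W (P.inn false x) = W (P.inn true x)) →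
      ∑ a, g a * (W a - W (P.σ⁻¹ a)) = 0) : P.Cons g := by
  constructor
  · intro c hc
    have := h (fun a => if a = c then 1 else 0) fun x => by
      rw [if_neg (hc _ _).symm, if_neg (hc _ _).symm]
    rw [weak_single] at this
    omega
  · intro x
    have := h (fun a => (if a = P.inn false x then 1 else 0) + if a = P.inn true x then 1 else 0)
      fun y => by
        by_cases e : y = x
        · subst e
          have h1 : P.inn false y ≠ P.inn true y := fun h => by simpa using inn_ty h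
          simp [h1, h1.symm]
        · have h1 : ∀ t t', P.inn t y ≠ P.inn t' x := fun t t' h => e (P.inj _ _ _ _ h)
          simp [h1]
    have e1 := weak_single (P := P) g (P.inn false x)
    have e2 := weak_single (P := P) g (P.inn true x)
    have e3 : ∑ a, g a * (((if a = P.inn false x then 1 else 0) +
        if a = P.inn true x then 1 else 0) - ((if P.σ⁻¹ a = P.inn false x then 1 else 0) +
        if P.σ⁻¹ a = P.inn true x then 1 else 0)) = g (P.inn false x) - g (P.σ (P.inn false x)) +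
        (g (P.inn true x) - g (P.σ (P.inn true x))) := by
      rw [← e1, ← e2, ← sum_add_distrib]
      exact sum_congr rfl fun a _ => by ring
    rw [e3] at this
    simp only [out]
    omega

theorem exists_flow [Fintype A] (χ : V → Bool) {U : A → Prop} (hU : ∀ a, U a → U (P.nxt χ a))
    (hne : ∃ a, U a) : ∃ g : A → ℤ, P.Cons g ∧ (∃ a, g a ≠ 0) ∧ (∀ a, g a ≠ 0 → U a) ∧
      ∀ x, g (P.out (!χ x) x) = 0 := by
  have hit : ∀ n a, U a → U ((P.nxt χ)^[n] a) := by
    intro n
    induction n with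
    | zero => exact fun a h => h
    | succ n ih => exact fun a h => ih _ (hU a h)
  let C : Finset A := univ.filter fun a => U a ∧ a ∈ Function.periodicPts (P.nxt χ)
  have hC : ∀ a, a ∈ C ↔ U a ∧ a ∈ Function.periodicPts (P.nxt χ) := fun a => by simp [C]
  have hb := Function.bijOn_periodicPts (f := P.nxt χ)
  have hmap : ∀ a ∈ C, P.nxt χ a ∈ C := fun a ha =>
    (hC _).2 ⟨hU a ((hC a).1 ha).1, hb.mapsTo ((hC a).1 ha).2⟩
  have hinj : ∀ a ∈ C, ∀ a' ∈ C, P.nxt χ a = P.nxt χ a' → a = a' := fun a ha a' ha' e =>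
    hb.injOn ((hC a).1 ha).2 ((hC a').1 ha').2 e
  have himg : C.image (P.nxt χ) = C := by
    apply eq_of_subset_of_card_le
    · intro a ha
      obtain ⟨c, hc, rfl⟩ := mem_image.1 ha
      exact hmap c hc
    · rw [card_image_of_injOn fun a ha a' ha' e => hinj a ha a' ha' e]
  refine ⟨fun a => if a ∈ C then 1 else 0, cons_of_weak _ fun W hW => ?_, ?_, ?_, ?_⟩
  · have e1 : ∑ a, (if a ∈ C then (1 : ℤ) else 0) * (W a - W (P.σ⁻¹ a)) =
        ∑ a ∈ C, W a - ∑ a ∈ C, W (P.σ⁻¹ a) := by
      rw [← sum_sub_distrib]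
      simp
    rw [e1, sub_eq_zero]
    conv_rhs => rw [← himg, sum_image fun a ha a' ha' e => hinj a ha a' ha' e]
    refine sum_congr rfl fun a _ => ?_
    rcases pass_or (P := P) a with hp | ⟨t, x, rfl⟩
    · rw [nxt_pass χ hp]; simp
    · rw [nxt_inn, out]
      cases t <;> cases χ x <;> simp [hW x]
  · obtain ⟨a, ha⟩ := hne
    obtain ⟨i, j, hij, e⟩ := Finite.exists_ne_map_eq_of_infinite fun n : ℕ => (P.nxt χ)^[n] a
    wlog hlt : i < j generalizing i j
    · exact this j i hij.symm e.symm (by omega)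
    refine ⟨(P.nxt χ)^[i] a, ?_⟩
    beta_reduce
    rw [if_pos]
    · simp
    · refine (hC _).2 ⟨hit i a ha, Function.mk_mem_periodicPts (n := j - i) (by omega) ?_⟩
      rw [Function.IsPeriodicPt, Function.IsFixedPt, ← Function.iterate_add_apply,
        Nat.sub_add_cancel hlt.le]
      exact e.symm
  · intro a ha
    by_contra h
    exact ha (if_neg fun hc => h ((hC a).1 hc).1)
  · intro x
    refine if_neg fun hc => ?_
    rw [← himg] at hc
    obtain ⟨c, -, e⟩ := mem_image.1 hc
    rcases nxt_eq_σ e with ⟨hp, e'⟩ | ⟨t, y, -, e'⟩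
    · exact hp _ _ e'
    · have := P.inj _ _ _ _ e'
      subst this
      have := inn_ty e'
      simp at this

theorem Tree.flow_zero [Fintype A] {χ : V → Bool} {b : A} (h : P.Tree χ b) {g : A → ℤ}
    (hg : P.Cons g) (hb : g b = 0) (h0 : ∀ x, g (P.out (!χ x) x) = 0) (a : A) : g a = 0 := by
  obtain ⟨dp, -, hd⟩ := h.exists_dp
  obtain ⟨M, hM⟩ : ∃ M, ∀ a, dp a < M :=
    ⟨univ.sup dp + 1, fun a => Nat.lt_succ_of_le (le_sup (f := dp) (mem_univ a))⟩
  have key : ∀ n a, M ≤ dp a + n → g a = 0 := by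
    intro n
    induction n with
    | zero => intro a ha; have := hM a; omega
    | succ n ih =>
      intro a ha
      have pre : ∀ c, P.nxt χ c = a → g c = 0 := by
        intro c hc
        by_cases e : c = b
        · rw [e, hb]
        · have := hd c e
          rw [hc] at this
          exact ih c (by omega)
      obtain ⟨c, rfl⟩ := P.σ.surjective a
      rcases pass_or (P := P) c with hp | ⟨t, x, rfl⟩
      · rw [hg.1 c hp]
        exact pre c (nxt_pass χ hp)
      · by_cases e : χ x = t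
        · have h1 := pre (P.inn false x) (by rw [nxt_inn, e, out])
          have h2 := pre (P.inn true x) (by rw [nxt_inn, e, out])
          have h3 := hg.2 x
          have h4 := h0 x
          rw [e] at h4
          cases t <;> simp only [out, Bool.not_false, Bool.not_true] at h3 h4 ⊢ <;> omega
        · have h4 := h0 x
          have : (!χ x) = t := by cases t <;> simpa using e
          rw [this] at h4
          exact h4
  exact key M a (by omega)

theorem exists_phi (P : Pl A V) (Q : Finset V) : ∃ φ : Perm A, P.IsPhi Q φ := by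
  let τ : A → A := fun a =>
    if h : ∃ x ∈ Q, a = P.inn (P.ty a) x then P.inn (!P.ty a) h.choose else a
  have h1 : ∀ t, ∀ x ∈ Q, τ (P.inn t x) = P.inn (!t) x := by
    intro t x hx
    have h : ∃ y ∈ Q, P.inn t x = P.inn (P.ty (P.inn t x)) y := ⟨x, hx, by rw [P.ty_inn]⟩
    have e : h.choose = x := (P.inj _ _ _ _ h.choose_spec.2).symm
    simp only [τ]
    rw [dif_pos h, e, P.ty_inn]
  have h2 : ∀ a, (∀ t, ∀ x ∈ Q, a ≠ P.inn t x) → τ a = a := by
    intro a ha
    simp only [τ]
    rw [dif_neg]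
    rintro ⟨x, hx, e⟩
    exact ha _ x hx e
  have hinv : Function.Involutive τ := by
    intro a
    by_cases h : ∃ t, ∃ x ∈ Q, a = P.inn t x
    · obtain ⟨t, x, hx, rfl⟩ := h
      rw [h1 t x hx, h1 _ x hx, Bool.not_not]
    · have : τ a = a := h2 a fun t x hx e => h ⟨t, x, hx, e⟩
      rw [this, this]
  refine ⟨P.σ * hinv.toPerm τ, fun a ha => ?_, fun t x hx => ?_⟩
  · rw [Perm.mul_apply, Function.Involutive.coe_toPerm, h2 a ha]
  · rw [Perm.mul_apply, Function.Involutive.coe_toPerm, h1 t x hx, out]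

/-! reversal and change of signs -/

theorem rev_rev (P : Pl A V) : P.rev.rev = P := by
  cases P
  simp [rev]
theorem rev_σ : P.rev.σ = P.σ⁻¹ := rfl
theorem rev_inn (t : Bool) (x : V) : P.rev.inn t x = P.out t x := rfl
theorem rev_out (t : Bool) (x : V) : P.rev.out t x = P.inn t x := by simp [out, rev]
theorem rev_sc {a a' : A} : P.rev.SC a a' ↔ P.SC a a' := Perm.sameCycle_inv
theorem rev_pass {a : A} : P.rev.Pass a ↔ P.Pass (P.σ⁻¹ a) := by
  refine forall_congr' fun t => forall_congr' fun x => not_congr ?_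
  rw [Perm.inv_eq_iff_eq]
  rfl
theorem σ_inv_inv {β : Type} {F : A → β} (h : ∀ a, F (P.σ a) = F a) (a : A) :
    F (P.σ⁻¹ a) = F a := by
  rw [← h (P.σ⁻¹ a)]; simp
theorem FaceFn.rev {e : Bool} {W : A → ℤ} (h : P.FaceFn e W) : P.rev.FaceFn e W := by
  constructor
  · intro a ha
    have := h.1 _ (rev_pass.1 ha)
    rw [rev_σ, ← this]; simp
  · intro t x
    rw [rev_out, rev_inn]
    have := h.2 (if P.s x = e then !t else t) x
    change _ = W (P.out t x)
    change W (P.inn (if P.s x = e then !t else t) x) = _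
    rw [← this]
    by_cases hs : P.s x = e <;> simp [hs]
theorem Planar.rev (h : P.Planar) : P.rev.Planar := by
  intro g hg
  have : P.Cons g := by
    constructor
    · intro a ha
      have := hg.1 (P.σ a) (rev_pass.2 (by simpa using ha))
      rw [← this, rev_σ]; simp
    · intro x
      have := hg.2 x
      simp only [rev_out, rev_inn] at this
      exact this.symm
  obtain ⟨L, R, hL, hR, e⟩ := h g this
  exact ⟨L, R, hL.rev, hR.rev, e⟩
theorem Planar.neg (h : P.Planar) : P.neg.Planar := by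
  intro g hg
  obtain ⟨L, R, hL, hR, e⟩ := h g hg
  refine ⟨fun a => -R a, fun a => -L a, ⟨fun a ha => ?_, fun t x => ?_⟩,
    ⟨fun a ha => ?_, fun t x => ?_⟩, fun a => ?_⟩
  · exact congrArg Neg.neg (hR.1 a ha)
  · have := hR.2 t x
    refine congrArg Neg.neg (Eq.trans ?_ this)
    change R (P.out (if (!P.s x) = true then !t else t) x) = _
    cases P.s x <;> simp
  · exact congrArg Neg.neg (hL.1 a ha)
  · have := hL.2 t x
    refine congrArg Neg.neg (Eq.trans ?_ this)
    change L (P.out (if (!P.s x) = false then !t else t) x) = _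
    cases P.s x <;> simp
  · have := e a
    beta_reduce
    omega
theorem Dist.rev {b : A} {d : A → ℕ} (h : P.Dist b d) : P.rev.Dist b d where
  d_σ := σ_inv_inv h.d_σ
  d_zero := fun a => (h.d_zero a).trans rev_sc.symm
  d_adj := fun x => by simpa only [rev_inn, out, h.d_σ] using h.d_adj x
  d_par := fun a ha => by
    obtain ⟨t, x, h1, h2⟩ := h.d_par a ha
    exact ⟨t, x, rev_sc.2 (sc_σ_right.2 h1), by rw [rev_inn, out, h.d_σ]; exact h2⟩
theorem Dist.neg {b : A} {d : A → ℕ} (h : P.Dist b d) : P.neg.Dist b d :=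
  ⟨h.d_σ, h.d_zero, h.d_adj, h.d_par⟩
theorem Side.rev [Fintype A] {sd : A → A → Bool} (h : P.Side sd) : P.rev.Side sd where
  sd_c := fun c c' e => h.sd_c c c' (rev_sc.1 e)
  sd_σ := fun c a ha => by
    have := h.sd_σ c (P.σ⁻¹ a) fun e => ha (rev_sc.2 (by simpa using sc_σ_right.2 e))
    rw [rev_σ, ← this]; simp
  sd_x := fun c x h1 h2 => by
    have h1' : ¬ P.SC c (P.inn false x) := fun e => h1 (rev_sc.2 (sc_σ_right.2 e))
    have h2' : ¬ P.SC c (P.inn true x) := fun e => h2 (rev_sc.2 (sc_σ_right.2 e))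
    rw [rev_inn, rev_inn, out, out, h.sd_σ c _ h1', h.sd_σ c _ h2', h.sd_x c x h1' h2']
  sd_s := fun c t x h1 => by
    have h1' : P.SC c (P.inn t x) := sc_σ_right.1 (rev_sc.1 h1)
    rw [rev_inn, out, h.sd_σ c _ (not_sc_inn h1')]
    exact h.sd_s c t x h1'
theorem Side.neg {sd : A → A → Bool} (h : P.Side sd) : P.neg.Side fun c a => !sd c a where
  sd_c := fun c c' e => by rw [h.sd_c c c' e]
  sd_σ := fun c a ha => congrArg not (h.sd_σ c a ha)
  sd_x := fun c x h1 h2 => congrArg not (h.sd_x c x h1 h2)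
  sd_s := fun c t x h1 => congrArg not (h.sd_s c t x h1)
theorem rev_Z {d : A → ℕ} (h : ∀ a, d (P.σ a) = d a) : P.rev.Z d = P.Z d := by
  funext x
  simp only [Z, rev_inn, out, h]
theorem rev_fam {d : A → ℕ} (h : ∀ a, d (P.σ a) = d a) {Q : Finset V} {χ : V → Bool} :
    P.rev.Fam d Q χ ↔ P.Fam d Q χ := by
  rw [Fam, Fam, rev_Z h]
theorem rev_cl (t : Bool) (x : V) : P.rev.cl (P.rev.inn t x) = P.cl (P.inn t x) := by
  ext a
  exact rev_sc.trans sc_σ_left
theorem rev_beta {d : A → ℕ} (h : ∀ a, d (P.σ a) = d a) (Q : Finset V) (t : Bool) :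
    P.rev.beta d Q t = P.beta d Q t := by
  simp only [beta, rev_Z h, rev_cl]
theorem rev_root {sd : A → A → Bool} {b c : A} {e : Bool} :
    P.rev.Root sd b e c ↔ P.Root sd b e c := or_congr rev_sc Iff.rfl
theorem rev_ps [Fintype A] {sd : A → A → Bool} (h : P.Side sd) {c : A} {x : V} :
    P.rev.PS sd c x ↔ P.PS sd c x := by
  refine forall_congr' fun t => ?_
  rw [rev_sc, rev_inn, out, sc_σ_right]
  refine forall_congr' fun ht => ?_
  rw [h.sd_σ c _ ht]
theorem Act.rev {Q : Finset V} (h : P.Act Q) : P.rev.Act Q :=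
  ⟨h.1, fun x hx y t hy e => h.2 x hx y t hy (sc_σ_left.1 (sc_σ_right.1 (rev_sc.1 e)))⟩
theorem Key.rev {d key : A → ℕ} (hd : ∀ a, d (P.σ a) = d a) {Q : Finset V} (h : P.Key d Q key) :
    P.rev.Key d Q key where
  k_σ := σ_inv_inv h.k_σ
  k_in := fun x hx => by simpa only [rev_inn, out, h.k_σ] using h.k_in x hx
  k_out := fun x hx => by simpa only [rev_inn, out, h.k_σ, rev_Z hd] using h.k_out x hx
theorem NDC.rev {Q D1 D2 : Finset V} (h : P.NDC Q D1 D2) : P.rev.NDC Q D1 D2 := by
  intro T hT h1 h2 x hx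
  have hT' : ∀ a, T (P.σ a) ↔ T a := fun a => by
    have := hT (P.σ a)
    rw [rev_σ] at this
    simpa using this.symm
  simp only [rev_inn, out, hT'] at h1 h2 ⊢
  exact h T hT' h1 h2 x hx
theorem rev_ndc {Q D1 D2 : Finset V} : P.rev.NDC Q D1 D2 ↔ P.NDC Q D1 D2 :=
  ⟨fun h => by simpa only [rev_rev] using h.rev, NDC.rev⟩
theorem NDC.swap {Q D1 D2 : Finset V} (h : P.NDC Q D1 D2) : P.NDC Q D2 D1 := by
  intro T hT h1 h2 x hx
  have := h (fun a => ¬ T a) (fun a => not_congr (hT a))
    (fun y hy e1 e2 => h2 y hy (not_not.1 e2) e1) (fun y hy e1 e2 => h1 y hy (not_not.1 e2) e1) x hx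
  exact not_iff_not.1 this
theorem NDC.mono {Q D1 D2 D1' D2' : Finset V} (h : P.NDC Q D1 D2) (h1 : D1' ⊆ D1)
    (h2 : D2' ⊆ D2) : P.NDC Q D1' D2' := fun T hT e1 e2 =>
  h T hT (fun y hy a b => h1 (e1 y hy a b)) fun y hy a b => h2 (e2 y hy a b)
theorem IsPhi.rev {Q : Finset V} {φ : Perm A} (h : P.IsPhi Q φ) : P.rev.IsPhi Q φ⁻¹ := by
  constructor
  · intro a ha
    rw [Perm.inv_eq_iff_eq, rev_σ, h.1]
    · simp
    · intro t x hx e
      exact ha t x hx (Perm.inv_eq_iff_eq.1 e)
  · intro t x hx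
    rw [Perm.inv_eq_iff_eq, rev_out, h.2 _ x hx, Bool.not_not, rev_inn]
theorem IsPhi.rev_nl {Q : Finset V} {φ : Perm A} (h : P.IsPhi Q φ) :
    P.rev.nl Q φ⁻¹ = P.nl Q φ := by
  ext x
  simp only [nl, mem_filter]
  refine and_congr_right fun hx => not_congr ?_
  have e1 := h.2 true x hx
  have e2 := h.2 false x hx
  simp only [Bool.not_true, Bool.not_false] at e1 e2
  rw [Perm.sameCycle_inv, rev_inn, rev_inn, ← e1, ← e2, Perm.sameCycle_apply_left,
    Perm.sameCycle_apply_right, Perm.sameCycle_comm]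
theorem neg_tree {χ : V → Bool} {b : A} : P.neg.Tree χ b ↔ P.Tree χ b := Iff.rfl
theorem neg_rev (P : Pl A V) : P.neg.rev = P.rev.neg := rfl
theorem act_sg [Fintype V] (P : Pl A V) : P.Act (P.sg true) :=
  ⟨fun x hx => by simpa [sg] using hx, fun x _ y t hy _ => by simpa [sg] using hy⟩

end Pl

end Pool.Agent.P.MP_9ed2cf_gt.Nz
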