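import Mathlib
import Pool.Agent.P.MP_9ed2cf_gt.NzBasic

set_option autoImplicit false

namespace Pool.Agent.P.MP_9ed2cf_gt.Nz

open Equiv Finset
open scoped Classical

namespace Pl

variable {A V : Type} {P : Pl A V}

/-- the circle of `a` is joined to the circle of `b` through `n` crossings -/
def pkLev (P : Pl A V) (b : A) : ℕ → A → Prop
  | 0, a => P.SC a b
  | n + 1, a => ∃ t x, P.SC a (P.inn t x) ∧ pkLev P b n (P.inn (!t) x)

theorem pk_lev_sc {b a a' : A} {n : ℕ} (h : P.SC a a') (h' : pkLev P b n a') : pkLev P b n a := by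
  cases n with
  | zero => exact SC.trans h h'
  | succ n =>
    obtain ⟨t, x, h1, h2⟩ := h'
    exact ⟨t, x, SC.trans h h1, h2⟩

theorem pk_sc_σ (a : A) : P.SC a (P.σ a) := sc_σ_right.mpr (SC.refl a)

theorem pk_not {t t' : Bool} (h : t' ≠ t) : t' = !t := by
  cases t <;> cases t' <;> simp_all

theorem pk_lev_inn {b : A} {t t' : Bool} {x : V} (h : ∃ n, pkLev P b n (P.inn t x)) :
    ∃ n, pkLev P b n (P.inn t' x) := by
  by_cases e : t = t'
  · rw [← e]; exact h
  · obtain ⟨n, hn⟩ := h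
    refine ⟨n + 1, t', x, SC.refl _, ?_⟩
    rw [← pk_not e]
    exact hn

theorem pk_lev_nxt (χ : V → Bool) (b a : A) :
    (∃ n, pkLev P b n (P.nxt χ a)) ↔ ∃ n, pkLev P b n a := by
  have hσ : ∀ a, (∃ n, pkLev P b n (P.σ a)) ↔ ∃ n, pkLev P b n a := fun a =>
    ⟨fun ⟨n, h⟩ => ⟨n, pk_lev_sc (pk_sc_σ a) h⟩,
      fun ⟨n, h⟩ => ⟨n, pk_lev_sc (SC.symm (pk_sc_σ a)) h⟩⟩
  rcases pass_or (P := P) a with h | ⟨t, x, rfl⟩
  · rw [nxt_pass χ h, hσ]
  · rw [nxt_inn]
    exact (hσ _).trans ⟨pk_lev_inn, pk_lev_inn⟩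

theorem pk_z_iff {b : A} {d : A → ℕ} (hd : P.Dist b d) {t : Bool} {x : V} :
    P.Z d x ≠ t ↔ d (P.inn (!t) x) < d (P.inn t x) := by
  have h := hd.d_adj x
  unfold Z
  cases t
  · simp
  · simp only [ne_eq, decide_eq_true_eq, Bool.not_true]
    omega

theorem pk_adj {b : A} {d : A → ℕ} (hd : P.Dist b d) (t : Bool) (x : V) :
    d (P.inn t x) ≤ d (P.inn (!t) x) + 1 := by
  have h := hd.d_adj x
  cases t
  · simp only [Bool.not_false]
    omega
  · simp only [Bool.not_true]
    omega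

theorem pk_sd_x {sd : A → A → Bool} (hs : P.Side sd) {c : A} {t : Bool} {x : V}
    (h1 : ¬ P.SC c (P.inn t x)) (h2 : ¬ P.SC c (P.inn (!t) x)) :
    sd c (P.inn (!t) x) = sd c (P.inn t x) := by
  cases t
  · exact (hs.sd_x c x h1 h2).symm
  · exact hs.sd_x c x h2 h1

variable [Fintype A] [Fintype V]

omit [Fintype V] in
theorem pk_lev_par {b : A} (n : ℕ) : ∀ a, pkLev P b n a → (P.ty a = P.ty b ↔ n % 2 = 0) := by
  induction n with
  | zero => intro a h; exact ⟨fun _ => rfl, fun _ => SC.ty_eq h⟩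
  | succ n ih =>
    rintro a ⟨t, x, h1, h2⟩
    have e1 := SC.ty_eq h1
    have e2 := ih _ h2
    rw [P.ty_inn] at e1 e2
    rw [e1]
    have e3 : (t = P.ty b) ↔ ¬ ((!t) = P.ty b) := by
      cases t <;> cases P.ty b <;> simp
    rw [e3, e2]
    omega

omit [Fintype V] in
theorem pk_sd_sc {sd : A → A → Bool} (hs : P.Side sd) {c a a' : A} (h : ¬ P.SC c a)
    (h' : P.SC a a') : ¬ P.SC c a' ∧ sd c a' = sd c a :=
  SC.ind (p := fun a' => ¬ P.SC c a' ∧ sd c a' = sd c a)
    (fun y hy => ⟨fun e => hy.1 (sc_σ_right.mp e), (hs.sd_σ c y hy.1).trans hy.2⟩) h' ⟨h, rfl⟩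

theorem exists_dist {χ : V → Bool} {b : A} (h : P.Tree χ b) (b' : A) : ∃ d, P.Dist b' d := by
  have h1 : ∀ n a, (∃ k, pkLev P b' k ((P.nxt χ)^[n] a)) ↔ ∃ k, pkLev P b' k a := by
    intro n
    induction n with
    | zero => intro a; rfl
    | succ n ih =>
      intro a
      rw [Function.iterate_succ_apply, ih, pk_lev_nxt]
  have h2 : ∀ a, (∃ k, pkLev P b' k b) ↔ ∃ k, pkLev P b' k a := by
    intro a
    obtain ⟨n, hn⟩ := h a
    rw [← h1 n a, hn]
  have h3 : ∀ a, ∃ k, pkLev P b' k a := fun a => (h2 a).mp ((h2 b').mpr ⟨0, SC.refl b'⟩)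
  obtain ⟨d, hs, hm⟩ : ∃ d : A → ℕ, (∀ a, pkLev P b' (d a) a) ∧
      ∀ a n, pkLev P b' n a → d a ≤ n :=
    ⟨fun a => Nat.find (h3 a), fun a => Nat.find_spec (h3 a), fun a n hn => Nat.find_min' (h3 a) hn⟩
  refine ⟨d, fun a => le_antisymm (hm _ _ (pk_lev_sc (SC.symm (pk_sc_σ a)) (hs a)))
    (hm _ _ (pk_lev_sc (pk_sc_σ a) (hs _))), fun a => ⟨fun e => ?_, fun e => ?_⟩, fun x => ?_,
    fun a ha => ?_⟩
  · have := hs a
    rw [e] at this
    exact this
  · exact Nat.le_zero.mp (hm a 0 e)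
  · have e1 : d (P.inn false x) ≤ d (P.inn true x) + 1 :=
      hm _ _ ⟨false, x, SC.refl _, hs _⟩
    have e2 : d (P.inn true x) ≤ d (P.inn false x) + 1 :=
      hm _ _ ⟨true, x, SC.refl _, hs _⟩
    have e3 := pk_lev_par _ _ (hs (P.inn false x))
    have e4 := pk_lev_par _ _ (hs (P.inn true x))
    rw [P.ty_inn] at e3 e4
    have e5 : d (P.inn false x) ≠ d (P.inn true x) := by
      intro e
      rw [e, ← e4] at e3
      cases hb : P.ty b' <;> rw [hb] at e3 <;> simp at e3
    omega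
  · obtain ⟨n, hn⟩ : ∃ n, d a = n + 1 := ⟨d a - 1, by omega⟩
    have e := hs a
    rw [hn] at e
    obtain ⟨t, x, e1, e2⟩ := e
    refine ⟨t, x, e1, ?_⟩
    have e3 := hm _ _ e2
    have e4 : d a ≤ d (P.inn (!t) x) + 1 := hm _ _ ⟨t, x, e1, hs _⟩
    omega

omit [Fintype V] in
theorem pk_side (h : P.Planar) (c : A) : ∃ f : A → Bool, (∀ a, f (P.σ a) = f a) ∧
    (∀ x, ¬ P.SC c (P.inn false x) → ¬ P.SC c (P.inn true x) →
      f (P.inn false x) = f (P.inn true x)) ∧
    ∀ t x, P.SC c (P.inn t x) → f (P.inn (!t) x) = P.s x := by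
  obtain ⟨g, hg⟩ : ∃ g : A → ℤ, ∀ a, g a = if P.SC c a then 1 else 0 := ⟨_, fun _ => rfl⟩
  have gσ : ∀ a, g (P.σ a) = g a := by
    intro a
    rw [hg, hg, sc_σ_right]
  obtain ⟨L, R, hL, hR, hLR⟩ := h g ⟨fun a _ => gσ a, fun x => by
    unfold out
    rw [gσ, gσ]⟩
  have Rσ : ∀ a, R (P.σ a) = R a := by
    intro a
    rcases pass_or (P := P) a with ha | ⟨t, x, rfl⟩
    · exact hR.1 a ha
    · cases hx : P.s x
      · have e1 := hL.2 t x
        rw [hx, if_neg (by simp)] at e1
        have e2 := hLR (P.σ (P.inn t x))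
        have e3 := hLR (P.inn t x)
        have e4 := gσ (P.inn t x)
        unfold out at e1
        omega
      · have e1 := hR.2 t x
        rw [hx, if_neg (by simp)] at e1
        exact e1
  have Lσ : ∀ a, L (P.σ a) = L a := by
    intro a
    have e1 := Rσ a
    have e2 := hLR (P.σ a)
    have e3 := hLR a
    have e4 := gσ a
    omega
  have hLx : ∀ t x, P.s x = true → L (P.inn (!t) x) = L (P.inn t x) := by
    intro t x hx
    have e1 := hL.2 t x
    rw [if_pos hx] at e1
    rw [← e1]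
    exact (Lσ _).symm
  have hRx : ∀ t x, P.s x = false → R (P.inn (!t) x) = R (P.inn t x) := by
    intro t x hx
    have e1 := hR.2 t x
    rw [if_pos hx] at e1
    rw [← e1]
    exact (Rσ _).symm
  refine ⟨fun a => decide (R c < L a), fun a => by simp only [Lσ], fun x h1 h2 => ?_,
    fun t x h1 => ?_⟩
  · have e : L (P.inn false x) = L (P.inn true x) := by
      cases hx : P.s x
      · have e1 : R (P.inn false x) = R (P.inn true x) := hRx true x hx
        have e2 := hLR (P.inn false x)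
        have e3 := hLR (P.inn true x)
        rw [hg, if_neg h1] at e2
        rw [hg, if_neg h2] at e3
        omega
      · exact hLx true x hx
    simp only [e]
  · have e0 : R c = R (P.inn t x) := SC.inv Rσ h1
    have e2 := hLR (P.inn t x)
    have e3 := hLR (P.inn (!t) x)
    rw [hg, if_pos h1] at e2
    rw [hg, if_neg (not_sc_inn h1)] at e3
    cases hx : P.s x
    · have e1 := hRx t x hx
      exact decide_eq_false (by omega)
    · have e1 := hLx t x hx
      exact decide_eq_true (by omega)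

theorem exists_side (h : P.Planar) : ∃ sd, P.Side sd := by
  have h1 : ∀ S : Set A, ∃ f : A → Bool, (∃ c, S = P.cl c) → (∀ a, f (P.σ a) = f a) ∧
      (∀ x, P.inn false x ∉ S → P.inn true x ∉ S → f (P.inn false x) = f (P.inn true x)) ∧
      ∀ t x, P.inn t x ∈ S → f (P.inn (!t) x) = P.s x := by
    intro S
    by_cases hS : ∃ c, S = P.cl c
    · obtain ⟨c, rfl⟩ := hS
      obtain ⟨f, hf⟩ := pk_side h c
      exact ⟨f, fun _ => hf⟩
    · exact ⟨fun _ => true, fun e => absurd e hS⟩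
  choose F hF using h1
  refine ⟨fun c => F (P.cl c), fun c c' hc => ?_, fun c a _ => (hF _ ⟨c, rfl⟩).1 a,
    fun c x => (hF _ ⟨c, rfl⟩).2.1 x, fun c t x => (hF _ ⟨c, rfl⟩).2.2 t x⟩
  have e : P.cl c = P.cl c' := Set.ext fun a =>
    ⟨fun ha => SC.trans (SC.symm hc) ha, fun ha => SC.trans hc ha⟩
  simp only [e]

variable {b : A} {d : A → ℕ} {sd : A → A → Bool}

theorem sep (hd : P.Dist b d) (hs : P.Side sd) {c a : A} (h : ¬ P.SC c a)
    (h' : P.SC c b ∨ sd c a ≠ sd c b) : d c < d a := by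
  induction hn : d a using Nat.strong_induction_on generalizing a with
  | _ n ih =>
    by_cases h0 : d a = 0
    · have e := pk_sd_sc hs h ((hd.d_zero a).mp h0)
      rcases h' with h' | h'
      · exact absurd h' e.1
      · exact absurd e.2.symm h'
    · obtain ⟨t, x, e1, e2⟩ := hd.d_par a (by omega)
      by_cases hc : P.SC c (P.inn (!t) x)
      · have := SC.inv hd.d_σ hc
        omega
      · have e3 := pk_sd_sc hs h e1
        have e4 := pk_sd_x hs e3.1 hc
        have := ih (d (P.inn (!t) x)) (by omega) hc (by rw [e4, e3.2]; exact h') rfl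
        omega

/-- the crossings that lead to a nearer circle have the sign of the side of the base -/
theorem sign_near (hd : P.Dist b d) (hs : P.Side sd) {c : A} {t : Bool} {x : V}
    (h : P.SC c (P.inn t x)) (hz : P.Z d x ≠ t) : ¬ P.SC c b ∧ P.s x = sd c b := by
  have e1 := (pk_z_iff hd).mp hz
  have e2 := SC.inv hd.d_σ h
  have e3 : ¬ (P.SC c b ∨ sd c (P.inn (!t) x) ≠ sd c b) := fun e => by
    have := sep hd hs (not_sc_inn h) e
    omega
  rw [hs.sd_s c t x h] at e3
  exact ⟨fun e => e3 (Or.inl e), by_contra fun e => e3 (Or.inr e)⟩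

theorem z_root (hd : P.Dist b d) (hs : P.Side sd) {c : A} {t : Bool} {x : V}
    (h : P.SC c (P.inn t x)) (hr : P.Root sd b (P.s x) c) : P.Z d x = t := by
  by_contra hz
  have e := sign_near hd hs h hz
  rcases hr with hr | hr
  · exact e.1 hr
  · exact hr e.2.symm

theorem z_tree (hd : P.Dist b d) : P.Tree (P.Z d) b := by
  intro a
  induction hn : d a using Nat.strong_induction_on generalizing a with
  | _ n ih =>
    have key : ∀ k t x, (P.nxt (P.Z d))^[k] a = (P.σ ^ k) a → (P.nxt (P.Z d))^[k] a = P.inn t x →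
        P.Z d x ≠ t → P.Reach (P.Z d) a b := by
      intro k t x h1 h2 h3
      have e1 : P.SC a (P.inn t x) := ⟨k, by rw [← h2, h1, zpow_natCast]⟩
      have e2 := SC.inv hd.d_σ e1
      have e3 := (pk_z_iff hd).mp h3
      refine Reach.trans ⟨k, h2⟩ (Reach.head ?_)
      rw [nxt_inn, pk_not h3]
      refine ih (d (P.out (!t) x)) ?_ _ rfl
      unfold out
      rw [hd.d_σ]
      omega
    by_cases h0 : d a = 0
    · obtain ⟨k, h1, h2 | ⟨t, x, h2, h3⟩⟩ := walk (P.Z d) ((hd.d_zero a).mp h0)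
      · exact ⟨k, h2⟩
      · exact key k t x (h1 k le_rfl) h2 h3
    · obtain ⟨t, x, e1, e2⟩ := hd.d_par a (by omega)
      obtain ⟨k, h1, h2 | ⟨t', x', h2, h3⟩⟩ := walk (P.Z d) e1
      · refine key k t x (h1 k le_rfl) h2 ((pk_z_iff hd).mpr ?_)
        have := SC.inv hd.d_σ e1
        omega
      · exact key k t' x' (h1 k le_rfl) h2 h3

theorem acc (hs : P.Side sd) {χ : V → Bool} (h : P.Tree χ b) {e : Bool} {T : A → Prop}
    (hT : ∀ a, T (P.σ a) ↔ T a) (hne : ∃ a, T a) (hr : ∀ a, T a → ¬ P.Root sd b e a) :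
    ∃ t x, T (P.inn t x) ∧ ¬ T (P.inn (!t) x) ∧ P.s x = e ∧ χ x ≠ t := by
  by_contra hn
  have hσ : ∀ a, (T a ∨ ∃ c, T c ∧ ¬ P.SC c a ∧ sd c a ≠ e) →
      T (P.σ a) ∨ ∃ c, T c ∧ ¬ P.SC c (P.σ a) ∧ sd c (P.σ a) ≠ e := by
    rintro a (ha | ⟨c, h1, h2, h3⟩)
    · exact Or.inl ((hT a).mpr ha)
    · exact Or.inr ⟨c, h1, fun e => h2 (sc_σ_right.mp e), by rw [hs.sd_σ c a h2]; exact h3⟩
  obtain ⟨a0, ha0⟩ := hne
  have hb := Tree.closed h (U := fun a => T a ∨ ∃ c, T c ∧ ¬ P.SC c a ∧ sd c a ≠ e)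
    (by
      intro a ha _
      rcases pass_or (P := P) a with hp | ⟨t, x, rfl⟩
      · rw [nxt_pass χ hp]
        exact hσ a ha
      · rw [nxt_inn]
        refine hσ _ ?_
        by_cases hx : χ x = t
        · rw [hx]
          exact ha
        · rw [pk_not hx]
          rcases ha with ha | ⟨c, h1, h2, h3⟩
          · by_cases h' : T (P.inn (!t) x)
            · exact Or.inl h'
            · refine Or.inr ⟨P.inn t x, ha, not_sc_inn (SC.refl _), ?_⟩
              rw [hs.sd_s _ t x (SC.refl _)]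
              exact fun e => hn ⟨t, x, ha, h', e, hx⟩
          · by_cases hc : P.SC c (P.inn (!t) x)
            · exact Or.inl (SC.ind (fun y hy => (hT y).mpr hy) hc h1)
            · exact Or.inr ⟨c, h1, hc, by rw [pk_sd_x hs h2 hc]; exact h3⟩)
    (Or.inl ha0)
  rcases hb with hb | ⟨c, h1, _, h3⟩
  · exact hr b hb (Or.inl (SC.refl b))
  · exact hr c h1 (Or.inr h3)

/-- new base on a root circle: `Z` does not change on the positive side -/
theorem z_shift (hd : P.Dist b d) (hs : P.Side sd) {c b' : A} {d' : A → ℕ} (hd' : P.Dist b' d')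
    (hc : P.SC c b') (hr : P.Root sd b true c) {x : V} (hx : P.PS sd c x) :
    P.Z d' x = P.Z d x := by
  have h1 : ∀ n a, d' a = n → d a ≤ d c + d' a := by
    intro n
    induction n with
    | zero =>
      intro a ha
      have := SC.inv hd.d_σ (SC.trans ((hd'.d_zero a).mp ha) (SC.symm hc))
      omega
    | succ n ih =>
      intro a ha
      obtain ⟨t, y, e1, e2⟩ := hd'.d_par a (by omega)
      have e3 := ih (P.inn (!t) y) (by omega)
      have e4 := SC.inv hd.d_σ e1
      have e5 := pk_adj hd t y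
      omega
  have h2 : ∀ n a, d a = n → (¬ P.SC c a → sd c a = true) → d' a + d c ≤ d a := by
    intro n
    induction n using Nat.strong_induction_on with
    | _ n ih =>
      intro a ha hs'
      by_cases hca : P.SC c a
      · have e1 := SC.inv hd.d_σ hca
        have e2 := (hd'.d_zero a).mpr (SC.trans (SC.symm hca) hc)
        omega
      · have e0 : d c < d a := by
          refine sep hd hs hca ?_
          rcases hr with hr | hr
          · exact Or.inl hr
          · exact Or.inr (by rw [hs' hca]; exact fun e => hr e.symm)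
        obtain ⟨t, y, e1, e2⟩ := hd.d_par a (by omega)
        have e3 := pk_sd_sc hs hca e1
        have e4 := ih (d (P.inn (!t) y)) (by omega) _ rfl fun e => by
          rw [pk_sd_x hs e3.1 e, e3.2]
          exact hs' hca
        have e5 := SC.inv hd'.d_σ e1
        have e6 := pk_adj hd' t y
        omega
  have a1 := h1 _ (P.inn true x) rfl
  have a2 := h1 _ (P.inn false x) rfl
  have a3 := h2 _ (P.inn true x) rfl (hx true)
  have a4 := h2 _ (P.inn false x) rfl (hx false)
  unfold Z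
  exact decide_eq_decide.mpr (by omega)

end Pl

end Pool.Agent.P.MP_9ed2cf_gt.Nz
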