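import Mathlib
import Pool.Agent.P.MP_9ed2cf_gt.NzPk

set_option autoImplicit false

namespace Pool.Agent.P.MP_9ed2cf_gt.Nz

open Equiv Finset
open scoped Classical

namespace Pl

variable {A V : Type} {P : Pl A V}

variable [Fintype A] [Fintype V] {b : A} {d : A → ℕ} {sd : A → A → Bool}

/-- The components of a set of active crossings: `K c` is the set of nodes joined to `c`. -/
theorem exists_comp (P : Pl A V) (Q : Finset V) : ∃ K : A → A → Prop, Equivalence K ∧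
    (∀ a, K a (P.σ a)) ∧ (∀ x ∈ Q, K (P.inn false x) (P.inn true x)) ∧
    ∀ (c : A) (p : A → Prop), p c → (∀ a, K c a → p a → p (P.σ a)) →
      (∀ t, ∀ x ∈ Q, K c (P.inn t x) → p (P.inn t x) → p (P.inn (!t) x)) → ∀ a, K c a → p a := by
  let St : A → A → Prop := fun a a' =>
    a' = P.σ a ∨ ∃ t, ∃ x ∈ Q, a = P.inn t x ∧ a' = P.inn (!t) x
  have h1 : ∀ a a', St a a' → Relation.ReflTransGen St a' a := by
    rintro a a' (rfl | ⟨t, x, hx, rfl, rfl⟩)
    · exact SC.ind (p := Relation.ReflTransGen St (P.σ a)) (fun u hu => hu.tail (Or.inl rfl))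
        (sc_σ_left.2 (SC.refl a)) Relation.ReflTransGen.refl
    · exact Relation.ReflTransGen.single (Or.inr ⟨!t, x, hx, rfl, by rw [Bool.not_not]⟩)
  refine ⟨Relation.ReflTransGen St, ⟨fun _ => Relation.ReflTransGen.refl, fun h => ?_,
    Relation.ReflTransGen.trans⟩, fun a => Relation.ReflTransGen.single (Or.inl rfl),
    fun x hx => Relation.ReflTransGen.single (Or.inr ⟨false, x, hx, rfl, rfl⟩),
    fun c p h0 h2 h3 a h => ?_⟩
  · induction h with
    | refl => exact Relation.ReflTransGen.refl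
    | tail _ h ih => exact (h1 _ _ h).trans ih
  · induction h with
    | refl => exact h0
    | tail h h' ih =>
      rcases h' with rfl | ⟨t, x, hx, rfl, rfl⟩
      · exact h2 _ h ih
      · exact h3 t x hx h ih

theorem nzpk2_ty {t t' : Bool} {x y : V} (h : P.SC (P.inn t x) (P.inn t' y)) : t = t' := by
  have h1 := h.ty_eq
  rwa [P.ty_inn, P.ty_inn] at h1

theorem nzpk2_mem {Q : Finset V} (hQ : P.Act Q) {t t' : Bool} {x y : V} (hy : y ∈ Q)
    (hx : P.s x = true) (h : P.SC (P.inn t x) (P.inn t' y)) : x ∈ Q := by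
  obtain rfl := nzpk2_ty h
  exact hQ.2 y hy x t hx h.symm

theorem nzpk2_cl {a a' : A} : P.cl a = P.cl a' ↔ P.SC a a' :=
  ⟨fun h => (Set.ext_iff.1 h a').2 (SC.refl a'),
    fun h => Set.ext fun _ => ⟨fun h' => h.symm.trans h', fun h' => h.trans h'⟩⟩

theorem nzpk2_z (hd : P.Dist b d) {t : Bool} {x : V} :
    P.Z d x ≠ t ↔ d (P.inn (!t) x) < d (P.inn t x) := by
  have h := hd.d_adj x
  cases t <;> simp [Z]
  omega

theorem nzpk2_root (hd : P.Dist b d) (hs : P.Side sd) {Q : Finset V} (hQ : P.Act Q)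
    {K : A → A → Prop}
    (hK : ∀ (c : A) (p : A → Prop), p c → (∀ a, K c a → p a → p (P.σ a)) →
      (∀ t, ∀ x ∈ Q, K c (P.inn t x) → p (P.inn t x) → p (P.inn (!t) x)) → ∀ a, K c a → p a)
    {c a : A} (hr : P.Root sd b true c) (h : K c a) (h' : ¬ P.SC c a) : d c < d a := by
  have h1 : sd c a = true := by
    refine hK c (fun u => ¬ P.SC c u → sd c u = true) (fun h0 => absurd (SC.refl c) h0)
      (fun u _ hu h2 => ?_) (fun t x hx _ hu h2 => ?_) a h h'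
    · have h3 := mt sc_σ_right.2 h2
      rw [hs.sd_σ c u h3, hu h3]
    · by_cases h3 : P.SC c (P.inn t x)
      · rw [hs.sd_s c t x h3, hQ.1 x hx]
      · rw [← hu h3]
        cases t
        · exact (hs.sd_x c x h3 h2).symm
        · exact hs.sd_x c x h2 h3
  exact sep hd hs h' (hr.imp_right fun h2 => h1 ▸ h2.symm)

theorem exists_key (hd : P.Dist b d) (hs : P.Side sd) {Q : Finset V} (hQ : P.Act Q) :
    ∃ key, P.Key d Q key := by
  obtain ⟨K, h1, h2, h3, h4⟩ := exists_comp P Q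
  have h5 : ∀ a a', K a a' → sInf (d '' {u | K a u}) = sInf (d '' {u | K a' u}) := fun a a' h =>
    congrArg (fun S => sInf (d '' S))
      (Set.ext fun _ => ⟨fun h' => h1.trans (h1.symm h) h', fun h' => h1.trans h h'⟩)
  refine ⟨fun a => sInf (d '' {u | K a u}), fun a => (h5 _ _ (h2 a)).symm,
    fun x hx => h5 _ _ (h3 x hx), fun x hx => ?_⟩
  have hz : P.Z d x ≠ !P.Z d x := by cases P.Z d x <;> simp
  have h6 := (nzpk2_z hd).1 hz
  rw [Bool.not_not] at h6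
  have h7 : ∀ a, K (P.inn (!P.Z d x) x) a → d (P.inn (!P.Z d x) x) ≤ d a := fun a ha => by
    by_cases h8 : P.SC (P.inn (!P.Z d x) x) a
    · exact (SC.inv hd.d_σ h8).le
    · cases h9 : P.s x
      · refine (nzpk2_root hd hs hQ h4 (Or.inr ?_) ha h8).le
        rw [← (sign_near hd hs (SC.refl _) hz).2, h9]
        exact Bool.false_ne_true
      · exact absurd (h4 _ (P.SC (P.inn (!P.Z d x) x)) (SC.refl _) (fun _ _ h => sc_σ_right.2 h)
          (fun t y hy _ h => absurd (nzpk2_mem hQ hy h9 h) hx) a ha) h8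
  obtain ⟨a, ha, he⟩ := Nat.sInf_mem (s := d '' {u | K (P.inn (!P.Z d x) x) u})
    ⟨_, _, h1.refl _, rfl⟩
  refine lt_of_le_of_lt (Nat.sInf_le ⟨_, h1.refl _, rfl⟩) (h6.trans_le ((h7 a ha).trans he.le))

theorem ndc_of_pair (hd : P.Dist b d) (hs : P.Side sd) {Q : Finset V} (hQ : P.Act Q)
    {X Y : V → Bool} (hX : P.Tree X b) (hY : P.rev.Tree Y b) :
    P.NDC Q (Q.filter fun x => X x = true ∧ Y x = false)
      (Q.filter fun x => Y x = true ∧ X x = false) := by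
  intro T hT g1 g2 x₀ hx₀
  by_contra hc
  obtain ⟨K, h1, h2, h3, h4⟩ := exists_comp P Q
  have k1 : ∀ a, K (P.inn false x₀) (P.σ a) ↔ K (P.inn false x₀) a := fun a =>
    ⟨fun h => h1.trans h (h1.symm (h2 a)), fun h => h1.trans h (h2 a)⟩
  have k2 : ∀ t, ∀ x ∈ Q, K (P.inn false x₀) (P.inn t x) → K (P.inn false x₀) (P.inn (!t) x) :=
    fun t x hx h => by
      cases t
      · exact h1.trans h (h3 x hx)
      · exact h1.trans h (h1.symm (h3 x hx))
  have k3 : ∀ t x, K (P.inn false x₀) (P.inn t x) → P.s x = true → x ∈ Q := fun t x h hx => by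
    obtain ⟨t', y, hy, h5⟩ := h4 _ (fun a => ∃ t', ∃ y ∈ Q, P.SC a (P.inn t' y))
      ⟨false, x₀, hx₀, SC.refl _⟩ (fun a _ ⟨t', y, hy, h5⟩ => ⟨t', y, hy, sc_σ_left.2 h5⟩)
      (fun t' y hy _ _ => ⟨!t', y, hy, SC.refl _⟩) _ h
    exact nzpk2_mem hQ hy hx h5
  have k4 := h1.refl (P.inn false x₀)
  have k5 := h3 x₀ hx₀
  by_cases hr : ∀ a, T a ∧ K (P.inn false x₀) a → ¬ P.Root sd b true a
  · obtain ⟨t, x, ⟨a1, a2⟩, a3, a4, a5⟩ := acc hs hX (T := fun a => T a ∧ K (P.inn false x₀) a)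
      (fun a => and_congr (hT a) (k1 a)) (by
        by_cases h5 : T (P.inn false x₀)
        · exact ⟨_, h5, k4⟩
        · exact ⟨_, by_contra fun h6 => hc (iff_of_false h6 h5), k5⟩) hr
    have a6 := k3 t x a2 a4
    have a7 : ¬ T (P.inn (!t) x) := fun h => a3 ⟨h, k2 t x a6 a2⟩
    cases t
    · exact a5 (mem_filter.1 (g2 x a6 a1 a7)).2.2
    · exact a5 (mem_filter.1 (g1 x a6 a1 a7)).2.1
  · push Not at hr
    obtain ⟨c, ⟨c1, c2⟩, c3⟩ := hr
    have k6 : ∀ a, (¬ T (P.σ a) ∧ K (P.inn false x₀) (P.σ a)) ↔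
        (¬ T a ∧ K (P.inn false x₀) a) := fun a => and_congr (not_congr (hT a)) (k1 a)
    obtain ⟨t, x, a1, a3, a4, a5⟩ := acc hs.rev hY (e := true)
      (T := fun a => ¬ T a ∧ K (P.inn false x₀) a)
      (fun a => by
        have h5 := k6 (P.σ⁻¹ a)
        rw [show P.σ (P.σ⁻¹ a) = a from P.σ.apply_symm_apply a] at h5
        exact h5.symm) (by
        by_cases h5 : T (P.inn false x₀)
        · exact ⟨_, fun h6 => hc (iff_of_true h6 h5), k5⟩
        · exact ⟨_, h5, k4⟩) fun a ha h5 => by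
        have h6 := rev_root.1 h5
        have h7 : ¬ P.SC c a := fun h => ha.1 (SC.ind (fun u hu => (hT u).2 hu) h c1)
        have h8 := h1.trans (h1.symm c2) ha.2
        exact lt_asymm (nzpk2_root hd hs hQ h4 c3 h8 h7)
          (nzpk2_root hd hs hQ h4 h6 (h1.symm h8) fun h => h7 h.symm)
    obtain ⟨a1, a2⟩ := (k6 (P.inn t x)).1 a1
    have a6 := k3 t x a2 a4
    have a7 : T (P.inn (!t) x) :=
      by_contra fun h => a3 ((k6 (P.inn (!t) x)).2 ⟨h, k2 t x a6 a2⟩)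
    cases t
    · exact a5 (mem_filter.1 (g1 x a6 a7 a1)).2.2
    · exact a5 (mem_filter.1 (g2 x a6 a7 a1)).2.1

theorem beta_le (hd : P.Dist b d) (hs : P.Side sd) {Q : Finset V} (hQ : P.Act Q)
    {χ : V → Bool} (h : P.Tree χ b) (t : Bool) : P.beta d Q t ≤ nf Q χ t := by
  refine le_trans (card_le_card fun S hS => ?_)
    (card_image_le (s := Q.filter fun x => χ x ≠ t) (f := fun x => P.cl (P.inn t x)))
  obtain ⟨x, hx, rfl⟩ := mem_image.1 hS
  obtain ⟨h1, h2⟩ := mem_filter.1 hx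
  obtain ⟨h3, h4⟩ := sign_near hd hs (SC.refl _) h2
  obtain ⟨t', y, a1, -, a3, a4⟩ := acc hs h (e := true) (T := P.SC (P.inn t x))
    (fun _ => sc_σ_right) ⟨_, SC.refl _⟩ fun a ha hr => by
      rcases hr with hr | hr
      · exact h3 (ha.trans hr)
      · rw [← hs.sd_c _ _ ha, ← h4] at hr
        exact hr (hQ.1 x h1)
  obtain rfl := nzpk2_ty a1
  exact mem_image.2 ⟨y, mem_filter.2 ⟨nzpk2_mem hQ h1 a3 a1.symm, a4⟩, nzpk2_cl.2 a1.symm⟩

/-- if every crossing of `Q` that does not follow type `t` is the only one on its circle of type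
`t` and that circle is not a root, the count is at most `beta` -/
theorem le_beta (hd : P.Dist b d) (hs : P.Side sd) {Q : Finset V} (hQ : P.Act Q)
    {χ : V → Bool} {t : Bool} (h1 : ∀ x ∈ Q, χ x ≠ t → ¬ P.Root sd b true (P.inn t x))
    (h2 : ∀ x ∈ Q, ∀ y ∈ Q, χ x ≠ t → χ y ≠ t → P.SC (P.inn t x) (P.inn t y) → x = y) :
    nf Q χ t ≤ P.beta d Q t := by
  refine le_trans (card_image_of_injOn (s := Q.filter fun x => χ x ≠ t)
    (f := fun x => P.cl (P.inn t x)) fun x hx y hy h => ?_).ge (card_le_card fun S hS => ?_)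
  · obtain ⟨a1, a2⟩ := mem_filter.1 (mem_coe.1 hx)
    obtain ⟨a3, a4⟩ := mem_filter.1 (mem_coe.1 hy)
    exact h2 x a1 y a3 a2 a4 (nzpk2_cl.1 h)
  · obtain ⟨x, hx, rfl⟩ := mem_image.1 hS
    obtain ⟨a1, a2⟩ := mem_filter.1 hx
    obtain ⟨a3, a4⟩ := not_or.1 (h1 x a1 a2)
    obtain ⟨t', y, b1, b2⟩ := hd.d_par _ (Nat.pos_of_ne_zero (mt (hd.d_zero _).1 a3))
    obtain rfl := nzpk2_ty b1
    have b3 : P.Z d y ≠ t := (nzpk2_z hd).2 (by
      have b4 := SC.inv hd.d_σ b1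
      omega)
    have b5 : P.s y = true := (sign_near hd hs b1 b3).2.trans (not_not.1 a4)
    exact mem_image.2 ⟨y, mem_filter.2 ⟨nzpk2_mem hQ a1 b5 b1.symm, b3⟩, nzpk2_cl.2 b1.symm⟩

/-- restriction of a cut condition to a union of components -/
theorem NDC.restrict {Q Q' D : Finset V} (hQ : P.Act Q) (hQ' : P.Act Q') (hsub : Q' ⊆ Q)
    (h : P.NDC Q D ∅) : P.NDC Q' (D ∩ Q') ∅ := by
  intro T hT g1 g2 x hx
  have k1 : ∀ t, ∀ y ∈ Q', ∃ t', ∃ z ∈ Q', P.SC (P.inn t y) (P.inn t' z) :=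
    fun t y hy => ⟨t, y, hy, SC.refl _⟩
  have k2 := h (fun a => T a ∧ ∃ t', ∃ z ∈ Q', P.SC a (P.inn t' z))
    (fun a => and_congr (hT a) (by simp only [sc_σ_left]))
    (fun y hy ⟨a1, t, z, hz, a2⟩ a3 => by
      have a4 := nzpk2_mem hQ' hz (hQ.1 y hy) a2
      exact (mem_inter.1 (g1 y a4 a1 fun a5 => a3 ⟨a5, k1 _ y a4⟩)).1)
    (fun y hy ⟨a1, t, z, hz, a2⟩ a3 => by
      have a4 := nzpk2_mem hQ' hz (hQ.1 y hy) a2
      exact g2 y a4 a1 fun a5 => a3 ⟨a5, k1 _ y a4⟩) x (hsub hx)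
  exact ⟨fun a => (k2.1 ⟨a, k1 _ x hx⟩).1, fun a => (k2.2 ⟨a, k1 _ x hx⟩).1⟩

end Pl

end Pool.Agent.P.MP_9ed2cf_gt.Nz
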