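import Mathlib
import Pool.Agent.P.MP_9ed2cf_gt.NzPk2

set_option autoImplicit false

namespace Pool.Agent.P.MP_9ed2cf_gt.Nz

open Equiv Finset
open scoped Classical

namespace Pl

variable {A V : Type} {P : Pl A V}

variable [Fintype A] [Fintype V] {b : A} {d : A → ℕ} {sd : A → A → Bool}

/-- the set of nodes on a circle or on its positive side is closed under positive components -/
theorem grp_inv (hs : P.Side sd) {K : A → A → Prop}
    (hK : ∀ (c : A) (p : A → Prop), p c → (∀ a, K c a → p a → p (P.σ a)) →
      (∀ t, ∀ x ∈ P.sg true, K c (P.inn t x) → p (P.inn t x) → p (P.inn (!t) x)) →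
      ∀ a, K c a → p a)
    (c : A) {a0 a : A} (h0 : P.SC c a0 ∨ sd c a0 = true) (h : K a0 a) :
    P.SC c a ∨ sd c a = true := by
  refine hK a0 (fun a => P.SC c a ∨ sd c a = true) h0 ?_ ?_ a h
  · intro a _ ha
    by_cases hca : P.SC c a
    · exact Or.inl (sc_σ_right.2 hca)
    · rcases ha with ha | ha
      · exact absurd ha hca
      · right
        rw [hs.sd_σ c a hca]
        exact ha
  · intro t x hx _ ha
    have hsx : P.s x = true := by
      simpa [sg] using hx
    by_cases hca : P.SC c (P.inn t x)
    · right
      rw [hs.sd_s c t x hca]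
      exact hsx
    · rcases ha with ha | ha
      · exact absurd ha hca
      · by_cases hcb : P.SC c (P.inn (!t) x)
        · exact Or.inl hcb
        · right
          cases t
          · exact (hs.sd_x c x hca hcb).symm.trans ha
          · exact (hs.sd_x c x hcb hca).trans ha

/-- a node on the positive side of a root is farther from the base -/
theorem grp_far (hd : P.Dist b d) (hs : P.Side sd) {c a : A} (hr : P.Root sd b true c)
    (hn : ¬ P.SC c a) (ha : sd c a = true) : d c < d a := by
  refine sep hd hs hn ?_
  rcases hr with hr | hr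
  · exact Or.inl hr
  · right
    rw [ha]
    exact fun h => hr h.symm

/-- The groups: `gr x` is the circle that owns the crossing `x` (the farther circle of a negative
crossing, the root of the component of a positive crossing). -/
theorem exists_groups (hd : P.Dist b d) (hs : P.Side sd) : ∃ gr : V → A,
    (∀ x, P.s x = false → gr x = P.inn (!P.Z d x) x) ∧
    (∀ x, P.Root sd b true (gr x)) ∧
    (∀ x, P.s x = true → P.PS sd (gr x) x) ∧
    (∀ x y t, P.s x = true → P.s y = true → P.SC (P.inn t x) (P.inn t y) →
      P.SC (gr x) (gr y)) ∧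
    (∀ c t x, P.Root sd b true c → P.SC c (P.inn t x) → P.s x = true → P.SC c (gr x)) ∧
    (∀ c x, P.Root sd b true c → P.PS sd c x →
      (P.s x = true ∧ P.SC c (gr x)) ∨ d c < d (gr x)) := by
  obtain ⟨K, hE, hσ, hx, hK⟩ := exists_comp P (P.sg true)
  have hmem : ∀ x, P.s x = true → x ∈ P.sg true := fun x h => by simp [sg, h]
  have hSK : ∀ a a', P.SC a a' → K a a' := by
    intro a a' h
    exact SC.ind (p := fun z => K a z) (fun z hz => hE.trans hz (hσ z)) h (hE.refl a)
  have harm : ∀ x, P.s x = true → ∀ t, K (P.inn false x) (P.inn t x) := by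
    intro x h t
    cases t
    · exact hE.refl _
    · exact hx x (hmem x h)
  have hmin : ∀ a0 : A, ∃ c, K a0 c ∧ ∀ a, K a0 a → d c ≤ d a := by
    intro a0
    obtain ⟨c, hc, hc'⟩ := (univ.filter fun a => K a0 a).exists_min_image d
      ⟨a0, by simp [hE.refl]⟩
    refine ⟨c, by simpa using hc, fun a ha => hc' a (by simpa using ha)⟩
  choose mn hmn1 hmn2 using hmin
  have hroot : ∀ a0, P.Root sd b true (mn a0) := by
    intro a0
    by_contra hn
    have hn1 : ¬ P.SC (mn a0) b := fun h => hn (Or.inl h)
    have hn2 : sd (mn a0) b = true := by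
      by_contra h
      exact hn (Or.inr h)
    have hpos : 0 < d (mn a0) := Nat.pos_of_ne_zero fun h => hn1 ((hd.d_zero _).1 h)
    obtain ⟨t, y, hy1, hy2⟩ := hd.d_par _ hpos
    have hdy : d (mn a0) = d (P.inn t y) := SC.inv hd.d_σ hy1
    have hz : P.Z d y ≠ t := by
      cases t
      · simp only [Bool.not_false] at hy2
        simp only [Z, ne_eq, decide_eq_false_iff_not, not_not]
        omega
      · simp only [Bool.not_true] at hy2
        simp only [Z, ne_eq, decide_eq_true_eq, not_lt]
        omega
    have hsy : P.s y = true := by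
      rw [(sign_near hd hs hy1 hz).2]
      exact hn2
    have hk : K a0 (P.inn (!t) y) :=
      hE.trans (hmn1 a0) (hE.trans (hSK _ _ hy1)
        (hE.trans (hE.symm (harm y hsy t)) (harm y hsy (!t))))
    have := hmn2 a0 _ hk
    omega
  have hone : ∀ c c', P.Root sd b true c → P.Root sd b true c' → K c c' → P.SC c c' := by
    intro c c' hc hc' hk
    by_contra hn
    have hn' : ¬ P.SC c' c := fun h => hn h.symm
    have h1 := (grp_inv hs hK c (Or.inl (SC.refl c)) hk).resolve_left hn
    have h2 := (grp_inv hs hK c' (Or.inl (SC.refl c')) (hE.symm hk)).resolve_left hn'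
    have h3 := grp_far hd hs hc hn h1
    have h4 := grp_far hd hs hc' hn' h2
    omega
  refine ⟨fun x => if P.s x = true then mn (P.inn false x) else P.inn (!P.Z d x) x,
    ?_, ?_, ?_, ?_, ?_, ?_⟩
  · intro x h
    simp [h]
  · intro x
    by_cases h : P.s x = true
    · simp only [h, if_true]
      exact hroot _
    · simp only [if_neg h]
      have hz : P.Z d x ≠ !P.Z d x := by cases P.Z d x <;> simp
      have := (sign_near hd hs (SC.refl (P.inn (!P.Z d x) x)) hz).2
      right
      rw [← this]
      exact h
  · intro x h t ht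
    simp only [h, if_true] at ht ⊢
    exact (grp_inv hs hK _ (Or.inl (SC.refl _))
      (hE.trans (hE.symm (hmn1 _)) (harm x h t))).resolve_left ht
  · intro x y t h h' hsc
    simp only [h, h', if_true]
    refine hone _ _ (hroot _) (hroot _) ?_
    exact hE.trans (hE.symm (hmn1 _)) (hE.trans (harm x h t) (hE.trans (hSK _ _ hsc)
      (hE.trans (hE.symm (harm y h' t)) (hmn1 _))))
  · intro c t x hc hsc h
    simp only [h, if_true]
    refine hone _ _ hc (hroot _) ?_
    exact hE.trans (hSK _ _ hsc) (hE.trans (hE.symm (harm x h t)) (hmn1 _))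
  · intro c x hc hps
    by_cases h : P.s x = true
    · simp only [h, if_true, true_and]
      by_cases hsc : P.SC c (mn (P.inn false x))
      · exact Or.inl hsc
      · right
        have h0 : P.SC c (P.inn false x) ∨ sd c (P.inn false x) = true := by
          by_cases h1 : P.SC c (P.inn false x)
          · exact Or.inl h1
          · exact Or.inr (hps false h1)
        exact grp_far hd hs hc hsc ((grp_inv hs hK c h0 (hmn1 _)).resolve_left hsc)
    · right
      simp only [if_neg h]
      by_cases hsc : P.SC c (P.inn (!P.Z d x) x)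
      · exfalso
        have h1 := hps _ (not_sc_inn hsc)
        rw [hs.sd_s c _ x hsc] at h1
        exact h h1
      · exact grp_far hd hs hc hsc (hps _ hsc)

/-- `beta` is additive over sets of crossings with different farther circles -/
theorem beta_union (P : Pl A V) (d : A → ℕ) {Q G : Finset V} (t : Bool)
    (h : ∀ x ∈ Q, ∀ y ∈ G, P.Z d x ≠ t → P.Z d y ≠ t → ¬ P.SC (P.inn t x) (P.inn t y)) :
    P.beta d (Q ∪ G) t = P.beta d Q t + P.beta d G t := by
  unfold beta
  rw [filter_union, image_union, card_union_of_disjoint]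
  rw [Finset.disjoint_left]
  intro S h1 h2
  obtain ⟨x, hx, rfl⟩ := mem_image.1 h1
  obtain ⟨y, hy, hxy⟩ := mem_image.1 h2
  obtain ⟨hx1, hx2⟩ := mem_filter.1 hx
  obtain ⟨hy1, hy2⟩ := mem_filter.1 hy
  apply h x hx1 y hy1 hx2 hy2
  have : P.inn t y ∈ P.cl (P.inn t y) := SC.refl _
  rw [hxy] at this
  exact this

theorem beta_le_card (P : Pl A V) (d : A → ℕ) (Q : Finset V) :
    P.beta d Q true + P.beta d Q false ≤ Q.card := by
  unfold beta
  have h1 := card_image_le (s := Q.filter fun x => P.Z d x ≠ true)
    (f := fun x => P.cl (P.inn true x))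
  have h2 := card_image_le (s := Q.filter fun x => P.Z d x ≠ false)
    (f := fun x => P.cl (P.inn false x))
  have h3 := card_filter_add_card_filter_not (s := Q) (fun x => P.Z d x ≠ true)
  have h4 : (Q.filter fun x => ¬ P.Z d x ≠ true) = Q.filter fun x => P.Z d x ≠ false := by
    apply filter_congr
    intro x _
    cases P.Z d x <;> simp
  rw [h4] at h3
  omega

end Pl

end Pool.Agent.P.MP_9ed2cf_gt.Nz
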