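import Mathlib
import Pool.Agent.P.MP_9ed2cf_gt.NzPk2

set_option autoImplicit false

namespace Pool.Agent.P.MP_9ed2cf_gt.Nz

open Equiv Finset
open scoped Classical

namespace Pl

variable {A V : Type} {P : Pl A V}

variable [Fintype A] [Fintype V] {b : A} {d : A → ℕ} {sd : A → A → Bool}

omit [Fintype A] [Fintype V] in
theorem flip_nxt (χ : V → Bool) {x : V} (t : Bool) {a : A} (h : ∀ t', a ≠ P.inn t' x) :
    P.nxt (Function.update χ x t) a = P.nxt χ a := by
  rcases P.pass_or a with hp | ⟨t', y, rfl⟩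
  · rw [nxt_pass _ hp, nxt_pass _ hp]
  · rw [nxt_inn, nxt_inn, Function.update_of_ne fun e => h t' (by rw [e])]

omit [Fintype V] in
theorem flip_ty {c : A} {t t' : Bool} {x y : V} (h : P.SC c (P.inn t x))
    (h' : P.SC c (P.inn t' y)) : t' = t := by
  have := (h'.symm.trans h).ty_eq
  rwa [P.ty_inn, P.ty_inn] at this

theorem flip_core {χ : V → Bool} (h : P.Tree χ b) {c : A} {t : Bool} {G : Finset V}
    (hG : ∀ x ∈ G, P.SC c (P.inn t x) ∧ χ x ≠ t) (hne : G.Nonempty)
    (hstop : ∀ x ∈ G, P.SC c b ∨ ∃ y, y ≠ x ∧ P.SC c (P.inn t y) ∧ χ y ≠ t)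
    (hoff : ∀ y, y ∉ G → P.SC c (P.inn t y) → χ y ≠ t → ∀ x ∈ G, ∀ t',
      ¬ P.Reach χ (P.out (χ y) y) (P.inn t' x)) :
    ∃ x ∈ G, P.Tree (Function.update χ x t) b := by
  obtain ⟨dp, h0, hdp⟩ := h.exists_dp
  obtain ⟨x, hx, hmax⟩ := G.exists_max_image (fun x => dp (P.out (χ x) x)) hne
  have h1 : ∀ n a, dp a = n → (dp a ≤ dp (P.out (χ x) x) ∨ ∀ t', ¬ P.Reach χ a (P.inn t' x)) →
      P.Reach (Function.update χ x t) a b := by
    intro n
    induction n using Nat.strong_induction_on with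
    | _ n ih =>
      intro a hn ha
      by_cases hb : a = b
      · rw [hb]
        exact Reach.refl _ _
      have h2 := hdp a hb
      have h3 : ∀ t', a ≠ P.inn t' x := by
        rintro t' rfl
        rcases ha with ha | ha
        · rw [nxt_inn] at h2
          omega
        · exact ha t' (Reach.refl _ _)
      refine Reach.head ?_
      rw [flip_nxt χ t h3]
      exact ih _ (by omega) _ rfl (ha.imp (fun _ => by omega) fun ha t' hr => ha t' hr.head)
  have h4 : ∀ z, P.SC c (P.inn t z) → Function.update χ x t z ≠ t →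
      P.Reach (Function.update χ x t) (P.inn t z) b := by
    intro z hz hzt
    have hzx : z ≠ x := fun e => hzt (by rw [e, Function.update_self])
    rw [Function.update_of_ne hzx] at hzt
    refine Reach.head ?_
    rw [nxt_inn, Function.update_of_ne hzx]
    by_cases hzG : z ∈ G
    · exact h1 _ _ rfl (Or.inl (hmax z hzG))
    · exact h1 _ _ rfl (Or.inr (hoff z hzG hz hzt x hx))
  have h5 : ∀ a', P.SC c a' → P.Reach (Function.update χ x t) a' b →
      P.Reach (Function.update χ x t) (P.out t x) b := by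
    intro a' ha' hr
    have h6 : P.SC c (P.out t x) := sc_σ_right.2 (hG x hx).1
    obtain ⟨n, hk, hn⟩ := walk (Function.update χ x t) (h6.symm.trans ha')
    rcases hn with hn | ⟨t', z, hn, hz⟩
    · exact Reach.trans ⟨n, hn⟩ hr
    · have h7 : P.SC c (P.inn t' z) := by
        rw [← hn, hk n le_rfl]
        exact h6.trans ⟨n, by simp⟩
      obtain rfl := flip_ty (hG x hx).1 h7
      exact Reach.trans ⟨n, hn⟩ (h4 z h7 hz)
  refine ⟨x, hx, h.change fun y hy => ?_⟩
  obtain rfl : y = x := by_contra fun e => hy (Function.update_of_ne e _ _)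
  rw [Function.update_self]
  rcases hstop y hx with hb | ⟨z, hz, hz1, hz2⟩
  · exact h5 b hb (Reach.refl _ _)
  · exact h5 _ hz1 (h4 z hz1 (by rwa [Function.update_of_ne hz]))

theorem negstep {χ : V → Bool} (h : P.Tree χ b) {c : A} {t : Bool} {G : Finset V}
    (hG : ∀ x, x ∈ G ↔ P.SC c (P.inn t x) ∧ χ x ≠ t) {m : ℕ} (hm : m + 1 ≤ G.card) :
    ∃ χ', P.Tree χ' b ∧ (∀ x, x ∉ G → χ' x = χ x) ∧ (G.filter fun x => χ' x = t).card = m := by
  induction m with
  | zero => exact ⟨χ, h, fun _ _ => rfl, by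
      rw [card_eq_zero, filter_eq_empty_iff]
      exact fun x hx => ((hG x).1 hx).2⟩
  | succ m ih =>
    obtain ⟨χ', h1, h2, h3⟩ := ih (by omega)
    have h4 := card_filter_add_card_filter_not (s := G) fun x => χ' x = t
    obtain ⟨x, hx, h5⟩ := flip_core h1 (c := c) (t := t) (G := G.filter fun x => ¬ χ' x = t)
      (fun x hx => ⟨((hG x).1 (mem_filter.1 hx).1).1, (mem_filter.1 hx).2⟩)
      (card_pos.1 (by omega))
      (fun x hx => by
        obtain ⟨y, hy, hne⟩ := exists_mem_ne (s := G.filter fun x => ¬ χ' x = t) (by omega) x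
        exact Or.inr ⟨y, hne, ((hG y).1 (mem_filter.1 hy).1).1, (mem_filter.1 hy).2⟩)
      (fun y hy h6 h7 => by
        have h8 : y ∉ G := fun h8 => hy (mem_filter.2 ⟨h8, h7⟩)
        exact (h8 ((hG y).2 ⟨h6, h2 y h8 ▸ h7⟩)).elim)
    obtain ⟨hxG, hxt⟩ := mem_filter.1 hx
    refine ⟨_, h5, fun y hy => ?_, ?_⟩
    · rw [Function.update_of_ne fun e => hy (by rw [e]; exact hxG), h2 y hy]
    · rw [← h3, ← card_insert_of_notMem (a := x) fun h6 => hxt (mem_filter.1 h6).2]
      congr 1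
      ext y
      by_cases e : y = x
      · simp [e, hxG]
      · simp [e]

theorem flip_zero (hd : P.Dist b d) (hs : P.Side sd) {Q : Finset V} (hQ : P.Act Q)
    {χ : V → Bool} (h : P.Tree χ b) (hf : P.Fam d Q χ) {t : Bool} {x0 : V} (h0 : x0 ∈ Q)
    (ht : χ x0 ≠ t) (hr : P.Root sd b true (P.inn t x0) ∨
      ∃ y ∈ Q, y ≠ x0 ∧ χ y ≠ t ∧ P.SC (P.inn t x0) (P.inn t y)) :
    ∃ x ∈ Q, χ x ≠ t ∧ P.Tree (Function.update χ x t) b := by
  obtain ⟨key, hk⟩ := exists_key hd hs hQ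
  have k1 : ∀ x ∈ Q, ∀ t1 t2, key (P.inn t1 x) = key (P.inn t2 x) := by
    intro x hx t1 t2
    cases t1 <;> cases t2 <;> simp [hk.k_in x hx]
  have k2 : ∀ a, key (P.nxt χ a) ≤ key a := by
    intro a
    rcases P.pass_or a with hp | ⟨t', y, rfl⟩
    · rw [nxt_pass _ hp, hk.k_σ]
    · rw [nxt_inn, out, hk.k_σ]
      by_cases hy : y ∈ Q
      · exact (k1 y hy _ _).le
      · have := hk.k_out y hy
        rw [hf y hy]
        by_cases e : t' = P.Z d y
        · rw [e]
        · rw [Bool.eq_not_iff.2 e]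
          exact this.le
  have k3 : ∀ a a', P.Reach χ a a' → key a' ≤ key a := by
    rintro a _ ⟨n, rfl⟩
    induction n with
    | zero => exact le_rfl
    | succ n ih =>
      rw [Function.iterate_succ_apply']
      exact (k2 _).trans ih
  obtain ⟨x, hx, h1⟩ := flip_core h (c := P.inn t x0) (t := t)
    (G := Q.filter fun x => P.SC (P.inn t x0) (P.inn t x) ∧ χ x ≠ t)
    (fun x hx => (mem_filter.1 hx).2) ⟨x0, mem_filter.2 ⟨h0, SC.refl _, ht⟩⟩
    (fun x hx => by
      by_cases hb : P.SC (P.inn t x0) b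
      · exact Or.inl hb
      refine Or.inr ?_
      rcases hr with hr | ⟨y, -, hy1, hy2, hy3⟩
      · obtain ⟨t', y, h2, h3⟩ := hd.d_par _ (Nat.pos_of_ne_zero fun e => hb ((hd.d_zero _).1 e))
        obtain rfl := flip_ty (SC.refl (P.inn t x0)) h2
        have h4 := SC.inv hd.d_σ h2
        have h5 : P.Z d y ≠ t' := by
          cases t' <;> simp only [Z, Bool.not_false, Bool.not_true] at h3 ⊢ <;> simp <;> omega
        have h6 : y ∉ Q := fun hy =>
          hr.resolve_left hb ((sign_near hd hs h2 h5).2.symm.trans (hQ.1 y hy))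
        exact ⟨y, fun e => h6 (e ▸ (mem_filter.1 hx).1), h2, hf y h6 ▸ h5⟩
      · by_cases e : x = x0
        · exact ⟨y, e ▸ hy1, hy3, hy2⟩
        · exact ⟨x0, Ne.symm e, SC.refl _, ht⟩)
    (fun y hy h2 h3 x hx t' h4 => by
      have h5 : y ∉ Q := fun h5 => hy (mem_filter.2 ⟨h5, h2, h3⟩)
      have h6 := k3 _ _ h4
      have h7 := hk.k_out y h5
      have h8 := SC.inv hk.k_σ (h2.symm.trans (mem_filter.1 hx).2.1)
      rw [out, hk.k_σ, k1 x (mem_filter.1 hx).1 t' t] at h6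
      rw [← hf y h5, ← Bool.eq_not_iff.2 (Ne.symm h3)] at h7
      omega)
  exact ⟨x, (mem_filter.1 hx).1, (mem_filter.1 hx).2.2, h1⟩

theorem flip (hd : P.Dist b d) (hs : P.Side sd) {Q : Finset V} (hQ : P.Act Q) {χ : V → Bool}
    (h : P.Tree χ b) (hf : P.Fam d Q χ) {t : Bool} (hlt : P.beta d Q t < nf Q χ t) :
    ∃ x ∈ Q, χ x ≠ t ∧ P.Tree (Function.update χ x t) b := by
  by_contra hc
  refine absurd (le_beta hd hs hQ (fun x hx ht hr => ?_) fun x hx y hy h1 h2 h3 => ?_) hlt.not_ge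
  · exact hc (flip_zero hd hs hQ h hf hx ht (Or.inl hr))
  · exact by_contra fun e => hc (flip_zero hd hs hQ h hf hx h1 (Or.inr ⟨y, hy, Ne.symm e, h2, h3⟩))

theorem mt_root (hd : P.Dist b d) (hs : P.Side sd) {Q : Finset V} (hQ : P.Act Q) {χ : V → Bool}
    (h : P.Tree χ b) (hf : P.Fam d Q χ) {t : Bool} (he : nf Q χ t = P.beta d Q t) :
    (∀ x ∈ Q, P.Root sd b true (P.inn t x) → χ x = t) ∧
      ∀ x ∈ Q, ∀ y ∈ Q, χ x ≠ t → χ y ≠ t → P.SC (P.inn t x) (P.inn t y) → x = y := by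
  have hc : ¬ ∃ x ∈ Q, χ x ≠ t ∧ P.Tree (Function.update χ x t) b := by
    rintro ⟨x, hx, h1, h2⟩
    have h3 := beta_le hd hs hQ h2 t
    have h4 : nf Q (Function.update χ x t) t < nf Q χ t := by
      refine card_lt_card ⟨fun y hy => ?_, fun hsub => ?_⟩
      · obtain ⟨h5, h6⟩ := mem_filter.1 hy
        have e : y ≠ x := fun e => h6 (by rw [e, Function.update_self])
        exact mem_filter.2 ⟨h5, by rwa [Function.update_of_ne e] at h6⟩
      · exact (mem_filter.1 (hsub (mem_filter.2 ⟨hx, h1⟩))).2 (Function.update_self _ _ _)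
    omega
  exact ⟨fun x hx hr => by_contra fun ht => hc (flip_zero hd hs hQ h hf hx ht (Or.inl hr)),
    fun x hx y hy h1 h2 h3 => by_contra fun e =>
      hc (flip_zero hd hs hQ h hf hx h1 (Or.inr ⟨y, hy, Ne.symm e, h2, h3⟩))⟩

end Pl

end Pool.Agent.P.MP_9ed2cf_gt.Nz
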