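import Mathlib
import Pool.Agent.P.MP_9ed2cf_gt.NzFlip

set_option autoImplicit false

namespace Pool.Agent.P.MP_9ed2cf_gt.Nz

open Equiv Finset
open scoped Classical

namespace Pl

variable {A V : Type} {P : Pl A V}

variable [Fintype A] [Fintype V] {b : A} {d : A → ℕ} {sd : A → A → Bool}

omit [Fintype A] [Fintype V] in
theorem NzArb_fam {Q : Finset V} {χ : V → Bool} (hf : P.Fam d Q χ) {x : V} (hx : x ∈ Q)
    (t : Bool) : P.Fam d Q (Function.update χ x t) := fun y hy => by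
  rw [Function.update_of_ne (fun e => hy (by rwa [e])), hf y hy]

omit [Fintype A] [Fintype V] in
theorem NzArb_sc_pow {c a : A} (h : P.SC c a) (k : ℕ) : P.SC c ((P.σ ^ k) a) := by
  induction k with
  | zero => exact h
  | succ k ih => rw [pow_succ', Perm.mul_apply]; exact sc_σ_right.2 ih

omit [Fintype A] [Fintype V] in
theorem NzArb_dp {χ : V → Bool} {dp : A → ℕ} (h : ∀ a, a ≠ b → dp (P.nxt χ a) + 1 = dp a)
    {a : A} {n : ℕ} (hn : ∀ k ≤ n, (P.nxt χ)^[k] a ≠ b) : dp ((P.nxt χ)^[n] a) ≤ dp a := by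
  induction n with
  | zero => exact le_rfl
  | succ n ih =>
    have h1 := ih fun k hk => hn k (by omega)
    have h2 := h _ (hn n (by omega))
    rw [Function.iterate_succ_apply']
    omega

/-- on a circle that is not a root the walk leaves through a crossing of `Q` -/
theorem NzArb_exit (hd : P.Dist b d) (hs : P.Side sd) {Q : Finset V} (hQ : P.Act Q)
    {χ : V → Bool} (hf : P.Fam d Q χ) {t : Bool} {x₀ y₀ : V} (hx : x₀ ∈ Q)
    (hr : ¬ P.Root sd b true (P.inn t x₀)) (hy : P.SC (P.inn t x₀) (P.inn t y₀)) (hy' : χ y₀ ≠ t)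
    {a : A} (ha : P.SC (P.inn t x₀) a) : ∃ n, ∃ y ∈ Q, P.SC (P.inn t x₀) (P.inn t y) ∧ χ y ≠ t ∧
      (P.nxt χ)^[n] a = P.inn t y ∧ ∀ k ≤ n, (P.nxt χ)^[k] a ≠ b := by
  obtain ⟨n, h1, h2⟩ := walk χ (ha.symm.trans hy)
  have h3 : ∀ k ≤ n, P.SC (P.inn t x₀) ((P.nxt χ)^[k] a) := fun k hk => by
    rw [h1 k hk]; exact NzArb_sc_pow ha k
  obtain ⟨y, h4, h5⟩ : ∃ y, (P.nxt χ)^[n] a = P.inn t y ∧ χ y ≠ t := by
    rcases h2 with h2 | ⟨t', y, h2, h6⟩
    · exact ⟨y₀, h2, hy'⟩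
    · have h7 := (h3 n le_rfl).ty_eq
      rw [h2, P.ty_inn, P.ty_inn] at h7
      subst h7
      exact ⟨y, h2, h6⟩
  have h6 : P.SC (P.inn t x₀) (P.inn t y) := h4 ▸ h3 n le_rfl
  refine ⟨n, y, ?_, h6, h5, h4, fun k hk e => hr (Or.inl (e ▸ h3 k hk))⟩
  by_contra hn
  have h7 : P.s y = false := Bool.eq_false_iff.2 fun h => hn (hQ.2 x₀ hx y t h h6)
  refine h5 ((hf y hn).trans (z_root hd hs h6 (Or.inr fun h => hr (Or.inr ?_))))
  rw [h, h7]
  exact Bool.false_ne_true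

theorem NzArb_acc (hs : P.Side sd) {Q : Finset V} (hQ : P.Act Q) {χ : V → Bool} (h : P.Tree χ b)
    {t : Bool} {x₀ : V} (hx : x₀ ∈ Q) (hr : ¬ P.Root sd b true (P.inn t x₀)) :
    ∃ y ∈ Q, P.SC (P.inn t x₀) (P.inn t y) ∧ χ y ≠ t := by
  obtain ⟨t', y, h1, -, h2, h3⟩ := acc hs h (e := true) (T := P.SC (P.inn t x₀))
    (fun _ => sc_σ_right) ⟨_, SC.refl _⟩ fun a ha hr' => hr (by
      rcases hr' with h' | h'
      · exact Or.inl (ha.trans h')
      · exact Or.inr (by rwa [hs.sd_c _ _ ha]))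
  have h4 := h1.ty_eq
  rw [P.ty_inn, P.ty_inn] at h4
  subst h4
  exact ⟨y, hQ.2 x₀ hx y t h2 h1, h1, h3⟩

theorem arb (hd : P.Dist b d) (hs : P.Side sd) {Q : Finset V} (hQ : P.Act Q) {χ χ' : V → Bool}
    (h : P.Tree χ b) (hf : P.Fam d Q χ) (h' : P.Tree χ' b) (hf' : P.Fam d Q χ') {t : Bool}
    (he : nf Q χ t = P.beta d Q t) (he' : nf Q χ' t = P.beta d Q t) (hne : χ ≠ χ') :
    ∃ x ∈ Q, ∃ x' ∈ Q, χ x = (!t) ∧ χ' x = t ∧ χ x' = t ∧ χ' x' = (!t) ∧
      P.Tree (Function.update (Function.update χ x t) x' (!t)) b := by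
  obtain ⟨r1, u1⟩ := mt_root hd hs hQ h hf he
  obtain ⟨r2, u2⟩ := mt_root hd hs hQ h' hf' he'
  have hb : ∀ {u : Bool}, u ≠ t → u = !t := fun {u} hu => by cases u <;> cases t <;> simp_all
  have hnt : (!t) ≠ t := by cases t <;> simp
  obtain ⟨dp, -, hdp⟩ := h'.exists_dp
  have hS : (Q.filter fun x => χ' x ≠ t ∧ χ x = t).Nonempty := by
    by_contra hn
    have h1 : (Q.filter fun x => χ' x ≠ t) ⊆ Q.filter fun x => χ x ≠ t := fun x hx =>
      mem_filter.2 ⟨(mem_filter.1 hx).1, fun e =>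
        hn ⟨x, mem_filter.2 ⟨(mem_filter.1 hx).1, (mem_filter.1 hx).2, e⟩⟩⟩
    have h2 := eq_of_subset_of_card_le h1 (he.trans he'.symm).le
    refine hne (funext fun x => ?_)
    by_cases hx : x ∈ Q
    · have h3 : x ∈ (Q.filter fun x => χ' x ≠ t) ↔ x ∈ Q.filter fun x => χ x ≠ t := by rw [h2]
      simp only [mem_filter, hx, true_and] at h3
      by_cases h4 : χ x = t
      · rw [h4]
        by_contra h5
        exact h3.1 (fun e => h5 e.symm) h4
      · rw [hb h4, hb (h3.2 h4)]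
    · rw [hf x hx, hf' x hx]
  obtain ⟨x', hx', hmin⟩ := exists_min_image _ (fun x => dp (P.out (!t) x)) hS
  simp only [mem_filter] at hx' hmin
  obtain ⟨q', a', b'⟩ := hx'
  have hr : ¬ P.Root sd b true (P.inn t x') := fun e => a' (r2 x' q' e)
  obtain ⟨x, q, hc, a⟩ := NzArb_acc hs hQ h q' hr
  have hxx : x ≠ x' := fun e => a (by rw [e, b'])
  have b0 : χ' x = t := by
    by_contra hn
    exact hxx (u2 x' q' x q a' hn hc).symm
  refine ⟨x, q, x', q', hb a, b0, b', hb a', ?_⟩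
  have hF := NzArb_fam (NzArb_fam hf q t) q' (!t)
  have e1 : Function.update (Function.update χ x t) x' (!t) x' = !t := Function.update_self ..
  have e2 : Function.update (Function.update χ x t) x' (!t) x = t := by
    rw [Function.update_of_ne hxx, Function.update_self]
  have e3 : ∀ z, z ≠ x → z ≠ x' → Function.update (Function.update χ x t) x' (!t) z = χ z :=
    fun z h1 h2 => by rw [Function.update_of_ne h2, Function.update_of_ne h1]
  generalize Function.update (Function.update χ x t) x' (!t) = ψ at hF e1 e2 e3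
  have same : ∀ t₁ z, P.inn t₁ z ≠ b → dp (P.inn t₁ z) ≤ dp (P.out (!t) x') → ψ z = χ' z := by
    intro t₁ z h1 h2
    have h3 := hdp _ h1
    rw [nxt_inn] at h3
    by_cases k1 : z = x
    · rw [k1, e2, b0]
    by_cases k2 : z = x'
    · rw [k2, e1, hb a']
    rw [e3 z k1 k2]
    by_cases hz : z ∈ Q
    · by_cases h4 : χ' z = t
      · rw [h4] at h3 ⊢
        by_contra h5
        have hr' : ¬ P.Root sd b true (P.inn t z) := fun e => h5 (r1 z hz e)
        obtain ⟨y₀, -, g1, g2⟩ := NzArb_acc hs hQ h' hz hr'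
        obtain ⟨n, y, g3, g4, g5, g6, g7⟩ := NzArb_exit hd hs hQ hf' hz hr' g1 g2
          (a := P.out t z) (sc_σ_right.2 (SC.refl _))
        have g8 := NzArb_dp hdp g7
        have g9 := hdp _ (g7 n le_rfl)
        rw [g6] at g8 g9
        rw [nxt_inn, hb g5] at g9
        have g10 : χ y ≠ t := fun e => by
          have := hmin y ⟨g3, g5, e⟩
          omega
        exact g5 (u1 z hz y g3 h5 g10 g4 ▸ h4)
      · rw [hb h4] at h3 ⊢
        refine hb fun e => ?_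
        have := hmin z ⟨hz, h4, e⟩
        omega
    · rw [hf z hz, hf' z hz]
  have key : ∀ n a, dp a = n → dp a ≤ dp (P.out (!t) x') → P.Reach ψ a b := by
    intro n
    induction n using Nat.strong_induction_on with
    | _ n ih =>
      intro a h1 h2
      by_cases h3 : a = b
      · rw [h3]; exact Reach.refl _ _
      have h4 := hdp a h3
      have h5 : P.nxt ψ a = P.nxt χ' a := by
        rcases pass_or (P := P) a with h6 | ⟨t₁, z, rfl⟩
        · rw [nxt_pass _ h6, nxt_pass _ h6]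
        · rw [nxt_inn, nxt_inn, same t₁ z h3 h2]
      refine Reach.head ?_
      rw [h5]
      exact ih _ (by omega) _ rfl (by omega)
  have k0 := key _ _ rfl le_rfl
  refine h.change fun z hz => ?_
  by_cases k2 : z = x'
  · rw [k2, e1]; exact k0
  by_cases k1 : z = x
  · rw [k1, e2]
    obtain ⟨n, y, g3, g4, g5, g6, -⟩ := NzArb_exit hd hs hQ hF q' hr (SC.refl _) (e1 ▸ hnt)
      (a := P.out t x) (sc_σ_right.2 hc)
    have g7 : y = x' := by
      by_contra hn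
      have g8 : y ≠ x := fun e => g5 (by rw [e, e2])
      rw [e3 y g8 hn] at g5
      exact g8 (u1 y g3 x q g5 a (g4.symm.trans hc))
    refine Reach.trans ⟨n, g6⟩ (Reach.head ?_)
    rw [nxt_inn, g7, e1]
    exact k0
  · exact absurd (e3 z k1 k2) hz

theorem famD (hd : P.Dist b d) (hs : P.Side sd) {Q : Finset V} (hQ : P.Act Q) :
    FamD Q (fun χ => P.Tree χ b ∧ P.Fam d Q χ) (fun χ => P.rev.Tree χ b ∧ P.Fam d Q χ)
      (P.beta d Q) (P.Z d) where
  zI := ⟨z_tree hd, fun _ _ => rfl⟩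
  zO := ⟨rev_Z hd.d_σ ▸ z_tree hd.rev, fun _ _ => rfl⟩
  offI := fun _ h => h.2
  offO := fun _ h => h.2
  lbI := fun _ h t => beta_le hd hs hQ h.1 t
  lbO := fun _ h t => rev_beta hd.d_σ Q t ▸ beta_le hd.rev hs.rev hQ.rev h.1 t
  flipI := fun _ h t hlt => by
    obtain ⟨x, hx, h1, h2⟩ := flip hd hs hQ h.1 h.2 hlt
    exact ⟨x, hx, h1, h2, NzArb_fam h.2 hx t⟩
  flipO := fun _ h t hlt => by
    obtain ⟨x, hx, h1, h2⟩ := flip hd.rev hs.rev hQ.rev h.1 ((rev_fam hd.d_σ).2 h.2)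
      ((rev_beta hd.d_σ Q t).trans_lt hlt)
    exact ⟨x, hx, h1, h2, NzArb_fam h.2 hx t⟩
  arbI := fun _ _ h h' he he' hne => by
    obtain ⟨x, hx, x', hx', h1, h2, h3, h4, h5⟩ := arb hd hs hQ h.1 h.2 h'.1 h'.2 he he' hne
    exact ⟨x, hx, x', hx', h1, h2, h3, h4, h5, NzArb_fam (NzArb_fam h.2 hx _) hx' _⟩
  arbO := fun _ _ h h' he he' hne => by
    obtain ⟨x, hx, x', hx', h1, h2, h3, h4, h5⟩ := arb hd.rev hs.rev hQ.rev h.1
      ((rev_fam hd.d_σ).2 h.2) h'.1 ((rev_fam hd.d_σ).2 h'.2)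
      (he.trans (rev_beta hd.d_σ Q false).symm) (he'.trans (rev_beta hd.d_σ Q false).symm) hne
    exact ⟨x, hx, x', hx', h1, h2, h3, h4, h5, NzArb_fam (NzArb_fam h.2 hx _) hx' _⟩

end Pl

end Pool.Agent.P.MP_9ed2cf_gt.Nz
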