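import Mathlib
import Pool.Agent.P.MP_9ed2cf_gt.NzBasic

set_option autoImplicit false
set_option linter.unusedSectionVars false

namespace Pool.Agent.P.MP_9ed2cf_gt.Nz

open Equiv Finset
open scoped Classical

namespace Pl

variable {A V : Type} {P : Pl A V}

theorem dual_inn_iff {t t' : Bool} {x x' : V} : P.inn t x = P.inn t' x' ↔ t = t' ∧ x = x' :=
  ⟨fun h => ⟨inn_ty h, P.inj _ _ _ _ h⟩, fun h => by rw [h.1, h.2]⟩

/-- one step of a walk on the faces -/
def DualStep (P : Pl A V) (φ : Perm A) (D1 D2 : Finset V) (a a' : A) : Prop :=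
  a' = φ a ∨ (∃ x ∈ D1, a = P.inn false x ∧ a' = φ (P.inn true x)) ∨
    ∃ x ∈ D2, a = P.inn true x ∧ a' = φ (P.inn false x)

/-- the correction term of a walk -/
structure DualCorr (P : Pl A V) (Q D1 D2 : Finset V) (c : A → ℤ) : Prop where
  off : ∀ n, (∀ t, ∀ y ∈ Q, n ≠ P.inn t y) → c n = 0
  anti : ∀ y ∈ Q, c (P.inn false y) = - c (P.inn true y)
  le1 : ∀ y ∈ Q, y ∉ D1 → c (P.inn true y) ≤ 0
  le2 : ∀ y ∈ Q, y ∉ D2 → 0 ≤ c (P.inn true y)

theorem DualCorr.add1 {Q D1 D2 : Finset V} {c : A → ℤ} (h : DualCorr P Q D1 D2 c) {x : V}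
    (hxQ : x ∈ Q) (hx : x ∈ D1) :
    DualCorr P Q D1 D2 fun n =>
      c n + (if n = P.inn true x then 1 else 0) - (if n = P.inn false x then 1 else 0) where
  off := fun n hn => by
    rw [h.off n hn, if_neg (hn true x hxQ), if_neg (hn false x hxQ)]; rfl
  anti := fun y hy => by
    have := h.anti y hy
    by_cases e : y = x
    · subst e; simp [dual_inn_iff]; omega
    · simp [dual_inn_iff, e]; omega
  le1 := fun y hy hy1 => by
    have := h.le1 y hy hy1
    have e : y ≠ x := fun e => hy1 (e ▸ hx)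
    simp [dual_inn_iff, e]; omega
  le2 := fun y hy hy2 => by
    have := h.le2 y hy hy2
    by_cases e : y = x
    · subst e; simp [dual_inn_iff]; omega
    · simp [dual_inn_iff, e]; omega

theorem DualCorr.add2 {Q D1 D2 : Finset V} {c : A → ℤ} (h : DualCorr P Q D1 D2 c) {x : V}
    (hxQ : x ∈ Q) (hx : x ∈ D2) :
    DualCorr P Q D1 D2 fun n =>
      c n + (if n = P.inn false x then 1 else 0) - (if n = P.inn true x then 1 else 0) where
  off := fun n hn => by
    rw [h.off n hn, if_neg (hn true x hxQ), if_neg (hn false x hxQ)]; rfl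
  anti := fun y hy => by
    have := h.anti y hy
    by_cases e : y = x
    · subst e; simp [dual_inn_iff]; omega
    · simp [dual_inn_iff, e]; omega
  le1 := fun y hy hy1 => by
    have := h.le1 y hy hy1
    by_cases e : y = x
    · subst e; simp [dual_inn_iff]; omega
    · simp [dual_inn_iff, e]; omega
  le2 := fun y hy hy2 => by
    have := h.le2 y hy hy2
    have e : y ≠ x := fun e => hy2 (e ▸ hx)
    simp [dual_inn_iff, e]; omega

theorem dual_walk {Q D1 D2 : Finset V} {φ : Perm A} (h1 : D1 ⊆ Q) (h2 : D2 ⊆ Q) {a a' : A}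
    (h : Relation.ReflTransGen (DualStep P φ D1 D2) a a') :
    ∃ γ c : A → ℤ, DualCorr P Q D1 D2 c ∧ ∀ n, γ (φ n) - γ n =
      (if φ n = a then 1 else 0) - (if n = a' then 1 else 0) + c n := by
  induction h with
  | refl =>
    exact ⟨fun n => if n = a then 1 else 0, fun _ => 0,
      ⟨fun _ _ => rfl, fun _ _ => by simp, fun _ _ _ => le_rfl, fun _ _ _ => le_rfl⟩,
      fun n => by simp⟩
  | @tail b b' _ hs ih =>
    obtain ⟨γ, c, hc, hγ⟩ := ih
    rcases hs with e | ⟨x, hx, e, e'⟩ | ⟨x, hx, e, e'⟩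
    · refine ⟨fun n => γ n + if n = b' then 1 else 0, c, hc, fun n => ?_⟩
      have h3 : (if φ n = b' then (1 : ℤ) else 0) = if n = b then 1 else 0 := by
        simp only [e, EmbeddingLike.apply_eq_iff_eq]
      have := hγ n
      simp only [h3]
      omega
    · refine ⟨fun n => γ n + if n = b' then 1 else 0, _, hc.add1 (h1 hx) hx, fun n => ?_⟩
      have h3 : (if φ n = b' then (1 : ℤ) else 0) = if n = P.inn true x then 1 else 0 := by
        simp only [e', EmbeddingLike.apply_eq_iff_eq]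
      have := hγ n
      rw [e] at this
      simp only [h3]
      omega
    · refine ⟨fun n => γ n + if n = b' then 1 else 0, _, hc.add2 (h2 hx) hx, fun n => ?_⟩
      have h3 : (if φ n = b' then (1 : ℤ) else 0) = if n = P.inn false x then 1 else 0 := by
        simp only [e', EmbeddingLike.apply_eq_iff_eq]
      have := hγ n
      rw [e] at this
      simp only [h3]
      omega

theorem dual_mem_nl {Q : Finset V} {φ : Perm A} {x : V} :
    x ∈ P.nl Q φ ↔ x ∈ Q ∧ ¬ φ.SameCycle (P.inn false x) (P.inn true x) := mem_filter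

theorem dual_phi_off {Q : Finset V} {φ : Perm A} (hφ : P.IsPhi Q φ) {x : V} (hx : x ∉ Q)
    (t : Bool) : φ (P.inn t x) = P.out t x :=
  hφ.1 _ fun _ _ hy e => hx ((dual_inn_iff.1 e).2 ▸ hy)

theorem dual_phi_pass {Q : Finset V} {φ : Perm A} (hφ : P.IsPhi Q φ) {a : A} (ha : P.Pass a) :
    φ a = P.σ a :=
  hφ.1 _ fun t y _ => ha t y

/-- a closed walk has no correction term -/
theorem dual_closed (hP : P.Planar) {Q D1 D2 : Finset V} (hQ : ∀ x ∈ Q, P.s x = true)
    {φ : Perm A} (hφ : P.IsPhi Q φ) (h : P.NDC Q D1 D2) {γ c : A → ℤ}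
    (hc : DualCorr P Q D1 D2 c) (hγ : ∀ n, γ (φ n) - γ n = c n) {x : V} (hx : x ∈ Q) :
    c (P.inn true x) = 0 := by
  have hoff : ∀ y, y ∉ Q → ∀ t, γ (P.out t y) = γ (P.inn t y) := fun y hy t => by
    have h3 := hγ (P.inn t y)
    rw [dual_phi_off hφ hy,
      hc.off (P.inn t y) fun _ _ hz e => hy ((dual_inn_iff.1 e).2 ▸ hz)] at h3
    omega
  have hin : ∀ y ∈ Q, γ (P.out false y) - γ (P.inn true y) = c (P.inn true y) := fun y hy => by
    have h3 := hγ (P.inn true y)
    rw [hφ.2 true y hy] at h3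
    exact h3
  have hin' : ∀ y ∈ Q, γ (P.out true y) - γ (P.inn false y) = - c (P.inn true y) := fun y hy => by
    have h3 := hγ (P.inn false y)
    rw [hφ.2 false y hy, hc.anti y hy] at h3
    exact h3
  have hcons : P.Cons γ := by
    refine ⟨fun a ha => ?_, fun y => ?_⟩
    · have h3 := hγ a
      rw [dual_phi_pass hφ ha, hc.off _ fun t z _ => ha t z] at h3
      omega
    · by_cases hy : y ∈ Q
      · have := hin y hy
        have := hin' y hy
        omega
      · rw [hoff y hy, hoff y hy]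
  obtain ⟨L, R, hL, hR, hLR⟩ := hP γ hcons
  have hRσ : ∀ a, R (P.σ a) = R a := fun a => by
    rcases pass_or (P := P) a with ha | ⟨t, y, rfl⟩
    · exact hR.1 a ha
    · by_cases hs : P.s y = true
      · have h3 := hR.2 t y
        rw [if_neg (by simp [hs])] at h3
        exact h3
      · have h3 := hL.2 t y
        rw [if_neg hs] at h3
        have h4 := hoff y (fun hy => hs (hQ y hy)) t
        have h5 := hLR (P.out t y)
        have h6 := hLR (P.inn t y)
        show R (P.out t y) = R (P.inn t y)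
        omega
  have hRc : ∀ y ∈ Q, R (P.inn true y) - R (P.inn false y) = c (P.inn true y) := fun y hy => by
    have h3 := hL.2 true y
    rw [if_pos (hQ y hy)] at h3
    have h3' : L (P.out false y) = L (P.inn true y) := h3
    have h4 : R (P.out false y) = R (P.inn false y) := hRσ _
    have h5 := hLR (P.out false y)
    have h6 := hLR (P.inn true y)
    have h7 := hin y hy
    omega
  have key : ∀ θ : ℤ, (θ ≤ R (P.inn true x) ↔ θ ≤ R (P.inn false x)) := fun θ => by
    refine h (fun a => θ ≤ R a) (fun a => by rw [hRσ]) (fun y hy ha hb => ?_)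
      (fun y hy ha hb => ?_) x hx
    · by_contra hn
      have := hc.le1 y hy hn
      have := hRc y hy
      omega
    · by_contra hn
      have := hc.le2 y hy hn
      have := hRc y hy
      omega
  have k1 := (key (R (P.inn true x))).1 le_rfl
  have k2 := (key (R (P.inn false x))).2 le_rfl
  have := hRc x hx
  omega

variable [Fintype A] [Fintype V]

theorem dual_back {D1 D2 : Finset V} {φ : Perm A} {a a' : A} (h : φ.SameCycle a a') :
    Relation.ReflTransGen (DualStep P φ D1 D2) a a' := by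
  obtain ⟨n, rfl⟩ := h.exists_nat_pow_eq
  clear h
  induction n with
  | zero => exact Relation.ReflTransGen.refl
  | succ n ih => exact ih.tail (Or.inl (by rw [pow_succ']; rfl))

theorem dual_inv {φ : Perm A} {r : A → ℕ} (hr : ∀ a, r (φ a) = r a) {a a' : A}
    (h : φ.SameCycle a a') : r a = r a' := by
  obtain ⟨n, rfl⟩ := h.exists_nat_pow_eq
  clear h
  induction n with
  | zero => rfl
  | succ n ih => rw [pow_succ', Perm.mul_apply, hr, ← ih]

theorem dual (hP : P.Planar) {Q D1 D2 : Finset V} (hQ : ∀ x ∈ Q, P.s x = true) {φ : Perm A}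
    (hφ : P.IsPhi Q φ) (h1 : D1 ⊆ Q) (h2 : D2 ⊆ Q) (hd : Disjoint D1 D2) (h : P.NDC Q D1 D2) :
    ∃ r : A → ℕ, P.Rank Q φ r ∧ (∀ x ∈ D1, r (P.inn false x) < r (P.inn true x)) ∧
      ∀ x ∈ D2, r (P.inn true x) < r (P.inn false x) := by
  have n1 : ∀ x ∈ D1, ¬ Relation.ReflTransGen (DualStep P φ D1 D2) (φ (P.inn true x))
      (P.inn false x) := fun x hx hw => by
    obtain ⟨γ, c, hc, hγ⟩ := dual_walk (Q := Q) h1 h2 hw
    have h3 := dual_closed hP hQ hφ h (γ := γ) (hc.add1 (h1 hx) hx) (fun n => by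
      have := hγ n
      simp only [EmbeddingLike.apply_eq_iff_eq] at this
      omega) (h1 hx)
    have h4 := hc.le2 x (h1 hx) (Finset.disjoint_left.1 hd hx)
    simp [dual_inn_iff] at h3
    omega
  have n2 : ∀ x ∈ D2, ¬ Relation.ReflTransGen (DualStep P φ D1 D2) (φ (P.inn false x))
      (P.inn true x) := fun x hx hw => by
    obtain ⟨γ, c, hc, hγ⟩ := dual_walk (Q := Q) h1 h2 hw
    have h3 := dual_closed hP hQ hφ h (γ := γ) (hc.add2 (h2 hx) hx) (fun n => by
      have := hγ n
      simp only [EmbeddingLike.apply_eq_iff_eq] at this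
      omega) (h2 hx)
    have h4 := hc.le1 x (h2 hx) (Finset.disjoint_right.1 hd hx)
    simp [dual_inn_iff] at h3
    omega
  obtain ⟨r0, hr0⟩ : ∃ r0 : A → ℕ, ∀ a, r0 a =
      (univ.filter fun a' => Relation.ReflTransGen (DualStep P φ D1 D2) a' a).card :=
    ⟨_, fun _ => rfl⟩
  have r0φ : ∀ a, r0 (φ a) = r0 a := fun a => by
    rw [hr0, hr0]
    congr 1
    ext a'
    simp only [mem_filter, mem_univ, true_and]
    exact ⟨fun hw => hw.trans (dual_back (by simp [Perm.SameCycle.rfl])),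
      fun hw => hw.tail (Or.inl rfl)⟩
  have r0lt : ∀ a a', DualStep P φ D1 D2 a a' →
      ¬ Relation.ReflTransGen (DualStep P φ D1 D2) a' a → r0 a < r0 a' := fun a a' hs hn => by
    rw [hr0, hr0]
    refine card_lt_card ⟨fun z hz => ?_, fun hsub => hn ?_⟩
    · simp only [mem_filter, mem_univ, true_and] at hz ⊢
      exact hz.tail hs
    · have := hsub (show a' ∈ _ by
        simp only [mem_filter, mem_univ, true_and]; exact Relation.ReflTransGen.refl)
      simpa only [mem_filter, mem_univ, true_and] using this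
  obtain ⟨N, ix, hlt, hixφ, hix⟩ : ∃ (N : ℕ) (ix : A → ℕ), (∀ a, ix a < N) ∧
      (∀ a, ix (φ a) = ix a) ∧ ∀ a a', ix a = ix a' → φ.SameCycle a a' := by
    refine ⟨Fintype.card (Set A),
      fun a => (Fintype.equivFin (Set A) {a' | φ.SameCycle a a'}).val, fun a => Fin.is_lt _,
      fun a => ?_, fun a a' e => ?_⟩
    · simp only [Perm.sameCycle_apply_left]
    · have e' := (Fintype.equivFin (Set A)).injective (Fin.ext e)
      have : a' ∈ {z | φ.SameCycle a' z} := Perm.SameCycle.rfl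
      rw [← e'] at this
      exact this
  have mono : ∀ a a', r0 a < r0 a' → r0 a * N + ix a < r0 a' * N + ix a' := fun a a' hl => by
    have h3 : (r0 a + 1) * N ≤ r0 a' * N := Nat.mul_le_mul_right _ hl
    have h4 := hlt a
    rw [add_mul, one_mul] at h3
    omega
  refine ⟨fun a => r0 a * N + ix a, ⟨fun a => by simp only [r0φ, hixφ], fun x hx e => ?_⟩,
    fun x hx => mono _ _ ?_, fun x hx => mono _ _ ?_⟩
  · apply (dual_mem_nl.1 hx).2
    apply hix
    rcases lt_trichotomy (r0 (P.inn false x)) (r0 (P.inn true x)) with hl | hl | hl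
    · exact absurd e (mono _ _ hl).ne
    · have e' : r0 (P.inn false x) * N + ix (P.inn false x) =
        r0 (P.inn true x) * N + ix (P.inn true x) := e
      rw [hl] at e'
      omega
    · exact absurd e (mono _ _ hl).ne'
  · rw [← r0φ (P.inn true x)]
    exact r0lt _ _ (Or.inr (Or.inl ⟨x, hx, rfl, rfl⟩)) (n1 x hx)
  · rw [← r0φ (P.inn false x)]
    exact r0lt _ _ (Or.inr (Or.inr ⟨x, hx, rfl, rfl⟩)) (n2 x hx)

theorem dual_cl_σ (a : A) : P.cl (P.σ a) = P.cl a := by
  ext z
  exact sc_σ_left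

theorem tc_of_rank {Q : Finset V} {φ : Perm A} (hφ : P.IsPhi Q φ) {r : A → ℕ}
    (hr : P.Rank Q φ r) :
    TC (P.nl Q φ) (fun x => P.cl (P.inn false x)) (fun x => P.cl (P.inn true x))
      fun x => decide (r (P.inn false x) < r (P.inn true x)) := by
  intro T hT
  by_contra hn
  obtain ⟨x0, hx0, hcut⟩ := hT
  obtain ⟨τ, hτ⟩ : ∃ τ : A → ℤ, ∀ a, τ a = if T (P.cl a) then 1 else 0 := ⟨_, fun _ => rfl⟩
  have τσ : ∀ a, τ (P.σ a) = τ a := fun a => by rw [hτ, hτ, dual_cl_σ]
  have hsum : ∑ a, τ a * ((r (P.σ a) : ℤ) - r a) = 0 := by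
    have h3 : ∑ a, τ (P.σ a) * (r (P.σ a) : ℤ) = ∑ a, τ a * (r a : ℤ) :=
      Equiv.sum_comp P.σ fun a => τ a * (r a : ℤ)
    simp only [τσ] at h3
    simp only [mul_sub, sum_sub_distrib, h3, sub_self]
  rw [sum_split (P := P) _ fun a ha => by rw [← dual_phi_pass hφ ha, hr.1, sub_self, mul_zero]]
    at hsum
  have hin : ∀ x ∈ Q, ∀ t, r (P.σ (P.inn t x)) = r (P.inn (!t) x) := fun x hx t => by
    have h3 := hφ.2 (!t) x hx
    rw [Bool.not_not] at h3
    rw [← hr.1 (P.inn (!t) x), h3]
    rfl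
  have hnl : ∀ x ∈ P.nl Q φ,
      τ (P.inn false x) * ((r (P.σ (P.inn false x)) : ℤ) - r (P.inn false x)) +
        τ (P.inn true x) * ((r (P.σ (P.inn true x)) : ℤ) - r (P.inn true x)) ≤ 0 ∧
      (¬ (T (P.cl (P.inn false x)) ↔ T (P.cl (P.inn true x))) →
      τ (P.inn false x) * ((r (P.σ (P.inn false x)) : ℤ) - r (P.inn false x)) +
        τ (P.inn true x) * ((r (P.σ (P.inn true x)) : ℤ) - r (P.inn true x)) < 0) :=
    fun x hx => by
      have hxQ := (dual_mem_nl.1 hx).1
      have hne := hr.2 x hx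
      rw [hin x hxQ, hin x hxQ, hτ, hτ]
      simp only [Bool.not_false, Bool.not_true]
      have hno : ¬ (T (if decide (r (P.inn false x) < r (P.inn true x)) = true then
          P.cl (P.inn false x) else P.cl (P.inn true x)) ∧
          ¬ T (if decide (r (P.inn false x) < r (P.inn true x)) = true then
          P.cl (P.inn true x) else P.cl (P.inn false x))) := fun hh => hn ⟨x, hx, hh⟩
      by_cases hl : r (P.inn false x) < r (P.inn true x) <;>
        by_cases hF : T (P.cl (P.inn false x)) <;> by_cases hB : T (P.cl (P.inn true x)) <;>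
        simp [hl, hF, hB] at hno ⊢ <;> omega
  refine absurd hsum (ne_of_lt ?_)
  rw [← sum_const_zero (s := (univ : Finset V))]
  refine sum_lt_sum (fun x _ => ?_) ⟨x0, mem_univ _, (hnl x0 hx0).2 hcut⟩
  by_cases hx : x ∈ P.nl Q φ
  · exact (hnl x hx).1
  · by_cases hxQ : x ∈ Q
    · have hsc : φ.SameCycle (P.inn false x) (P.inn true x) := by
        by_contra hh
        exact hx (dual_mem_nl.2 ⟨hxQ, hh⟩)
      rw [hin x hxQ, hin x hxQ]
      simp only [Bool.not_false, Bool.not_true]
      rw [dual_inv hr.1 hsc]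
      simp
    · have h3 : ∀ t, r (P.σ (P.inn t x)) = r (P.inn t x) := fun t => by
        rw [← hr.1 (P.inn t x), dual_phi_off hφ hxQ]
        rfl
      rw [h3, h3]
      simp

theorem ndc_of_tc {Q : Finset V} {φ : Perm A} {O : V → Bool}
    (h : TC (P.nl Q φ) (fun x => P.cl (P.inn false x)) (fun x => P.cl (P.inn true x)) O) :
    P.NDC Q ((P.nl Q φ).filter fun x => O x = true) ((P.nl Q φ).filter fun x => O x = false) := by
  intro T hT h1 h2 x0 hx0
  by_contra hcut
  have hcl : ∀ a, (∃ a', P.cl a = P.cl a' ∧ T a') ↔ T a := fun a => by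
    refine ⟨fun ⟨a', e, ha⟩ => ?_, fun ha => ⟨a, rfl, ha⟩⟩
    have h3 : a ∈ P.cl a := SC.refl a
    rw [e] at h3
    exact SC.ind (p := T) (fun z hz => (hT z).2 hz) h3 ha
  have hx : x0 ∈ P.nl Q φ := by
    by_cases hB : T (P.inn true x0)
    · exact (mem_filter.1 (h1 x0 hx0 hB fun hF => hcut ⟨fun _ => hF, fun _ => hB⟩)).1
    · have hF : T (P.inn false x0) := by
        by_contra hF
        exact hcut ⟨fun h' => absurd h' hB, fun h' => absurd h' hF⟩
      exact (mem_filter.1 (h2 x0 hx0 hF hB)).1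
  obtain ⟨x, hxn, ha, hb⟩ := h (fun S => ∃ a', S = P.cl a' ∧ T a')
    ⟨x0, hx, by rw [hcl, hcl]; exact fun hh => hcut hh.symm⟩
  have hxQ := (dual_mem_nl.1 hxn).1
  by_cases hO : O x = true
  · rw [if_pos hO, hcl] at ha hb
    have := (mem_filter.1 (h2 x hxQ ha hb)).2
    simp [hO] at this
  · rw [if_neg hO, hcl] at ha hb
    exact hO (mem_filter.1 (h1 x hxQ ha hb)).2

end Pl

end Pool.Agent.P.MP_9ed2cf_gt.Nz
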