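import Mathlib
import Pool.Agent.P.MP_9ed2cf_gt.NzDefs

set_option autoImplicit false

namespace Pool.Agent.P.MP_9ed2cf_gt.Nz

open Equiv Finset
open scoped Classical

variable {V U : Type}

theorem TC.compl {E : Finset V} {f g : V → U} {O : V → Bool} (h : TC E f g O) :
    TC E f g fun x => !O x := by
  intro T hT
  obtain ⟨x, hx, h1⟩ := hT
  obtain ⟨y, hy, h2, h3⟩ := h (fun u => ¬ T u) ⟨x, hx, by tauto⟩
  refine ⟨y, hy, ?_⟩
  cases hO : O y <;> simp only [hO] at h2 h3 ⊢ <;> simp at h2 h3 ⊢ <;> exact ⟨h3, h2⟩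

/-- head of an edge -/
def exchHd (f g : V → U) (O : V → Bool) (x : V) : U := if O x then g x else f x

/-- in-degree -/
noncomputable def exchDeg (E : Finset V) (f g : V → U) (O : V → Bool) (u : U) : ℤ :=
  (E.filter fun x => exchHd f g O x = u).card

/-- number of edges inside `S` -/
noncomputable def exchIn (E : Finset V) (f g : V → U) (S : Finset U) : ℤ :=
  (E.filter fun x => f x ∈ S ∧ g x ∈ S).card

/-- some edge has exactly one end in `S` -/
def exchCut (E : Finset V) (f g : V → U) (S : Finset U) : Prop := ∃ x ∈ E, ¬ (f x ∈ S ↔ g x ∈ S)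

/-- in-degree vectors of totally cyclic orientations -/
structure ExchGood [Fintype U] (E : Finset V) (f g : V → U) (m : U → ℤ) : Prop where
  tot : ∑ u, m u = E.card
  le : ∀ S, exchIn E f g S ≤ ∑ u ∈ S, m u
  lt : ∀ S, exchCut E f g S → exchIn E f g S + 1 ≤ ∑ u ∈ S, m u

section

variable {E : Finset V} {f g : V → U} {O : V → Bool}

theorem exch_sum_deg (S : Finset U) :
    ∑ u ∈ S, exchDeg E f g O u = (E.filter fun x => exchHd f g O x ∈ S).card := by
  unfold exchDeg
  simp only [card_filter, Nat.cast_sum]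
  rw [sum_comm]
  refine sum_congr rfl fun x _ => ?_
  rw [← Nat.cast_sum, sum_ite_eq]

theorem exch_sub (S : Finset U) :
    (E.filter fun x => f x ∈ S ∧ g x ∈ S) ⊆ E.filter fun x => exchHd f g O x ∈ S := by
  intro x hx
  obtain ⟨h1, h2, h3⟩ := mem_filter.1 hx
  refine mem_filter.2 ⟨h1, ?_⟩
  unfold exchHd
  split_ifs <;> assumption

theorem exch_good [Fintype U] (h : TC E f g O) : ExchGood E f g (exchDeg E f g O) := by
  refine ⟨by rw [exch_sum_deg]; simp, fun S => ?_, fun S hS => ?_⟩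
  · rw [exch_sum_deg, exchIn]
    exact Nat.cast_le.2 (card_le_card (exch_sub S))
  · rw [exch_sum_deg, exchIn]
    obtain ⟨x, hx, h1⟩ := hS
    obtain ⟨y, hy, h2, h3⟩ := h (fun u => u ∉ S) ⟨x, hx, by tauto⟩
    have h4 := card_lt_card ((ssubset_iff_of_subset (exch_sub (E := E) (f := f) (g := g)
      (O := O) S)).2 ⟨y, mem_filter.2 ⟨hy, not_not.1 h3⟩, fun hm => h2 (by
        obtain ⟨_, h5, h6⟩ := mem_filter.1 hm
        split_ifs <;> assumption)⟩)
    omega

theorem exch_tc [Fintype U] (h : ExchGood E f g (exchDeg E f g O)) : TC E f g O := by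
  intro T hT
  obtain ⟨x, hx, h1⟩ := hT
  have h2 := h.lt (univ.filter fun u => ¬ T u)
    ⟨x, hx, by simp only [mem_filter, mem_univ, true_and]; tauto⟩
  rw [exch_sum_deg, exchIn] at h2
  obtain ⟨y, hy, h3⟩ := exists_mem_notMem_of_card_lt_card (Nat.cast_lt.1 (Int.lt_of_add_one_le h2))
  obtain ⟨h4, h5⟩ := mem_filter.1 hy
  refine ⟨y, h4, ?_⟩
  simp only [mem_filter, mem_univ, true_and, exchHd] at h3 h5
  cases hO : O y <;> simp only [hO] at h5 ⊢ <;> simp at h5 ⊢ <;> tauto

theorem exch_hall [Fintype U] {m : U → ℤ} (h : ExchGood E f g m) :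
    ∃ O, exchDeg E f g O = m := by
  have h0 : ∀ u, 0 ≤ m u := fun u => by
    have h1 := h.le {u}
    rw [sum_singleton] at h1
    exact (Nat.cast_nonneg _).trans h1
  let Cp : Finset U → Finset (Σ _ : U, ℕ) := fun S => S.sigma fun u => range (m u).toNat
  have hC : ∀ S, ((Cp S).card : ℤ) = ∑ u ∈ S, m u := fun S => by
    simp only [Cp, card_sigma, card_range, Nat.cast_sum]
    exact sum_congr rfl fun u _ => Int.toNat_of_nonneg (h0 u)
  obtain ⟨φ, hφ, hm⟩ := (all_card_le_biUnion_card_iff_exists_injective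
    (fun x : E => Cp {f x, g x})).1 fun s => by
      have h1 := h.le (s.biUnion fun x => {f x, g x})
      rw [← hC, exchIn] at h1
      have h2 : s.card ≤ (E.filter fun x => f x ∈ (s.biUnion fun x : E => ({f x, g x} : Finset U)) ∧
          g x ∈ s.biUnion fun x : E => ({f x, g x} : Finset U)).card :=
        card_le_card_of_injOn Subtype.val (fun x hx => mem_coe.2 (mem_filter.2 ⟨x.2,
          mem_biUnion.2 ⟨x, hx, by simp⟩, mem_biUnion.2 ⟨x, hx, by simp⟩⟩))
          Subtype.val_injective.injOn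
      refine h2.trans ((Nat.cast_le.1 h1).trans (card_le_card fun p hp => ?_))
      obtain ⟨h3, h4⟩ := mem_sigma.1 hp
      obtain ⟨x, hx, h5⟩ := mem_biUnion.1 h3
      exact mem_biUnion.2 ⟨x, hx, mem_sigma.2 ⟨h5, h4⟩⟩
  let O : V → Bool := fun x => decide (∃ hx : x ∈ E, (φ ⟨x, hx⟩).1 = g x)
  have hO : ∀ x : E, exchHd f g O x = (φ x).1 := fun x => by
    have h1 := (mem_sigma.1 (hm x)).1
    unfold exchHd
    split_ifs with h2
    · obtain ⟨_, h3⟩ := of_decide_eq_true h2
      exact h3.symm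
    · rcases mem_insert.1 h1 with h3 | h3
      · exact h3.symm
      · exact absurd (decide_eq_true ⟨x.2, mem_singleton.1 h3⟩) h2
  have hle : ∀ u, exchDeg E f g O u ≤ m u := fun u => by
    have h1 := hC {u}
    rw [sum_singleton] at h1
    rw [← h1, exchDeg, ← card_attach]
    refine Nat.cast_le.2 (card_le_card_of_injOn (fun x => φ ⟨x.1, (mem_filter.1 x.2).1⟩)
      (fun x _ => mem_coe.2 (mem_sigma.2 ⟨?_, (mem_sigma.1 (hm _)).2⟩)) fun x _ y _ e => ?_)
    · exact mem_singleton.2 ((hO _).symm.trans (mem_filter.1 x.2).2)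
    · exact Subtype.ext (congrArg (fun z : E => z.1) (hφ e))
  refine ⟨O, funext fun u => (sum_eq_sum_iff_of_le fun u _ => hle u).1 ?_ u (mem_univ u)⟩
  rw [h.tot, exch_sum_deg]
  simp

theorem exch_super (S T : Finset U) :
    exchIn E f g S + exchIn E f g T ≤ exchIn E f g (S ∪ T) + exchIn E f g (S ∩ T) := by
  unfold exchIn
  simp only [card_filter, Nat.cast_sum, ← sum_add_distrib]
  refine sum_le_sum fun x _ => ?_
  simp only [mem_union, mem_inter]
  by_cases h1 : f x ∈ S <;> by_cases h2 : g x ∈ S <;> by_cases h3 : f x ∈ T <;>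
    by_cases h4 : g x ∈ T <;> simp [h1, h2, h3, h4]

theorem exch_split {R : Finset U} (hR : ¬ exchCut E f g R) (S : Finset U) :
    exchIn E f g S = exchIn E f g (S ∩ R) + exchIn E f g (S \ R) := by
  unfold exchIn
  simp only [card_filter, Nat.cast_sum, ← sum_add_distrib]
  refine sum_congr rfl fun x hx => ?_
  have h0 : f x ∈ R ↔ g x ∈ R := not_not.1 fun h => hR ⟨x, hx, h⟩
  simp only [mem_sdiff, mem_inter, h0]
  by_cases h1 : f x ∈ S <;> by_cases h2 : g x ∈ S <;> by_cases h3 : g x ∈ R <;> simp [h1, h2, h3]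

theorem exch_closed [Fintype U] {m : U → ℤ} (h : ExchGood E f g m) {R : Finset U}
    (hR : ¬ exchCut E f g R) : ∑ u ∈ R, m u = exchIn E f g R := by
  have h1 := exch_split hR univ
  have h2 : exchIn E f g univ = E.card := by simp [exchIn]
  have h3 := h.le R
  have h4 := h.le (univ \ R)
  have h5 := sum_sdiff (f := m) (subset_univ R)
  have h6 := h.tot
  rw [univ_inter] at h1
  omega

theorem exch_comp [Fintype U] (u : U) : ∃ R : Finset U, u ∈ R ∧ ¬ exchCut E f g R ∧
    ∀ S ⊆ R.erase u, S.Nonempty → exchCut E f g S := by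
  obtain ⟨R, hR, hm⟩ := exists_min_image
    (univ.filter fun R : Finset U => u ∈ R ∧ ¬ exchCut E f g R) card
    ⟨univ, mem_filter.2 ⟨mem_univ _, mem_univ _, by simp [exchCut]⟩⟩
  obtain ⟨h1, h2⟩ := (mem_filter.1 hR).2
  refine ⟨R, h1, h2, fun S hS hne => not_not.1 fun h3 => ?_⟩
  have h4 := hm (R \ S) (mem_filter.2 ⟨mem_univ _, mem_sdiff.2 ⟨h1, fun h => by
    simpa using hS h⟩, by
      rintro ⟨x, hx, h5⟩
      have a1 : f x ∈ R ↔ g x ∈ R := not_not.1 fun h => h2 ⟨x, hx, h⟩
      have a2 : f x ∈ S ↔ g x ∈ S := not_not.1 fun h => h3 ⟨x, hx, h⟩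
      exact h5 (by simp only [mem_sdiff, a1, a2])⟩)
  have h5 := card_lt_card (sdiff_ssubset (hS.trans (erase_subset u R)) hne)
  omega

theorem exch_cover [Fintype U] {m m' : U → ℤ} (h : ExchGood E f g m) (h' : ExchGood E f g m')
    (X : Finset U) (hX : ∀ S ⊆ X, S.Nonempty → exchCut E f g S)
    (hc : ∀ w ∈ X, m' w < m w → ∃ S ⊆ X, w ∈ S ∧ ∑ u ∈ S, m u ≤ exchIn E f g S + 1) :
    ∑ u ∈ X, m u ≤ ∑ u ∈ X, m' u := by
  induction X using Finset.strongInduction with
  | H X ih =>
    by_cases h0 : ∃ w ∈ X, m' w < m w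
    · obtain ⟨w, hw, h1⟩ := h0
      obtain ⟨S0, a1, a2, a3⟩ := hc w hw h1
      obtain ⟨S, hS, hm⟩ := exists_max_image (X.powerset.filter fun S =>
        S.Nonempty ∧ ∑ u ∈ S, m u ≤ exchIn E f g S + 1) card
        ⟨S0, mem_filter.2 ⟨mem_powerset.2 a1, ⟨w, a2⟩, a3⟩⟩
      obtain ⟨b1, b2, b3⟩ := mem_filter.1 hS
      have b1' := mem_powerset.1 b1
      have h2 := ih (X \ S) (sdiff_ssubset b1' b2)
        (fun T hT => hX T (hT.trans sdiff_subset)) fun v hv h3 => by
          obtain ⟨c1, c2⟩ := mem_sdiff.1 hv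
          obtain ⟨T, d1, d2, d3⟩ := hc v c1 h3
          refine ⟨T, fun y hy => mem_sdiff.2 ⟨d1 hy, fun hyS => ?_⟩, d2, d3⟩
          have e1 := h.lt _ (hX (S ∩ T) (inter_subset_left.trans b1') ⟨y, mem_inter.2 ⟨hyS, hy⟩⟩)
          have e2 := exch_super (E := E) (f := f) (g := g) S T
          have e3 := sum_union_inter (s₁ := S) (s₂ := T) (f := m)
          have e4 := hm (S ∪ T) (mem_filter.2 ⟨mem_powerset.2 (union_subset b1' d1),
            ⟨y, mem_union_left _ hyS⟩, by omega⟩)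
          have e5 := card_lt_card ((ssubset_iff_of_subset (subset_union_left (s₁ := S)
            (s₂ := T))).2 ⟨v, mem_union_right _ d2, c2⟩)
          omega
      have h3 := h'.lt S (hX S b1' b2)
      have h4 := sum_sdiff (f := m) b1'
      have h5 := sum_sdiff (f := m') b1'
      omega
    · exact sum_le_sum fun w hw => not_lt.1 fun h1 => h0 ⟨w, hw, h1⟩

theorem exch_step [Fintype U] {m m' : U → ℤ} (h : ExchGood E f g m) (h' : ExchGood E f g m')
    {u : U} (hu : m u < m' u) : ∃ w, m' w < m w ∧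
      ExchGood E f g fun v => m v + (if v = u then 1 else 0) - if v = w then 1 else 0 := by
  obtain ⟨R, h1, h2, h3⟩ := exch_comp (E := E) (f := f) (g := g) u
  have h4 : ¬ ∀ w ∈ R.erase u, m' w < m w →
      ∃ S ⊆ R.erase u, w ∈ S ∧ ∑ u ∈ S, m u ≤ exchIn E f g S + 1 := fun hc => by
    have a1 := exch_cover h h' _ h3 hc
    have a2 := exch_closed h h2
    have a3 := exch_closed h' h2
    have a4 := add_sum_erase R m h1
    have a5 := add_sum_erase R m' h1
    omega
  push Not at h4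
  obtain ⟨w, hw, h5, h6⟩ := h4
  have hs : ∀ S : Finset U, ∑ v ∈ S, (m v + (if v = u then 1 else 0) - if v = w then 1 else 0) =
      ∑ v ∈ S, m v + (if u ∈ S then 1 else 0) - if w ∈ S then 1 else 0 := fun S => by
    rw [sum_sub_distrib, sum_add_distrib, sum_ite_eq', sum_ite_eq']
  have key : ∀ S : Finset U, u ∉ S → w ∈ S → exchIn E f g S + 2 ≤ ∑ v ∈ S, m v := by
    intro S a1 a2
    have b1 := h6 (S ∩ R) (fun y hy => mem_erase.2 ⟨fun e => a1 (e ▸ (mem_inter.1 hy).1),
      (mem_inter.1 hy).2⟩) (mem_inter.2 ⟨a2, (mem_erase.1 hw).2⟩)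
    have b2 := h.le (S \ R)
    have b3 := exch_split h2 S
    have b4 := sum_inter_add_sum_sdiff S R m
    omega
  refine ⟨w, h5, by rw [hs, h.tot]; simp, fun S => ?_, fun S hS => ?_⟩
  · have a1 := h.le S
    have a2 := key S
    rw [hs]
    split_ifs with b1 b2 b2
    all_goals first | omega | (have := a2 b1 b2; omega)
  · have a1 := h.lt S hS
    have a2 := key S
    rw [hs]
    split_ifs with b1 b2 b2
    all_goals first | omega | (have := a2 b1 b2; omega)

theorem exch_ivt [Fintype U] {m' : U → ℤ} (h' : ExchGood E f g m') (C : Finset U) {k : ℤ}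
    (hk : k ≤ ∑ u ∈ C, m' u) (n : ℕ) : ∀ m : U → ℤ, ExchGood E f g m →
      ∑ u, (m' u - m u).toNat ≤ n → ∑ u ∈ C, m u ≤ k →
      ∃ m, ExchGood E f g m ∧ ∑ u ∈ C, m u = k := by
  induction n using Nat.strong_induction_on with
  | _ n ih =>
    intro m h hn h1
    rcases h1.eq_or_lt with h1 | h1
    · exact ⟨m, h, h1⟩
    obtain ⟨u, _, hu⟩ := exists_lt_of_sum_lt (h1.trans_le hk)
    obtain ⟨w, hw, h2⟩ := exch_step h h' hu
    refine ih _ (lt_of_lt_of_le (sum_lt_sum (fun v _ => ?_) ⟨u, mem_univ u, ?_⟩) hn) _ h2 le_rfl ?_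
    · split_ifs with a1 a2 a2
      all_goals first | omega | (subst a2; omega)
    · have : u ≠ w := fun e => by subst e; omega
      rw [if_pos rfl, if_neg this]
      omega
    · rw [sum_sub_distrib, sum_add_distrib, sum_ite_eq', sum_ite_eq']
      split_ifs <;> omega

end

theorem TC.exch [Fintype U] {E : Finset V} {f g : V → U} (col : U → Bool)
    (hf : ∀ x ∈ E, col (f x) = false) (hg : ∀ x ∈ E, col (g x) = true) {O1 O2 : V → Bool}
    (h1 : TC E f g O1) (h2 : TC E f g O2) {k : ℕ}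
    (hk1 : (E.filter fun x => O1 x = true).card ≤ k)
    (hk2 : k ≤ (E.filter fun x => O2 x = true).card) :
    ∃ O, TC E f g O ∧ (E.filter fun x => O x = true).card = k := by
  have hc : ∀ O : V → Bool, ∑ u ∈ univ.filter (fun u => col u = true), exchDeg E f g O u =
      (E.filter fun x => O x = true).card := fun O => by
    rw [exch_sum_deg]
    refine congrArg _ (congrArg card (filter_congr fun x hx => ?_))
    unfold exchHd
    cases O x <;> simp [hf x hx, hg x hx]
  obtain ⟨m, h3, h4⟩ := exch_ivt (exch_good h2) (univ.filter fun u => col u = true) (k := k)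
    (by rw [hc]; exact Nat.cast_le.2 hk2) _ _ (exch_good h1) le_rfl
    (by rw [hc]; exact Nat.cast_le.2 hk1)
  obtain ⟨O, rfl⟩ := exch_hall h3
  rw [hc] at h4
  exact ⟨O, exch_tc h3, Nat.cast_injective h4⟩

end Pool.Agent.P.MP_9ed2cf_gt.Nz
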