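import Mathlib
import Pool.Agent.P.MP_9ed2cf_gt.NzDefs

set_option autoImplicit false

namespace Pool.Agent.P.MP_9ed2cf_gt.Nz

open Equiv Finset
open scoped Classical

variable {V : Type} {Q : Finset V} {I O : (V → Bool) → Prop} {β : Bool → ℕ} {z : V → Bool}

theorem fam_upd (Q : Finset V) (p q : V → Prop) [DecidablePred p] [DecidablePred q] {x : V}
    (hx : x ∈ Q) (h : ∀ y, y ≠ x → (p y ↔ q y)) :
    (Q.filter p).card + (if q x then 1 else 0) = (Q.filter q).card + (if p x then 1 else 0) := by
  rw [card_filter, card_filter, ← Finset.add_sum_erase Q _ hx, ← Finset.add_sum_erase Q _ hx]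
  have : ∑ y ∈ Q.erase x, (if p y then 1 else 0 : ℕ) = ∑ y ∈ Q.erase x, (if q y then 1 else 0) := by
    refine Finset.sum_congr rfl fun y hy => ?_
    have := h y (Finset.ne_of_mem_erase hy)
    by_cases hp : p y
    · rw [if_pos hp, if_pos (this.1 hp)]
    · rw [if_neg hp, if_neg (fun hq => hp (this.2 hq))]
  rw [this]; omega

theorem fam_sum (Q : Finset V) (χ : V → Bool) : nf Q χ true + nf Q χ false = Q.card := by
  unfold nf
  rw [card_filter, card_filter, ← Finset.sum_add_distrib, Finset.card_eq_sum_ones]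
  refine Finset.sum_congr rfl fun x _ => ?_
  cases χ x <;> simp

theorem fam_bal (Q : Finset V) (X Y : V → Bool) :
    cn Q X Y + nf Q X true = cn Q Y X + nf Q Y true := by
  unfold nf cn
  rw [card_filter, card_filter, card_filter, card_filter, ← Finset.sum_add_distrib,
    ← Finset.sum_add_distrib]
  refine Finset.sum_congr rfl fun x _ => ?_
  cases X x <;> cases Y x <;> simp

theorem fam_nf_upd {χ : V → Bool} {x : V} {t : Bool} (hx : x ∈ Q) (h : χ x ≠ t) :
    nf Q (Function.update χ x t) t + 1 = nf Q χ t := by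
  have := fam_upd Q (fun y => Function.update χ x t y ≠ t) (fun y => χ y ≠ t) hx
    (fun y hy => by simp [Function.update_of_ne hy])
  unfold nf
  simpa [h] using this

theorem fam_nf_upd' {χ : V → Bool} {x : V} {t : Bool} (hx : x ∈ Q) (h : χ x ≠ t) :
    nf Q (Function.update χ x t) (!t) = nf Q χ (!t) + 1 := by
  have h1 := fam_nf_upd hx h
  have h2 := fam_sum Q χ
  have h3 := fam_sum Q (Function.update χ x t)
  cases t <;> simp only [Bool.not_true, Bool.not_false] <;> omega

theorem fam_cn1 (X Y : V → Bool) {x : V} (t : Bool) (hx : x ∈ Q) :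
    cn Q (Function.update X x t) Y + (if X x = true ∧ Y x = false then 1 else 0) =
      cn Q X Y + (if t = true ∧ Y x = false then 1 else 0) := by
  have := fam_upd Q (fun y => Function.update X x t y = true ∧ Y y = false)
    (fun y => X y = true ∧ Y y = false) hx (fun y hy => by simp [Function.update_of_ne hy])
  unfold cn
  simpa using this

theorem fam_cn2 (X Y : V → Bool) {x : V} (t : Bool) (hx : x ∈ Q) :
    cn Q X (Function.update Y x t) + (if X x = true ∧ Y x = false then 1 else 0) =
      cn Q X Y + (if X x = true ∧ t = false then 1 else 0) := by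
  have := fam_upd Q (fun y => X y = true ∧ Function.update Y x t y = false)
    (fun y => X y = true ∧ Y y = false) hx (fun y hy => by simp [Function.update_of_ne hy])
  unfold cn
  simpa using this

theorem fam_up1 (X Y : V → Bool) {x : V} (hx : x ∈ Q) :
    cn Q X Y ≤ cn Q (Function.update X x true) Y ∧
      cn Q (Function.update X x true) Y ≤ cn Q X Y + 1 := by
  have := fam_cn1 X Y true hx
  cases hX : X x <;> cases hY : Y x <;> simp [hX, hY] at this <;> omega

theorem fam_dn1 (X Y : V → Bool) {x : V} (hx : x ∈ Q) :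
    cn Q (Function.update X x false) Y ≤ cn Q X Y ∧
      cn Q X Y ≤ cn Q (Function.update X x false) Y + 1 := by
  have := fam_cn1 X Y false hx
  cases hX : X x <;> cases hY : Y x <;> simp [hX, hY] at this <;> omega

theorem fam_up2 (X Y : V → Bool) {x : V} (hx : x ∈ Q) :
    cn Q X (Function.update Y x true) ≤ cn Q X Y ∧
      cn Q X Y ≤ cn Q X (Function.update Y x true) + 1 := by
  have := fam_cn2 X Y true hx
  cases hX : X x <;> cases hY : Y x <;> simp [hX, hY] at this <;> omega

theorem fam_dn2 (X Y : V → Bool) {x : V} (hx : x ∈ Q) :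
    cn Q X Y ≤ cn Q X (Function.update Y x false) ∧
      cn Q X (Function.update Y x false) ≤ cn Q X Y + 1 := by
  have := fam_cn2 X Y false hx
  cases hX : X x <;> cases hY : Y x <;> simp [hX, hY] at this <;> omega

/-- number of points of `Q` where two choices differ -/
noncomputable def famDiff (Q : Finset V) (X Y : V → Bool) : ℕ := (Q.filter fun x => X x ≠ Y x).card

theorem fam_diff_upd {X Y : V → Bool} {x : V} {t : Bool} (hx : x ∈ Q) (h1 : X x ≠ t)
    (h2 : Y x = t) : famDiff Q (Function.update X x t) Y + 1 = famDiff Q X Y := by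
  have := fam_upd Q (fun y => Function.update X x t y ≠ Y y) (fun y => X y ≠ Y y) hx
    (fun y hy => by simp [Function.update_of_ne hy])
  unfold famDiff
  simpa [h1, h2] using this

/-- pairs on the line -/
def FamOn (Q : Finset V) (I O : (V → Bool) → Prop) (v : ℕ) (p : (V → Bool) × (V → Bool)) : Prop :=
  I p.1 ∧ O p.2 ∧ nf Q p.1 false = nf Q p.2 false + v

def FamStep (Q : Finset V) (I O : (V → Bool) → Prop) (v : ℕ)
    (p q : (V → Bool) × (V → Bool)) : Prop :=
  FamOn Q I O v p ∧ FamOn Q I O v q ∧ cn Q p.2 p.1 ≤ cn Q q.2 q.1 + 1 ∧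
    cn Q q.2 q.1 ≤ cn Q p.2 p.1 + 1

theorem fam_step_symm {v : ℕ} {p q : (V → Bool) × (V → Bool)} (h : FamStep Q I O v p q) :
    FamStep Q I O v q p := ⟨h.2.1, h.1, h.2.2.2, h.2.2.1⟩

theorem fam_conn_symm {v : ℕ} {p q : (V → Bool) × (V → Bool)}
    (h : Relation.ReflTransGen (FamStep Q I O v) p q) :
    Relation.ReflTransGen (FamStep Q I O v) q p := by
  induction h with
  | refl => exact Relation.ReflTransGen.refl
  | tail _ hs ih => exact Relation.ReflTransGen.head (fam_step_symm hs) ih

theorem fam_ivt {v j : ℕ} {p q : (V → Bool) × (V → Bool)}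
    (h : Relation.ReflTransGen (FamStep Q I O v) p q) (hp : FamOn Q I O v p)
    (h1 : cn Q p.2 p.1 ≤ j) (h2 : j ≤ cn Q q.2 q.1) :
    ∃ r, FamOn Q I O v r ∧ cn Q r.2 r.1 = j := by
  induction h with
  | refl => exact ⟨p, hp, le_antisymm h1 h2⟩
  | @tail b c _ hs ih =>
    by_cases hb : j ≤ cn Q b.2 b.1
    · exact ih hb
    · exact ⟨c, hs.2.1, by have := hs.2.2.2; omega⟩

theorem fam_a (h : FamD Q I O β z) {v : ℕ} {Y X' : V → Bool} (hX' : I X')
    (hb' : nf Q X' true = β true) :
    ∀ (n : ℕ) (X : V → Bool), famDiff Q X X' = n → FamOn Q I O v (X, Y) → nf Q X true = β true →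
      Relation.ReflTransGen (FamStep Q I O v) (X, Y) (X', Y) := by
  intro n
  induction n using Nat.strong_induction_on with
  | _ n ih =>
    intro X hn hon hb
    by_cases he : X = X'
    · rw [he]
    obtain ⟨x, hx, x', hx', e1, e2, e3, e4, hI⟩ := h.arbI X X' hon.1 hX' hb hb' he
    have hne : x' ≠ x := by rintro rfl; rw [e1] at e3; exact Bool.false_ne_true e3
    have f1 : X x ≠ true := by simp [e1]
    have f2 : Function.update X x true x' ≠ false := by simp [Function.update_of_ne hne, e3]
    have d1 := fam_diff_upd hx f1 e2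
    have d2 := fam_diff_upd hx' f2 e4
    have n1 := fam_nf_upd hx f1
    have n1' := fam_nf_upd' hx f1
    have n2 := fam_nf_upd hx' f2
    have n2' := fam_nf_upd' hx' f2
    simp only [Bool.not_true, Bool.not_false] at n1' n2'
    have c1 := fam_up2 Y X hx
    have c2 := fam_dn2 Y (Function.update X x true) hx'
    have hv : nf Q X false = nf Q Y false + v := hon.2.2
    have hon' : FamOn Q I O v (Function.update (Function.update X x true) x' false, Y) :=
      ⟨hI, hon.2.1, by simp only; omega⟩
    refine Relation.ReflTransGen.head ⟨hon, hon', ?_, ?_⟩ (ih _ (by omega) _ rfl hon' (by omega))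
    · simp only; omega
    · simp only; omega

theorem fam_b0 (h : FamD Q I O β z) {v : ℕ} {X Y' : V → Bool} (hY' : O Y')
    (hb' : nf Q Y' false = β false) :
    ∀ (n : ℕ) (Y : V → Bool), famDiff Q Y Y' = n → FamOn Q I O v (X, Y) → nf Q Y false = β false →
      Relation.ReflTransGen (FamStep Q I O v) (X, Y) (X, Y') := by
  intro n
  induction n using Nat.strong_induction_on with
  | _ n ih =>
    intro Y hn hon hb
    by_cases he : Y = Y'
    · rw [he]
    obtain ⟨x, hx, x', hx', e1, e2, e3, e4, hO⟩ := h.arbO Y Y' hon.2.1 hY' hb hb' he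
    have hne : x' ≠ x := by rintro rfl; rw [e3] at e1; exact Bool.false_ne_true e1
    have f1 : Y x ≠ false := by simp [e1]
    have f2 : Function.update Y x false x' ≠ true := by simp [Function.update_of_ne hne, e3]
    have d1 := fam_diff_upd hx f1 e2
    have d2 := fam_diff_upd hx' f2 e4
    have n1 := fam_nf_upd hx f1
    have n2' := fam_nf_upd' hx' f2
    simp only [Bool.not_true] at n2'
    have c1 := fam_dn1 Y X hx
    have c2 := fam_up1 (Function.update Y x false) X hx'
    have hv : nf Q X false = nf Q Y false + v := hon.2.2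
    have hon' : FamOn Q I O v (X, Function.update (Function.update Y x false) x' true) :=
      ⟨hon.1, hO, by simp only; omega⟩
    refine Relation.ReflTransGen.head ⟨hon, hon', ?_, ?_⟩ (ih _ (by omega) _ rfl hon' (by omega))
    · simp only; omega
    · simp only; omega

theorem fam_down {v : ℕ} {X Y : V → Bool} {x y : V} (hon : FamOn Q I O v (X, Y)) (hx : x ∈ Q)
    (hy : y ∈ Q) (fx : X x ≠ false) (fy : Y y ≠ false) (hI : I (Function.update X x false))
    (hO : O (Function.update Y y false)) :
    FamStep Q I O v (X, Y) (Function.update X x false, Function.update Y y false) := by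
  have n1 := fam_nf_upd hx fx
  have n2 := fam_nf_upd hy fy
  have c1 := fam_dn2 Y X hx
  have c2 := fam_dn1 Y (Function.update X x false) hy
  have hv : nf Q X false = nf Q Y false + v := hon.2.2
  refine ⟨hon, ⟨hI, hO, ?_⟩, ?_, ?_⟩ <;> simp only <;> omega

theorem fam_b (h : FamD Q I O β z) {v : ℕ} :
    ∀ (k : ℕ) (X Y Y' : V → Bool), nf Q Y false = k → FamOn Q I O v (X, Y) →
      FamOn Q I O v (X, Y') → Relation.ReflTransGen (FamStep Q I O v) (X, Y) (X, Y') := by
  intro k
  induction k using Nat.strong_induction_on with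
  | _ k ih =>
    intro X Y Y' hk hon hon'
    have hv : nf Q X false = nf Q Y false + v := hon.2.2
    have hv' : nf Q X false = nf Q Y' false + v := hon'.2.2
    have lb := h.lbO Y hon.2.1 false
    by_cases hb : β false < k
    · obtain ⟨x, hx, fx, hI⟩ := h.flipI X hon.1 false (by omega)
      obtain ⟨y, hy, fy, hO⟩ := h.flipO Y hon.2.1 false (by omega)
      have hlt : β false < nf Q Y' false := by omega
      obtain ⟨y', hy', fy', hO'⟩ := h.flipO Y' hon'.2.1 false hlt
      have s1 := fam_down hon hx hy fx fy hI hO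
      have s2 := fam_down hon' hx hy' fx fy' hI hO'
      have n2 := fam_nf_upd hy fy
      exact (Relation.ReflTransGen.head s1
        (ih _ (by omega) _ _ _ rfl s1.2.1 s2.2.1)).tail (fam_step_symm s2)
    · have e1 : nf Q Y' false = β false := by omega
      exact fam_b0 h hon'.2.1 e1 _ Y rfl hon (by omega)

theorem fam_c (h : FamD Q I O β z) {v : ℕ} :
    ∀ (k : ℕ) (X Y : V → Bool), nf Q X true = k → FamOn Q I O v (X, Y) →
      ∃ X' Y', FamOn Q I O v (X', Y') ∧ nf Q X' true = β true ∧
        Relation.ReflTransGen (FamStep Q I O v) (X, Y) (X', Y') := by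
  intro k
  induction k using Nat.strong_induction_on with
  | _ k ih =>
    intro X Y hk hon
    have hv : nf Q X false = nf Q Y false + v := hon.2.2
    have lb := h.lbI X hon.1 true
    have s1 := fam_sum Q X
    have s2 := fam_sum Q Y
    by_cases hb : β true < k
    · obtain ⟨x, hx, fx, hI⟩ := h.flipI X hon.1 true (by omega)
      obtain ⟨y, hy, fy, hO⟩ := h.flipO Y hon.2.1 true (by omega)
      have n1 := fam_nf_upd hx fx
      have n1' := fam_nf_upd' hx fx
      have n2' := fam_nf_upd' hy fy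
      simp only [Bool.not_true] at n1' n2'
      have c1 := fam_up2 Y X hx
      have c2 := fam_up1 Y (Function.update X x true) hy
      have hon' : FamOn Q I O v (Function.update X x true, Function.update Y y true) :=
        ⟨hI, hO, by simp only; omega⟩
      obtain ⟨X', Y', g1, g2, g3⟩ := ih _ (by omega) _ _ rfl hon'
      refine ⟨X', Y', g1, g2, Relation.ReflTransGen.head ⟨hon, hon', ?_, ?_⟩ g3⟩
      · simp only; omega
      · simp only; omega
    · exact ⟨X, Y, hon, by omega, Relation.ReflTransGen.refl⟩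

/-- the values of `j` on a line `i - j = v ≥ 0` form an interval -/
theorem FamD.line (h : FamD Q I O β z) {X Y X' Y' : V → Bool} (hX : I X) (hY : O Y) (hX' : I X')
    (hY' : O Y') {v j : ℕ} (hv : cn Q X Y = cn Q Y X + v) (hv' : cn Q X' Y' = cn Q Y' X' + v)
    (h1 : cn Q Y X ≤ j) (h2 : j ≤ cn Q Y' X') :
    ∃ X'' Y'', I X'' ∧ O Y'' ∧ cn Q X'' Y'' = j + v ∧ cn Q Y'' X'' = j := by
  have hon : FamOn Q I O v (X, Y) := ⟨hX, hY, by
    have := fam_bal Q X Y; have := fam_sum Q X; have := fam_sum Q Y; simp only; omega⟩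
  have hon' : FamOn Q I O v (X', Y') := ⟨hX', hY', by
    have := fam_bal Q X' Y'; have := fam_sum Q X'; have := fam_sum Q Y'; simp only; omega⟩
  obtain ⟨X1, Y1, o1, b1, r1⟩ := fam_c h _ X Y rfl hon
  obtain ⟨X2, Y2, o2, b2, r2⟩ := fam_c h _ X' Y' rfl hon'
  have r3 := fam_a h o2.1 b2 _ X1 rfl o1 b1
  have o3 : FamOn Q I O v (X2, Y1) := ⟨o2.1, o1.2.1, by
    have e1 : nf Q X1 false = nf Q Y1 false + v := o1.2.2
    have := fam_sum Q X1; have := fam_sum Q X2; simp only; omega⟩
  have r4 := fam_b h _ X2 Y1 Y2 rfl o3 o2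
  obtain ⟨r, hr, hj⟩ := fam_ivt (((r1.trans r3).trans r4).trans (fam_conn_symm r2)) hon h1 h2
  refine ⟨r.1, r.2, hr.1, hr.2.1, ?_, hj⟩
  have := fam_bal Q r.1 r.2
  have := fam_sum Q r.1
  have := fam_sum Q r.2
  have := hr.2.2
  omega

theorem FamD.low (h : FamD Q I O β z) {i : ℕ} (hi : i + β true + β false ≤ Q.card) :
    ∃ X Y, I X ∧ O Y ∧ cn Q X Y = i ∧ cn Q Y X = 0 ∧
      ∀ x, (z x = true → X x = true) ∧ (z x = false → Y x = false) := by
  have key : ∀ X Y : V → Bool, (∀ x, (z x = true → X x = true) ∧ (z x = false → Y x = false)) →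
      cn Q Y X = 0 := by
    intro X Y hz
    unfold cn
    rw [Finset.card_eq_zero, Finset.filter_eq_empty_iff]
    rintro x _ ⟨e1, e2⟩
    cases hzx : z x
    · rw [(hz x).2 hzx] at e1; exact Bool.false_ne_true e1
    · rw [(hz x).1 hzx] at e2; exact Bool.false_ne_true e2.symm
  induction i with
  | zero =>
    have hz : ∀ x, (z x = true → z x = true) ∧ (z x = false → z x = false) :=
      fun x => ⟨id, id⟩
    exact ⟨z, z, h.zI, h.zO, key z z hz, key z z hz, hz⟩
  | succ i ih =>
    obtain ⟨X, Y, hX, hY, e1, e2, hz⟩ := ih (by omega)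
    have b1 := fam_bal Q X Y
    have s2 := fam_sum Q Y
    by_cases hb : β true < nf Q X true
    · obtain ⟨x, hx, fx, hI⟩ := h.flipI X hX true hb
      have hz' : ∀ y, (z y = true → Function.update X x true y = true) ∧
          (z y = false → Y y = false) := by
        intro y
        refine ⟨fun hy => ?_, (hz y).2⟩
        by_cases hyx : y = x
        · rw [hyx, Function.update_self]
        · rw [Function.update_of_ne hyx]; exact (hz y).1 hy
      have k := key _ _ hz'
      have b2 := fam_bal Q (Function.update X x true) Y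
      have n1 := fam_nf_upd hx fx
      exact ⟨_, _, hI, hY, by omega, k, hz'⟩
    · obtain ⟨y, hy, fy, hO⟩ := h.flipO Y hY false (by omega)
      have hz' : ∀ x, (z x = true → X x = true) ∧
          (z x = false → Function.update Y y false x = false) := by
        intro x
        refine ⟨(hz x).1, fun hx => ?_⟩
        by_cases hyx : x = y
        · rw [hyx, Function.update_self]
        · rw [Function.update_of_ne hyx]; exact (hz x).2 hx
      have k := key _ _ hz'
      have b2 := fam_bal Q X (Function.update Y y false)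
      have n1 := fam_nf_upd' hy fy
      simp only [Bool.not_false] at n1
      exact ⟨_, _, hX, hO, by omega, k, hz'⟩

theorem fam_raise (h : FamD Q I O β z) {v : ℕ} (hv : v + β true + β false ≤ Q.card) :
    ∀ (k : ℕ) (X Y : V → Bool), I X → O Y → cn Q X Y + k = cn Q Y X + v →
      ∃ X' Y', I X' ∧ O Y' ∧ cn Q X Y ≤ cn Q X' Y' ∧ cn Q X' Y' = cn Q Y' X' + v := by
  intro k
  induction k with
  | zero => intro X Y hX hY e; exact ⟨X, Y, hX, hY, le_rfl, by omega⟩
  | succ k ih =>
    intro X Y hX hY e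
    have b1 := fam_bal Q X Y
    have s2 := fam_sum Q Y
    by_cases hb : β true < nf Q X true
    · obtain ⟨x, hx, fx, hI⟩ := h.flipI X hX true hb
      have b2 := fam_bal Q (Function.update X x true) Y
      have n1 := fam_nf_upd hx fx
      have c1 := fam_up1 X Y hx
      obtain ⟨X', Y', g1, g2, g3, g4⟩ := ih _ _ hI hY (by omega)
      exact ⟨X', Y', g1, g2, by omega, g4⟩
    · obtain ⟨y, hy, fy, hO⟩ := h.flipO Y hY false (by omega)
      have b2 := fam_bal Q X (Function.update Y y false)
      have n1 := fam_nf_upd' hy fy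
      simp only [Bool.not_false] at n1
      have c1 := fam_dn2 X Y hy
      obtain ⟨X', Y', g1, g2, g3, g4⟩ := ih _ _ hX hO (by omega)
      exact ⟨X', Y', g1, g2, by omega, g4⟩

theorem fam_hit (h : FamD Q I O β z) {v j : ℕ} (hv : v + β true + β false ≤ Q.card)
    {X Y : V → Bool} (hX : I X) (hY : O Y) (h1 : cn Q X Y ≤ cn Q Y X + v)
    (h2 : j + v ≤ cn Q X Y) : ∃ X' Y', I X' ∧ O Y' ∧ cn Q X' Y' = j + v ∧ cn Q Y' X' = j := by
  obtain ⟨X1, Y1, g1, g2, g3, g4⟩ := fam_raise h hv (cn Q Y X + v - cn Q X Y) X Y hX hY (by omega)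
  obtain ⟨X0, Y0, l1, l2, l3, l4, _⟩ := h.low hv
  exact h.line l1 l2 g1 g2 (by omega) g4 (by omega) (by omega)

theorem FamD.edge (h : FamD Q I O β z) {X Y : V → Bool} (hX : I X) (hY : O Y) {i j : ℕ}
    (hi : i ≤ cn Q X Y) (hij : i + β true + β false = Q.card + j) :
    ∃ X' Y', I X' ∧ O Y' ∧ cn Q X' Y' = i ∧ cn Q Y' X' = j ∧ nf Q X' true = β true ∧
      nf Q Y' false = β false := by
  have z1 := h.lbI z h.zI true
  have z2 := h.lbI z h.zI false
  have z3 := fam_sum Q z
  have b1 := fam_bal Q X Y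
  have s2 := fam_sum Q Y
  have l1 := h.lbI X hX true
  have l2 := h.lbO Y hY false
  obtain ⟨X', Y', g1, g2, g3, g4⟩ := fam_hit h (v := i - j) (j := j) (by omega) hX hY (by omega)
    (by omega)
  have b2 := fam_bal Q X' Y'
  have s3 := fam_sum Q Y'
  have l3 := h.lbI X' g1 true
  have l4 := h.lbO Y' g2 false
  exact ⟨X', Y', g1, g2, by omega, g4, by omega, by omega⟩

theorem FamD.fill (h : FamD Q I O β z) {i0 j0 : ℕ}
    (h0 : ∃ X Y, I X ∧ O Y ∧ cn Q X Y = i0 ∧ cn Q Y X = j0)
    (htop : ∀ i, j0 ≤ i → i ≤ i0 → ∃ X Y, I X ∧ O Y ∧ cn Q X Y = i ∧ cn Q Y X + i = i0 + j0)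
    {i j : ℕ} (hji : j ≤ i) (hi : i ≤ i0) (hw : i + β true + β false ≤ Q.card + j)
    (hn : i + j ≤ i0 + j0) : ∃ X Y, I X ∧ O Y ∧ cn Q X Y = i ∧ cn Q Y X = j := by
  by_cases hc : i0 ≤ j0 + (i - j)
  · obtain ⟨X, Y, hX, hY, e1, e2⟩ := h0
    obtain ⟨X', Y', g1, g2, g3, g4⟩ := fam_hit h (v := i - j) (j := j) (by omega) hX hY (by omega)
      (by omega)
    exact ⟨X', Y', g1, g2, by omega, g4⟩
  · obtain ⟨X, Y, hX, hY, e1, e2⟩ := htop ((i0 + j0 + (i - j)) / 2) (by omega) (by omega)
    obtain ⟨X', Y', g1, g2, g3, g4⟩ := fam_hit h (v := i - j) (j := j) (by omega) hX hY (by omega)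
      (by omega)
    exact ⟨X', Y', g1, g2, by omega, g4⟩

end Pool.Agent.P.MP_9ed2cf_gt.Nz
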