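import Mathlib
import Pool.Agent.P.MP_9ed2cf_gt.NzBasic

set_option autoImplicit false

namespace Pool.Agent.P.MP_9ed2cf_gt.Nz

open Equiv Finset
open scoped Classical

namespace Pl

variable {A V : Type} {P : Pl A V}

theorem rk_phi_off {Q : Finset V} {φ : Perm A} (hφ : P.IsPhi Q φ) {x : V} (hx : x ∉ Q)
    (t : Bool) : φ (P.inn t x) = P.out t x :=
  hφ.1 _ fun t' y hy h => hx (by rw [P.inj _ _ _ _ h]; exact hy)

theorem rk_phi_pass {Q : Finset V} {φ : Perm A} (hφ : P.IsPhi Q φ) {a : A} (ha : P.Pass a) :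
    φ a = P.σ a :=
  hφ.1 _ fun t x _ => ha t x

theorem rk_out {Q : Finset V} {φ : Perm A} (hφ : P.IsPhi Q φ) {x : V} (hx : x ∈ Q) (t : Bool) :
    P.out t x = φ (P.inn (!t) x) := by
  rw [hφ.2 _ x hx, Bool.not_not]

theorem rk_mem_nl {Q : Finset V} {φ : Perm A} {x : V} :
    x ∈ P.nl Q φ ↔ x ∈ Q ∧ ¬ φ.SameCycle (P.inn false x) (P.inn true x) :=
  Finset.mem_filter

/-- faces with a descending path to a root face -/
inductive RkGood (P : Pl A V) (d : A → ℕ) (b : A) (Q : Finset V) (φ : Perm A) (r : A → ℕ) :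
    A → Prop
  | base (a : A) : φ.SameCycle a b → RkGood P d b Q φ r a
  | off (a : A) (t : Bool) (x : V) : φ.SameCycle a (P.inn t x) → x ∉ Q → P.Z d x ≠ t →
      RkGood P d b Q φ r a
  | step (a : A) (t : Bool) (x : V) : φ.SameCycle a (P.inn t x) → x ∈ Q →
      r (P.inn (!t) x) < r (P.inn t x) → RkGood P d b Q φ r (P.inn (!t) x) →
      RkGood P d b Q φ r a

theorem RkGood.of_sc {d : A → ℕ} {b : A} {Q : Finset V} {φ : Perm A} {r : A → ℕ} {a a' : A}
    (h : RkGood P d b Q φ r a) (h' : φ.SameCycle a' a) : RkGood P d b Q φ r a' := by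
  cases h with
  | base _ h1 => exact .base _ (h'.trans h1)
  | off _ t x h1 h2 h3 => exact .off _ t x (h'.trans h1) h2 h3
  | step _ t x h1 h2 h3 h4 => exact .step _ t x (h'.trans h1) h2 h3 h4

theorem rk_good_phi {d : A → ℕ} {b : A} {Q : Finset V} {φ : Perm A} {r : A → ℕ} (a : A) :
    RkGood P d b Q φ r (φ a) ↔ RkGood P d b Q φ r a :=
  ⟨fun h => h.of_sc (Perm.sameCycle_apply_right.2 (Perm.SameCycle.refl _ _)),
    fun h => h.of_sc (Perm.sameCycle_apply_left.2 (Perm.SameCycle.refl _ _))⟩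

theorem RkGood.mono {d : A → ℕ} {b : A} {Q : Finset V} {φ : Perm A} {r r' : A → ℕ}
    (hrr : ∀ a, RkGood P d b Q φ r a → r' a = r a) {a : A} (h : RkGood P d b Q φ r a) :
    RkGood P d b Q φ r' a := by
  induction h with
  | base a h1 => exact .base _ h1
  | off a t x h1 h2 h3 => exact .off _ t x h1 h2 h3
  | step a t x h1 h2 h3 h4 ih =>
    refine .step _ t x h1 h2 ?_ ih
    rw [hrr _ h4, hrr _ (.step _ t x (Perm.SameCycle.refl _ _) h2 h3 h4)]
    exact h3

variable [Fintype A] [Fintype V] {b : A} {d : A → ℕ}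

omit [Fintype V] in
theorem rk_inv {β : Type} {φ : Perm A} {F : A → β} (hF : ∀ a, F (φ a) = F a) {a a' : A}
    (h : φ.SameCycle a a') : F a = F a' := by
  obtain ⟨i, -, rfl⟩ := h.exists_pow_eq'
  induction i with
  | zero => rfl
  | succ i ih =>
    rw [pow_succ', Perm.mul_apply, hF]
    exact ih (Perm.sameCycle_pow_right.2 (Perm.SameCycle.refl _ _))

omit [Fintype V] in
theorem rk_all (hd : P.Dist b d) {Q : Finset V} {φ : Perm A} (hφ : P.IsPhi Q φ) {r : A → ℕ}
    (h : ∀ x ∈ Q, ∀ t, RkGood P d b Q φ r (P.inn (!t) x) → RkGood P d b Q φ r (P.inn t x))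
    (a : A) : RkGood P d b Q φ r a := by
  have h1 : ∀ a, RkGood P d b Q φ r (P.σ a) = RkGood P d b Q φ r a := by
    intro a
    apply propext
    by_cases ha : ∀ t, ∀ x ∈ Q, a ≠ P.inn t x
    · rw [← hφ.1 a ha, rk_good_phi]
    · push Not at ha
      obtain ⟨t, x, hx, rfl⟩ := ha
      have h2 : P.σ (P.inn t x) = φ (P.inn (!t) x) := rk_out hφ hx t
      rw [h2, rk_good_phi]
      refine ⟨h x hx t, fun h3 => h x hx (!t) ?_⟩
      rw [Bool.not_not]
      exact h3
  have h2 : ∀ n a, d a = n → RkGood P d b Q φ r a := by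
    intro n
    induction n using Nat.strong_induction_on with
    | _ n ih =>
      intro a ha
      rcases Nat.eq_zero_or_pos (d a) with h0 | h0
      · rw [SC.inv h1 ((hd.d_zero a).1 h0)]
        exact .base _ (Perm.SameCycle.refl _ _)
      · obtain ⟨t, x, h3, h4⟩ := hd.d_par a h0
        have h5 : d a = d (P.inn t x) := SC.inv hd.d_σ h3
        rw [SC.inv h1 h3]
        by_cases hx : x ∈ Q
        · exact h x hx t (ih _ (by omega) _ rfl)
        · refine .off _ t x (Perm.SameCycle.refl _ _) hx ?_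
          cases t
          · simp only [Bool.not_false] at h4
            have h6 : d (P.inn true x) < d (P.inn false x) := by omega
            simp [Z, h6]
          · simp only [Bool.not_true] at h4
            have h6 : ¬ d (P.inn true x) < d (P.inn false x) := by omega
            simp [Z, h6]
  exact h2 _ a rfl

theorem rk_euler {Q : Finset V} {φ : Perm A} (hφ : P.IsPhi Q φ) {u : A → ℤ}
    (hu : ∀ a, u (φ a) = u a) : ∑ x ∈ Q, (u (P.inn false x) - u (P.inn true x)) = 0 := by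
  let τ : A → ℤ := fun a => if P.ty a = true then 1 else 0
  have hτ : ∀ a, τ (P.σ a) = τ a := fun a => by simp only [τ, P.ty_σ]
  have hτf : ∀ x, τ (P.inn false x) = 0 := fun x => by simp [τ, P.ty_inn]
  have hτt : ∀ x, τ (P.inn true x) = 1 := fun x => by simp [τ, P.ty_inn]
  have h1 : ∑ a, u a * (τ (φ a) - τ a) = 0 := by
    have h2 : ∑ a, u (φ a) * τ (φ a) = ∑ a, u a * τ a := Equiv.sum_comp φ fun a => u a * τ a
    simp only [hu] at h2
    simp only [mul_sub, Finset.sum_sub_distrib, h2, sub_self]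
  rw [sum_split (P := P) _ (fun a ha => by rw [rk_phi_pass hφ ha, hτ, sub_self, mul_zero])] at h1
  rw [← h1, ← Finset.sum_subset (Finset.subset_univ Q)]
  · refine Finset.sum_congr rfl fun x hx => ?_
    rw [hφ.2 _ x hx, hφ.2 _ x hx]
    simp only [out, hτ, Bool.not_false, Bool.not_true, hτf, hτt]
    ring
  · intro x _ hx
    rw [rk_phi_off hφ hx, rk_phi_off hφ hx]
    simp only [out, hτ, sub_self, mul_zero, add_zero]

theorem rk_step {Q : Finset V} {φ : Perm A} (hφ : P.IsPhi Q φ) {r : A → ℕ}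
    (hr : P.Rank Q φ r) : ∃ r', P.Rank Q φ r' ∧ (P.asc Q r').card = (P.asc Q r).card ∧
      (∀ a, RkGood P d b Q φ r a → RkGood P d b Q φ r' a) ∧
      ∀ x ∈ Q, ∀ t, RkGood P d b Q φ r (P.inn (!t) x) → RkGood P d b Q φ r' (P.inn t x) := by
  obtain ⟨M, hM⟩ : ∃ M, ∀ a, r a < M :=
    ⟨univ.sup r + 1, fun a => Nat.lt_succ_of_le (Finset.le_sup (f := r) (mem_univ a))⟩
  let r' : A → ℕ := fun a => if RkGood P d b Q φ r a then r a else r a + M
  have hg : ∀ a, RkGood P d b Q φ r a → r' a = r a := fun a h => if_pos h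
  have hn : ∀ a, ¬ RkGood P d b Q φ r a → r' a = r a + M := fun a h => if_neg h
  have hcut : ∀ x ∈ Q, ∀ t, RkGood P d b Q φ r (P.inn (!t) x) →
      ¬ RkGood P d b Q φ r (P.inn t x) → r (P.inn t x) < r (P.inn (!t) x) := by
    intro x hx t h1 h2
    have h3 : ¬ r (P.inn (!t) x) < r (P.inn t x) :=
      fun h => h2 (.step _ t x (Perm.SameCycle.refl _ _) hx h h1)
    have h4 : x ∈ P.nl Q φ := by
      refine rk_mem_nl.2 ⟨hx, fun h => h2 ?_⟩
      cases t
      · exact h1.of_sc h
      · exact h1.of_sc h.symm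
    have h5 := hr.2 x h4
    cases t
    · simp only [Bool.not_false] at h3 ⊢
      omega
    · simp only [Bool.not_true] at h3 ⊢
      omega
  refine ⟨r', ⟨fun a => ?_, fun x hx => ?_⟩, ?_, fun a h => h.mono hg, fun x hx t h => ?_⟩
  · by_cases h : RkGood P d b Q φ r a
    · rw [hg _ h, hg _ ((rk_good_phi a).2 h), hr.1]
    · rw [hn _ h, hn _ fun h' => h ((rk_good_phi a).1 h'), hr.1]
  · have h1 := hr.2 x hx
    have h2 := hM (P.inn false x)
    have h3 := hM (P.inn true x)
    by_cases hf : RkGood P d b Q φ r (P.inn false x) <;>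
      by_cases ht : RkGood P d b Q φ r (P.inn true x)
    · rw [hg _ hf, hg _ ht]; exact h1
    · rw [hg _ hf, hn _ ht]; omega
    · rw [hn _ hf, hg _ ht]; omega
    · rw [hn _ hf, hn _ ht]; omega
  · have h1 := rk_euler hφ (u := fun a => if RkGood P d b Q φ r a then 1 else 0)
      (fun a => if_congr (rk_good_phi a) rfl rfl)
    have h2 : ((P.asc Q r').card : ℤ) - (P.asc Q r).card = 0 := by
      rw [← h1]
      unfold asc
      rw [Finset.card_filter, Finset.card_filter]
      push_cast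
      rw [← Finset.sum_sub_distrib]
      refine Finset.sum_congr rfl fun x hx => ?_
      have h2 := hM (P.inn false x)
      have h3 := hM (P.inn true x)
      by_cases hf : RkGood P d b Q φ r (P.inn false x) <;>
        by_cases ht : RkGood P d b Q φ r (P.inn true x)
      · rw [hg _ hf, hg _ ht, if_pos hf, if_pos ht, sub_self, sub_self]
      · have h4 : r (P.inn true x) < r (P.inn false x) := hcut x hx true hf ht
        rw [hg _ hf, hn _ ht, if_pos hf, if_neg ht, if_pos (by omega), if_neg (by omega)]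
      · have h4 : r (P.inn false x) < r (P.inn true x) := hcut x hx false ht hf
        rw [hn _ hf, hg _ ht, if_neg hf, if_pos ht, if_neg (by omega), if_pos h4]
      · rw [hn _ hf, hn _ ht, if_neg hf, if_neg ht, sub_self, sub_eq_zero]
        exact if_congr (by omega) rfl rfl
    omega
  · by_cases h1 : RkGood P d b Q φ r (P.inn t x)
    · exact h1.mono hg
    · refine .step _ t x (Perm.SameCycle.refl _ _) hx ?_ (h.mono hg)
      have h2 := hM (P.inn (!t) x)
      rw [hg _ h, hn _ h1]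
      omega

theorem raise (hd : P.Dist b d) {Q : Finset V} {φ : Perm A} (hφ : P.IsPhi Q φ) {r : A → ℕ}
    (hr : P.Rank Q φ r) : ∃ r', P.Rank Q φ r' ∧ (P.asc Q r').card = (P.asc Q r).card ∧
      P.AllEx d b Q φ r' := by
  have key : ∀ n, ∀ r : A → ℕ, P.Rank Q φ r →
      (univ.filter fun a => ¬ RkGood P d b Q φ r a).card = n →
      ∃ r', P.Rank Q φ r' ∧ (P.asc Q r').card = (P.asc Q r).card ∧ P.AllEx d b Q φ r' := by
    intro n
    induction n using Nat.strong_induction_on with
    | _ n ih =>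
      intro r hr hn
      by_cases h : ∀ x ∈ Q, ∀ t, RkGood P d b Q φ r (P.inn (!t) x) →
          RkGood P d b Q φ r (P.inn t x)
      · refine ⟨r, hr, rfl, fun a => ?_⟩
        cases rk_all hd hφ h a with
        | base _ h1 => exact ⟨b, h1, Or.inl rfl⟩
        | off _ t x h1 h2 h3 => exact ⟨_, h1, Or.inr ⟨t, x, rfl, Or.inl ⟨h2, h3⟩⟩⟩
        | step _ t x h1 h2 h3 _ => exact ⟨_, h1, Or.inr ⟨t, x, rfl, Or.inr ⟨h2, h3⟩⟩⟩
      · push Not at h
        obtain ⟨x, hx, t, h1, h2⟩ := h
        obtain ⟨r1, h3, h4, h5, h6⟩ := rk_step (d := d) (b := b) hφ hr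
        have h7 : (univ.filter fun a => ¬ RkGood P d b Q φ r1 a).card < n := by
          rw [← hn]
          refine Finset.card_lt_card ⟨fun a ha => ?_, fun hs => ?_⟩
          · simp only [mem_filter, mem_univ, true_and] at ha ⊢
            exact fun h => ha (h5 a h)
          · have h8 := hs (Finset.mem_filter.2 ⟨mem_univ (P.inn t x), h2⟩)
            exact (Finset.mem_filter.1 h8).2 (h6 x hx t h1)
        obtain ⟨r2, h8, h9, h10⟩ := ih _ h7 r1 h3 rfl
        exact ⟨r2, h8, h9.trans h4, h10⟩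
  exact key _ r hr rfl

omit [Fintype V] in
theorem rk_steps {φ : Perm A} {E : A → Prop} (h : ∀ a, ∃ n, φ.SameCycle a n ∧ E n) :
    ∃ st : A → ℕ, ∀ a, ¬ E a → st (φ a) < st a := by
  have h1 : ∀ a, ∃ k : ℕ, E ((φ ^ k) a) := by
    intro a
    obtain ⟨n, h2, h3⟩ := h a
    obtain ⟨i, -, rfl⟩ := h2.exists_pow_eq'
    exact ⟨i, h3⟩
  refine ⟨fun a => Nat.find (h1 a), fun a ha => ?_⟩
  have h2 := Nat.find_spec (h1 a)
  show Nat.find (h1 (φ a)) < Nat.find (h1 a)
  generalize Nat.find (h1 a) = k at h2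
  cases k with
  | zero => exact absurd h2 ha
  | succ k =>
    rw [pow_succ, Perm.mul_apply] at h2
    exact Nat.lt_succ_of_le (Nat.find_min' _ h2)

theorem rank_tree {Q : Finset V} {key : A → ℕ} (hk : P.Key d Q key) {φ : Perm A}
    (hφ : P.IsPhi Q φ) {r : A → ℕ} (hr : P.Rank Q φ r) (he : P.AllEx d b Q φ r) :
    ∃ X, P.Tree X b ∧ P.Fam d Q X ∧
      ∀ x ∈ P.nl Q φ, (X x = true ↔ r (P.inn false x) < r (P.inn true x)) := by
  obtain ⟨st, hst⟩ := rk_steps he
  let X : V → Bool := fun x => if x ∈ Q then decide (r (P.inn false x) < r (P.inn true x) ∨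
    (r (P.inn false x) = r (P.inn true x) ∧ st (P.out true x) < st (P.out false x))) else P.Z d x
  have hoff : ∀ x, x ∉ Q → X x = P.Z d x := fun x hx => if_neg hx
  have hon : ∀ x ∈ Q, (X x = true ↔ r (P.inn false x) < r (P.inn true x) ∨
      (r (P.inn false x) = r (P.inn true x) ∧ st (P.out true x) < st (P.out false x))) := by
    intro x hx
    simp only [X, if_pos hx, decide_eq_true_eq]
  have hex : ∀ t x, P.inn t x ≠ b → P.Ex d b Q r (P.inn t x) →
      (x ∉ Q ∧ P.Z d x ≠ t) ∨ (x ∈ Q ∧ r (P.inn (!t) x) < r (P.inn t x)) := by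
    rintro t x hb (h | ⟨t', x', h1, h2⟩)
    · exact absurd h hb
    · obtain rfl := inn_ty h1
      obtain rfl := P.inj _ _ _ _ h1
      exact h2
  refine ⟨X, ?_, hoff, fun x hx => ?_⟩
  · have wf : WellFounded (Prod.Lex (fun a b : ℕ => a < b)
        (Prod.Lex (fun a b : ℕ => a < b) fun a b : ℕ => a < b)) :=
      WellFounded.prod_lex Nat.lt_wfRel.wf (WellFounded.prod_lex Nat.lt_wfRel.wf Nat.lt_wfRel.wf)
    refine tree_of_pot wf (fun a => (key a, r a, st a)) fun a ha => ?_
    simp only [Prod.lex_def]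
    rcases P.pass_or a with h | ⟨t, x, rfl⟩
    · have h1 : ¬ P.Ex d b Q r a := by
        rintro (h2 | ⟨t, x, h2, -⟩)
        · exact ha h2
        · exact h t x h2
      have h2 := hst a h1
      have h3 := hr.1 a
      rw [rk_phi_pass hφ h] at h2 h3
      rw [nxt_pass X h]
      exact Or.inr ⟨hk.k_σ a, Or.inr ⟨h3, h2⟩⟩
    · rw [nxt_inn]
      by_cases hx : x ∈ Q
      · have k1 := hk.k_in x hx
        have k2 : key (P.out false x) = key (P.inn false x) := hk.k_σ _
        have k3 : key (P.out true x) = key (P.inn true x) := hk.k_σ _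
        have r1 : r (P.out true x) = r (P.inn false x) := by rw [rk_out hφ hx, hr.1]; rfl
        have r2 : r (P.out false x) = r (P.inn true x) := by rw [rk_out hφ hx, hr.1]; rfl
        have s1 : ¬ r (P.inn (!t) x) < r (P.inn t x) → st (P.out (!t) x) < st (P.inn t x) := by
          intro h
          rw [← hφ.2 t x hx]
          refine hst _ fun h2 => ?_
          rcases hex t x ha h2 with h3 | h3
          · exact h3.1 hx
          · exact h h3.2
        have h4 := hon x hx
        generalize X x = e at h4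
        cases t <;> cases e <;>
          simp only [Bool.not_false, Bool.not_true, Bool.false_eq_true, false_iff,
            true_iff] at h4 s1 <;> omega
      · rw [hoff x hx]
        by_cases hz : P.Z d x = t
        · have h1 : ¬ P.Ex d b Q r (P.inn t x) := by
            intro h2
            rcases hex t x ha h2 with h3 | h3
            · exact h3.2 hz
            · exact hx h3.1
          have h2 := hst _ h1
          have h3 := hr.1 (P.inn t x)
          rw [rk_phi_off hφ hx] at h2 h3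
          rw [hz]
          exact Or.inr ⟨hk.k_σ _, Or.inr ⟨h3, h2⟩⟩
        · have h1 := hk.k_out x hx
          have h2 : key (P.out (P.Z d x) x) = key (P.inn (P.Z d x) x) := hk.k_σ _
          have h3 : (!P.Z d x) = t := by
            revert hz
            cases P.Z d x <;> cases t <;> simp
          rw [h3] at h1
          exact Or.inl (by omega)
  · have h1 := hr.2 x hx
    rw [hon x (rk_mem_nl.1 hx).1]
    omega

theorem rank_tree_rev (hd : P.Dist b d) {Q : Finset V} {key : A → ℕ} (hk : P.Key d Q key)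
    {φ : Perm A} (hφ : P.IsPhi Q φ) {r : A → ℕ} (hr : P.Rank Q φ r) (he : P.AllEx d b Q φ r) :
    ∃ Y, P.rev.Tree Y b ∧ P.Fam d Q Y ∧
      ∀ x ∈ P.nl Q φ, (Y x = true ↔ r (P.inn true x) < r (P.inn false x)) := by
  have hro : ∀ x ∈ Q, ∀ t, r (P.rev.inn t x) = r (P.inn (!t) x) := by
    intro x hx t
    rw [rev_inn, rk_out hφ hx, hr.1]
  have h1 : P.rev.Rank Q φ⁻¹ r := by
    refine ⟨fun a => ?_, fun x hx => ?_⟩
    · rw [← hr.1 (φ⁻¹ a)]
      simp
    · rw [hφ.rev_nl] at hx
      have hxQ := (rk_mem_nl.1 hx).1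
      rw [hro x hxQ, hro x hxQ]
      exact (hr.2 x hx).symm
  have h2 : P.rev.AllEx d b Q φ⁻¹ r := by
    intro a
    obtain ⟨n, h3, h4⟩ := he a
    rcases h4 with rfl | ⟨t, x, rfl, ⟨h5, h6⟩ | ⟨h5, h6⟩⟩
    · exact ⟨n, Perm.sameCycle_inv.2 h3, Or.inl rfl⟩
    · refine ⟨φ (P.inn t x), Perm.sameCycle_inv.2 (Perm.sameCycle_apply_right.2 h3),
        Or.inr ⟨t, x, rk_phi_off hφ h5 t, Or.inl ⟨h5, ?_⟩⟩⟩
      rw [rev_Z hd.d_σ]
      exact h6
    · refine ⟨φ (P.inn t x), Perm.sameCycle_inv.2 (Perm.sameCycle_apply_right.2 h3),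
        Or.inr ⟨!t, x, hφ.2 t x h5, Or.inr ⟨h5, ?_⟩⟩⟩
      rw [hro x h5, hro x h5]
      simp only [Bool.not_not]
      exact h6
  obtain ⟨Y, h3, h4, h5⟩ := rank_tree (hk.rev hd.d_σ) hφ.rev h1 h2
  refine ⟨Y, h3, (rev_fam hd.d_σ).1 h4, fun x hx => ?_⟩
  have hxQ := (rk_mem_nl.1 hx).1
  rw [← hφ.rev_nl] at hx
  rw [h5 x hx, hro x hxQ, hro x hxQ]
  rfl

end Pl

end Pool.Agent.P.MP_9ed2cf_gt.Nz
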