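import Mathlib
import Pool.Agent.P.MP_9ed2cf_gt.NzArb
import Pool.Agent.P.MP_9ed2cf_gt.NzFam
import Pool.Agent.P.MP_9ed2cf_gt.NzExch
import Pool.Agent.P.MP_9ed2cf_gt.NzDual
import Pool.Agent.P.MP_9ed2cf_gt.NzRank

set_option autoImplicit false

namespace Pool.Agent.P.MP_9ed2cf_gt.Nz

open Equiv Finset
open scoped Classical

namespace Pl

variable {A V : Type} {P : Pl A V}

variable [Fintype A] [Fintype V] {b : A} {d : A → ℕ} {sd : A → A → Bool}

omit [Fintype A] [Fintype V] in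
theorem conv_mem {Q : Finset V} {φ : Perm A} {x : V} :
    x ∈ P.nl Q φ ↔ x ∈ Q ∧ ¬ φ.SameCycle (P.inn false x) (P.inn true x) := by
  simp only [nl, mem_filter]

omit [Fintype V] in
theorem conv_inv {φ : Perm A} {r : A → ℕ} (h : ∀ a, r (φ a) = r a) {a a' : A}
    (hs : φ.SameCycle a a') : r a = r a' := by
  obtain ⟨n, rfl⟩ := hs.exists_nat_pow_eq
  induction n with
  | zero => simp
  | succ n ih =>
    rw [pow_succ', Perm.mul_apply, h]
    exact ih ⟨n, by simp⟩

omit [Fintype V] in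
theorem conv_loop {Q : Finset V} {φ : Perm A} {r : A → ℕ} (hr : P.Rank Q φ r) {x : V}
    (hx : x ∈ Q) (hn : x ∉ P.nl Q φ) : r (P.inn false x) = r (P.inn true x) := by
  apply conv_inv hr.1
  by_contra h
  exact hn (conv_mem.2 ⟨hx, h⟩)

omit [Fintype V] in
theorem conv_asc {Q : Finset V} {φ : Perm A} {r : A → ℕ} (hr : P.Rank Q φ r) :
    P.asc Q r = (P.nl Q φ).filter fun x => r (P.inn false x) < r (P.inn true x) := by
  ext x
  simp only [asc, mem_filter]
  constructor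
  · rintro ⟨hx, h⟩
    refine ⟨?_, h⟩
    by_contra hn
    have := conv_loop hr hx hn
    omega
  · rintro ⟨hx, h⟩
    exact ⟨(conv_mem.1 hx).1, h⟩

theorem pair_le_nl (hP : P.Planar) (hd : P.Dist b d) (hs : P.Side sd) {Q : Finset V}
    (hQ : P.Act Q) {φ : Perm A} (hφ : P.IsPhi Q φ) {X Y : V → Bool} (hX : P.Tree X b)
    (hY : P.rev.Tree Y b) : (∀ x ∈ Q, x ∉ P.nl Q φ → X x = Y x) ∧
      cn Q X Y + cn Q Y X ≤ (P.nl Q φ).card := by
  have hdis : Disjoint (Q.filter fun x => X x = true ∧ Y x = false)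
      (Q.filter fun x => Y x = true ∧ X x = false) := by
    rw [disjoint_left]
    intro x h1 h2
    have h3 := (mem_filter.1 h1).2.1
    have h4 := (mem_filter.1 h2).2.2
    rw [h3] at h4
    exact absurd h4 (by simp)
  obtain ⟨r, hr, h1, h2⟩ := dual hP hQ.1 hφ (filter_subset _ _) (filter_subset _ _) hdis
    (ndc_of_pair hd hs hQ hX hY)
  have key : ∀ x ∈ Q, x ∉ P.nl Q φ → X x = Y x := by
    intro x hx hn
    have h3 := conv_loop hr hx hn
    cases hx1 : X x <;> cases hy1 : Y x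
    · rfl
    · have := h2 x (mem_filter.2 ⟨hx, hy1, hx1⟩)
      omega
    · have := h1 x (mem_filter.2 ⟨hx, hx1, hy1⟩)
      omega
    · rfl
  refine ⟨key, ?_⟩
  unfold cn
  rw [← card_union_of_disjoint hdis]
  apply card_le_card
  intro x hx
  by_contra hn
  rcases mem_union.1 hx with h | h
  · obtain ⟨h3, h4, h5⟩ := mem_filter.1 h
    have := key x h3 hn
    rw [h4, h5] at this
    exact absurd this (by simp)
  · obtain ⟨h3, h4, h5⟩ := mem_filter.1 h
    have := key x h3 hn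
    rw [h4, h5] at this
    exact absurd this (by simp)

theorem pair_of_rank (hP : P.Planar) (hd : P.Dist b d) (hs : P.Side sd) {Q : Finset V}
    (hQ : P.Act Q) {φ : Perm A} (hφ : P.IsPhi Q φ) {r : A → ℕ} (hr : P.Rank Q φ r) :
    ∃ j, P.Pair d b Q (P.asc Q r).card j ∧ (P.asc Q r).card + j = (P.nl Q φ).card := by
  obtain ⟨r', hr', hc, hex⟩ := raise hd hφ hr
  obtain ⟨key, hk⟩ := exists_key hd hs hQ
  obtain ⟨X, hX, hfX, hX'⟩ := rank_tree hk hφ hr' hex
  obtain ⟨Y, hY, hfY, hY'⟩ := rank_tree_rev hd hk hφ hr' hex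
  have hoff := (pair_le_nl hP hd hs hQ hφ hX hY).1
  have e1 : (Q.filter fun x => X x = true ∧ Y x = false) =
      (P.nl Q φ).filter fun x => r' (P.inn false x) < r' (P.inn true x) := by
    ext x
    rw [mem_filter, mem_filter]
    constructor
    · rintro ⟨hx, h1, h2⟩
      have hn : x ∈ P.nl Q φ := by
        by_contra hn
        have := hoff x hx hn
        rw [h1, h2] at this
        exact absurd this (by simp)
      exact ⟨hn, (hX' x hn).1 h1⟩
    · rintro ⟨hn, h⟩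
      refine ⟨(conv_mem.1 hn).1, (hX' x hn).2 h, ?_⟩
      cases hy : Y x
      · rfl
      · have := (hY' x hn).1 hy
        omega
  have e2 : (Q.filter fun x => Y x = true ∧ X x = false) =
      (P.nl Q φ).filter fun x => ¬ r' (P.inn false x) < r' (P.inn true x) := by
    ext x
    rw [mem_filter, mem_filter]
    constructor
    · rintro ⟨hx, h1, h2⟩
      have hn : x ∈ P.nl Q φ := by
        by_contra hn
        have := hoff x hx hn
        rw [h1, h2] at this
        exact absurd this (by simp)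
      have := (hY' x hn).1 h1
      exact ⟨hn, by omega⟩
    · rintro ⟨hn, h⟩
      have h3 := hr'.2 x hn
      refine ⟨(conv_mem.1 hn).1, (hY' x hn).2 (by omega), ?_⟩
      cases hx : X x
      · rfl
      · exact absurd ((hX' x hn).1 hx) h
  refine ⟨cn Q Y X, ⟨X, Y, hX, hY, hfX, hfY, ?_, rfl⟩, ?_⟩
  · rw [← hc, conv_asc hr', cn, e1]
  · rw [← hc, conv_asc hr', cn, e2]
    exact card_filter_add_card_filter_not _

theorem conv_top (hP : P.Planar) (hd : P.Dist b d) (hs : P.Side sd) {Q : Finset V}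
    (hQ : P.Act Q) {φ : Perm A} (hφ : P.IsPhi Q φ) {r : A → ℕ} (hr : P.Rank Q φ r) {j0 : ℕ}
    (h0 : (P.asc Q r).card + j0 = (P.nl Q φ).card) {i : ℕ} (h1 : j0 ≤ i)
    (h2 : i ≤ (P.asc Q r).card) : ∃ j, P.Pair d b Q i j ∧ i + j = (P.nl Q φ).card := by
  have t2 := tc_of_rank hφ hr
  have t1 := t2.compl
  have c2 : ((P.nl Q φ).filter fun x =>
      decide (r (P.inn false x) < r (P.inn true x)) = true).card = (P.asc Q r).card := by
    rw [conv_asc hr]
    simp only [decide_eq_true_eq]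
  have c1 : ((P.nl Q φ).filter fun x =>
      (!decide (r (P.inn false x) < r (P.inn true x))) = true).card = j0 := by
    have h3 := card_filter_add_card_filter_not (s := P.nl Q φ)
      fun x => r (P.inn false x) < r (P.inn true x)
    rw [← conv_asc hr] at h3
    have h4 : ((P.nl Q φ).filter fun x =>
        (!decide (r (P.inn false x) < r (P.inn true x))) = true) =
        (P.nl Q φ).filter fun x => ¬ r (P.inn false x) < r (P.inn true x) := by
      apply filter_congr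
      intro x _
      simp
    rw [h4]
    omega
  obtain ⟨O, hO, hc⟩ := TC.exch (fun S : Set A => decide (∃ a ∈ S, P.ty a = true))
    (fun x _ => by
      rw [decide_eq_false_iff_not]
      rintro ⟨a, ha, h⟩
      have h5 := SC.ty_eq (P := P) ha
      rw [P.ty_inn, h] at h5
      exact absurd h5 (by simp))
    (fun x _ => by
      rw [decide_eq_true_eq]
      exact ⟨P.inn true x, SC.refl _, P.ty_inn _ _⟩)
    t1 t2 (k := i) (by rw [c1]; exact h1) (by rw [c2]; exact h2)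
  have hsub : P.nl Q φ ⊆ Q := fun x hx => (conv_mem.1 hx).1
  obtain ⟨r2, hr2, h3, h4⟩ := dual hP hQ.1 hφ ((filter_subset _ _).trans hsub)
    ((filter_subset _ _).trans hsub)
    (by
      rw [disjoint_left]
      intro x h5 h6
      have h7 := (mem_filter.1 h5).2
      have h8 := (mem_filter.1 h6).2
      rw [h7] at h8
      exact absurd h8 (by simp))
    (ndc_of_tc hO)
  have e : P.asc Q r2 = (P.nl Q φ).filter fun x => O x = true := by
    rw [conv_asc hr2]
    apply filter_congr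
    intro x hx
    constructor
    · intro h
      cases ho : O x
      · have := h4 x (mem_filter.2 ⟨hx, ho⟩)
        omega
      · rfl
    · intro h
      exact h3 x (mem_filter.2 ⟨hx, h⟩)
  have h5 := pair_of_rank hP hd hs hQ hφ hr2
  rw [e, hc] at h5
  exact h5

theorem conv_start (hP : P.Planar) {Q : Finset V} (hQ : P.Act Q)
    {φ : Perm A} (hφ : P.IsPhi Q φ) {D : Finset V} (hD : D ⊆ Q) (hN : P.NDC Q D ∅) :
    ∃ r, P.Rank Q φ r ∧ D.card ≤ (P.asc Q r).card := by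
  obtain ⟨r, hr, h1, -⟩ := dual hP hQ.1 hφ hD (empty_subset _) (disjoint_empty_right _) hN
  exact ⟨r, hr, card_le_card fun x hx => mem_filter.2 ⟨hD hx, h1 x hx⟩⟩

theorem r1 (hP : P.Planar) (hd : P.Dist b d) (hs : P.Side sd) {Q : Finset V} (hQ : P.Act Q)
    {φ : Perm A} (hφ : P.IsPhi Q φ) {D : Finset V} (hD : D ⊆ Q) (hN : P.NDC Q D ∅) {i j : ℕ}
    (hji : j ≤ i) (hi : i ≤ D.card)
    (hw : i + P.beta d Q true + P.beta d Q false ≤ Q.card + j) (hn : i + j ≤ (P.nl Q φ).card) :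
    P.Pair d b Q i j := by
  obtain ⟨r, hr, hc⟩ := conv_start hP hQ hφ hD hN
  obtain ⟨j0, ⟨X, Y, hX, hY, hfX, hfY, e1, e2⟩, h0⟩ := pair_of_rank hP hd hs hQ hφ hr
  obtain ⟨X', Y', hX', hY', e3, e4⟩ := (famD hd hs hQ).fill (i0 := (P.asc Q r).card) (j0 := j0)
    ⟨X, Y, ⟨hX, hfX⟩, ⟨hY, hfY⟩, e1, e2⟩
    (fun i' h1 h2 => by
      obtain ⟨j', ⟨X1, Y1, g1, g2, g3, g4, g5, g6⟩, g7⟩ := conv_top hP hd hs hQ hφ hr h0 h1 h2
      exact ⟨X1, Y1, ⟨g1, g3⟩, ⟨g2, g4⟩, g5, by omega⟩)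
    hji (hi.trans hc) hw (by omega)
  exact ⟨X', Y', hX'.1, hY'.1, hX'.2, hY'.2, e3, e4⟩

theorem lt_path (hP : P.Planar) (hd : P.Dist b d) (hs : P.Side sd) {Q : Finset V} (hQ : P.Act Q)
    {D : Finset V} (hD : D ⊆ Q) (hN : P.NDC Q D ∅) {i j : ℕ}
    (hij : (j = 0 ∧ i + P.beta d Q true + P.beta d Q false ≤ Q.card) ∨
      (i + P.beta d Q true + P.beta d Q false = Q.card + j ∧ i ≤ D.card)) :
    ∃ X Y : V → Bool, P.Tree X b ∧ P.rev.Tree Y b ∧ P.Fam d Q X ∧ P.Fam d Q Y ∧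
      cn Q X Y = i ∧ cn Q Y X = j ∧ ∀ x ∈ Q, (P.Root sd b true (P.inn true x) → X x = true) ∧
        (P.Root sd b true (P.inn false x) → Y x = false) := by
  rcases hij with ⟨rfl, hi⟩ | ⟨hi, hiD⟩
  · obtain ⟨X, Y, hX, hY, e1, e2, h⟩ := (famD hd hs hQ).low hi
    refine ⟨X, Y, hX.1, hY.1, hX.2, hY.2, e1, e2, fun x hx => ⟨fun hr => ?_, fun hr => ?_⟩⟩
    · exact (h x).1 (z_root hd hs (SC.refl _) (by rw [hQ.1 x hx]; exact hr))
    · exact (h x).2 (z_root hd hs (SC.refl _) (by rw [hQ.1 x hx]; exact hr))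
  · obtain ⟨φ, hφ⟩ := exists_phi P Q
    obtain ⟨r, hr, hc⟩ := conv_start hP hQ hφ hD hN
    obtain ⟨j0, ⟨X, Y, hX, hY, hfX, hfY, e1, -⟩, -⟩ := pair_of_rank hP hd hs hQ hφ hr
    obtain ⟨X', Y', hX', hY', e3, e4, n1, n2⟩ := (famD hd hs hQ).edge (X := X) (Y := Y)
      ⟨hX, hfX⟩ ⟨hY, hfY⟩ (i := i) (j := j) (by omega) hi
    have m1 := (mt_root hd hs hQ hX'.1 hX'.2 n1).1
    have m2 := (mt_root hd.rev hs.rev hQ.rev hY'.1 ((rev_fam hd.d_σ).2 hY'.2) (t := false)
      (by rw [rev_beta hd.d_σ]; exact n2)).1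
    refine ⟨X', Y', hX'.1, hY'.1, hX'.2, hY'.2, e3, e4, fun x hx => ⟨m1 x hx, fun hr => ?_⟩⟩
    apply m2 x hx
    rw [rev_root, rev_inn, out]
    rcases hr with h | h
    · exact Or.inl (sc_σ_left.2 h)
    · refine Or.inr ?_
      rw [← hs.sd_c _ _ (sc_σ_right.2 (SC.refl (P.inn false x)))]
      exact h

end Pl

end Pool.Agent.P.MP_9ed2cf_gt.Nz
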