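import Mathlib
import Pool.Agent.P.MP_9ed2cf_gt.NzBasic

set_option autoImplicit false

namespace Pool.Agent.P.MP_9ed2cf_gt.Nz

open Equiv Finset
open scoped Classical

namespace Pl

variable {A V : Type} {P : Pl A V}

variable [Fintype A] [Fintype V]

/-- `rem` counts the steps to `a0` along the circle of `c` -/
theorem exists_rem {c a0 : A} (h0 : P.SC c a0) : ∃ rem : A → ℕ, rem a0 = 0 ∧
    ∀ a, P.SC c a → a ≠ a0 → rem (P.σ a) + 1 = rem a := by
  refine ⟨fun a => if h : ∃ n : ℕ, (P.σ ^ n) a = a0 then Nat.find h else 0, ?_, ?_⟩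
  · have h : ∃ n : ℕ, (P.σ ^ n) a0 = a0 := ⟨0, by simp⟩
    simp only [dif_pos h]
    exact (Nat.find_eq_zero h).2 (by simp)
  · intro a ha hne
    have h1 : P.SC a a0 := ha.symm.trans h0
    have h : ∃ n : ℕ, (P.σ ^ n) a = a0 := h1.exists_pow
    have h' : ∃ n : ℕ, (P.σ ^ n) (P.σ a) = a0 := (sc_σ_left.2 h1).exists_pow
    simp only [dif_pos h, dif_pos h']
    apply le_antisymm
    · have hs := Nat.find_spec h
      rcases hm : Nat.find h with _ | m
      · rw [hm] at hs
        exact absurd (by simpa using hs) hne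
      · rw [hm, pow_succ, Perm.mul_apply] at hs
        exact Nat.succ_le_succ (Nat.find_min' h' hs)
    · apply Nat.find_min' h
      rw [pow_succ, Perm.mul_apply]
      exact Nat.find_spec h'

omit [Fintype A] [Fintype V] in
theorem glue_pow_rem {c a0 : A} {rem : A → ℕ} (hr0 : rem a0 = 0)
    (hr : ∀ a, P.SC c a → a ≠ a0 → rem (P.σ a) + 1 = rem a) :
    ∀ (r : ℕ) (x : A), P.SC c x → rem x = r → (P.σ ^ r) x = a0 := by
  intro r
  induction r with
  | zero =>
    intro x hx h
    by_contra hne
    have := hr x hx (by simpa using hne)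
    omega
  | succ r ih =>
    intro x hx h
    have hne : x ≠ a0 := by
      rintro rfl
      omega
    have := hr x hx hne
    rw [pow_succ, Perm.mul_apply]
    exact ih _ (sc_σ_right.2 hx) (by omega)

omit [Fintype A] [Fintype V] in
theorem glue_rem_pow {c a0 : A} {rem : A → ℕ} (hr0 : rem a0 = 0)
    (hr : ∀ a, P.SC c a → a ≠ a0 → rem (P.σ a) + 1 = rem a) {x : A} (hx : P.SC c x) :
    ∀ m : ℕ, m ≤ rem x → P.SC c ((P.σ ^ m) x) ∧ rem ((P.σ ^ m) x) + m = rem x := by
  intro m
  induction m with
  | zero => intro _; simpa using hx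
  | succ m ih =>
    intro hm
    obtain ⟨h1, h2⟩ := ih (by omega)
    have hne : (P.σ ^ m) x ≠ a0 := by
      intro h
      rw [h] at h2
      omega
    have := hr _ h1 hne
    rw [pow_succ', Perm.mul_apply]
    exact ⟨sc_σ_right.2 h1, by omega⟩

omit [Fintype A] [Fintype V] in
theorem glue_w_nxt (χ : V → Bool) {W : A → ℤ}
    (hW : ∀ x, W (P.inn false x) = W (P.inn true x)) (n : A) :
    W (P.σ⁻¹ (P.nxt χ n)) = W n := by
  rcases pass_or (P := P) n with h | ⟨t, x, rfl⟩
  · rw [nxt_pass χ h]
    simp
  · rw [nxt_inn]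
    unfold out
    simp only [Perm.coe_inv, Equiv.symm_apply_apply]
    cases t <;> cases χ x <;> simp [hW x]

omit [Fintype A] [Fintype V] in
theorem glue_keep (χ : V → Bool) {L R : A → ℤ} (hL : P.FaceFn true L) (hR : P.FaceFn false R)
    (n : A) : L (P.nxt χ n) = L n ∨ R (P.nxt χ n) = R n := by
  rcases pass_or (P := P) n with h | ⟨t, x, rfl⟩
  · left
    rw [nxt_pass χ h]
    exact hL.1 n h
  · rw [nxt_inn]
    have h1 := hL.2 t x
    have h2 := hR.2 t x
    cases t <;> cases hs : P.s x <;> cases hc : χ x <;> simp_all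

omit [Fintype V] in
theorem glue_cons (χ : V → Bool) (p : ℕ → A) (N : ℕ) (hN : p N = p 0)
    (hp : ∀ j, p (j + 1) = P.nxt χ (p j) ∨ p (j + 1) = P.σ (p j)) :
    P.Cons fun n => ∑ j ∈ range N, if p (j + 1) = n then (1 : ℤ) else 0 := by
  apply cons_of_weak
  intro W hW
  have h1 : ∑ a, (∑ j ∈ range N, if p (j + 1) = a then (1 : ℤ) else 0) * (W a - W (P.σ⁻¹ a))
      = ∑ j ∈ range N, (W (p (j + 1)) - W (p j)) := by
    simp_rw [Finset.sum_mul]
    rw [Finset.sum_comm]
    apply Finset.sum_congr rfl
    intro j _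
    have h2 : W (P.σ⁻¹ (p (j + 1))) = W (p j) := by
      rcases hp j with h | h
      · rw [h, glue_w_nxt χ hW]
      · rw [h]
        simp
    simp only [ite_mul, one_mul, zero_mul, Finset.sum_ite_eq, Finset.mem_univ, if_true, h2]
  rw [h1, Finset.sum_range_sub (fun j => W (p j)), hN, sub_self]

omit [Fintype A] [Fintype V] in
theorem glue_side {sd : A → A → Bool} (hs : P.Side sd) (χ : V → Bool) {c n : A}
    (h1 : ¬ P.SC c n) (h2 : ¬ P.SC c (P.nxt χ n)) : sd c (P.nxt χ n) = sd c n := by
  rcases pass_or (P := P) n with h | ⟨t, x, rfl⟩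
  · rw [nxt_pass χ h]
    exact hs.sd_σ c n h1
  · rw [nxt_inn] at h2 ⊢
    unfold out at h2 ⊢
    rw [sc_σ_right] at h2
    rw [hs.sd_σ c _ h2]
    cases t <;> cases hc : χ x <;> rw [hc] at h2
    · exact (hs.sd_x c x h1 h2).symm
    · exact hs.sd_x c x h2 h1

theorem fwd (hP : P.Planar) {sd : A → A → Bool} (hs : P.Side sd) {χ : V → Bool} {b c a0 : A}
    (h : P.Tree χ b) (h0 : P.SC c a0)
    (hneg : ∀ t x, P.SC c (P.inn t x) → P.s x = false → χ x = t)
    (hesc : ∃ n, (P.nxt χ)^[n] a0 = b ∧ ∀ k, 0 < k → k ≤ n → ¬ P.SC c ((P.nxt χ)^[k] a0))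
    {rem : A → ℕ} (hr0 : rem a0 = 0) (hr : ∀ a, P.SC c a → a ≠ a0 → rem (P.σ a) + 1 = rem a)
    {a : A} (ha : P.SC c a) (hne : a ≠ a0) {K : ℕ} (hK : 0 < K)
    (hoff : ∀ k, 0 < k → k < K → ¬ P.SC c ((P.nxt χ)^[k] a) ∧ (P.nxt χ)^[k] a ≠ b)
    (hon : P.SC c ((P.nxt χ)^[K] a)) : rem ((P.nxt χ)^[K] a) < rem a := by
  have easy : P.nxt χ a = P.σ a → rem ((P.nxt χ)^[K] a) < rem a := by
    intro he
    have hK1 : K = 1 := by
      by_contra hne1
      exact (hoff 1 one_pos (by omega)).1 (by simpa [he] using sc_σ_right.2 ha)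
    subst hK1
    have := hr a ha hne
    simp only [Function.iterate_one, he]
    omega
  rcases pass_or (P := P) a with hpa | ⟨t, q, haq⟩
  · exact easy (nxt_pass χ hpa)
  by_cases hq : χ q = t
  · exact easy (by rw [haq, nxt_inn, hq]; rfl)
  have hqt : χ q = !t := by cases t <;> cases hc : χ q <;> simp_all
  have hsq : P.s q = true := by
    by_contra hf
    exact hq (hneg t q (haq ▸ ha) (by simpa using hf))
  by_contra hlt
  have hle : rem a ≤ rem ((P.nxt χ)^[K] a) := not_lt.1 hlt
  obtain ⟨M, hM⟩ := Nat.exists_eq_add_of_le hle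
  have hra : 0 < rem a := by
    have := hr a ha hne
    omega
  have hseg := glue_rem_pow hr0 hr hon
  have hMa : (P.σ ^ M) ((P.nxt χ)^[K] a) = a := by
    obtain ⟨h1, h2⟩ := hseg M (by omega)
    have h3 := glue_pow_rem hr0 hr (rem a) _ h1 (by omega)
    have h4 := glue_pow_rem hr0 hr (rem a) _ ha rfl
    exact (P.σ ^ rem a).injective (h3.trans h4.symm)
  -- the closed walk
  obtain ⟨p, hp1, hp2⟩ : ∃ p : ℕ → A, (∀ j, j ≤ K → p j = (P.nxt χ)^[j] a) ∧
      ∀ m, p (K + m) = (P.σ ^ m) ((P.nxt χ)^[K] a) := by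
    refine ⟨fun j => if j ≤ K then (P.nxt χ)^[j] a else (P.σ ^ (j - K)) ((P.nxt χ)^[K] a),
      fun j hj => by simp [hj], fun m => ?_⟩
    rcases Nat.eq_zero_or_pos m with rfl | hm
    · simp
    · have : ¬ K + m ≤ K := by omega
      simp [this]
  have hpstep : ∀ j, p (j + 1) = P.nxt χ (p j) ∨ p (j + 1) = P.σ (p j) := by
    intro j
    by_cases hj : j < K
    · left
      rw [hp1 _ hj, hp1 _ hj.le, Function.iterate_succ_apply']
    · right
      obtain ⟨m, rfl⟩ := Nat.exists_eq_add_of_le (not_lt.1 hj)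
      rw [add_assoc, hp2, hp2, pow_succ', Perm.mul_apply]
  have hclosed : p (K + M) = p 0 := by
    rw [hp2, hMa, hp1 0 (Nat.zero_le _)]
    rfl
  obtain ⟨L, R, hL, hR, hLR⟩ := hP _ (glue_cons χ p (K + M) hclosed hpstep)
  obtain ⟨γ, hγ⟩ : ∃ γ : A → ℤ,
      γ = fun n => ∑ j ∈ range (K + M), if p (j + 1) = n then (1 : ℤ) else 0 := ⟨_, rfl⟩
  replace hLR : ∀ n, L n - R n = γ n := fun n => by rw [hγ]; exact hLR n
  have G0 : ∀ n, 0 ≤ γ n := by
    intro n
    rw [hγ]
    exact Finset.sum_nonneg fun j _ => by split_ifs <;> norm_num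
  have G1 : ∀ n, γ n ≠ 0 → ∃ j, 0 < j ∧ j ≤ K + M ∧ p j = n := by
    intro n hn
    rw [hγ] at hn
    obtain ⟨j, hj, hj'⟩ := Finset.exists_ne_zero_of_sum_ne_zero hn
    refine ⟨j + 1, by omega, Finset.mem_range.1 hj, ?_⟩
    by_contra hf
    exact hj' (if_neg hf)
  have G2 : ∀ j, 0 < j → j ≤ K + M → 1 ≤ γ (p j) := by
    intro j hj hj'
    obtain ⟨i, rfl⟩ : ∃ i, j = i + 1 := ⟨j - 1, by omega⟩
    rw [hγ]
    have := Finset.single_le_sum (s := range (K + M))
      (f := fun j => if p (j + 1) = p (i + 1) then (1 : ℤ) else 0)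
      (fun j _ => by split_ifs <;> norm_num) (Finset.mem_range.2 hj')
    simpa using this
  have onc : ∀ j, K ≤ j → j ≤ K + M → P.SC c (p j) ∧ rem a ≤ rem (p j) := by
    intro j hj hj'
    obtain ⟨m, rfl⟩ := Nat.exists_eq_add_of_le hj
    obtain ⟨h1, h2⟩ := hseg m (by omega)
    rw [hp2]
    exact ⟨h1, by omega⟩
  have offc : ∀ j, 0 < j → j < K → ¬ P.SC c (p j) := by
    intro j hj hj'
    rw [hp1 j hj'.le]
    exact (hoff j hj hj').1
  have inj : ∀ i j, 0 < i → i < j → j < K → p i ≠ p j := by
    intro i j hi hij hj he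
    rw [hp1 i (by omega), hp1 j hj.le] at he
    have h1 : (P.nxt χ)^[K - j + i] a = (P.nxt χ)^[K] a := by
      rw [Function.iterate_add_apply, he, ← Function.iterate_add_apply]
      congr 1
      omega
    exact (hoff (K - j + i) (by omega) (by omega)).1 (h1 ▸ hon)
  have G3 : ∀ n, ¬ P.SC c n → γ n ≤ 1 := by
    intro n hn
    rw [hγ]
    simp only [Finset.sum_boole, Nat.cast_le_one]
    rw [Finset.card_le_one]
    intro i hi j hj
    simp only [Finset.mem_filter, Finset.mem_range] at hi hj
    have hi' : i + 1 < K := by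
      by_contra hf
      exact hn (hi.2 ▸ (onc (i + 1) (by omega) hi.1).1)
    have hj' : j + 1 < K := by
      by_contra hf
      exact hn (hj.2 ▸ (onc (j + 1) (by omega) hj.1).1)
    rcases lt_trichotomy i j with hij | hij | hij
    · exact absurd (hi.2.trans hj.2.symm) (inj _ _ (by omega) (by omega) hj')
    · exact hij
    · exact absurd (hj.2.trans hi.2.symm) (inj _ _ (by omega) (by omega) hi')
  have side : ∀ j, 0 < j → j < K → sd c (p j) = true := by
    intro j hj
    induction j, hj using Nat.le_induction with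
    | base =>
      intro h1
      have h2 : ¬ P.SC c (P.inn (!t) q) := not_sc_inn (haq ▸ ha)
      rw [hp1 _ h1.le]
      simp only [Nat.succ_eq_add_one, zero_add, Function.iterate_one]
      rw [haq, nxt_inn, hqt]
      unfold out
      rw [hs.sd_σ c _ h2, hs.sd_s c t q (haq ▸ ha), hsq]
    | succ j hj ih =>
      intro h1
      have h2 : p (j + 1) = P.nxt χ (p j) := by
        rw [hp1 _ h1.le, hp1 j (by omega), Function.iterate_succ_apply']
      have h3 := offc (j + 1) (by omega) h1
      rw [h2] at h3 ⊢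
      rw [glue_side hs χ (offc j hj (by omega)) h3]
      exact ih (by omega)
  have Gneg : ∀ n, ¬ P.SC c n → sd c n = false → γ n = 0 := by
    intro n hn hsd
    by_contra hf
    obtain ⟨j, hj, hj', rfl⟩ := G1 n hf
    by_cases hjK : j < K
    · rw [side j hj hjK] at hsd
      exact absurd hsd (by simp)
    · exact hn (onc j (by omega) hj').1
  have Rc : ∀ n, P.SC c n → R n = R c := by
    intro n hn
    have key : ∀ n, (P.SC c n ∧ R n = R c) → (P.SC c (P.σ n) ∧ R (P.σ n) = R c) := by
      rintro n ⟨h1, h2⟩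
      refine ⟨sc_σ_right.2 h1, Eq.trans ?_ h2⟩
      rcases pass_or (P := P) n with hpn | ⟨t', x, rfl⟩
      · exact hR.1 n hpn
      · cases hsx : P.s x
        · have o1 : ¬ P.SC c (P.inn (!t') x) := not_sc_inn h1
          have o2 : ¬ P.SC c (P.σ (P.inn (!t') x)) := fun hh => o1 (sc_σ_right.1 hh)
          have s1 : sd c (P.inn (!t') x) = false := by rw [hs.sd_s c t' x h1, hsx]
          have s2 : sd c (P.σ (P.inn (!t') x)) = false := by rw [hs.sd_σ c _ o1, s1]
          have e1 := hLR (P.inn (!t') x)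
          have e2 := hLR (P.σ (P.inn (!t') x))
          rw [Gneg _ o1 s1] at e1
          rw [Gneg _ o2 s2] at e2
          have e3 := hL.2 (!t') x
          have e4 := hR.2 (!t') x
          have e5 := hR.2 t' x
          simp only [hsx, out, Bool.false_eq_true, if_false, if_true, Bool.not_not] at e3 e4 e5
          omega
        · have e5 := hR.2 t' x
          simpa [hsx, out] using e5
    exact (SC.ind key hn ⟨SC.refl c, rfl⟩).2
  have hU : ∀ n, R c + 1 ≤ L n → n ≠ b → R c + 1 ≤ L (P.nxt χ n) := by
    intro n hn _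
    by_cases hc : P.SC c n
    · rcases pass_or (P := P) n with hpn | ⟨t', x, rfl⟩
      · rw [nxt_pass χ hpn, hL.1 n hpn]
        exact hn
      · rw [nxt_inn]
        have e1 := hL.2 t' x
        cases hsx : P.s x
        · rw [hneg t' x hc hsx]
          simp only [hsx, Bool.false_eq_true, if_false] at e1
          omega
        · by_cases hx : χ x = t'
          · have e2 := hLR (P.inn t' x)
            have e3 := Rc _ hc
            obtain ⟨j, hj, hj', hje⟩ := G1 (P.inn t' x) (by omega)
            have hjK : K ≤ j := by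
              by_contra hf
              exact offc j hj (by omega) (hje ▸ hc)
            have hjM : j ≠ K + M := by
              rintro rfl
              rw [hp2, hMa, haq] at hje
              have h1 := inn_ty hje
              have h2 := P.inj _ _ _ _ hje
              exact hq (by rw [h2, h1, hx])
            obtain ⟨m, rfl⟩ := Nat.exists_eq_add_of_le hjK
            have h3 : p (K + m + 1) = P.out (χ x) x := by
              rw [add_assoc, hp2, pow_succ', Perm.mul_apply, ← hp2, hje, hx]
              rfl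
            have h4 := G2 (K + m + 1) (by omega) (by omega)
            have h5 := Rc _ (onc (K + m + 1) (by omega) (by omega)).1
            have h6 := hLR (p (K + m + 1))
            rw [← h3]
            omega
          · have hx' : χ x = !t' := by cases t' <;> cases hc' : χ x <;> simp_all
            rw [hx']
            simp only [hsx, if_true] at e1
            omega
    · rcases glue_keep χ hL hR n with h1 | h1
      · omega
      · have e1 := hLR n
        have e2 := hLR (P.nxt χ n)
        have e3 := G0 (P.nxt χ n)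
        by_cases hg : γ n = 0
        · omega
        · obtain ⟨j, hj, hj', hje⟩ := G1 n hg
          have hjK : j < K := by
            by_contra hf
            exact hc (hje ▸ (onc j (by omega) hj').1)
          have h2 : p (j + 1) = P.nxt χ n := by
            rw [← hje, hp1 _ hjK, hp1 j hjK.le, Function.iterate_succ_apply']
          have h3 := G2 (j + 1) (by omega) (by omega)
          have h4 := G3 n hc
          rw [h2] at h3
          omega
  have hb : R c + 1 ≤ L b := by
    refine h.closed (U := fun n => R c + 1 ≤ L n) hU (a := p K) ?_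
    have h1 := G2 K hK (by omega)
    have h2 := Rc _ (onc K le_rfl (by omega)).1
    have h3 := hLR (p K)
    show R c + 1 ≤ L (p K)
    omega
  obtain ⟨n, hn, hn'⟩ := hesc
  have Z0 : γ a0 = 0 := by
    by_contra hf
    obtain ⟨j, hj, hj', hje⟩ := G1 a0 hf
    by_cases hjK : j < K
    · exact offc j hj hjK (hje ▸ h0)
    · have := (onc j (by omega) hj').2
      rw [hje] at this
      omega
  have Z1 : ∀ k, 0 < k → k ≤ n → γ ((P.nxt χ)^[k] a0) = 0 := by
    intro k hk hkn
    by_contra hf
    obtain ⟨j, hj, hj', hje⟩ := G1 _ hf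
    have hjK : j < K := by
      by_contra hf'
      exact hn' k hk hkn (hje ▸ (onc j (by omega) hj').1)
    rw [hp1 j hjK.le] at hje
    have sh : ∀ r, (P.nxt χ)^[r + j] a = (P.nxt χ)^[r + k] a0 := by
      intro r
      rw [Function.iterate_add_apply, Function.iterate_add_apply, hje]
    by_cases hc : K - j + k ≤ n
    · apply hn' (K - j + k) (by omega) hc
      rw [← sh, show K - j + j = K by omega]
      exact hon
    · apply (hoff (n - k + j) (by omega) (by omega)).2
      rw [sh, show n - k + k = n by omega]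
      exact hn
  have Lp : ∀ k, k ≤ n → L ((P.nxt χ)^[k] a0) = R c := by
    intro k
    induction k with
    | zero =>
      intro _
      have h1 := hLR a0
      have h2 := Rc a0 h0
      show L a0 = R c
      omega
    | succ k ih =>
      intro hk
      have ih' := ih (by omega)
      rcases Nat.eq_zero_or_pos k with rfl | hk0
      · have o := hn' 1 one_pos hk
        simp only [Function.iterate_one, zero_add, Function.iterate_zero, id_eq] at o ih' ⊢
        rcases pass_or (P := P) a0 with hpn | ⟨t', x, rfl⟩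
        · rw [nxt_pass χ hpn, hL.1 _ hpn]
          exact ih'
        · rw [nxt_inn] at o ⊢
          have hx : χ x ≠ t' := by
            rintro rfl
            exact o (sc_σ_right.2 h0)
          have hx' : χ x = !t' := by cases t' <;> cases hc' : χ x <;> simp_all
          have hsx : P.s x = true := by
            by_contra hf
            exact hx (hneg t' x h0 (by simpa using hf))
          have e1 := hL.2 t' x
          simp only [hsx, if_true] at e1
          rw [hx']
          omega
      · have z1 := Z1 k hk0 (by omega)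
        have z2 := Z1 (k + 1) (by omega) hk
        have e1 := hLR ((P.nxt χ)^[k] a0)
        have e2 := hLR ((P.nxt χ)^[k + 1] a0)
        have e3 := glue_keep χ hL hR ((P.nxt χ)^[k] a0)
        rw [← Function.iterate_succ_apply' (P.nxt χ) k a0] at e3
        simp only [Nat.succ_eq_add_one] at e3
        omega
  have := Lp n le_rfl
  rw [hn] at this
  omega

end Pl

end Pool.Agent.P.MP_9ed2cf_gt.Nz
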