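import Mathlib
import Pool.Agent.P.MP_9ed2cf_gt.NzGlue

set_option autoImplicit false

namespace Pool.Agent.P.MP_9ed2cf_gt.Nz

open Equiv Finset
open scoped Classical

namespace Pl

variable {A V : Type} {P : Pl A V}

variable [Fintype A] [Fintype V]

omit [Fintype V] in
/-- a crossing with an arm on the circle is on the positive side iff it is positive -/
theorem glue2_ps_on {sd : A → A → Bool} (hs : P.Side sd) {c : A} {t : Bool} {x : V}
    (h : P.SC c (P.inn t x)) : P.PS sd c x ↔ P.s x = true := by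
  constructor
  · intro hp
    rw [← hs.sd_s c t x h]
    exact hp (!t) (not_sc_inn h)
  · intro hx t' ht'
    by_cases e : t' = t
    · subst e; exact absurd h ht'
    · have e' : t' = !t := by cases t <;> cases t' <;> simp_all
      subst e'
      rw [hs.sd_s c t x h, hx]

omit [Fintype A] [Fintype V] in
/-- two arms of a crossing that are off the circle are on the same side -/
theorem glue2_same {sd : A → A → Bool} (hs : P.Side sd) {c : A} {t t' : Bool} {x : V}
    (h : ¬ P.SC c (P.inn t x)) (h' : ¬ P.SC c (P.inn t' x)) :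
    sd c (P.inn t' x) = sd c (P.inn t x) := by
  cases t <;> cases t'
  · rfl
  · exact (hs.sd_x c x h h').symm
  · exact hs.sd_x c x h' h
  · rfl

omit [Fintype A] [Fintype V] in
theorem glue2_ps_off {sd : A → A → Bool} (hs : P.Side sd) {c : A} {t : Bool} {x : V}
    (h : ¬ P.SC c (P.inn t x)) : P.PS sd c x ↔ sd c (P.inn t x) = true := by
  constructor
  · intro hp
    exact hp t h
  · intro hx t' ht'
    rw [glue2_same hs h ht', hx]

omit [Fintype A] [Fintype V] in
/-- a step from a node off the circle stays on its side or lands on the circle -/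
theorem glue2_side {sd : A → A → Bool} (hs : P.Side sd) (χ : V → Bool) {c a : A}
    (h : ¬ P.SC c a) : P.SC c (P.nxt χ a) ∨ sd c (P.nxt χ a) = sd c a := by
  rcases P.pass_or a with hp | ⟨t, x, rfl⟩
  · right
    rw [nxt_pass χ hp, hs.sd_σ c a h]
  · rw [nxt_inn]
    by_cases h' : P.SC c (P.inn (χ x) x)
    · left
      exact sc_σ_right.2 h'
    · right
      show sd c (P.σ (P.inn (χ x) x)) = _
      rw [hs.sd_σ c _ h', glue2_same hs h h']

omit [Fintype A] [Fintype V] in
/-- two choice functions that agree on one side give the same excursions on that side -/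
theorem glue2_follow {sd : A → A → Bool} (hs : P.Side sd) {X χ : V → Bool} {c a : A} {e : Bool}
    (hst : ∀ a, ¬ P.SC c a → sd c a = e → P.nxt X a = P.nxt χ a)
    (h0 : P.nxt X a = P.nxt χ a) (h1 : P.SC c (P.nxt χ a) ∨ sd c (P.nxt χ a) = e) {K : ℕ}
    (hoff : ∀ k, 0 < k → k < K → ¬ P.SC c ((P.nxt χ)^[k] a)) :
    (P.nxt X)^[K] a = (P.nxt χ)^[K] a := by
  have key : ∀ k, k + 1 ≤ K → (P.nxt X)^[k + 1] a = (P.nxt χ)^[k + 1] a ∧
      (P.SC c ((P.nxt χ)^[k + 1] a) ∨ sd c ((P.nxt χ)^[k + 1] a) = e) := by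
    intro k
    induction k with
    | zero => intro _; exact ⟨h0, h1⟩
    | succ k ih =>
      intro hk
      obtain ⟨e1, e2⟩ := ih (by omega)
      have hn := hoff (k + 1) (by omega) (by omega)
      have e3 : sd c ((P.nxt χ)^[k + 1] a) = e := e2.resolve_left hn
      rw [Function.iterate_succ_apply' (P.nxt X) (k + 1),
        Function.iterate_succ_apply' (P.nxt χ) (k + 1), e1]
      refine ⟨hst _ hn e3, ?_⟩
      rw [← e3]
      exact glue2_side hs χ hn
  cases K with
  | zero => rfl
  | succ K => exact (key K le_rfl).1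

omit [Fintype A] [Fintype V] in
theorem glue2_first' {f : A → A} {a : A} {p : A → Prop} (h : ∃ n, 0 < n ∧ p (f^[n] a)) :
    ∃ K, 0 < K ∧ p (f^[K] a) ∧ ∀ k, 0 < k → k < K → ¬ p (f^[k] a) :=
  ⟨Nat.find h, (Nat.find_spec h).1, (Nat.find_spec h).2,
    fun _ h0 hk hp => Nat.find_min h hk ⟨h0, hp⟩⟩

omit [Fintype A] [Fintype V] in
theorem glue2_pos {χ : V → Bool} {b a : A} (h : P.Tree χ b) (hne : a ≠ b) :
    ∃ n, 0 < n ∧ (P.nxt χ)^[n] a = b := by
  obtain ⟨n, hn⟩ := h a
  refine ⟨n, Nat.pos_of_ne_zero ?_, hn⟩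
  rintro rfl
  exact hne hn

omit [Fintype V] in
/-- the node of the circle from which the path of the tree never comes back -/
theorem glue2_esc {χ : V → Bool} {b : A} (h : P.Tree χ b) (c : A) :
    ∃ a0, P.SC c a0 ∧ ∃ n, (P.nxt χ)^[n] a0 = b ∧
      ∀ k, 0 < k → k ≤ n → ¬ P.SC c ((P.nxt χ)^[k] a0) := by
  obtain ⟨dp, hb, hdp⟩ := h.exists_dp
  obtain ⟨a0, ha0, hmin⟩ := Finset.exists_min_image (univ.filter fun a => P.SC c a) dp
    ⟨c, by simp [SC.refl]⟩
  have ha0' : P.SC c a0 := (mem_filter.1 ha0).2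
  have hz : ∀ a, dp a = 0 → a = b := fun a ha => by
    by_contra hne
    have := hdp a hne
    omega
  have hk : ∀ k, k ≤ dp a0 → dp ((P.nxt χ)^[k] a0) + k = dp a0 := by
    intro k
    induction k with
    | zero => intro _; rfl
    | succ k ih =>
      intro hk
      have e := ih (by omega)
      have hne : (P.nxt χ)^[k] a0 ≠ b := fun e' => by
        rw [e', hb] at e
        omega
      have := hdp _ hne
      rw [Function.iterate_succ_apply']
      omega
  refine ⟨a0, ha0', dp a0, hz _ ?_, fun k h0 hkn hc => ?_⟩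
  · have := hk _ le_rfl
    omega
  · have h1 := hk k hkn
    have h2 := hmin _ (mem_filter.2 ⟨mem_univ _, hc⟩)
    omega

theorem glue (hP : P.Planar) {sd : A → A → Bool} (hs : P.Side sd) {X1 : V → Bool} {b c : A}
    (h1 : P.Tree X1 b) (hr : P.Root sd b true c)
    (hpos : ∀ t x, P.SC c (P.inn t x) → P.s x = true → X1 x = t) :
    ∃ a0, P.SC c a0 ∧ ∀ X2 : V → Bool, P.Tree X2 a0 →
      (∀ t x, P.SC c (P.inn t x) → P.s x = false → X2 x = t) →
      P.Tree (fun x => if P.PS sd c x then X2 x else X1 x) b := by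
  have _ := hr
  obtain ⟨a0, h0, hesc⟩ := glue2_esc h1 c
  refine ⟨a0, h0, fun X2 h2 hneg => ?_⟩
  obtain ⟨rem, hr0, hrem⟩ := exists_rem h0
  generalize hX : (fun x => if P.PS sd c x then X2 x else X1 x) = X
  have hXp : ∀ x, P.PS sd c x → X x = X2 x := fun x hx => by rw [← hX]; exact if_pos hx
  have hXn : ∀ x, ¬ P.PS sd c x → X x = X1 x := fun x hx => by rw [← hX]; exact if_neg hx
  have st1 : ∀ a, ¬ P.SC c a → sd c a = false → P.nxt X a = P.nxt X1 a := by
    intro a ha he
    rcases P.pass_or a with hp | ⟨t, x, rfl⟩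
    · rw [nxt_pass X hp, nxt_pass X1 hp]
    · rw [nxt_inn, nxt_inn, hXn x (by rw [glue2_ps_off hs ha, he]; simp)]
  have st2 : ∀ a, ¬ P.SC c a → sd c a = true → P.nxt X a = P.nxt X2 a := by
    intro a ha he
    rcases P.pass_or a with hp | ⟨t, x, rfl⟩
    · rw [nxt_pass X hp, nxt_pass X2 hp]
    · rw [nxt_inn, nxt_inn, hXp x ((glue2_ps_off hs ha).2 he)]
  -- leaving the circle at a crossing
  have leave : ∀ (χ : V → Bool) t x, P.SC c (P.inn t x) →
      P.SC c (P.nxt χ (P.inn t x)) ∨ sd c (P.nxt χ (P.inn t x)) = P.s x := by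
    intro χ t x hc
    rw [nxt_inn]
    by_cases e : χ x = t
    · left
      rw [e]
      exact sc_σ_right.2 hc
    · right
      have e' : χ x = !t := by cases t <;> cases h : χ x <;> simp_all
      rw [e']
      show sd c (P.σ (P.inn (!t) x)) = _
      rw [hs.sd_σ c _ (not_sc_inn hc), hs.sd_s c t x hc]
  have base : P.Reach X a0 b := by
    obtain ⟨n, hn, hoff⟩ := hesc
    rcases Nat.eq_zero_or_pos n with rfl | hn0
    · exact ⟨0, hn⟩
    have hf : ¬ P.SC c (P.nxt X1 a0) := hoff 1 Nat.one_pos hn0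
    rcases P.pass_or a0 with hp | ⟨t, x, rfl⟩
    · rw [nxt_pass X1 hp] at hf
      exact absurd (sc_σ_right.2 h0) hf
    · have hx : P.s x = false := by
        by_contra hx
        have e := hpos t x h0 (by simpa using hx)
        rw [nxt_inn, e] at hf
        exact hf (sc_σ_right.2 h0)
      refine ⟨n, Eq.trans ?_ hn⟩
      refine glue2_follow hs st1 ?_ ?_ fun k hk hk' => hoff k hk hk'.le
      · rw [nxt_inn, nxt_inn, hXn x (by rw [glue2_ps_on hs h0, hx]; simp)]
      · rw [← hx]
        exact leave X1 t x h0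
  have onc : ∀ m a, P.SC c a → rem a = m → P.Reach X a b := by
    intro m
    induction m using Nat.strong_induction_on with
    | _ m ih =>
      intro a ha hm
      by_cases hne : a = a0
      · rw [hne]; exact base
      by_cases hb : a = b
      · rw [hb]; exact Reach.refl X b
      rcases P.pass_or a with hp | ⟨t, x, rfl⟩
      · refine Reach.head ?_
        rw [nxt_pass X hp]
        have := hrem a ha hne
        exact ih _ (by omega) _ (sc_σ_right.2 ha) rfl
      · cases hx : P.s x
        · obtain ⟨n, hn0, hn⟩ := glue2_pos h1 hb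
          obtain ⟨K, hK, hon, hoff⟩ := glue2_first' (f := P.nxt X1) (a := P.inn t x)
            (p := fun a => P.SC c a ∨ a = b) ⟨n, hn0, Or.inr hn⟩
          have e : (P.nxt X)^[K] (P.inn t x) = (P.nxt X1)^[K] (P.inn t x) := by
            refine glue2_follow hs st1 ?_ ?_ fun k hk hk' hc => hoff k hk hk' (Or.inl hc)
            · rw [nxt_inn, nxt_inn, hXn x (by rw [glue2_ps_on hs ha, hx]; simp)]
            · rw [← hx]
              exact leave X1 t x ha
          rcases hon with hon | hon
          · have hlt : rem ((P.nxt X1)^[K] (P.inn t x)) < rem (P.inn t x) :=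
              fwd (P := P.neg) hP.neg hs.neg (neg_tree.2 h1) h0
                (fun t x hc hx => hpos t x hc (by simpa [Pl.neg] using hx)) hesc hr0 hrem ha hne hK
                (fun k hk hk' => not_or.1 (hoff k hk hk')) hon
            exact Reach.trans ⟨K, e⟩ (ih _ (by omega) _ hon rfl)
          · exact ⟨K, e.trans hon⟩
        · obtain ⟨n, hn0, hn⟩ := glue2_pos h2 hne
          obtain ⟨K, hK, hon, hoff⟩ := glue2_first' (f := P.nxt X2) (a := P.inn t x)
            (p := fun a => P.SC c a) ⟨n, hn0, by rw [hn]; exact h0⟩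
          have e : (P.nxt X)^[K] (P.inn t x) = (P.nxt X2)^[K] (P.inn t x) := by
            refine glue2_follow hs st2 ?_ ?_ hoff
            · rw [nxt_inn, nxt_inn, hXp x ((glue2_ps_on hs ha).2 hx)]
            · rw [← hx]
              exact leave X2 t x ha
          have hlt : rem ((P.nxt X2)^[K] (P.inn t x)) < rem (P.inn t x) :=
            fwd hP hs h2 h0 hneg ⟨0, rfl, fun k hk hk' => by omega⟩ hr0 hrem ha hne hK
              (fun k hk hk' => ⟨hoff k hk hk', fun e' => hoff k hk hk' (by rw [e']; exact h0)⟩) hon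
          exact Reach.trans ⟨K, e⟩ (ih _ (by omega) _ hon rfl)
  intro a
  by_cases ha : P.SC c a
  · exact onc _ a ha rfl
  by_cases hb : a = b
  · rw [hb]; exact Reach.refl X b
  cases he : sd c a
  · obtain ⟨n, hn0, hn⟩ := glue2_pos h1 hb
    obtain ⟨K, -, hon, hoff⟩ := glue2_first' (f := P.nxt X1) (a := a)
      (p := fun a => P.SC c a ∨ a = b) ⟨n, hn0, Or.inr hn⟩
    have e : (P.nxt X)^[K] a = (P.nxt X1)^[K] a := by
      refine glue2_follow hs st1 (st1 a ha he) ?_ fun k hk hk' hc => hoff k hk hk' (Or.inl hc)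
      rw [← he]
      exact glue2_side hs X1 ha
    rcases hon with hon | hon
    · exact Reach.trans ⟨K, e⟩ (onc _ _ hon rfl)
    · exact ⟨K, e.trans hon⟩
  · obtain ⟨n, hn0, hn⟩ := glue2_pos (a := a) h2 (fun e => ha (by rw [e]; exact h0))
    obtain ⟨K, -, hon, hoff⟩ := glue2_first' (f := P.nxt X2) (a := a)
      (p := fun a => P.SC c a) ⟨n, hn0, by rw [hn]; exact h0⟩
    have e : (P.nxt X)^[K] a = (P.nxt X2)^[K] a := by
      refine glue2_follow hs st2 (st2 a ha he) ?_ hoff
      rw [← he]
      exact glue2_side hs X2 ha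
    exact Reach.trans ⟨K, e⟩ (onc _ _ hon rfl)

end Pl

end Pool.Agent.P.MP_9ed2cf_gt.Nz
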