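import Mathlib
import Pool.Agent.P.MP_9ed2cf_gt.NzConv
import Pool.Agent.P.MP_9ed2cf_gt.NzGlue2

set_option autoImplicit false

namespace Pool.Agent.P.MP_9ed2cf_gt.Nz

open Equiv Finset
open scoped Classical

namespace Pl

variable {A V : Type} {P : Pl A V}

variable [Fintype A] [Fintype V] {b : A} {d : A → ℕ} {sd : A → A → Bool}

/-- the two trees for a base node on the root circle -/
theorem NzStep_base (hP : P.Planar) (hd : P.Dist b d) (hs : P.Side sd) {c : A}
    (hr : P.Root sd b true c) {G : Finset V} (hG : P.Act G) (hGc : ∀ x ∈ G, P.PS sd c x)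
    (hGr : ∀ t x, P.SC c (P.inn t x) → P.s x = true → x ∈ G)
    {D : Finset V} (hD : D ⊆ G) (hN : P.NDC G D ∅) {i j : ℕ}
    (hij : (j = 0 ∧ i + P.beta d G true + P.beta d G false ≤ G.card) ∨
      (i + P.beta d G true + P.beta d G false = G.card + j ∧ i ≤ D.card))
    {a0 : A} (h0 : P.SC c a0) :
    ∃ X Y : V → Bool, P.Tree X a0 ∧ P.rev.Tree Y a0 ∧ cn G X Y = i ∧ cn G Y X = j ∧
      (∀ x, x ∉ G → P.PS sd c x → X x = P.Z d x ∧ Y x = P.Z d x) ∧
      (∀ t x, P.SC c (P.inn t x) → P.s x = false → X x = t ∧ Y x = t) ∧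
      (∀ x, P.SC c (P.inn true x) → X x = true) ∧
      (∀ x, P.SC c (P.inn false x) → Y x = false) := by
  obtain ⟨d', hd'⟩ := exists_dist (z_tree hd) a0
  have hz : ∀ x, P.PS sd c x → P.Z d' x = P.Z d x := fun x hx => z_shift hd hs hd' h0 hr hx
  have hb : ∀ t, P.beta d' G t = P.beta d G t := by
    intro t
    unfold beta
    have : (G.filter fun x => P.Z d' x ≠ t) = G.filter fun x => P.Z d x ≠ t := by
      apply Finset.filter_congr
      intro x hx
      rw [hz x (hGc x hx)]
    rw [this]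
  obtain ⟨X, Y, hX, hY, fX, fY, hi, hj, hl⟩ := lt_path (i := i) (j := j) hP hd' hs hG hD hN
    (by rw [hb, hb]; exact hij)
  have hneg : ∀ t x, P.SC c (P.inn t x) → P.s x = false → X x = t ∧ Y x = t := by
    intro t x hx hsx
    have hxG : x ∉ G := by
      intro h
      have := hG.1 x h
      rw [hsx] at this
      exact Bool.false_ne_true this
    have hzz : P.Z d' x = t := z_root hd' hs hx (Or.inl h0)
    exact ⟨(fX x hxG).trans hzz, (fY x hxG).trans hzz⟩
  refine ⟨X, Y, hX, hY, hi, hj, ?_, hneg, ?_, ?_⟩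
  · intro x hx hps
    exact ⟨(fX x hx).trans (hz x hps), (fY x hx).trans (hz x hps)⟩
  · intro x hx
    cases hsx : P.s x with
    | false => exact (hneg true x hx hsx).1
    | true => exact (hl x (hGr true x hx hsx)).1 (Or.inl (hx.symm.trans h0))
  · intro x hx
    cases hsx : P.s x with
    | false => exact (hneg false x hx hsx).2
    | true => exact (hl x (hGr false x hx hsx)).2 (Or.inl (hx.symm.trans h0))

theorem NzStep_rev_sc {c : A} {t : Bool} {x : V} :
    P.rev.SC c (P.rev.inn t x) ↔ P.SC c (P.inn t x) := by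
  rw [rev_sc, rev_inn]
  exact sc_σ_right

/-- one positive component `G` with root circle `c` is changed -/
theorem posstep (hP : P.Planar) (hd : P.Dist b d) (hs : P.Side sd) {c : A}
    (hr : P.Root sd b true c) {G : Finset V} (hG : P.Act G) (hGc : ∀ x ∈ G, P.PS sd c x)
    (hGr : ∀ t x, P.SC c (P.inn t x) → P.s x = true → x ∈ G)
    {X1 Y1 : V → Bool} (hX : P.Tree X1 b) (hY : P.rev.Tree Y1 b)
    (hZ : ∀ x, P.PS sd c x → X1 x = P.Z d x ∧ Y1 x = P.Z d x)
    {D : Finset V} (hD : D ⊆ G) (hN : P.NDC G D ∅) {i j : ℕ}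
    (hij : (j = 0 ∧ i + P.beta d G true + P.beta d G false ≤ G.card) ∨
      (i + P.beta d G true + P.beta d G false = G.card + j ∧ i ≤ D.card)) :
    ∃ X Y : V → Bool, P.Tree X b ∧ P.rev.Tree Y b ∧
      (∀ x, x ∉ G → X x = X1 x ∧ Y x = Y1 x) ∧ cn G X Y = i ∧ cn G Y X = j := by
  have hzc : ∀ t x, P.SC c (P.inn t x) → P.s x = true → X1 x = t ∧ Y1 x = t := by
    intro t x hx hsx
    have hps := hGc x (hGr t x hx hsx)
    have hzz : P.Z d x = t := z_root hd hs hx (by rw [hsx]; exact hr)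
    exact ⟨(hZ x hps).1.trans hzz, (hZ x hps).2.trans hzz⟩
  obtain ⟨aX, haX, gX⟩ := glue hP hs hX hr fun t x hx hsx => (hzc t x hx hsx).1
  obtain ⟨aY, haY, gY⟩ := glue hP.rev hs.rev hY (rev_root.2 hr)
    fun t x hx hsx => (hzc t x (NzStep_rev_sc.1 hx) hsx).2
  have haY' : P.SC c aY := rev_sc.1 haY
  have hty : ∀ t x, P.SC c (P.inn t x) → P.ty c = t := by
    intro t x hx
    rw [hx.ty_eq, P.ty_inn]
  have key : ∃ X Y : V → Bool, P.Tree X aX ∧ P.rev.Tree Y aY ∧ cn G X Y = i ∧ cn G Y X = j ∧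
      (∀ x, x ∉ G → P.PS sd c x → X x = P.Z d x ∧ Y x = P.Z d x) ∧
      (∀ t x, P.SC c (P.inn t x) → P.s x = false → X x = t ∧ Y x = t) := by
    cases hc : P.ty c with
    | false =>
      obtain ⟨X, Y, h1, h2, h3, h4, h5, h6, -, h8⟩ :=
        NzStep_base hP hd hs hr hG hGc hGr hD hN hij haX
      refine ⟨X, Y, h1, ?_, h3, h4, h5, h6⟩
      refine h2.rebase (rev_sc.2 (haX.symm.trans haY')) ?_
      intro t x hx
      have hx' : P.SC c (P.inn t x) := haX.trans (NzStep_rev_sc.1 hx)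
      have ht : t = false := by rw [← hty t x hx', hc]
      subst ht
      exact h8 x hx'
    | true =>
      obtain ⟨X, Y, h1, h2, h3, h4, h5, h6, h7, -⟩ :=
        NzStep_base hP hd hs hr hG hGc hGr hD hN hij haY'
      refine ⟨X, Y, ?_, h2, h3, h4, h5, h6⟩
      refine h1.rebase (haY'.symm.trans haX) ?_
      intro t x hx
      have hx' : P.SC c (P.inn t x) := haY'.trans hx
      have ht : t = true := by rw [← hty t x hx', hc]
      subst ht
      exact h7 x hx'
  obtain ⟨X, Y, h1, h2, h3, h4, h5, h6⟩ := key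
  have tX := gX X h1 fun t x hx hsx => (h6 t x hx hsx).1
  have tY := gY Y h2 fun t x hx hsx => (h6 t x (NzStep_rev_sc.1 hx) hsx).2
  refine ⟨_, _, tX, tY, ?_, ?_, ?_⟩
  · intro x hx
    by_cases hps : P.PS sd c x
    · have hps' : P.rev.PS sd c x := (rev_ps hs).2 hps
      simp only [hps, hps', if_true]
      exact ⟨(h5 x hx hps).1.trans (hZ x hps).1.symm, (h5 x hx hps).2.trans (hZ x hps).2.symm⟩
    · have hps' : ¬ P.rev.PS sd c x := fun h => hps ((rev_ps hs).1 h)
      simp only [hps, hps', if_false]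
      exact ⟨trivial, trivial⟩
  · rw [← h3]
    unfold cn
    congr 1
    apply Finset.filter_congr
    intro x hx
    have hps := hGc x hx
    have hps' : P.rev.PS sd c x := (rev_ps hs).2 hps
    simp only [hps, hps', if_true]
  · rw [← h4]
    unfold cn
    congr 1
    apply Finset.filter_congr
    intro x hx
    have hps := hGc x hx
    have hps' : P.rev.PS sd c x := (rev_ps hs).2 hps
    simp only [hps, hps', if_true]

end Pl

end Pool.Agent.P.MP_9ed2cf_gt.Nz
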