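import Mathlib
import Pool.Agent.P.MP_9ed2cf_gt.NzStep
import Pool.Agent.P.MP_9ed2cf_gt.NzGrp

set_option autoImplicit false

namespace Pool.Agent.P.MP_9ed2cf_gt.Nz

open Equiv Finset
open scoped Classical

namespace Pl

variable {A V : Type} {P : Pl A V}

theorem NzTD_cn_union {Q G : Finset V} (h : Disjoint Q G) (X Y : V → Bool) :
    cn (Q ∪ G) X Y = cn Q X Y + cn G X Y := by
  unfold cn
  rw [filter_union, card_union_of_disjoint (disjoint_filter_filter h)]

theorem NzTD_cn_congr {Q : Finset V} {X Y X' Y' : V → Bool}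
    (h : ∀ x ∈ Q, X x = X' x ∧ Y x = Y' x) : cn Q X Y = cn Q X' Y' ∧ cn Q Y X = cn Q Y' X' := by
  unfold cn
  constructor
  · congr 1
    exact filter_congr fun x hx => by rw [(h x hx).1, (h x hx).2]
  · congr 1
    exact filter_congr fun x hx => by rw [(h x hx).1, (h x hx).2]

variable [Fintype A] [Fintype V] {b : A} {d : A → ℕ} {sd : A → A → Bool}

theorem NzTD_d_eq (hd : P.Dist b d) {a a' : A} (h : P.SC a a') : d a = d a' :=
  SC.inv hd.d_σ h

theorem NzTD_near (hd : P.Dist b d) {t : Bool} {x : V} (h : P.Z d x = t) :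
    d (P.inn (!t) x) = d (P.inn t x) + 1 := by
  have h1 := hd.d_adj x
  unfold Z at h
  cases t
  · have : ¬ d (P.inn true x) < d (P.inn false x) := by simpa using h
    simp only [Bool.not_false]
    omega
  · have : d (P.inn true x) < d (P.inn false x) := by simpa using h
    simp only [Bool.not_true]
    omega

/-- one negative group is changed -/
theorem NzTD_neg {X1 Y1 : V → Bool} (hX : P.Tree X1 b) (hY : P.rev.Tree Y1 b) {c : A} {t : Bool}
    {G : Finset V} (hG : ∀ x, x ∈ G ↔ P.SC c (P.inn t x) ∧ P.Z d x ≠ t)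
    (hZ : ∀ x, P.SC c (P.inn t x) → X1 x = P.Z d x ∧ Y1 x = P.Z d x) {m : ℕ}
    (hm : m + 1 ≤ G.card) :
    ∃ X Y : V → Bool, P.Tree X b ∧ P.rev.Tree Y b ∧
      (∀ x, x ∉ G → X x = X1 x ∧ Y x = Y1 x) ∧ cn G X Y = 0 ∧ cn G Y X = m := by
  cases t
  · have h1 : ∀ x, x ∈ G ↔ P.SC c (P.inn false x) ∧ X1 x ≠ false := by
      intro x
      rw [hG]
      exact and_congr_right fun h => by rw [(hZ x h).1]
    have h2 : ∀ x ∈ G, Y1 x = true := by
      intro x hx
      obtain ⟨h3, h4⟩ := (hG x).1 hx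
      rw [(hZ x h3).2]
      simpa using h4
    obtain ⟨X, hX', hoff, hc⟩ := negstep hX h1 hm
    refine ⟨X, Y1, hX', hY, fun x hx => ⟨hoff x hx, rfl⟩, ?_, ?_⟩
    · unfold cn
      rw [card_eq_zero, filter_eq_empty_iff]
      intro x hx h
      rw [h2 x hx] at h
      exact absurd h.2 (by decide)
    · unfold cn
      rw [← hc]
      congr 1
      exact filter_congr fun x hx => by simp [h2 x hx]
  · have h1 : ∀ x, x ∈ G ↔ P.rev.SC c (P.rev.inn true x) ∧ Y1 x ≠ true := by
      intro x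
      rw [hG, rev_sc, rev_inn, out, sc_σ_right]
      exact and_congr_right fun h => by rw [(hZ x h).2]
    have h2 : ∀ x ∈ G, X1 x = false := by
      intro x hx
      obtain ⟨h3, h4⟩ := (hG x).1 hx
      rw [(hZ x h3).1]
      simpa using h4
    obtain ⟨Y, hY', hoff, hc⟩ := negstep hY h1 hm
    refine ⟨X1, Y, hX, hY', fun x hx => ⟨rfl, hoff x hx⟩, ?_, ?_⟩
    · unfold cn
      rw [card_eq_zero, filter_eq_empty_iff]
      intro x hx h
      rw [h2 x hx] at h
      exact absurd h.1 (by decide)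
    · unfold cn
      rw [← hc]
      congr 1
      exact filter_congr fun x hx => by simp [h2 x hx]

theorem NzTD_beta_one {c : A} {t : Bool} {G : Finset V}
    (hG : ∀ x ∈ G, P.SC c (P.inn t x) ∧ P.Z d x ≠ t) (hne : G.Nonempty) :
    P.beta d G true + P.beta d G false = 1 := by
  have h1 : P.beta d G t = 1 := by
    unfold beta
    rw [card_eq_one]
    refine ⟨P.cl c, ?_⟩
    have e : ∀ x ∈ G, P.cl (P.inn t x) = P.cl c := by
      intro x hx
      ext a
      exact ⟨fun h => (hG x hx).1.trans h, fun h => (hG x hx).1.symm.trans h⟩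
    ext S
    simp only [mem_image, mem_filter, mem_singleton]
    constructor
    · rintro ⟨x, ⟨hx, -⟩, rfl⟩
      exact e x hx
    · rintro rfl
      obtain ⟨x, hx⟩ := hne
      exact ⟨x, ⟨hx, (hG x hx).2⟩, e x hx⟩
  have h2 : P.beta d G (!t) = 0 := by
    unfold beta
    rw [card_eq_zero, image_eq_empty, filter_eq_empty_iff]
    intro x hx h
    have := (hG x hx).2
    revert h this
    cases t <;> cases P.Z d x <;> simp
  cases t
  · simp only [Bool.not_false] at h2
    omega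
  · simp only [Bool.not_true] at h2
    omega

theorem NzTD_ind (hP : P.Planar) (hd : P.Dist b d) (hs : P.Side sd) {D : Finset V}
    (hN : P.NDC (P.sg true) D ∅) {gr : V → A}
    (g1 : ∀ x, P.s x = false → gr x = P.inn (!P.Z d x) x)
    (g2 : ∀ x, P.Root sd b true (gr x))
    (g3 : ∀ x, P.s x = true → P.PS sd (gr x) x)
    (g4 : ∀ x y t, P.s x = true → P.s y = true → P.SC (P.inn t x) (P.inn t y) →
      P.SC (gr x) (gr y))
    (g5 : ∀ c t x, P.Root sd b true c → P.SC c (P.inn t x) → P.s x = true → P.SC c (gr x))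
    (g6 : ∀ c x, P.Root sd b true c → P.PS sd c x →
      (P.s x = true ∧ P.SC c (gr x)) ∨ d c < d (gr x))
    {lev : V → ℕ} (hl1 : ∀ x, P.s x = true → lev x = 2 * d (gr x) + 1)
    (hl0 : ∀ x, P.s x = false → lev x = 2 * d (gr x)) (n : ℕ) :
    ∀ Q : Finset V, Q.card = n →
      (∀ x ∈ Q, ∀ y, (lev y < lev x ∨ (P.s y = P.s x ∧ P.SC (gr y) (gr x))) → y ∈ Q) →
      ∀ Qp Qn : Finset V, (∀ x, x ∈ Qp ↔ x ∈ Q ∧ P.s x = true) →
      (∀ x, x ∈ Qn ↔ x ∈ Q ∧ P.s x = false) → ∀ i j m : ℕ,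
      ((j = 0 ∧ i + P.beta d Qp true + P.beta d Qp false ≤ Qp.card) ∨
        (i + P.beta d Qp true + P.beta d Qp false = Qp.card + j ∧ i ≤ (D ∩ Qp).card)) →
      m + P.beta d Qn true + P.beta d Qn false ≤ Qn.card →
      ∃ X Y : V → Bool, P.Tree X b ∧ P.rev.Tree Y b ∧
        (∀ x, x ∉ Q → X x = P.Z d x ∧ Y x = P.Z d x) ∧ cn Qp X Y = i ∧
        cn Qp Y X = j ∧ cn Qn X Y = 0 ∧ cn Qn Y X = m := by
  induction n using Nat.strong_induction_on with
  | _ n ih =>
  intro Q hn hc Qp Qn hp hq i j m hij hm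
  rcases Q.eq_empty_or_nonempty with rfl | hne
  · have e1 : Qp = ∅ := by
      ext x
      simp [hp]
    have e2 : Qn = ∅ := by
      ext x
      simp [hq]
    subst e1 e2
    have h0 : ∀ X Y : V → Bool, cn (∅ : Finset V) X Y = 0 := fun X Y => by simp [cn]
    simp only [card_empty, inter_empty] at hij hm
    refine ⟨P.Z d, P.Z d, z_tree hd, ?_, fun x _ => ⟨rfl, rfl⟩, ?_, ?_, h0 _ _, ?_⟩
    · have := z_tree hd.rev
      rwa [rev_Z hd.d_σ] at this
    · rw [h0]
      omega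
    · rw [h0]
      omega
    · rw [h0]
      omega
  obtain ⟨x0, hx0, hmax⟩ := exists_max_image Q lev hne
  obtain ⟨G, hG⟩ : ∃ G : Finset V, ∀ y, y ∈ G ↔ P.s y = P.s x0 ∧ P.SC (gr y) (gr x0) :=
    ⟨univ.filter fun y => P.s y = P.s x0 ∧ P.SC (gr y) (gr x0), fun y => by simp⟩
  have hGQ : ∀ y ∈ G, y ∈ Q := fun y hy => hc x0 hx0 y (Or.inr ((hG y).1 hy))
  have hx0G : x0 ∈ G := (hG x0).2 ⟨rfl, SC.refl _⟩
  have hlG : ∀ y ∈ G, lev y = lev x0 := by
    intro y hy
    obtain ⟨h1, h2⟩ := (hG y).1 hy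
    have h3 := NzTD_d_eq hd h2
    cases h4 : P.s x0
    · rw [hl0 x0 h4, hl0 y (h1.trans h4), h3]
    · rw [hl1 x0 h4, hl1 y (h1.trans h4), h3]
  have hlt : (Q \ G).card < n := by
    rw [← hn]
    exact card_lt_card (sdiff_ssubset (fun y hy => hGQ y hy) ⟨x0, hx0G⟩)
  have hc' : ∀ x ∈ Q \ G, ∀ y, (lev y < lev x ∨ (P.s y = P.s x ∧ P.SC (gr y) (gr x))) →
      y ∈ Q \ G := by
    intro x hx y hy
    rw [mem_sdiff] at hx ⊢
    refine ⟨hc x hx.1 y hy, fun hyG => ?_⟩
    rcases hy with hy | ⟨h1, h2⟩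
    · have := hmax x hx.1
      have := hlG y hyG
      omega
    · obtain ⟨h3, h4⟩ := (hG y).1 hyG
      exact hx.2 ((hG x).2 ⟨h1.symm.trans h3, h2.symm.trans h4⟩)
  have IH := ih _ hlt (Q \ G) rfl hc'
  have hlo : ∀ x, 2 * d (gr x) ≤ lev x := by
    intro x
    cases h : P.s x
    · rw [hl0 x h]
    · rw [hl1 x h]
      omega
  cases hs0 : P.s x0
  · -- a negative group
    rw [hs0] at hG
    obtain ⟨t, ht⟩ : ∃ t, t = !P.Z d x0 := ⟨_, rfl⟩
    have hc0 : gr x0 = P.inn t x0 := by rw [ht, g1 x0 hs0]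
    have hG' : ∀ x, x ∈ G ↔ P.SC (gr x0) (P.inn t x) ∧ P.Z d x ≠ t := by
      intro x
      rw [hG]
      constructor
      · rintro ⟨h1, h2⟩
        rw [g1 x h1] at h2
        have h3 := h2.ty_eq
        rw [hc0, P.ty_inn, P.ty_inn] at h3
        rw [h3] at h2
        refine ⟨h2.symm, ?_⟩
        rw [← h3]
        cases P.Z d x <;> simp
      · rintro ⟨h1, h2⟩
        obtain ⟨h3, h4⟩ := sign_near hd hs h1 h2
        have h5 : P.s x = false := by
          rcases g2 x0 with h | h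
          · exact absurd h h3
          · rw [h4]
            simpa using h
        have h6 : (!P.Z d x) = t := by
          revert h2
          cases t <;> cases P.Z d x <;> simp
        refine ⟨h5, ?_⟩
        rw [g1 x h5, h6]
        exact h1.symm
    have hoff : ∀ x, P.SC (gr x0) (P.inn t x) → x ∉ Q \ G := by
      intro x h1 hx
      rw [mem_sdiff] at hx
      have h2 : P.Z d x = t := by
        by_contra h
        exact hx.2 ((hG' x).2 ⟨h1, h⟩)
      have h3 := hmax x hx.1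
      rw [hl0 x0 hs0] at h3
      cases h4 : P.s x
      · rw [hl0 x h4, g1 x h4, h2, NzTD_near hd h2, ← NzTD_d_eq hd h1] at h3
        omega
      · rw [hl1 x h4, ← NzTD_d_eq hd (g5 _ _ _ (g2 x0) h1 h4)] at h3
        omega
    have hp' : ∀ x, x ∈ Qp ↔ x ∈ Q \ G ∧ P.s x = true := by
      intro x
      rw [hp, mem_sdiff, hG]
      cases P.s x <;> simp
    have hq' : ∀ x, x ∈ Qn \ G ↔ x ∈ Q \ G ∧ P.s x = false := by
      intro x
      rw [mem_sdiff, mem_sdiff, hq]
      tauto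
    have hu : Qn \ G ∪ G = Qn :=
      sdiff_union_of_subset fun y hy => (hq y).2 ⟨hGQ y hy, ((hG y).1 hy).1⟩
    have hb : ∀ t', P.beta d Qn t' = P.beta d (Qn \ G) t' + P.beta d G t' := by
      intro t'
      rw [← beta_union P d t', hu]
      intro x hx y hy _ h2 h3
      obtain ⟨h4, h5⟩ := (hG' y).1 hy
      have h6 : t' = t := by
        revert h2 h5
        cases t <;> cases t' <;> cases P.Z d y <;> simp
      rw [h6] at h3
      exact hoff x (h4.trans h3.symm) ((hq' x).1 hx).1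
    have hcard : Qn.card = (Qn \ G).card + G.card := by
      rw [← card_union_of_disjoint sdiff_disjoint, hu]
    have h1 := NzTD_beta_one (fun x hx => (hG' x).1 hx) ⟨x0, hx0G⟩
    have h2 := beta_le_card P d (Qn \ G)
    have h3 : 0 < G.card := card_pos.2 ⟨x0, hx0G⟩
    rw [hb, hb, hcard] at hm
    obtain ⟨X1, Y1, hX, hY, hZ, c1, c2, c3, c4⟩ := IH Qp (Qn \ G) hp' hq' i j
      (m - min m (G.card - 1)) hij (by omega)
    obtain ⟨X, Y, hX', hY', hXY, c5, c6⟩ := NzTD_neg (m := min m (G.card - 1)) hX hY hG'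
      (fun x hx => hZ x (hoff x hx)) (by omega)
    have k1 := NzTD_cn_congr (Q := Qp) fun x hx => hXY x (mem_sdiff.1 ((hp' x).1 hx).1).2
    have k2 := NzTD_cn_congr (Q := Qn \ G) fun x hx => hXY x (mem_sdiff.1 hx).2
    refine ⟨X, Y, hX', hY', fun x hx => ?_, k1.1.trans c1, k1.2.trans c2, ?_, ?_⟩
    · have h4 := hXY x fun h => hx (hGQ x h)
      have h5 := hZ x fun h => hx (mem_sdiff.1 h).1
      exact ⟨h4.1.trans h5.1, h4.2.trans h5.2⟩
    · rw [← hu, NzTD_cn_union sdiff_disjoint, k2.1, c3, c5]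
    · rw [← hu, NzTD_cn_union sdiff_disjoint, k2.2, c4, c6]
      omega
  · -- a positive group
    rw [hs0] at hG
    have hA : P.Act G := by
      refine ⟨fun x hx => ((hG x).1 hx).1, fun x hx y t hy h => ?_⟩
      obtain ⟨h1, h2⟩ := (hG x).1 hx
      exact (hG y).2 ⟨hy, (g4 x y t h1 hy h).symm.trans h2⟩
    have hGc : ∀ x ∈ G, P.PS sd (gr x0) x := by
      intro x hx t h
      obtain ⟨h1, h2⟩ := (hG x).1 hx
      rw [← hs.sd_c _ _ h2]
      exact g3 x h1 t fun h3 => h (h2.symm.trans h3)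
    have hGr : ∀ t x, P.SC (gr x0) (P.inn t x) → P.s x = true → x ∈ G :=
      fun t x h1 h2 => (hG x).2 ⟨h2, (g5 _ _ _ (g2 x0) h1 h2).symm⟩
    have hoff : ∀ x, P.PS sd (gr x0) x → x ∉ Q \ G := by
      intro x h1 hx
      rw [mem_sdiff] at hx
      rcases g6 _ x (g2 x0) h1 with ⟨h2, h3⟩ | h2
      · exact hx.2 ((hG x).2 ⟨h2, h3.symm⟩)
      · have h3 := hmax x hx.1
        have h4 := hlo x
        rw [hl1 x0 hs0] at h3
        omega
    have hq' : ∀ x, x ∈ Qn ↔ x ∈ Q \ G ∧ P.s x = false := by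
      intro x
      rw [hq, mem_sdiff, hG]
      cases P.s x <;> simp
    have hp' : ∀ x, x ∈ Qp \ G ↔ x ∈ Q \ G ∧ P.s x = true := by
      intro x
      rw [mem_sdiff, mem_sdiff, hp]
      tauto
    have hsub : G ⊆ Qp := fun y hy => (hp y).2 ⟨hGQ y hy, ((hG y).1 hy).1⟩
    have hu : Qp \ G ∪ G = Qp := sdiff_union_of_subset hsub
    have hb : ∀ t', P.beta d Qp t' = P.beta d (Qp \ G) t' + P.beta d G t' := by
      intro t'
      rw [← beta_union P d t', hu]
      intro x hx y hy _ _ h3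
      exact (mem_sdiff.1 hx).2 (hA.2 y hy x t' ((hp' x).1 hx).2 h3.symm)
    have hcard : Qp.card = (Qp \ G).card + G.card := by
      rw [← card_union_of_disjoint sdiff_disjoint, hu]
    have hcD : (D ∩ Qp).card = (D ∩ (Qp \ G)).card + (D ∩ G).card := by
      rw [← card_union_of_disjoint
        (Disjoint.mono inter_subset_right inter_subset_right sdiff_disjoint),
        ← inter_union_distrib_left, hu]
    have hNG : P.NDC G (D ∩ G) ∅ := NDC.restrict (act_sg P) hA
      (fun y hy => by simpa [sg] using ((hG y).1 hy).1) hN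
    have h1 := beta_le_card P d G
    have h2 := beta_le_card P d (Qp \ G)
    rw [hb, hb, hcard, hcD] at hij
    obtain ⟨i1, j1, i2, j2, e1, e2, h3, h4⟩ : ∃ i1 j1 i2 j2 : ℕ, i1 + i2 = i ∧ j1 + j2 = j ∧
        ((j1 = 0 ∧ i1 + P.beta d (Qp \ G) true + P.beta d (Qp \ G) false ≤ (Qp \ G).card) ∨
          (i1 + P.beta d (Qp \ G) true + P.beta d (Qp \ G) false = (Qp \ G).card + j1 ∧
            i1 ≤ (D ∩ (Qp \ G)).card)) ∧
        ((j2 = 0 ∧ i2 + P.beta d G true + P.beta d G false ≤ G.card) ∨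
          (i2 + P.beta d G true + P.beta d G false = G.card + j2 ∧ i2 ≤ (D ∩ G).card)) := by
      generalize P.beta d (Qp \ G) true = a1 at *
      generalize P.beta d (Qp \ G) false = a2 at *
      generalize P.beta d G true = a3 at *
      generalize P.beta d G false = a4 at *
      generalize (D ∩ (Qp \ G)).card = f1 at *
      generalize (D ∩ G).card = f2 at *
      generalize (Qp \ G).card = n1 at *
      generalize G.card = n2 at *
      rcases hij with ⟨h5, h6⟩ | ⟨h5, h6⟩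
      · exact ⟨i - min i (n2 - (a3 + a4)), 0, min i (n2 - (a3 + a4)), 0, by omega, by omega,
          by omega, by omega⟩
      · exact ⟨i - min (i - (n1 - (a1 + a2))) (max (n2 - (a3 + a4)) f2),
          i - min (i - (n1 - (a1 + a2))) (max (n2 - (a3 + a4)) f2) + (a1 + a2) - n1,
          min (i - (n1 - (a1 + a2))) (max (n2 - (a3 + a4)) f2),
          min (i - (n1 - (a1 + a2))) (max (n2 - (a3 + a4)) f2) + (a3 + a4) - n2,
          by omega, by omega, by omega, by omega⟩
    obtain ⟨X1, Y1, hX, hY, hZ, c1, c2, c3, c4⟩ := IH (Qp \ G) Qn hp' hq' i1 j1 m h3 hm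
    obtain ⟨X, Y, hX', hY', hXY, c5, c6⟩ := posstep hP hd hs (g2 x0) hA hGc hGr hX hY
      (fun x hx => hZ x (hoff x hx)) inter_subset_right hNG h4
    have k1 := NzTD_cn_congr (Q := Qn) fun x hx => hXY x (mem_sdiff.1 ((hq' x).1 hx).1).2
    have k2 := NzTD_cn_congr (Q := Qp \ G) fun x hx => hXY x (mem_sdiff.1 hx).2
    refine ⟨X, Y, hX', hY', fun x hx => ?_, ?_, ?_, k1.1.trans c3, k1.2.trans c4⟩
    · have h4 := hXY x fun h => hx (hGQ x h)
      have h5 := hZ x fun h => hx (mem_sdiff.1 h).1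
      exact ⟨h4.1.trans h5.1, h4.2.trans h5.2⟩
    · rw [← hu, NzTD_cn_union sdiff_disjoint, k2.1, c1, c5, e1]
    · rw [← hu, NzTD_cn_union sdiff_disjoint, k2.2, c2, c6, e2]

theorem td (hP : P.Planar) (hd : P.Dist b d) (hs : P.Side sd) {D : Finset V}
    (hD : D ⊆ P.sg true) (hN : P.NDC (P.sg true) D ∅) {i j m : ℕ}
    (hij : (j = 0 ∧ i + P.beta d (P.sg true) true + P.beta d (P.sg true) false ≤
        (P.sg true).card) ∨
      (i + P.beta d (P.sg true) true + P.beta d (P.sg true) false = (P.sg true).card + j ∧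
        i ≤ D.card))
    (hm : m + P.beta d (P.sg false) true + P.beta d (P.sg false) false ≤ (P.sg false).card) :
    ∃ X Y : V → Bool, P.Tree X b ∧ P.rev.Tree Y b ∧ cn (P.sg true) X Y = i ∧
      cn (P.sg true) Y X = j ∧ cn (P.sg false) X Y = 0 ∧ cn (P.sg false) Y X = m := by
  obtain ⟨gr, g1, g2, g3, g4, g5, g6⟩ := exists_groups hd hs
  rw [← inter_eq_left.2 hD] at hij
  obtain ⟨X, Y, hX, hY, -, h⟩ := NzTD_ind hP hd hs hN g1 g2 g3 g4 g5 g6
    (lev := fun x => 2 * d (gr x) + if P.s x = true then 1 else 0)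
    (fun x h => by simp [h]) (fun x h => by simp [h]) _ univ rfl (fun _ _ y _ => mem_univ y)
    (P.sg true) (P.sg false) (fun x => by simp [sg]) (fun x => by simp [sg]) i j m hij hm
  exact ⟨X, Y, hX, hY, h⟩

end Pl

end Pool.Agent.P.MP_9ed2cf_gt.Nz
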