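import Mathlib
import Pool.Agent.P.MP_9ed2cf_gt.NzTD

set_option autoImplicit false

namespace Pool.Agent.P.MP_9ed2cf_gt.Nz

open Equiv Finset
open scoped Classical

namespace Pl

variable {A V : Type} {P : Pl A V}

variable [Fintype A] [Fintype V]

/-- the four counts of a pair of trees -/
def absFour (P : Pl A V) (b : A) (p q p' q' : ℕ) : Prop :=
  ∃ X Y : V → Bool, P.Tree X b ∧ P.rev.Tree Y b ∧ cn (P.sg true) X Y = p ∧
    cn (P.sg true) Y X = q ∧ cn (P.sg false) X Y = p' ∧ cn (P.sg false) Y X = q'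

/-- the width of the crossings of sign `e` -/
def absW (P : Pl A V) (d : A → ℕ) (e : Bool) (w : ℕ) : Prop :=
  w + P.beta d (P.sg e) true + P.beta d (P.sg e) false = (P.sg e).card

/-- the two other parameters of the positive crossings -/
def absPar (P : Pl A V) (a n : ℕ) : Prop :=
  (∃ D, D ⊆ P.sg true ∧ P.NDC (P.sg true) D ∅ ∧ D.card = a) ∧
    (∀ D, D ⊆ P.sg true → P.NDC (P.sg true) D ∅ → D.card ≤ a) ∧
    ∃ φ, P.IsPhi (P.sg true) φ ∧ (P.nl (P.sg true) φ).card = n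

omit [Fintype A] in
theorem abs_neg_sg (P : Pl A V) (e : Bool) : P.neg.sg e = P.sg (!e) := by
  refine filter_congr fun x _ => ?_
  show (!P.s x) = e ↔ P.s x = !e
  cases e <;> cases P.s x <;> simp

omit [Fintype A] in
theorem abs_rev_sg (P : Pl A V) (e : Bool) : P.rev.sg e = P.sg e := rfl

omit [Fintype A] in
theorem abs_four_rev {b : A} {p q p' q' : ℕ} (h : P.rev.absFour b p q p' q') :
    P.absFour b q p q' p' := by
  obtain ⟨X, Y, hX, hY, h1, h2, h3, h4⟩ := h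
  rw [rev_rev] at hY
  exact ⟨Y, X, hY, hX, h2, h1, h4, h3⟩

omit [Fintype A] in
theorem abs_four_neg {b : A} {p q p' q' : ℕ} (h : P.neg.absFour b p q p' q') :
    P.absFour b p' q' p q := by
  obtain ⟨X, Y, hX, hY, h1, h2, h3, h4⟩ := h
  rw [abs_neg_sg] at h1 h2 h3 h4
  exact ⟨X, Y, hX, hY, h3, h4, h1, h2⟩

omit [Fintype A] in
theorem abs_ins {b : A} {p q p' q' : ℕ} (h : P.absFour b p q p' q') {i j : ℤ}
    (hi : i = p - p') (hj : j = q - q') : P.InS b i j := by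
  obtain ⟨X, Y, hX, hY, h1, h2, h3, h4⟩ := h
  exact ⟨X, Y, hX, hY, by rw [sc, h1, h3, hi], by rw [sc, h2, h4, hj]⟩

omit [Fintype A] in
theorem abs_ins_rev {b : A} {i j : ℤ} (h : P.rev.InS b i j) : P.InS b j i := by
  obtain ⟨X, Y, hX, hY, h1, h2⟩ := h
  rw [rev_rev] at hY
  exact ⟨Y, X, hY, hX, h2, h1⟩

omit [Fintype A] in
theorem abs_w_rev {d : A → ℕ} (hd : ∀ a, d (P.σ a) = d a) {e : Bool} {w : ℕ}
    (h : P.absW d e w) : P.rev.absW d e w := by
  unfold absW at h ⊢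
  rw [rev_beta hd, rev_beta hd, abs_rev_sg]
  exact h

omit [Fintype A] in
theorem abs_w_neg {d : A → ℕ} {e : Bool} {w : ℕ} (h : P.absW d (!e) w) : P.neg.absW d e w := by
  unfold absW at h ⊢
  rw [abs_neg_sg]
  exact h

omit [Fintype A] in
theorem abs_par_rev {a n : ℕ} (h : P.absPar a n) : P.rev.absPar a n := by
  obtain ⟨⟨D, h1, h2, h3⟩, h4, φ, h5, h6⟩ := h
  refine ⟨⟨D, h1, rev_ndc.2 h2, h3⟩, fun D' k1 k2 => h4 D' k1 (rev_ndc.1 k2), φ⁻¹, h5.rev, ?_⟩
  rw [abs_rev_sg, h5.rev_nl, h6]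

theorem abs_exists_w (P : Pl A V) (d : A → ℕ) (e : Bool) : ∃ w, P.absW d e w := by
  have := beta_le_card P d (P.sg e)
  exact ⟨(P.sg e).card - (P.beta d (P.sg e) true + P.beta d (P.sg e) false), by
    unfold absW; omega⟩

theorem abs_exists_par {b : A} {d : A → ℕ} {sd : A → A → Bool} (hd : P.Dist b d)
    (hs : P.Side sd) : ∃ a n, P.absPar a n := by
  have h0 : P.NDC (P.sg true) ∅ ∅ :=
    (ndc_of_pair hd hs (act_sg P) (z_tree hd) (z_tree hd.rev)).mono (empty_subset _)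
      (empty_subset _)
  obtain ⟨D, hD, hmax⟩ := exists_max_image
    ((P.sg true).powerset.filter fun D => P.NDC (P.sg true) D ∅) card
    ⟨∅, mem_filter.2 ⟨mem_powerset.2 (empty_subset _), h0⟩⟩
  obtain ⟨φ, hφ⟩ := exists_phi P (P.sg true)
  rw [mem_filter, mem_powerset] at hD
  exact ⟨D.card, _, ⟨D, hD.1, hD.2, rfl⟩,
    fun D' k1 k2 => hmax D' (mem_filter.2 ⟨mem_powerset.2 k1, k2⟩), φ, hφ, rfl⟩

omit [Fintype A] [Fintype V] in
theorem abs_nf (Q : Finset V) (χ : V → Bool) : nf Q χ true + nf Q χ false = Q.card := by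
  unfold nf
  rw [← card_filter_add_card_filter_not (s := Q) (fun x => χ x ≠ true)]
  congr 2
  refine filter_congr fun x _ => ?_
  cases χ x <;> simp

omit [Fintype A] [Fintype V] in
theorem abs_cn (Q : Finset V) (X Y : V → Bool) :
    cn Q X Y + nf Q X true = cn Q Y X + nf Q Y true := by
  unfold cn nf
  simp only [card_filter]
  rw [← sum_add_distrib, ← sum_add_distrib]
  refine sum_congr rfl fun x _ => ?_
  cases X x <;> cases Y x <;> simp

variable {b : A} {d : A → ℕ} {sd : A → A → Bool}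

theorem abs_ub (hP : P.Planar) (hd : P.Dist b d) (hs : P.Side sd) {w a n : ℕ}
    (hw : P.absW d true w) (hp : P.absPar a n) {X Y : V → Bool} (hX : P.Tree X b)
    (hY : P.rev.Tree Y b) :
    cn (P.sg true) X Y ≤ a ∧ cn (P.sg true) Y X ≤ a ∧
      cn (P.sg true) X Y + cn (P.sg true) Y X ≤ n ∧
      cn (P.sg true) X Y ≤ cn (P.sg true) Y X + w ∧
      cn (P.sg true) Y X ≤ cn (P.sg true) X Y + w := by
  obtain ⟨-, h4, φ, h5, h6⟩ := hp
  have hN := ndc_of_pair hd hs (act_sg P) hX hY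
  have k1 := h4 _ (filter_subset _ _) (hN.mono Subset.rfl (empty_subset _))
  have k2 := h4 _ (filter_subset _ _) (hN.swap.mono Subset.rfl (empty_subset _))
  have k3 := (pair_le_nl hP hd hs (act_sg P) h5 hX hY).2
  have b1 := beta_le hd hs (act_sg P) hX true
  have b2 := beta_le hd hs (act_sg P) hX false
  have b3 := beta_le hd.rev hs.rev (act_sg P).rev hY true
  have b4 := beta_le hd.rev hs.rev (act_sg P).rev hY false
  rw [rev_beta hd.d_σ] at b3 b4
  have c1 := abs_nf (P.sg true) X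
  have c2 := abs_nf (P.sg true) Y
  have c3 := abs_cn (P.sg true) X Y
  unfold absW at hw
  exact ⟨k1, k2, by omega, by omega, by omega⟩

theorem abs_r1 (hP : P.Planar) (hd : P.Dist b d) (hs : P.Side sd) {w a n : ℕ}
    (hw : P.absW d true w) (hp : P.absPar a n) {i j : ℕ} (hji : j ≤ i) (hi : i ≤ a)
    (hv : i ≤ j + w) (hn : i + j ≤ n) : P.absFour b i j 0 0 := by
  obtain ⟨⟨D, h1, h2, h3⟩, -, φ, h5, h6⟩ := hp
  unfold absW at hw
  obtain ⟨X, Y, hX, hY, f1, f2, c1, c2⟩ := r1 hP hd hs (act_sg P) h5 h1 h2 hji (by omega)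
    (by omega) (by omega)
  have he : ∀ x ∈ P.sg false, X x = Y x := by
    intro x hx
    have hx' : x ∉ P.sg true := by
      simp only [sg, mem_filter, mem_univ, true_and] at hx ⊢
      simp [hx]
    rw [f1 x hx', f2 x hx']
  refine ⟨X, Y, hX, hY, c1, c2, ?_, ?_⟩
  · unfold cn
    rw [card_eq_zero, filter_eq_empty_iff]
    intro x hx hh
    have := he x hx
    rw [hh.1, hh.2] at this
    exact Bool.noConfusion this
  · unfold cn
    rw [card_eq_zero, filter_eq_empty_iff]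
    intro x hx hh
    have := he x hx
    rw [hh.1, hh.2] at this
    exact Bool.noConfusion this

theorem abs_td (hP : P.Planar) (hd : P.Dist b d) (hs : P.Side sd) {w w' a n : ℕ}
    (hw : P.absW d true w) (hw' : P.absW d false w') (hp : P.absPar a n) {i j m : ℕ}
    (hij : (j = 0 ∧ i ≤ w) ∨ (i = j + w ∧ i ≤ a)) (hm : m ≤ w') : P.absFour b i j 0 m := by
  obtain ⟨⟨D, h1, h2, h3⟩, -, -⟩ := hp
  unfold absW at hw hw'
  exact td hP hd hs h1 h2 (by omega) (by omega)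

theorem abs_half (hP : P.Planar) (hd : P.Dist b d) (hs : P.Side sd) {w1 w2 a1 a2 n1 n2 : ℕ}
    (hw1 : P.absW d true w1) (hw2 : P.absW d false w2) (hp1 : P.absPar a1 n1)
    (hp2 : P.neg.absPar a2 n2) {i j : ℤ} (hji : j ≤ i) (h1 : i ≤ a1) (h2 : -(a2 : ℤ) ≤ j)
    (h3 : i - j ≤ w1 + w2) (h4 : -(n2 : ℤ) ≤ i + j) (h5 : i + j ≤ n1) : P.InS b i j := by
  have hP' : P.neg.rev.Planar := hP.neg.rev
  have hd' : P.neg.rev.Dist b d := hd.neg.rev
  have hs' := hs.neg.rev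
  have hw1' : P.neg.rev.absW d false w1 := abs_w_rev hd.neg.d_σ (abs_w_neg hw1)
  have hw2' : P.neg.rev.absW d true w2 := abs_w_rev hd.neg.d_σ (abs_w_neg hw2)
  have hp2' := abs_par_rev hp2
  have cA : 0 ≤ j → i - j ≤ w1 → P.InS b i j := fun k1 k2 =>
    abs_ins (abs_r1 hP hd hs hw1 hp1 (i := i.toNat) (j := j.toNat) (by omega) (by omega)
      (by omega) (by omega)) (by omega) (by omega)
  have cB : i ≤ 0 → i - j ≤ w2 → P.InS b i j := fun k1 k2 =>
    abs_ins (abs_four_neg (abs_four_rev (abs_r1 hP' hd' hs' hw2' hp2' (i := (-j).toNat)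
      (j := (-i).toNat) (by omega) (by omega) (by omega) (by omega)))) (by omega) (by omega)
  have cC : (w1 : ℤ) ≤ i → (w1 : ℤ) ≤ i - j → P.InS b i j := fun k1 k2 =>
    abs_ins (abs_td hP hd hs hw1 hw2 hp1 (i := i.toNat) (j := (i - w1).toNat)
      (m := (i - j - w1).toNat) (Or.inr (by omega)) (by omega)) (by omega) (by omega)
  have cD : (w2 : ℤ) ≤ -j → (w2 : ℤ) ≤ i - j → P.InS b i j := fun k1 k2 =>
    abs_ins (abs_four_neg (abs_four_rev (abs_td hP' hd' hs' hw2' hw1' hp2' (i := (-j).toNat)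
      (j := (-j - w2).toNat) (m := (i - j - w2).toNat) (Or.inr (by omega)) (by omega))))
      (by omega) (by omega)
  have cE : 0 ≤ i → i ≤ w1 → j ≤ 0 → -j ≤ w2 → P.InS b i j := fun k1 k2 k3 k4 =>
    abs_ins (abs_td hP hd hs hw1 hw2 hp1 (i := i.toNat) (j := 0) (m := (-j).toNat)
      (Or.inl (by omega)) (by omega)) (by omega) (by omega)
  by_cases e1 : 0 ≤ j
  · by_cases e2 : i - j ≤ w1
    · exact cA e1 e2
    · exact cC (by omega) (by omega)
  · by_cases e2 : i ≤ 0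
    · by_cases e3 : i - j ≤ w2
      · exact cB e2 e3
      · exact cD (by omega) (by omega)
    · by_cases e3 : (w1 : ℤ) ≤ i
      · exact cC e3 (by omega)
      · by_cases e4 : (w2 : ℤ) ≤ -j
        · exact cD e4 (by omega)
        · exact cE (by omega) (by omega) (by omega) (by omega)

theorem oct (hP : P.Planar) (b : A) (hne : ∃ i j, P.InS b i j) :
    ∃ w a1 a2 n1 n2 : ℤ, ∀ i j : ℤ, P.InS b i j ↔
      (-a2 ≤ i ∧ i ≤ a1 ∧ -a2 ≤ j ∧ j ≤ a1 ∧ i - j ≤ w ∧ j - i ≤ w ∧ -n2 ≤ i + j ∧ i + j ≤ n1) :=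
  by
  obtain ⟨_, _, X0, -, hX0, -⟩ := hne
  obtain ⟨d, hd⟩ := exists_dist hX0 b
  obtain ⟨sd, hs⟩ := exists_side hP
  obtain ⟨w1, hw1⟩ := abs_exists_w P d true
  obtain ⟨w2, hw2⟩ := abs_exists_w P d false
  obtain ⟨a1, n1, hp1⟩ := abs_exists_par hd hs
  obtain ⟨a2, n2, hp2⟩ := abs_exists_par hd.neg hs.neg
  refine ⟨w1 + w2, a1, a2, n1, n2, fun i j => ⟨?_, ?_⟩⟩
  · rintro ⟨X, Y, hX, hY, rfl, rfl⟩
    have u1 := abs_ub hP hd hs hw1 hp1 hX hY
    have u2 := abs_ub hP.neg hd.neg hs.neg (abs_w_neg (e := true) hw2) hp2 (X := X) (Y := Y) hX hY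
    rw [abs_neg_sg] at u2
    simp only [Bool.not_true] at u2
    unfold sc
    omega
  · rintro ⟨h1, h2, h3, h4, h5, h6, h7, h8⟩
    rcases le_total j i with h | h
    · exact abs_half hP hd hs hw1 hw2 hp1 hp2 h h2 h3 h5 h7 h8
    · exact abs_ins_rev (abs_half hP.rev hd.rev hs.rev (abs_w_rev hd.d_σ hw1)
        (abs_w_rev hd.d_σ hw2) (abs_par_rev hp1) (abs_par_rev (P := P.neg) hp2) h h4 h1 h6
        (by omega) (by omega))

end Pl

end Pool.Agent.P.MP_9ed2cf_gt.Nz
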