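import Mathlib
import Pool.Agent.P.MP_9ed2cf_gt.NzDefs

set_option autoImplicit false

namespace Pool.Agent.P.MP_9ed2cf_gt.Nz

open Equiv Finset
open scoped Classical

/-- vertices within distance `n` of a root -/
def NzGraph_Lev {E J : Type} (lo hi : E → J) (Rt : J → Prop) : ℕ → J → Prop
  | 0, j => Rt j
  | n + 1, j => Rt j ∨ ∃ (e : E) (b : Bool), (if b then hi e else lo e) = j ∧
      NzGraph_Lev lo hi Rt n (if b then lo e else hi e)

theorem NzGraph_pick {E J : Type} (lo hi : E → J) (Rt : J → Prop) :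
    ∃ (Cn : J → Prop) (d : J → ℕ), (∀ j, Rt j → Cn j) ∧ (∀ e, Cn (lo e) ↔ Cn (hi e)) ∧
      ∀ j, Cn j → ¬ Rt j → ∃ (e : E) (b : Bool), (if b then hi e else lo e) = j ∧
        Cn (if b then lo e else hi e) ∧ d (if b then lo e else hi e) < d j := by
  refine ⟨fun j => ∃ n, NzGraph_Lev lo hi Rt n j,
    fun j => if h : ∃ n, NzGraph_Lev lo hi Rt n j then Nat.find h else 0,
    fun j h => ⟨0, h⟩, fun e => ⟨?_, ?_⟩, fun j hj hr => ?_⟩
  · rintro ⟨n, hn⟩
    exact ⟨n + 1, Or.inr ⟨e, true, rfl, hn⟩⟩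
  · rintro ⟨n, hn⟩
    exact ⟨n + 1, Or.inr ⟨e, false, rfl, hn⟩⟩
  · have h1 := Nat.find_spec hj
    obtain ⟨n, hn⟩ : ∃ n, Nat.find hj = n + 1 := by
      rcases h2 : Nat.find hj with _ | n
      · rw [h2] at h1
        exact absurd h1 hr
      · exact ⟨n, rfl⟩
    rw [hn] at h1
    rcases h1 with h1 | ⟨e, b, h1, h2⟩
    · exact absurd h1 hr
    · have h3 : ∃ n, NzGraph_Lev lo hi Rt n (if b then lo e else hi e) := ⟨n, h2⟩
      refine ⟨e, b, h1, h3, ?_⟩
      simp only [dif_pos h3, dif_pos hj, hn]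
      exact Nat.lt_succ_of_le (Nat.find_min' h3 h2)

theorem NzGraph_single {E : Type} [Fintype E] (e0 : E) (f : E → ℤ) :
    ∑ e, (if e = e0 then (1 : ℤ) else 0) * f e = f e0 := by
  simp

theorem orient_exists {E J : Type} [Fintype E] (lo hi : E → J) (Rt : J → Prop)
    (conn : ∀ W : J → ℤ, (∀ e, W (lo e) = W (hi e)) → (∀ j, Rt j → W j = 0) → ∀ e, W (lo e) = 0)
    (acyc : ∀ η : E → ℤ, (∀ W : J → ℤ, (∀ j, Rt j → W j = 0) →
      ∑ e, η e * (W (hi e) - W (lo e)) = 0) → ∀ e, η e = 0) :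
    ∃ o : E → Bool, (∀ e, ¬ Rt (if o e then hi e else lo e)) ∧
      (∀ e e', (if o e then hi e else lo e) = (if o e' then hi e' else lo e') → e = e') ∧
      (∀ e, ¬ Rt (lo e) → ∃ e', (if o e' then hi e' else lo e') = lo e) ∧
      (∀ e, ¬ Rt (hi e) → ∃ e', (if o e' then hi e' else lo e') = hi e) := by
  obtain ⟨Cn, d, h0, h1, h2⟩ := NzGraph_pick lo hi Rt
  have hlo : ∀ e, Cn (lo e) := fun e => by
    have := conn (fun j => if Cn j then 0 else 1) (fun e => by simp only [h1 e])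
      (fun j hj => if_pos (h0 j hj)) e
    by_contra h
    simp [h] at this
  have hhi : ∀ e, Cn (hi e) := fun e => (h1 e).1 (hlo e)
  choose pk bb hp hc hd using fun j : {j // Cn j ∧ ¬ Rt j} => h2 j.1 j.2.1 j.2.2
  have inj : ∀ j j', pk j = pk j' → j = j' := by
    intro j j' h
    have a1 := hp j
    have a2 := hp j'
    have a3 := hd j
    have a4 := hd j'
    rw [h] at a1 a3
    refine Subtype.ext ?_
    cases hb : bb j <;> cases hb' : bb j' <;>
      simp only [hb, hb', if_true, if_false, Bool.false_eq_true] at a1 a2 a3 a4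
    · rw [← a1, ← a2]
    · rw [a1] at a4
      rw [a2] at a3
      omega
    · rw [a1] at a4
      rw [a2] at a3
      omega
    · rw [← a1, ← a2]
  have pot : ∀ n j, Cn j → d j = n → ∃ φ : E → ℤ, (∀ e, φ e ≠ 0 → ∃ j, pk j = e) ∧
      ∀ W : J → ℤ, (∀ j, Rt j → W j = 0) → ∑ e, φ e * (W (hi e) - W (lo e)) = - W j := by
    intro n
    induction n using Nat.strong_induction_on with
    | _ n ih =>
      intro j hj hn
      by_cases hr : Rt j
      · exact ⟨0, fun e he => absurd rfl he, fun W hW => by simp [hW j hr]⟩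
      obtain ⟨φ, a1, a2⟩ := ih _ (hn ▸ hd ⟨j, hj, hr⟩) _ (hc ⟨j, hj, hr⟩) rfl
      have a3 : _ = j := hp ⟨j, hj, hr⟩
      refine ⟨fun e => φ e + (if bb ⟨j, hj, hr⟩ then -1 else 1) *
        (if e = pk ⟨j, hj, hr⟩ then 1 else 0), fun e he => ?_, fun W hW => ?_⟩
      · by_cases h : e = pk ⟨j, hj, hr⟩
        · exact ⟨_, h.symm⟩
        · exact a1 e (by simpa [h] using he)
      · simp only [add_mul, mul_assoc, Finset.sum_add_distrib, ← Finset.mul_sum, NzGraph_single,
          a2 W hW]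
        cases hb : bb ⟨j, hj, hr⟩ <;>
          simp only [hb, if_true, if_false, Bool.false_eq_true] at a3 ⊢ <;> rw [a3] <;> ring
  have surj : ∀ e, ∃ j, pk j = e := by
    intro e0
    by_contra h
    obtain ⟨φ, a1, a2⟩ := pot _ _ (hhi e0) rfl
    obtain ⟨ψ, b1, b2⟩ := pot _ _ (hlo e0) rfl
    have c1 : φ e0 = 0 := by_contra fun h3 => h (a1 e0 h3)
    have c2 : ψ e0 = 0 := by_contra fun h3 => h (b1 e0 h3)
    have := acyc (fun e => (if e = e0 then 1 else 0) + φ e - ψ e) (fun W hW => by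
      simp only [add_mul, sub_mul _ (ψ _), Finset.sum_add_distrib, Finset.sum_sub_distrib,
        NzGraph_single, a2 W hW, b2 W hW]
      ring) e0
    simp [c1, c2] at this
  choose r hr using surj
  have head : ∀ e, (if bb (r e) then hi e else lo e) = (r e).1 := fun e => by
    have := hp (r e)
    rwa [hr] at this
  have fin : ∀ j, Cn j → ¬ Rt j → ∃ e', (if bb (r e') then hi e' else lo e') = j :=
    fun j hj hn => ⟨pk ⟨j, hj, hn⟩, by rw [head, inj _ _ (hr _)]⟩
  refine ⟨fun e => bb (r e), fun e => ?_, fun e e' h => ?_, fun e => fin _ (hlo e),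
    fun e => fin _ (hhi e)⟩
  · rw [head]
    exact (r e).2.2
  · rw [head, head] at h
    rw [← hr e, ← hr e', Subtype.ext h]

theorem flow_exists {E J : Type} [Fintype E] (lo hi : E → J) (o : E → Bool) (Ω : E → Prop)
    (hne : ∃ e, Ω e)
    (cl : ∀ e, Ω e → ∃ e', Ω e' ∧ (if o e' then hi e' else lo e') = (if o e then lo e else hi e)) :
    ∃ η : E → ℤ, (∃ e, η e ≠ 0) ∧ (∀ e, η e ≠ 0 → Ω e) ∧
      ∀ W : J → ℤ, ∑ e, η e * (W (hi e) - W (lo e)) = 0 := by
  choose ν h1 h2 using fun e : {e // Ω e} => cl e.1 e.2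
  obtain ⟨e0, he0⟩ := hne
  let f : {e // Ω e} → {e // Ω e} := fun e => ⟨ν e, h1 e⟩
  obtain ⟨x, n, hn, hx⟩ : ∃ (x : {e // Ω e}) (n : ℕ), 0 < n ∧ f^[n] x = x := by
    have key : ∀ a b : ℕ, a < b → f^[a] ⟨e0, he0⟩ = f^[b] ⟨e0, he0⟩ →
        ∃ (x : {e // Ω e}) (n : ℕ), 0 < n ∧ f^[n] x = x := fun a b hab h =>
      ⟨f^[a] ⟨e0, he0⟩, b - a, by omega, by
        rw [← Function.iterate_add_apply, Nat.sub_add_cancel hab.le, h]⟩
    obtain ⟨a, b, hab, h⟩ := Finite.exists_ne_map_eq_of_infinite fun k : ℕ => f^[k] ⟨e0, he0⟩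
    rcases lt_or_gt_of_ne hab with h3 | h3
    · exact key a b h3 h
    · exact key b a h3 h.symm
  refine ⟨fun e => (if o e then 1 else -1) *
    ∑ k ∈ range n, (if e = (f^[k] x).1 then 1 else 0), ⟨x.1, ?_⟩, fun e he => ?_, fun W => ?_⟩
  · refine mul_ne_zero (by split_ifs <;> norm_num) (ne_of_gt ?_)
    refine Finset.sum_pos' (fun k _ => by split_ifs <;> norm_num) ⟨0, mem_range.2 hn, by simp⟩
  · obtain ⟨k, -, hk⟩ := Finset.exists_ne_zero_of_sum_ne_zero (right_ne_zero_of_mul he)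
    have : e = (f^[k] x).1 := by_contra fun h => hk (if_neg h)
    rw [this]
    exact (f^[k] x).2
  · have e1 : ∀ e, ((if o e then 1 else -1) * ∑ k ∈ range n, (if e = (f^[k] x).1 then 1 else 0)) *
        (W (hi e) - W (lo e)) = ∑ k ∈ range n, (if e = (f^[k] x).1 then (1 : ℤ) else 0) *
          (W (if o e then hi e else lo e) - W (if o e then lo e else hi e)) := fun e => by
      rw [← Finset.sum_mul]
      cases o e <;> simp only [if_true, if_false, Bool.false_eq_true] <;> ring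
    simp only [e1]
    rw [Finset.sum_comm]
    simp only [NzGraph_single]
    have e2 : ∀ k, W (if o (f^[k] x).1 then lo (f^[k] x).1 else hi (f^[k] x).1) =
        W (if o (f^[k + 1] x).1 then hi (f^[k + 1] x).1 else lo (f^[k + 1] x).1) := fun k => by
      rw [Function.iterate_succ_apply', ← h2]
    simp only [e2]
    rw [Finset.sum_range_sub' fun k =>
      W (if o (f^[k] x).1 then hi (f^[k] x).1 else lo (f^[k] x).1), hx]
    simp

end Pool.Agent.P.MP_9ed2cf_gt.Nz
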