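import Mathlib
import Pool.Agent.P.MP_9ed2cf_gt.H14Face
import Pool.Agent.P.MP_9ed2cf_gt.NzDefs

set_option autoImplicit false

namespace Pool.Agent.P.MP_9ed2cf_gt.Nz

open Finset Pool.Agent.P.MP_9ed2cf_gt.H14

/-- position of a slice -/
def ps : Slice → ℕ
  | .cross i _ => i
  | .cup i _ => i
  | .cap i _ => i

/-- number of strands used below the slice -/
def kb : Slice → ℕ
  | .cross _ _ => 2
  | .cup _ _ => 0
  | .cap _ _ => 2

/-- number of strands used above the slice -/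
def ka : Slice → ℕ
  | .cross _ _ => 2
  | .cup _ _ => 2
  | .cap _ _ => 0

def IsX (s : Slice) : Prop := ∃ i e, s = .cross i e

/-- rows `0, ..., N` of widths `wid r`, slices `sl r` between row `r` and row `r + 1` -/
structure Shape (N : ℕ) (sl : ℕ → Slice) (wid : ℕ → ℕ) : Prop where
  w0 : wid 0 = 1
  wN : wid N = 1
  fit : ∀ r < N, ps (sl r) + kb (sl r) ≤ wid r
  step : ∀ r < N, wid (r + 1) + kb (sl r) = wid r + ka (sl r)

/-- the labels (points up?, next passage is over?) of an alternating diagram -/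
structure Rows (N : ℕ) (sl : ℕ → Slice) (wid : ℕ → ℕ) (lab : ℕ → ℕ → Bool × Bool) : Prop
    extends Shape N sl wid where
  lN : lab N 0 = lab 0 0
  left : ∀ r < N, ∀ p < ps (sl r), lab (r + 1) p = lab r p
  right : ∀ r < N, ∀ p, ps (sl r) ≤ p → lab (r + 1) (p + ka (sl r)) = lab r (p + kb (sl r))
  cross : ∀ r < N, ∀ i e, sl r = .cross i e → lab r i = (true, e) ∧ lab r (i + 1) = (true, !e) ∧
    lab (r + 1) i = (true, e) ∧ lab (r + 1) (i + 1) = (true, !e)
  cup : ∀ r < N, ∀ i d, sl r = .cup i d →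
    ∃ β, lab (r + 1) i = (d, β) ∧ lab (r + 1) (i + 1) = (!d, β)
  cap : ∀ r < N, ∀ i d, sl r = .cap i d → ∃ β, lab r i = (d, β) ∧ lab r (i + 1) = (!d, β)

/-- local rule for the flags `f` (row below, of width `w`) and `f'` (row above), marker `m` -/
def FLoc (s : Slice) (w : ℕ) (m : Fin 4) (f f' : ℕ → Bool) : Prop :=
  (∀ g < ps s, f' g = f g) ∧
  (∀ g, ps s < g → g + kb s ≤ w → f' (g + ka s) = f (g + kb s)) ∧
  match s with
  | .cross i _ => okM m (f i) (f (i + 1)) (f (i + 2)) = true ∧ f' i = outL m (f i) ∧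
      f' (i + 1) = outT m ∧ f' (i + 2) = outR m (f (i + 2))
  | .cup i _ => f' (i + 1) = false ∧
      ∃ z : Bool, (f i && z) = false ∧ f' i = (f i || !z) ∧ f' (i + 2) = (f i || z)
  | .cap i _ => f (i + 1) = true ∧ (f i && f (i + 2)) = false ∧ f' i = (f i || f (i + 2))

/-- `m` is a Kauffman state -/
def St (N : ℕ) (sl : ℕ → Slice) (wid : ℕ → ℕ) (k : Bool) (m : ℕ → Fin 4) : Prop :=
  ∃ f : ℕ → ℕ → Bool, f 0 0 = true ∧ f 0 1 = k ∧ f N 0 = true ∧ f N 1 = k ∧
    ∀ r < N, FLoc (sl r) (wid r) (m r) (f r) (f (r + 1))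

def wt (κ : Bool → Bool → Bool → ℤ × ℤ) : Slice → Fin 4 → Fin 4 → ℤ × ℤ
  | .cross _ e, mx, my => κ e (io e mx) (iu e my)
  | _, _, _ => 0

/-- an arm `ν = (above?, right?)` of the crossing in slice `r` -/
def arm (sl : ℕ → Slice) (r : ℕ) (ν : Bool × Bool) : ℕ × ℕ :=
  (if ν.1 then r + 1 else r, if ν.2 then ps (sl r) + 1 else ps (sl r))

/-- the marker `m` sits in a corner next to the arm `ν` -/
def adj (ν : Bool × Bool) (m : Fin 4) : Bool :=
  match ν with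
  | (false, false) => adjL m
  | (false, true) => adjR m
  | (true, true) => !adjL m
  | (true, false) => !adjR m

def Adj (N : ℕ) (sl : ℕ → Slice) (μ : ℕ → Bool × Bool) (m : ℕ → Fin 4) : Prop :=
  ∀ r < N, IsX (sl r) → adj (μ r) (m r) = true

def Val (N : ℕ) (wid : ℕ → ℕ) (a : ℕ × ℕ) : Prop := a.1 ≤ N ∧ a.2 < wid a.1

/-- a function on the strands that is constant along the strands not used by the slices -/
def Vert (N : ℕ) (sl : ℕ → Slice) (wid : ℕ → ℕ) (g : ℕ × ℕ → ℤ) : Prop :=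
  ∀ r < N, (∀ p < ps (sl r), g (r + 1, p) = g (r, p)) ∧
    ∀ p, ps (sl r) ≤ p → p + kb (sl r) < wid r → g (r + 1, p + ka (sl r)) = g (r, p + kb (sl r))

/-- upward flow on the strands -/
def SFlow (N : ℕ) (sl : ℕ → Slice) (wid : ℕ → ℕ) (g : ℕ × ℕ → ℤ) : Prop :=
  Vert N sl wid g ∧ ∀ r < N, ∑ j ∈ range (kb (sl r)), g (r, ps (sl r) + j) =
    ∑ j ∈ range (ka (sl r)), g (r + 1, ps (sl r) + j)

def MZero (N : ℕ) (sl : ℕ → Slice) (μ : ℕ → Bool × Bool) (g : ℕ × ℕ → ℤ) : Prop :=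
  ∀ r < N, IsX (sl r) → g (arm sl r (μ r)) = 0

/-- potential on the strands, constant over the diagram cut at the marked arms -/
def SPot (N : ℕ) (sl : ℕ → Slice) (wid : ℕ → ℕ) (μ : ℕ → Bool × Bool) (u : ℕ × ℕ → ℤ) : Prop :=
  Vert N sl wid u ∧ ∀ r < N,
    (∀ i d, sl r = .cup i d → u (r + 1, i) = u (r + 1, i + 1)) ∧
    (∀ i d, sl r = .cap i d → u (r, i) = u (r, i + 1)) ∧
    (IsX (sl r) → ∀ ν ν' : Bool × Bool, ν ≠ μ r → ν' ≠ μ r → u (arm sl r ν) = u (arm sl r ν'))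

def T1 (N : ℕ) (sl : ℕ → Slice) (wid : ℕ → ℕ) (μ : ℕ → Bool × Bool) : Prop :=
  ∀ g, SFlow N sl wid g → MZero N sl μ g → g (0, 0) = 0 → ∀ a, Val N wid a → g a = 0

def T2 (N : ℕ) (sl : ℕ → Slice) (wid : ℕ → ℕ) (μ : ℕ → Bool × Bool) : Prop :=
  ∀ u, SPot N sl wid μ u → ∀ a, Val N wid a → u a = u (N, 0)

def T3 (N : ℕ) (sl : ℕ → Slice) (wid : ℕ → ℕ) (μ : ℕ → Bool × Bool) : Prop :=
  ∀ u, SPot N sl wid μ u → u (0, 0) = 0 → u (N, 0) = 0 → (∃ a, Val N wid a ∧ u a ≠ 0) →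
    ∃ g, SFlow N sl wid g ∧ MZero N sl μ g ∧ (∃ a, Val N wid a ∧ g a ≠ 0) ∧
      ∀ a, Val N wid a → g a ≠ 0 → u a ≠ 0

/-- the node joined to the upper end of a node (Seifert smoothing at crossings) -/
def top (N : ℕ) (sl : ℕ → Slice) (a : ℕ × ℕ) : ℕ × ℕ :=
  if a.1 = N then (0, 0)
  else if a.2 < ps (sl a.1) then (a.1 + 1, a.2)
  else if ps (sl a.1) + kb (sl a.1) ≤ a.2 then (a.1 + 1, a.2 - kb (sl a.1) + ka (sl a.1))
  else if ka (sl a.1) = 2 then (a.1 + 1, a.2)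
  else (a.1, if a.2 = ps (sl a.1) then a.2 + 1 else a.2 - 1)

/-- the node joined to the lower end of a node -/
def bot (N : ℕ) (sl : ℕ → Slice) (a : ℕ × ℕ) : ℕ × ℕ :=
  if a.1 = 0 then (N, 0)
  else if a.2 < ps (sl (a.1 - 1)) then (a.1 - 1, a.2)
  else if ps (sl (a.1 - 1)) + ka (sl (a.1 - 1)) ≤ a.2 then
    (a.1 - 1, a.2 - ka (sl (a.1 - 1)) + kb (sl (a.1 - 1)))
  else if kb (sl (a.1 - 1)) = 2 then (a.1 - 1, a.2)
  else (a.1, if a.2 = ps (sl (a.1 - 1)) then a.2 + 1 else a.2 - 1)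

/-- the node is directed upwards (`o = false`: from over to under, `o = true`: reversed) -/
def up (lab : ℕ → ℕ → Bool × Bool) (o : Bool) (a : ℕ × ℕ) : Bool :=
  xor (xor (lab a.1 a.2).1 (lab a.1 a.2).2) o

/-- the entering arm of type `t` at a crossing of sign `e` -/
def inA (o e t : Bool) : Bool × Bool := (xor t o, xor t e)

/-- the leaving arm of type `t` at a crossing of sign `e` -/
def outA (o e t : Bool) : Bool × Bool := (!xor t o, xor t e)

/-- `P` is the structure of the diagram with direction `o` -/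
structure Real (N : ℕ) (sl : ℕ → Slice) (wid : ℕ → ℕ) (lab : ℕ → ℕ → Bool × Bool) {A V : Type}
    (P : Pl A V) (o : Bool) (pos : A → ℕ × ℕ) (row : V → ℕ) : Prop where
  pos_inj : Function.Injective pos
  pos_val : ∀ a, Val N wid (pos a)
  pos_surj : ∀ q, Val N wid q → ∃ a, pos a = q
  row_inj : Function.Injective row
  row_lt : ∀ x, row x < N
  row_x : ∀ x, sl (row x) = .cross (ps (sl (row x))) (P.s x)
  row_surj : ∀ r < N, IsX (sl r) → ∃ x, row x = r
  σ_eq : ∀ a, pos (P.σ a) = if up lab o (pos a) then top N sl (pos a) else bot N sl (pos a)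
  inn_eq : ∀ t x, pos (P.inn t x) = arm sl (row x) (inA o (P.s x) t)
  out_eq : ∀ t x, pos (P.out t x) = arm sl (row x) (outA o (P.s x) t)

/-- the marked arms are the leaving arms that `χ` does not follow -/
def Mark {A V : Type} (P : Pl A V) (o : Bool) (row : V → ℕ) (χ : V → Bool)
    (μ : ℕ → Bool × Bool) : Prop :=
  ∀ x, μ (row x) = outA o (P.s x) (!χ x)

/-- junction (in the dual graph, the two corners at the marked arm `ν` being identified) at the
upper end of the gap `g` of the row below the slice -/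
def jb (s : Slice) (ν : Bool × Bool) (g : ℕ) : ℕ :=
  match s with
  | .cross i _ => if ν.1 = false ∧ g = i + 1 then (if ν.2 then i + 2 else i) else g
  | .cup i _ => if g ≤ i then g else g + 2
  | .cap i _ => if g = i + 2 then i else g

/-- junction at the lower end of the gap `g` of the row above the slice -/
def ja (s : Slice) (ν : Bool × Bool) (g : ℕ) : ℕ :=
  match s with
  | .cross i _ => if ν.1 = true ∧ g = i + 1 then (if ν.2 then i + 2 else i) else g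
  | .cup i _ => if g = i + 2 then i else g
  | .cap i _ => if g ≤ i then g else g + 2

/-- a function on the gaps that is constant at the junctions -/
def JC (N : ℕ) (sl : ℕ → Slice) (wid : ℕ → ℕ) (μ : ℕ → Bool × Bool) (w : ℕ × ℕ → ℤ) : Prop :=
  ∀ r < N,
    (∀ g ≤ wid r, ∀ g' ≤ wid r, jb (sl r) (μ r) g = jb (sl r) (μ r) g' → w (r, g) = w (r, g')) ∧
    (∀ g ≤ wid (r + 1), ∀ g' ≤ wid (r + 1), ja (sl r) (μ r) g = ja (sl r) (μ r) g' →
      w (r + 1, g) = w (r + 1, g')) ∧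
    (∀ g ≤ wid r, ∀ g' ≤ wid (r + 1), jb (sl r) (μ r) g = ja (sl r) (μ r) g' →
      w (r, g) = w (r + 1, g'))

/-- the junction `j` has a leaving gap (`true` = the gap points down) -/
def HasOut (s : Slice) (ν : Bool × Bool) (w w' : ℕ) (f f' : ℕ → Bool) (j : ℕ) : Prop :=
  (∃ g ≤ w, jb s ν g = j ∧ f g = true) ∨ ∃ g ≤ w', ja s ν g = j ∧ f' g = false

def OEx (s : Slice) (ν : Bool × Bool) (w w' : ℕ) (f f' : ℕ → Bool) : Prop :=
  (∀ g ≤ w, HasOut s ν w w' f f' (jb s ν g)) ∧ ∀ g ≤ w', HasOut s ν w w' f f' (ja s ν g)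

def OUn (s : Slice) (ν : Bool × Bool) (w w' : ℕ) (f f' : ℕ → Bool) : Prop :=
  (∀ g ≤ w, ∀ g' ≤ w, jb s ν g = jb s ν g' → f g = true → f g' = true → g = g') ∧
  (∀ g ≤ w', ∀ g' ≤ w', ja s ν g = ja s ν g' → f' g = false → f' g' = false → g = g') ∧
  (∀ g ≤ w, ∀ g' ≤ w', jb s ν g = ja s ν g' → f g = true → f' g' = false → False)

/-- upward flow on the gaps (weak form of the conservation at the junctions) -/
def DFlow (N : ℕ) (sl : ℕ → Slice) (wid : ℕ → ℕ) (μ : ℕ → Bool × Bool) (η : ℕ × ℕ → ℤ) : Prop :=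
  ∀ r < N, ∀ W : ℕ → ℤ, ∑ g ∈ range (wid r + 1), η (r, g) * W (jb (sl r) (μ r) g) =
    ∑ g ∈ range (wid (r + 1) + 1), η (r + 1, g) * W (ja (sl r) (μ r) g)

end Pool.Agent.P.MP_9ed2cf_gt.Nz
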