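import Mathlib
import Pool.Agent.P.MP_9ed2cf_gt.NzGDefs

set_option autoImplicit false

namespace Pool.Agent.P.MP_9ed2cf_gt.Nz

open Finset Pool.Agent.P.MP_9ed2cf_gt.H14

variable {N : ℕ} {sl : ℕ → Slice} {wid : ℕ → ℕ} {μ : ℕ → Bool × Bool}

/-- the relation between the values on the gaps below and above a slice -/
def JunLoc (s : Slice) (w : ℕ) (S S' : ℕ → ℤ) : Prop :=
  (∀ k ≤ ps s, S' k = S k) ∧ ∀ k, ps s ≤ k → k + kb s ≤ w → S' (k + ka s) = S (k + kb s)

theorem jun_loc {g : ℕ × ℕ → ℤ} (hg : SFlow N sl wid g) {r : ℕ} (hr : r < N) :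
    JunLoc (sl r) (wid r) (fun k => ∑ p ∈ range k, g (r, p))
      fun k => ∑ p ∈ range k, g (r + 1, p) := by
  have hL : ∀ k ≤ ps (sl r), ∑ p ∈ range k, g (r + 1, p) = ∑ p ∈ range k, g (r, p) := by
    intro k hk
    exact sum_congr rfl fun p hp => (hg.1 r hr).1 p (lt_of_lt_of_le (mem_range.1 hp) hk)
  refine ⟨hL, fun k hk => ?_⟩
  induction k, hk using Nat.le_induction with
  | base =>
    intro _
    simp only [sum_range_add]
    rw [hL _ le_rfl, hg.2 r hr]
  | succ k hk ih =>
    intro h
    have e1 : k + 1 + ka (sl r) = k + ka (sl r) + 1 := by omega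
    have e2 : k + 1 + kb (sl r) = k + kb (sl r) + 1 := by omega
    have := ih (by omega)
    simp only [e1, e2, sum_range_succ] at this ⊢
    rw [this, (hg.1 r hr).2 k hk (by omega)]

theorem flux (hS : Shape N sl wid) {g : ℕ × ℕ → ℤ} (hg : SFlow N sl wid g) :
    ∀ r ≤ N, ∑ p ∈ range (wid r), g (r, p) = g (0, 0) := by
  intro r
  induction r with
  | zero => intro _; simp [hS.w0]
  | succ r ih =>
    intro hr
    have h1 := hS.fit r (by omega)
    have h2 := hS.step r (by omega)
    have h3 := (jun_loc hg (r := r) (by omega)).2 (wid r - kb (sl r)) (by omega) (by omega)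
    have e1 : wid r - kb (sl r) + ka (sl r) = wid (r + 1) := by omega
    have e2 : wid r - kb (sl r) + kb (sl r) = wid r := by omega
    simp only [e1, e2] at h3
    rw [h3, ih (by omega)]

theorem jun_val {s : Slice} {ν : Bool × Bool} {w w' : ℕ} {S S' : ℕ → ℤ}
    (h1 : ps s + kb s ≤ w) (h2 : w' + kb s = w + ka s) (h : JunLoc s w S S')
    (hx : IsX s → (if ν.1 then S' else S) ((if ν.2 then ps s + 1 else ps s) + 1) =
      (if ν.1 then S' else S) (if ν.2 then ps s + 1 else ps s)) :
    ∃ V : ℕ → ℤ, (∀ g ≤ w, S g = V (jb s ν g)) ∧ ∀ g ≤ w', S' g = V (ja s ν g) := by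
  obtain ⟨hL, hR⟩ := h
  obtain ⟨n1, n2⟩ := ν
  cases s with
  | cross i e =>
    have hx := hx ⟨i, e, rfl⟩
    simp only [ps, kb, ka] at h1 h2 hL hR hx
    have hG : ∀ k ≤ w, k ≠ i + 1 → S' k = S k := by
      intro k hk hk'
      by_cases hc : k ≤ i
      · exact hL k hc
      · obtain ⟨k, rfl⟩ : ∃ k', k = k' + 2 := ⟨k - 2, by omega⟩
        exact hR k (by omega) hk
    have a0 := hG i (by omega) (by omega)
    have a2 := hG (i + 2) (by omega) (by omega)
    cases n1
    · refine ⟨S', fun g hg => ?_, fun g _ => by simp [ja]⟩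
      by_cases hc : g = i + 1
      · subst hc
        cases n2 <;> simp only [jb] <;> simp at hx ⊢
        · rw [hx, a0]
        · rw [a2, hx]
      · simp [jb, hc, hG g hg hc]
    · refine ⟨S, fun g _ => by simp [jb], fun g hg => ?_⟩
      by_cases hc : g = i + 1
      · subst hc
        cases n2 <;> simp only [ja] <;> simp at hx ⊢
        · rw [hx, a0]
        · rw [← a2, hx]
      · simp [ja, hc, hG g (by omega) hc]
  | cup i d =>
    simp only [ps, kb, ka] at h1 h2 hL hR
    refine ⟨S', fun g hg => ?_, fun g _ => ?_⟩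
    · simp only [jb]
      split_ifs with hc
      · exact (hL g hc).symm
      · exact (hR g (by omega) hg).symm
    · simp only [ja]
      split_ifs with hc
      · subst hc
        rw [hR i le_rfl h1, hL i le_rfl]; rfl
      · rfl
  | cap i d =>
    simp only [ps, kb, ka] at h1 h2 hL hR
    refine ⟨S, fun g _ => ?_, fun g hg => ?_⟩
    · simp only [jb]
      split_ifs with hc
      · subst hc
        rw [← hR i le_rfl h1, ← hL i le_rfl]; rfl
      · rfl
    · simp only [ja]
      split_ifs with hc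
      · exact hL g hc
      · exact hR g (by omega) (by omega)

theorem jc_of_flow (hS : Shape N sl wid) {g : ℕ × ℕ → ℤ} (hg : SFlow N sl wid g)
    (h0 : MZero N sl μ g) : JC N sl wid μ fun a => ∑ p ∈ range a.2, g (a.1, p) := by
  intro r hr
  obtain ⟨V, hb, ha⟩ := jun_val (ν := μ r) (hS.fit r hr) (hS.step r hr) (jun_loc hg hr) (by
    intro hx
    have := h0 r hr hx
    simp only [arm] at this
    cases h : (μ r).1 <;> simp only [h] at this <;> simp at this <;>
      simp [sum_range_succ, this])
  refine ⟨fun a h1 b h2 e => ?_, fun a h1 b h2 e => ?_, fun a h1 b h2 e => ?_⟩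
  · exact (hb a h1).trans (e ▸ (hb b h2).symm)
  · exact (ha a h1).trans (e ▸ (ha b h2).symm)
  · exact (hb a h1).trans (e ▸ (ha b h2).symm)

theorem jun_left (s : Slice) (ν : Bool × Bool) {k : ℕ} (hk : k ≤ ps s) : jb s ν k = ja s ν k := by
  cases s <;> simp only [ps, jb, ja] at hk ⊢ <;> split_ifs <;> omega

theorem jun_right (s : Slice) (ν : Bool × Bool) {k : ℕ} (hk : ps s ≤ k) :
    jb s ν (k + kb s) = ja s ν (k + ka s) := by
  generalize ha : k + kb s = a
  generalize hb : k + ka s = b
  cases s <;> simp only [ps, jb, ja, kb, ka] at hk ha hb ⊢ <;> split_ifs <;> omega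

theorem flow_of_jc (hS : Shape N sl wid) {w : ℕ × ℕ → ℤ} (hw : JC N sl wid μ w) :
    SFlow N sl wid (fun a => w (a.1, a.2 + 1) - w a) ∧
      MZero N sl μ fun a => w (a.1, a.2 + 1) - w a := by
  have hL : ∀ r < N, ∀ k ≤ ps (sl r), w (r + 1, k) = w (r, k) := by
    intro r hr k hk
    have h1 := hS.fit r hr
    have h2 := hS.step r hr
    exact ((hw r hr).2.2 k (by omega) k (by omega) (jun_left _ _ hk)).symm
  have hR : ∀ r < N, ∀ k, ps (sl r) ≤ k → k + kb (sl r) ≤ wid r →
      w (r + 1, k + ka (sl r)) = w (r, k + kb (sl r)) := by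
    intro r hr k hk hk'
    have h2 := hS.step r hr
    exact ((hw r hr).2.2 _ hk' _ (by omega) (jun_right _ _ hk)).symm
  have tel : ∀ r p k, ∑ j ∈ range k, (w (r, p + j + 1) - w (r, p + j)) = w (r, p + k) - w (r, p) :=
    fun r p k => sum_range_sub (fun j => w (r, p + j)) k
  refine ⟨⟨fun r hr => ⟨fun p hp => ?_, fun p hp hp' => ?_⟩, fun r hr => ?_⟩, fun r hr hx => ?_⟩
  · simp only
    rw [hL r hr _ hp.le, hL r hr (p + 1) hp]
  · have := hR r hr (p + 1) (by omega) (by omega)
    have e1 : p + 1 + ka (sl r) = p + ka (sl r) + 1 := by omega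
    have e2 : p + 1 + kb (sl r) = p + kb (sl r) + 1 := by omega
    rw [e1, e2] at this
    simp only
    rw [this, hR r hr p hp hp'.le]
  · simp only [tel]
    rw [hR r hr _ le_rfl (hS.fit r hr), hL r hr _ le_rfl]
  · obtain ⟨i, e, hs⟩ := hx
    have h1 := hS.fit r hr
    have h2 := hS.step r hr
    obtain ⟨hb, ha, -⟩ := hw r hr
    rw [hs] at h1 h2 hb ha
    simp only [ps, kb, ka] at h1 h2
    simp only [arm, hs, ps]
    rcases hν : μ r with ⟨n1, n2⟩
    rw [hν] at hb ha
    cases n1 <;> cases n2 <;> simp only [Bool.false_eq_true, if_true, if_false, sub_eq_zero]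
    · exact hb _ (by omega) _ (by omega) (by simp [jb])
    · exact hb _ (by omega) _ (by omega) (by simp [jb])
    · exact ha _ (by omega) _ (by omega) (by simp [ja])
    · exact ha _ (by omega) _ (by omega) (by simp [ja])

theorem jun_sum (η : ℕ → ℤ) (j : ℕ → ℕ) {w k t : ℕ} (hk : k ≤ w + 1)
    (h : ∀ g ≤ w, j g < t ↔ g < k) :
    ∑ g ∈ range (w + 1), η g * (if j g < t then 1 else 0) = ∑ g ∈ range k, η g := by
  obtain ⟨d, hd⟩ := Nat.exists_eq_add_of_le hk
  rw [hd, sum_range_add]
  have e1 : ∑ g ∈ range k, η g * (if j g < t then 1 else 0) = ∑ g ∈ range k, η g :=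
    sum_congr rfl fun g hg => by
      have := mem_range.1 hg
      rw [if_pos ((h g (by omega)).2 this), mul_one]
  have e2 : ∑ g ∈ range d, η (k + g) * (if j (k + g) < t then 1 else 0) = 0 :=
    sum_eq_zero fun g hg => by
      have := mem_range.1 hg
      rw [if_neg (fun hc => by have := (h (k + g) (by omega)).1 hc; omega), mul_zero]
  rw [e1, e2, add_zero]

theorem jun_one (η : ℕ → ℤ) (j : ℕ → ℕ) {w k : ℕ} (hk : k ≤ w) (h : ∀ g, j g = k ↔ g = k) :
    ∑ g ∈ range (w + 1), η g * (if j g = k then 1 else 0) = η k := by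
  rw [sum_eq_single k]
  · rw [if_pos ((h k).2 rfl), mul_one]
  · intro g _ hg
    rw [if_neg (fun hc => hg ((h g).1 hc)), mul_zero]
  · intro hc
    exact absurd (mem_range.2 (by omega)) hc

theorem jun_none (η : ℕ → ℤ) (j : ℕ → ℕ) {w k : ℕ} (h : ∀ g, j g ≠ k) :
    ∑ g ∈ range (w + 1), η g * (if j g = k then 1 else 0) = 0 :=
  sum_eq_zero fun g _ => by rw [if_neg (h g), mul_zero]

theorem pot_of_dflow (hS : Shape N sl wid) {η : ℕ × ℕ → ℤ} (h : DFlow N sl wid μ η) :
    SPot N sl wid μ (fun a => ∑ g ∈ range (a.2 + 1), η (a.1, g)) ∧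
      ∀ r ≤ N, ∑ g ∈ range (wid r + 1), η (r, g) = η (0, 0) + η (0, 1) := by
  have cut : ∀ r < N, ∀ t k k', k ≤ wid r + 1 → k' ≤ wid (r + 1) + 1 →
      (∀ g, jb (sl r) (μ r) g < t ↔ g < k) → (∀ g, ja (sl r) (μ r) g < t ↔ g < k') →
      ∑ g ∈ range k', η (r + 1, g) = ∑ g ∈ range k, η (r, g) := by
    intro r hr t k k' hk hk' hb ha
    have := h r hr fun j => if j < t then 1 else 0
    rw [jun_sum (fun g => η (r, g)) _ hk fun g _ => hb g,
      jun_sum (fun g => η (r + 1, g)) _ hk' fun g _ => ha g] at this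
    exact this.symm
  refine ⟨⟨fun r hr => ⟨fun p hp => ?_, fun p hp hp' => ?_⟩, fun r hr => ⟨?_, ?_, ?_⟩⟩, ?_⟩
  · have h1 := hS.fit r hr
    have h2 := hS.step r hr
    refine cut r hr (p + 1) _ _ (by omega) (by omega) (fun g => ?_) fun g => ?_ <;>
      generalize sl r = s at hp <;>
      cases s <;> simp only [ps, jb, ja] at hp ⊢ <;> split_ifs <;> omega
  · have h1 := hS.fit r hr
    have h2 := hS.step r hr
    refine cut r hr (p + 3) _ _ (by omega) (by omega) (fun g => ?_) fun g => ?_ <;>
      generalize sl r = s at hp <;>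
      cases s <;> simp only [ps, jb, ja, kb, ka] at hp ⊢ <;> split_ifs <;> omega
  · intro i d hs
    have h1 := hS.fit r hr
    have h2 := hS.step r hr
    have := h r hr fun j => if j = i + 1 then 1 else 0
    rw [hs] at h1 h2 this
    simp only [ps, kb, ka] at h1 h2
    rw [jun_none (fun g => η (r, g)) _ (fun g => by simp only [jb]; split_ifs <;> omega),
      jun_one (fun g => η (r + 1, g)) _ (by omega)
        (fun g => by simp only [ja]; split_ifs <;> omega)] at this
    simp only [sum_range_succ _ (i + 1), ← this, add_zero]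
  · intro i d hs
    have h1 := hS.fit r hr
    have h2 := hS.step r hr
    have := h r hr fun j => if j = i + 1 then 1 else 0
    rw [hs] at h1 h2 this
    simp only [ps, kb, ka] at h1 h2
    rw [jun_none (fun g => η (r + 1, g)) _ (fun g => by simp only [ja]; split_ifs <;> omega),
      jun_one (fun g => η (r, g)) _ (by omega)
        (fun g => by simp only [jb]; split_ifs <;> omega)] at this
    simp only [sum_range_succ _ (i + 1), this, add_zero]
  · rintro ⟨i, e, hs⟩
    have h1 := hS.fit r hr
    have h2 := hS.step r hr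
    have c := cut r hr
    rw [hs] at h1 h2 c
    simp only [ps, kb, ka] at h1 h2
    have key : ∃ v : ℤ, ∀ ν : Bool × Bool, ν ≠ μ r →
        ∑ g ∈ range ((arm sl r ν).2 + 1), η ((arm sl r ν).1, g) = v := by
      simp only [arm, hs, ps]
      generalize μ r = ν0 at c
      obtain ⟨n1, n2⟩ := ν0
      cases n1 <;> cases n2
      · have c1 := c (i + 1) (i + 2) (i + 1) (by omega) (by omega)
          (fun g => by simp [jb]; split_ifs <;> omega) (fun g => by simp [ja])
        have c2 := c (i + 2) (i + 2) (i + 2) (by omega) (by omega)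
          (fun g => by simp [jb]; split_ifs <;> omega) (fun g => by simp [ja])
        refine ⟨∑ g ∈ range (i + 2), η (r, g), fun ⟨a, b⟩ hν => ?_⟩
        cases a <;> cases b <;> simp [c1, c2] at hν ⊢
      · have c1 := c (i + 1) (i + 1) (i + 1) (by omega) (by omega)
          (fun g => by simp [jb]; split_ifs <;> omega) (fun g => by simp [ja])
        have c2 := c (i + 2) (i + 1) (i + 2) (by omega) (by omega)
          (fun g => by simp [jb]; split_ifs <;> omega) (fun g => by simp [ja])
        refine ⟨∑ g ∈ range (i + 1), η (r, g), fun ⟨a, b⟩ hν => ?_⟩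
        cases a <;> cases b <;> simp [c1, c2] at hν ⊢
      · have c1 := c (i + 1) (i + 1) (i + 2) (by omega) (by omega)
          (fun g => by simp [jb]) (fun g => by simp [ja]; split_ifs <;> omega)
        have c2 := c (i + 2) (i + 2) (i + 2) (by omega) (by omega)
          (fun g => by simp [jb]) (fun g => by simp [ja]; split_ifs <;> omega)
        refine ⟨∑ g ∈ range (i + 2), η (r + 1, g), fun ⟨a, b⟩ hν => ?_⟩
        cases a <;> cases b <;> simp [← c1, ← c2] at hν ⊢
      · have c1 := c (i + 1) (i + 1) (i + 1) (by omega) (by omega)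
          (fun g => by simp [jb]) (fun g => by simp [ja]; split_ifs <;> omega)
        have c2 := c (i + 2) (i + 2) (i + 1) (by omega) (by omega)
          (fun g => by simp [jb]) (fun g => by simp [ja]; split_ifs <;> omega)
        refine ⟨∑ g ∈ range (i + 1), η (r + 1, g), fun ⟨a, b⟩ hν => ?_⟩
        cases a <;> cases b <;> simp [← c1, ← c2] at hν ⊢
    obtain ⟨v, hv⟩ := key
    intro ν ν' hν hν'
    exact (hv ν hν).trans (hv ν' hν').symm
  · intro r
    induction r with
    | zero => intro _; simp [hS.w0, sum_range_succ]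
    | succ r ih =>
      intro hr
      have := h r (by omega) fun _ => 1
      simp only [mul_one] at this
      rw [← this, ih (by omega)]

theorem jun_gen {s : Slice} {ν : Bool × Bool} {w w' : ℕ} {f f' : ℕ → Bool} {a b j : ℕ}
    (ha : a ≤ w) (hb : b ≤ w') (ea : jb s ν a = j) (eb : ja s ν b = j) (e : f' b = f a) :
    HasOut s ν w w' f f' j := by
  cases h : f a
  · exact Or.inr ⟨b, hb, eb, e.trans h⟩
  · exact Or.inl ⟨a, ha, ea, h⟩

theorem oex_of_floc {s : Slice} {ν : Bool × Bool} {w w' : ℕ} {m : Fin 4} {f f' : ℕ → Bool}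
    (h1 : ps s + kb s ≤ w) (h2 : w' + kb s = w + ka s) (h : FLoc s w m f f')
    (ha : IsX s → adj ν m = true) : OEx s ν w w' f f' := by
  obtain ⟨hL, hR, h⟩ := h
  cases s with
  | cross i e =>
    have ha := ha ⟨i, e, rfl⟩
    simp only [ps, kb, ka] at h1 h2 hL hR h
    obtain ⟨k0, k1, k2, k3⟩ := h
    have B : ∀ g j, g ≤ w → jb (.cross i e) ν g = j → f g = true →
        HasOut (.cross i e) ν w w' f f' j := fun g j a b c => Or.inl ⟨g, a, b, c⟩
    have A : ∀ g j, g ≤ w → ja (.cross i e) ν g = j → f' g = false →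
        HasOut (.cross i e) ν w w' f f' j := fun g j a b c => Or.inr ⟨g, by omega, b, c⟩
    have all : ∀ j ≤ w, HasOut (.cross i e) ν w w' f f' j := by
      intro j hj
      rcases lt_or_ge j i with c | c
      · exact jun_gen hj (by omega : j ≤ w') (by simp only [jb]; split_ifs <;> omega)
          (by simp only [ja]; split_ifs <;> omega) (hL j c)
      rcases lt_or_ge (i + 2) j with c' | c'
      · obtain ⟨j, rfl⟩ : ∃ k, j = k + 2 := ⟨j - 2, by omega⟩
        exact jun_gen hj (by omega : j + 2 ≤ w') (by simp only [jb]; split_ifs <;> omega)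
          (by simp only [ja]; split_ifs <;> omega) (hR j (by omega) hj)
      have B0 := B i i (by omega) (by simp [jb])
      have B2 := B (i + 2) (i + 2) (by omega) (by simp [jb])
      have A0 := A i i (by omega) (by simp [ja])
      have A2 := A (i + 2) (i + 2) (by omega) (by simp [ja])
      have B1 := B (i + 1) _ (by omega) rfl
      have A1 := A (i + 1) _ (by omega) rfl
      clear A B hL hR
      obtain ⟨n1, n2⟩ := ν
      have hj : j = i ∨ j = i + 1 ∨ j = i + 2 := by omega
      rw [k1] at A0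
      rw [k2] at A1
      rw [k3] at A2
      generalize f i = x0 at *
      generalize f (i + 1) = x1 at *
      generalize f (i + 2) = x2 at *
      cases n1 <;> cases n2 <;> simp only [jb, ja] at A1 B1 <;> simp at A1 B1 <;>
        fin_cases m <;> simp [adj, adjL, adjR, okM, outL, outT, outR] at ha k0 A0 A1 A2 <;>
        rcases hj with rfl | rfl | rfl <;> cases x0 <;> cases x2 <;> simp_all
    exact ⟨fun g hg => all _ (by simp only [jb]; split_ifs <;> omega),
      fun g hg => all _ (by simp only [ja]; split_ifs <;> omega)⟩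
  | cup i d =>
    simp only [ps, kb, ka] at h1 h2 hL hR h
    obtain ⟨k0, z, k1, k2, k3⟩ := h
    have all : ∀ j ≤ w', j ≠ i + 2 → HasOut (.cup i d) ν w w' f f' j := by
      intro j hj hj'
      rcases lt_or_ge j i with c | c
      · exact jun_gen (by omega : j ≤ w) hj (by simp only [jb]; split_ifs <;> omega)
          (by simp only [ja]; split_ifs <;> omega) (hL j c)
      rcases lt_or_ge (i + 2) j with c' | c'
      · obtain ⟨j, rfl⟩ : ∃ k, j = k + 2 := ⟨j - 2, by omega⟩
        exact jun_gen (by omega : j ≤ w) hj (by simp only [jb]; split_ifs <;> omega)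
          (by simp only [ja]; split_ifs <;> omega) (hR j (by omega) (by omega))
      rcases (by omega : j = i ∨ j = i + 1) with rfl | rfl
      · cases hf : f j
        · cases z
          · exact Or.inr ⟨j + 2, by omega, by simp [ja], by simp [k3, hf]⟩
          · exact Or.inr ⟨j, by omega, by simp [ja], by simp [k2, hf]⟩
        · exact Or.inl ⟨j, by omega, by simp [jb], hf⟩
      · exact Or.inr ⟨i + 1, hj, by simp [ja], k0⟩
    exact ⟨fun g hg => all _ (by simp only [jb]; split_ifs <;> omega)
        (by simp only [jb]; split_ifs <;> omega),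
      fun g hg => all _ (by simp only [ja]; split_ifs <;> omega)
        (by simp only [ja]; split_ifs <;> omega)⟩
  | cap i d =>
    simp only [ps, kb, ka] at h1 h2 hL hR h
    obtain ⟨k0, k1, k2⟩ := h
    have all : ∀ j ≤ w, j ≠ i + 2 → HasOut (.cap i d) ν w w' f f' j := by
      intro j hj hj'
      rcases lt_or_ge j i with c | c
      · exact jun_gen hj (by omega : j ≤ w') (by simp only [jb]; split_ifs <;> omega)
          (by simp only [ja]; split_ifs <;> omega) (hL j c)
      rcases lt_or_ge (i + 2) j with c' | c'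
      · obtain ⟨j, rfl⟩ : ∃ k, j = k + 2 := ⟨j - 2, by omega⟩
        exact jun_gen hj (by omega : j ≤ w') (by simp only [jb]; split_ifs <;> omega)
          (by simp only [ja]; split_ifs <;> omega) (hR j (by omega) (by omega))
      rcases (by omega : j = i ∨ j = i + 1) with rfl | rfl
      · cases hf : f j
        · cases hf2 : f (j + 2)
          · exact Or.inr ⟨j, by omega, by simp [ja], by simp [k2, hf, hf2]⟩
          · exact Or.inl ⟨j + 2, by omega, by simp [jb], hf2⟩
        · exact Or.inl ⟨j, by omega, by simp [jb], hf⟩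
      · exact Or.inl ⟨i + 1, hj, by simp [jb], k0⟩
    exact ⟨fun g hg => all _ (by simp only [jb]; split_ifs <;> omega)
        (by simp only [jb]; split_ifs <;> omega),
      fun g hg => all _ (by simp only [ja]; split_ifs <;> omega)
        (by simp only [ja]; split_ifs <;> omega)⟩

theorem jun_eq {s : Slice} {ν : Bool × Bool} {w w' : ℕ} {f f' : ℕ → Bool} {a b : ℕ}
    (h : OEx s ν w w' f f') (h' : OUn s ν w w' f f') (ha : a ≤ w) (hb : b ≤ w')
    (e : jb s ν a = ja s ν b) (ua : ∀ g, jb s ν g = jb s ν a → g = a)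
    (ub : ∀ g, ja s ν g = ja s ν b → g = b) : f' b = f a := by
  have h1 := h'.2.2 a ha b hb e
  have h2 : f a = true ∨ f' b = false := by
    rcases h.1 a ha with ⟨g, -, e1, e2⟩ | ⟨g, -, e1, e2⟩
    · exact Or.inl (ua g e1 ▸ e2)
    · exact Or.inr (ub g (e1.trans e) ▸ e2)
  revert h1 h2
  cases f a <;> cases f' b <;> simp

set_option synthInstance.maxSize 4000 in
theorem jun_bool : ∀ n1 n2 x0 x1 x2 y0 y1 y2 : Bool,
    (x0 = true ∨ y0 = false ∨ (n1 = false ∧ n2 = false ∧ x1 = true) ∨
      (n1 = true ∧ n2 = false ∧ y1 = false)) →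
    (x2 = true ∨ y2 = false ∨ (n1 = false ∧ n2 = true ∧ x1 = true) ∨
      (n1 = true ∧ n2 = true ∧ y1 = false)) →
    ((n1 = true ∧ x1 = true) ∨ (n1 = false ∧ y1 = false)) →
    (x0 = true → y0 = false → False) → (x2 = true → y2 = false → False) →
    (n1 = false → n2 = false → x1 = true → x0 = true ∨ y0 = false → False) →
    (n1 = false → n2 = true → x1 = true → x2 = true ∨ y2 = false → False) →
    (n1 = true → n2 = false → y1 = false → x0 = true ∨ y0 = false → False) →
    (n1 = true → n2 = true → y1 = false → x2 = true ∨ y2 = false → False) →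
    ∃ m : Fin 4, (okM m x0 x1 x2 = true ∧ y0 = outL m x0 ∧ y1 = outT m ∧ y2 = outR m x2) ∧
      adj (n1, n2) m = true := by
  decide

theorem jun_x0 {i w w' : ℕ} {e n1 n2 : Bool} {f f' : ℕ → Bool}
    (h : HasOut (.cross i e) (n1, n2) w w' f f' i) :
    f i = true ∨ f' i = false ∨ (n1 = false ∧ n2 = false ∧ f (i + 1) = true) ∨
      (n1 = true ∧ n2 = false ∧ f' (i + 1) = false) := by
  rcases h with ⟨g, -, e1, e2⟩ | ⟨g, -, e1, e2⟩ <;>
    by_cases c : g = i + 1 <;> cases n1 <;> cases n2 <;> simp_all [jb, ja]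

theorem jun_x2 {i w w' : ℕ} {e n1 n2 : Bool} {f f' : ℕ → Bool}
    (h : HasOut (.cross i e) (n1, n2) w w' f f' (i + 2)) :
    f (i + 2) = true ∨ f' (i + 2) = false ∨ (n1 = false ∧ n2 = true ∧ f (i + 1) = true) ∨
      (n1 = true ∧ n2 = true ∧ f' (i + 1) = false) := by
  rcases h with ⟨g, -, e1, e2⟩ | ⟨g, -, e1, e2⟩ <;>
    by_cases c : g = i + 1 <;> cases n1 <;> cases n2 <;> simp_all [jb, ja]

theorem jun_x1 {i w w' : ℕ} {e n1 n2 : Bool} {f f' : ℕ → Bool}
    (h : HasOut (.cross i e) (n1, n2) w w' f f' (i + 1)) :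
    (n1 = true ∧ f (i + 1) = true) ∨ (n1 = false ∧ f' (i + 1) = false) := by
  rcases h with ⟨g, -, e1, e2⟩ | ⟨g, -, e1, e2⟩ <;>
    by_cases c : g = i + 1 <;> cases n1 <;> cases n2 <;> simp_all [jb, ja]

theorem floc_of_out {s : Slice} {ν : Bool × Bool} {w w' : ℕ} {f f' : ℕ → Bool}
    (h1 : ps s + kb s ≤ w) (h2 : w' + kb s = w + ka s) (h : OEx s ν w w' f f')
    (h' : OUn s ν w w' f f') : ∃ m, FLoc s w m f f' ∧ (IsX s → adj ν m = true) := by
  have hL : ∀ g < ps s, f' g = f g := by
    intro g hg
    refine jun_eq h h' (by omega) (by omega) (jun_left _ _ hg.le) (fun a => ?_) fun a => ?_ <;>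
      cases s <;> simp only [ps, jb, ja] at hg ⊢ <;> split_ifs <;> omega
  have hR : ∀ g, ps s < g → g + kb s ≤ w → f' (g + ka s) = f (g + kb s) := by
    intro g hg hg'
    refine jun_eq h h' hg' (by omega) (jun_right _ _ hg.le) (fun a => ?_) fun a => ?_
    · generalize hb : g + kb s = b
      cases s <;> simp only [ps, jb, kb] at hg hb ⊢ <;> split_ifs <;> omega
    · generalize hb : g + ka s = b
      cases s <;> simp only [ps, ja, ka] at hg hb ⊢ <;> split_ifs <;> omega
  obtain ⟨eb, ea⟩ := h
  obtain ⟨u1, u2, u3⟩ := h'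
  cases s with
  | cross i e =>
    obtain ⟨n1, n2⟩ := ν
    simp only [ps, kb, ka] at h1 h2
    obtain ⟨m, hm, hm'⟩ := jun_bool n1 n2 (f i) (f (i + 1)) (f (i + 2)) (f' i) (f' (i + 1))
      (f' (i + 2))
      (jun_x0 (by simpa [jb] using eb i (by omega)))
      (jun_x2 (by simpa [jb] using eb (i + 2) (by omega)))
      (jun_x1 (by
        cases n1
        · simpa [ja] using ea (i + 1) (by omega)
        · simpa [jb] using eb (i + 1) (by omega)))
      (u3 i (by omega) i (by omega) (by simp [jb, ja]))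
      (u3 (i + 2) (by omega) (i + 2) (by omega) (by simp [jb, ja]))
      (by
        rintro rfl rfl a (b | b)
        · exact absurd (u1 i (by omega) (i + 1) (by omega) (by simp [jb]) b a) (by omega)
        · exact u3 (i + 1) (by omega) i (by omega) (by simp [jb, ja]) a b)
      (by
        rintro rfl rfl a (b | b)
        · exact absurd (u1 (i + 2) (by omega) (i + 1) (by omega) (by simp [jb]) b a) (by omega)
        · exact u3 (i + 1) (by omega) (i + 2) (by omega) (by simp [jb, ja]) a b)
      (by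
        rintro rfl rfl a (b | b)
        · exact u3 i (by omega) (i + 1) (by omega) (by simp [jb, ja]) b a
        · exact absurd (u2 i (by omega) (i + 1) (by omega) (by simp [ja]) b a) (by omega))
      (by
        rintro rfl rfl a (b | b)
        · exact u3 (i + 2) (by omega) (i + 1) (by omega) (by simp [jb, ja]) b a
        · exact absurd (u2 (i + 2) (by omega) (i + 1) (by omega) (by simp [ja]) b a) (by omega))
    exact ⟨m, ⟨hL, hR, hm⟩, fun _ => hm'⟩
  | cup i d =>
    simp only [ps, kb, ka] at h1 h2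
    refine ⟨0, ⟨hL, hR, ?_, ?_⟩, fun ⟨_, _, hx⟩ => by cases hx⟩
    · rcases ea (i + 1) (by omega) with ⟨g, -, e1, e2⟩ | ⟨g, -, e1, e2⟩ <;>
        simp only [jb, ja] at e1 <;> split_ifs at e1 <;> first | omega | exact e1 ▸ e2
    · have k1 : f i = true ∨ f' i = false ∨ f' (i + 2) = false := by
        rcases eb i (by omega) with ⟨g, -, e1, e2⟩ | ⟨g, -, e1, e2⟩ <;>
          simp only [jb, ja, le_refl, if_true] at e1 <;> split_ifs at e1 with c
        · exact Or.inl (e1 ▸ e2)
        · omega
        · exact Or.inr (Or.inr (c ▸ e2))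
        · exact Or.inr (Or.inl (e1 ▸ e2))
      have k2 := u3 i (by omega) i (by omega) (by simp [jb, ja])
      have k3 := u3 i (by omega) (i + 2) (by omega) (by simp [jb, ja])
      have k4 : f' i = false → f' (i + 2) = false → False := fun a b =>
        absurd (u2 i (by omega) (i + 2) (by omega) (by simp [ja]) a b) (by omega)
      revert k1 k2 k3 k4
      cases f i <;> cases f' i <;> cases f' (i + 2) <;> simp
  | cap i d =>
    simp only [ps, kb, ka] at h1 h2
    refine ⟨0, ⟨hL, hR, ?_, ?_⟩, fun ⟨_, _, hx⟩ => by cases hx⟩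
    · rcases eb (i + 1) (by omega) with ⟨g, -, e1, e2⟩ | ⟨g, -, e1, e2⟩ <;>
        simp only [jb, ja] at e1 <;> split_ifs at e1 <;> first | omega | exact e1 ▸ e2
    · have k1 : f i = true ∨ f' i = false ∨ f (i + 2) = true := by
        rcases ea i (by omega) with ⟨g, -, e1, e2⟩ | ⟨g, -, e1, e2⟩ <;>
          simp only [jb, ja, le_refl, if_true] at e1 <;> split_ifs at e1 with c
        · exact Or.inr (Or.inr (c ▸ e2))
        · exact Or.inl (e1 ▸ e2)
        · exact Or.inr (Or.inl (e1 ▸ e2))
        · omega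
      have k2 := u3 i (by omega) i (by omega) (by simp [jb, ja])
      have k3 := u3 (i + 2) (by omega) i (by omega) (by simp [jb, ja])
      have k4 : f i = true → f (i + 2) = true → False := fun a b =>
        absurd (u1 i (by omega) (i + 2) (by omega) (by simp [jb]) a b) (by omega)
      revert k1 k2 k3 k4
      cases f i <;> cases f' i <;> cases f (i + 2) <;> simp

end Pool.Agent.P.MP_9ed2cf_gt.Nz
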