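import Mathlib
import Pool.Agent.P.MP_9ed2cf_gt.NzJun
import Pool.Agent.P.MP_9ed2cf_gt.NzGraph

set_option autoImplicit false

namespace Pool.Agent.P.MP_9ed2cf_gt.Nz

open Finset Pool.Agent.P.MP_9ed2cf_gt.H14

variable {N : ℕ} {sl : ℕ → Slice} {wid : ℕ → ℕ} {μ : ℕ → Bool × Bool}

/-- the gaps -/
abbrev b45E (N : ℕ) (wid : ℕ → ℕ) : Type := Σ r : Fin (N + 1), Fin (wid r + 1)

def b45pr (e : b45E N wid) : ℕ × ℕ := (e.1.1, e.2.1)

def b45mk {r g : ℕ} (hr : r ≤ N) (hg : g ≤ wid r) : b45E N wid :=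
  ⟨⟨r, Nat.lt_succ_of_le hr⟩, ⟨g, Nat.lt_succ_of_le hg⟩⟩

/-- extension by a default value -/
def b45ex {α : Type} (d : α) (η : b45E N wid → α) (a : ℕ × ℕ) : α :=
  if h : a.1 ≤ N ∧ a.2 ≤ wid a.1 then η (b45mk h.1 h.2) else d

def b45lo (sl : ℕ → Slice) (μ : ℕ → Bool × Bool) (a : ℕ × ℕ) : ℕ × ℕ :=
  (a.1, if a.1 = 0 then a.2 else ja (sl (a.1 - 1)) (μ (a.1 - 1)) a.2)

def b45hi (N : ℕ) (sl : ℕ → Slice) (μ : ℕ → Bool × Bool) (a : ℕ × ℕ) : ℕ × ℕ :=
  (a.1 + 1, if a.1 = N then a.2 else jb (sl a.1) (μ a.1) a.2)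

theorem b45_le (e : b45E N wid) : (b45pr e).1 ≤ N ∧ (b45pr e).2 ≤ wid (b45pr e).1 :=
  ⟨Nat.le_of_lt_succ e.1.2, Nat.le_of_lt_succ e.2.2⟩

theorem b45_ex_pr {α : Type} (d : α) (η : b45E N wid → α) (e : b45E N wid) :
    b45ex d η (b45pr e) = η e := by
  unfold b45ex
  rw [dif_pos (b45_le e)]
  rfl

theorem b45_ex_mk {α : Type} (d : α) (η : b45E N wid → α) {r g : ℕ} (hr : r ≤ N)
    (hg : g ≤ wid r) : b45ex d η (r, g) = η (b45mk hr hg) := b45_ex_pr d η (b45mk hr hg)

theorem b45_sum (F : ℕ × ℕ → ℤ) :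
    ∑ e : b45E N wid, F (b45pr e) = ∑ r ∈ range (N + 1), ∑ g ∈ range (wid r + 1), F (r, g) := by
  rw [Fintype.sum_sigma, ← Fin.sum_univ_eq_sum_range (fun r => ∑ g ∈ range (wid r + 1), F (r, g))]
  refine Finset.sum_congr rfl fun r _ => ?_
  exact Fin.sum_univ_eq_sum_range (fun g => F (r, g)) (wid r + 1)

theorem b45_lo_succ (r g : ℕ) : b45lo sl μ (r + 1, g) = (r + 1, ja (sl r) (μ r) g) := by
  simp [b45lo]

theorem b45_hi_lt {r : ℕ} (hr : r < N) (g : ℕ) :
    b45hi N sl μ (r, g) = (r + 1, jb (sl r) (μ r) g) := by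
  simp [b45hi, hr.ne]

theorem b45_j0 (s : Slice) (ν : Bool × Bool) : jb s ν 0 = ja s ν 0 := by
  cases s <;> simp [jb, ja]

/-- the test function supported on one level -/
def b45W (l : ℕ) (W : ℕ → ℤ) (j : ℕ × ℕ) : ℤ := if j.1 = l then W j.2 else 0

theorem b45_level (η : b45E N wid → ℤ) (l : ℕ) (W : ℕ → ℤ) :
    ∑ e, η e * (b45W l W (b45hi N sl μ (b45pr e)) - b45W l W (b45lo sl μ (b45pr e))) =
      (∑ r ∈ range (N + 1), if r + 1 = l then
        ∑ g ∈ range (wid r + 1), b45ex 0 η (r, g) * W (b45hi N sl μ (r, g)).2 else 0) -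
      ∑ r ∈ range (N + 1), if r = l then
        ∑ g ∈ range (wid r + 1), b45ex 0 η (r, g) * W (b45lo sl μ (r, g)).2 else 0 := by
  have h := b45_sum (N := N) (wid := wid) fun a =>
    b45ex 0 η a * (b45W l W (b45hi N sl μ a) - b45W l W (b45lo sl μ a))
  simp only [b45_ex_pr] at h
  rw [h, ← Finset.sum_sub_distrib]
  refine Finset.sum_congr rfl fun r _ => ?_
  have e1 : ∀ g, b45W l W (b45hi N sl μ (r, g)) =
      if r + 1 = l then W (b45hi N sl μ (r, g)).2 else 0 := fun _ => rfl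
  have e2 : ∀ g, b45W l W (b45lo sl μ (r, g)) =
      if r = l then W (b45lo sl μ (r, g)).2 else 0 := fun _ => rfl
  simp only [e1, e2, mul_sub, Finset.sum_sub_distrib]
  congr 1 <;> split_ifs <;> simp

theorem b45_dflow {η : b45E N wid → ℤ}
    (h : ∀ r < N, ∀ W : ℕ → ℤ, ∑ e, η e * (b45W (r + 1) W (b45hi N sl μ (b45pr e)) -
      b45W (r + 1) W (b45lo sl μ (b45pr e))) = 0) : DFlow N sl wid μ (b45ex 0 η) := by
  intro r hr W
  have h1 := h r hr W
  rw [b45_level] at h1
  simp only [Nat.add_right_cancel_iff, Finset.sum_ite_eq', Finset.mem_range] at h1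
  rw [if_pos (by omega), if_pos (by omega)] at h1
  simp only [b45_lo_succ, b45_hi_lt hr] at h1
  exact sub_eq_zero.mp h1

theorem b45_top (hS : Shape N sl wid) {η : b45E N wid → ℤ} {c : ℕ} (hc : c ≤ 1)
    (h : ∑ e, η e * (b45W (N + 1) (fun j => if j = c then 1 else 0) (b45hi N sl μ (b45pr e)) -
      b45W (N + 1) (fun j => if j = c then 1 else 0) (b45lo sl μ (b45pr e))) = 0) :
    b45ex 0 η (N, c) = 0 := by
  rw [b45_level] at h
  simp only [Nat.add_right_cancel_iff, Finset.sum_ite_eq', Finset.mem_range] at h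
  rw [if_pos (by omega), if_neg (by omega), hS.wN] at h
  interval_cases c <;> simpa [b45hi, Finset.sum_range_succ] using h

theorem b45_bot (hS : Shape N sl wid) {η : b45E N wid → ℤ}
    (h : ∑ e, η e * (b45W 0 (fun j => if j = 1 then 1 else 0) (b45hi N sl μ (b45pr e)) -
      b45W 0 (fun j => if j = 1 then 1 else 0) (b45lo sl μ (b45pr e))) = 0) :
    b45ex 0 η (0, 1) = 0 := by
  rw [b45_level] at h
  simp only [Nat.add_one_ne_zero, if_false, Finset.sum_const_zero, Finset.sum_ite_eq',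
    Finset.mem_range] at h
  rw [if_pos (by omega), hS.w0] at h
  simpa [b45lo, Finset.sum_range_succ] using h

theorem b45_part {η : ℕ × ℕ → ℤ}
    (h : ∀ a, Val N wid a → ∑ g ∈ range (a.2 + 1), η (a.1, g) = 0) {r g : ℕ} (hr : r ≤ N)
    (hg : g < wid r) : η (r, g) = 0 := by
  have h1 := h (r, g) ⟨hr, hg⟩
  rcases g with _ | g
  · simpa using h1
  · have h2 := h (r, g) ⟨hr, by dsimp only; omega⟩
    dsimp only at h1 h2
    rw [Finset.sum_range_succ, h2, zero_add] at h1
    exact h1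

/-- an edge whose tail is an inner junction -/
theorem b45_tail {o : b45E N wid → Bool} {r j : ℕ} (hr : r < N) :
    (∃ e, (if o e then b45hi N sl μ (b45pr e) else b45lo sl μ (b45pr e)) = (r + 1, j)) →
      HasOut (sl r) (μ r) (wid r) (wid (r + 1)) (fun g => b45ex false o (r, g))
        (fun g => b45ex false o (r + 1, g)) j := by
  rintro ⟨e, he⟩
  have h1 := b45_le e
  have h2 := b45_ex_pr false o e
  generalize b45pr e = a at he h1 h2
  obtain ⟨r', g⟩ := a
  cases ho : o e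
  · rw [ho] at he h2
    simp only [Bool.false_eq_true, if_false] at he
    obtain rfl : r' = r + 1 := congrArg Prod.fst he
    rw [b45_lo_succ] at he
    exact Or.inr ⟨g, h1.2, congrArg Prod.snd he, h2⟩
  · rw [ho] at he h2
    simp only [if_true] at he
    obtain rfl : r' = r := Nat.add_right_cancel (congrArg Prod.fst he)
    rw [b45_hi_lt hr] at he
    exact Or.inl ⟨g, h1.2, congrArg Prod.snd he, h2⟩

theorem b45_conn (hS : Shape N sl wid) (h1 : T1 N sl wid μ) (k : Bool) (W : ℕ × ℕ → ℤ)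
    (hW : ∀ e : b45E N wid, W (b45lo sl μ (b45pr e)) = W (b45hi N sl μ (b45pr e)))
    (h0 : W (0, 0) = 0) (hk : W (if k then (0, 1) else (N + 1, 1)) = 0) (e : b45E N wid) :
    W (b45lo sl μ (b45pr e)) = 0 := by
  have hup : ∀ r < N, ∀ g ≤ wid r, W (b45lo sl μ (r, g)) = W (r + 1, jb (sl r) (μ r) g) := by
    intro r hr g hg
    rw [← b45_hi_lt hr]
    exact hW (b45mk hr.le hg)
  have hj : JC N sl wid μ fun a => W (b45lo sl μ a) := by
    intro r hr
    refine ⟨fun g hg g' hg' h => ?_, fun g _ g' _ h => ?_, fun g hg g' _ h => ?_⟩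
    · dsimp only
      rw [hup r hr g hg, hup r hr g' hg', h]
    · dsimp only
      rw [b45_lo_succ, b45_lo_succ, h]
    · dsimp only
      rw [hup r hr g hg, b45_lo_succ, h]
  have hz : ∀ r ≤ N, W (b45lo sl μ (r, 0)) = 0 := by
    intro r hr
    induction r with
    | zero => exact h0
    | succ r ih =>
      rw [← ih (by omega)]
      exact ((hj r (by omega)).2.2 0 (Nat.zero_le _) 0 (Nat.zero_le _) (b45_j0 _ _)).symm
  obtain ⟨hf, hm⟩ := flow_of_jc hS hj
  have h00 : W (b45lo sl μ (0, 0 + 1)) - W (b45lo sl μ (0, 0)) = 0 := by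
    cases k
    · have h2 := flux hS hf N le_rfl
      rw [hS.wN, Finset.sum_range_one] at h2
      dsimp only at h2
      have h3 : W (b45lo sl μ (N, 1)) = W (b45hi N sl μ (N, 1)) :=
        hW (b45mk le_rfl hS.wN.ge)
      have h4 : b45hi N sl μ (N, 1) = (N + 1, 1) := by simp [b45hi]
      rw [← h2, hz N le_rfl, h3, h4]
      simpa using hk
    · rw [hz 0 (Nat.zero_le _)]
      simpa [b45lo] using hk
  have hall := h1 _ hf hm h00
  have hfin : ∀ r ≤ N, ∀ g ≤ wid r, W (b45lo sl μ (r, g)) = 0 := by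
    intro r hr g hg
    induction g with
    | zero => exact hz r hr
    | succ g ih =>
      have h5 := hall (r, g) ⟨hr, by dsimp only; omega⟩
      dsimp only at h5
      rw [ih (by omega), sub_zero] at h5
      exact h5
  exact hfin _ (b45_le e).1 _ (b45_le e).2

theorem b45_acyc (hS : Shape N sl wid) (h2 : T2 N sl wid μ) (k : Bool) (η : b45E N wid → ℤ)
    (h : ∀ W : ℕ × ℕ → ℤ, (∀ j, (j = (0, 0) ∨ j = if k then (0, 1) else (N + 1, 1)) → W j = 0) →
      ∑ e, η e * (W (b45hi N sl μ (b45pr e)) - W (b45lo sl μ (b45pr e))) = 0) (e : b45E N wid) :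
    η e = 0 := by
  have hd : DFlow N sl wid μ (b45ex 0 η) := by
    refine b45_dflow fun r hr W => h _ ?_
    rintro j (rfl | rfl)
    · simp [b45W]
    · cases k
      · simp [b45W, hr.ne']
      · simp [b45W]
  obtain ⟨hp, ht⟩ := pot_of_dflow hS hd
  have hN0 : b45ex 0 η (N, 0) = 0 := by
    refine b45_top (μ := μ) hS (Nat.zero_le _) (h _ ?_)
    rintro j (rfl | rfl)
    · simp [b45W]
    · cases k <;> simp [b45W]
  have hu : ∀ a, Val N wid a → ∑ g ∈ range (a.2 + 1), b45ex 0 η (a.1, g) = 0 := by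
    intro a ha
    have h3 := h2 _ hp a ha
    dsimp only at h3
    rw [h3, Finset.sum_range_one, hN0]
  have h00 : b45ex 0 η (0, 0) = 0 := b45_part hu (Nat.zero_le _) (by rw [hS.w0]; omega)
  have h01 : b45ex 0 η (0, 1) = 0 := by
    cases k
    · refine b45_bot (μ := μ) hS (h _ ?_)
      rintro j (rfl | rfl) <;> simp [b45W]
    · have h3 : b45ex 0 η (N, 1) = 0 := by
        refine b45_top (μ := μ) hS le_rfl (h _ ?_)
        rintro j (rfl | rfl) <;> simp [b45W]
      have h4 := ht N le_rfl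
      rw [hS.wN, Finset.sum_range_succ, Finset.sum_range_one, hN0, h3, h00] at h4
      omega
  rw [← b45_ex_pr 0 η e]
  obtain ⟨hr, hg⟩ := b45_le e
  generalize b45pr e = a at hr hg
  obtain ⟨r, g⟩ := a
  rcases Nat.lt_or_eq_of_le hg with hg | hg
  · exact b45_part hu hr hg
  · dsimp only at hr hg
    have h4 := ht r hr
    rw [Finset.sum_range_succ, h00, h01,
      Finset.sum_eq_zero fun g hg => b45_part hu hr (Finset.mem_range.mp hg)] at h4
    rw [hg]
    omega

theorem st_of_tree (hS : Shape N sl wid) (h1 : T1 N sl wid μ) (h2 : T2 N sl wid μ) (k : Bool) :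
    ∃ m, St N sl wid k m ∧ Adj N sl μ m := by
  obtain ⟨o, hr, hinj, hlo, hhi⟩ := orient_exists (E := b45E N wid)
    (fun e => b45lo sl μ (b45pr e)) (fun e => b45hi N sl μ (b45pr e))
    (fun j => j = (0, 0) ∨ j = if k then (0, 1) else (N + 1, 1))
    (fun W hW h0 => b45_conn hS h1 k W hW (h0 _ (Or.inl rfl)) (h0 _ (Or.inr rfl)))
    (b45_acyc hS h2 k)
  have hin : ∀ r < N, ∀ j, ¬ (((r + 1, j) : ℕ × ℕ) = (0, 0) ∨
      ((r + 1, j) : ℕ × ℕ) = if k then (0, 1) else (N + 1, 1)) := by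
    intro r hrN j
    cases k <;> simp [hrN.ne]
  have hloc : ∀ r, r < N → ∃ m, FLoc (sl r) (wid r) m (fun g => b45ex false o (r, g))
      (fun g => b45ex false o (r + 1, g)) ∧ (IsX (sl r) → adj (μ r) m = true) := by
    intro r hrN
    refine floc_of_out (hS.fit r hrN) (hS.step r hrN) ⟨fun g hg => ?_, fun g hg => ?_⟩
      ⟨fun g hg g' hg' h a b => ?_, fun g hg g' hg' h a b => ?_, fun g hg g' hg' h a b => ?_⟩
    · have e : b45hi N sl μ (b45pr (b45mk hrN.le hg)) = _ := b45_hi_lt hrN g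
      have := hhi (b45mk hrN.le hg)
      rw [e] at this
      exact b45_tail hrN (this (hin r hrN _))
    · have e : b45lo sl μ (b45pr (b45mk (N := N) hrN hg)) = _ := b45_lo_succ r g
      have := hlo (b45mk (N := N) hrN hg)
      rw [e] at this
      exact b45_tail hrN (this (hin r hrN _))
    · replace a := (b45_ex_mk false o hrN.le hg).symm.trans a
      replace b := (b45_ex_mk false o hrN.le hg').symm.trans b
      have := hinj (b45mk hrN.le hg) (b45mk hrN.le hg') (by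
        rw [a, b, if_pos rfl, if_pos rfl]
        exact (b45_hi_lt hrN g).trans (h ▸ (b45_hi_lt hrN g').symm))
      exact congrArg (fun e => (b45pr e).2) this
    · replace a := (b45_ex_mk (N := N) false o hrN hg).symm.trans a
      replace b := (b45_ex_mk (N := N) false o hrN hg').symm.trans b
      have := hinj (b45mk (N := N) hrN hg) (b45mk (N := N) hrN hg') (by
        rw [a, b, if_neg Bool.false_ne_true, if_neg Bool.false_ne_true]
        exact (b45_lo_succ r g).trans (h ▸ (b45_lo_succ r g').symm))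
      exact congrArg (fun e => (b45pr e).2) this
    · replace a := (b45_ex_mk false o hrN.le hg).symm.trans a
      replace b := (b45_ex_mk (N := N) false o hrN hg').symm.trans b
      have := hinj (b45mk hrN.le hg) (b45mk (N := N) hrN hg') (by
        rw [a, b, if_pos rfl, if_neg Bool.false_ne_true]
        exact (b45_hi_lt hrN g).trans (h ▸ (b45_lo_succ r g').symm))
      have h3 : r = r + 1 := congrArg (fun e => (b45pr e).1) this
      omega
  choose! m hm using hloc
  have hb : ∀ c, c ≤ 1 → ((0, c) : ℕ × ℕ) = (0, 0) ∨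
      ((0, c) : ℕ × ℕ) = (if k then (0, 1) else (N + 1, 1)) → b45ex false o (0, c) = true := by
    intro c hc hrt
    have hg : c ≤ wid 0 := by rw [hS.w0]; exact hc
    rw [b45_ex_mk _ _ (Nat.zero_le N) hg]
    by_contra hn
    have := hr (b45mk (Nat.zero_le N) hg)
    rw [if_neg hn] at this
    exact this hrt
  have ht : ∀ c, c ≤ 1 → ¬ (((N + 1, c) : ℕ × ℕ) = (0, 0) ∨
      ((N + 1, c) : ℕ × ℕ) = (if k then (0, 1) else (N + 1, 1))) →
      b45ex false o (N, c) = true := by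
    intro c hc hrt
    have hg : c ≤ wid N := by rw [hS.wN]; exact hc
    have e : b45hi N sl μ (b45pr (b45mk le_rfl hg)) = (N + 1, c) := by
      simp [b45hi, b45pr, b45mk]
    have := hhi (b45mk le_rfl hg)
    rw [e] at this
    obtain ⟨e', he⟩ := this hrt
    have h3 := b45_le e'
    have h4 := b45_ex_pr false o e'
    generalize b45pr e' = a at he h3 h4
    obtain ⟨r', g⟩ := a
    cases ho : o e'
    · rw [ho, if_neg Bool.false_ne_true] at he
      have h5 : r' = N + 1 := congrArg Prod.fst he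
      have := h3.1
      omega
    · rw [ho, if_pos rfl] at he
      obtain rfl : r' = N := Nat.add_right_cancel (congrArg Prod.fst he)
      obtain rfl : g = c := by simpa [b45hi] using he
      rw [h4, ho]
  refine ⟨m, ⟨fun r g => b45ex false o (r, g), hb 0 (by omega) (Or.inl rfl), ?_,
    ht 0 (by omega) (by cases k <;> simp), ?_, fun r hrN => (hm r hrN).1⟩,
    fun r hrN => (hm r hrN).2⟩
  · cases k
    · have hg : 1 ≤ wid 0 := hS.w0.ge
      have e : b45lo sl μ (b45pr (b45mk (Nat.zero_le N) hg)) = (0, 1) := rfl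
      have := hlo (b45mk (Nat.zero_le N) hg)
      rw [e] at this
      obtain ⟨e', he⟩ := this (by simp)
      have h4 := b45_ex_pr false o e'
      generalize b45pr e' = a at he h4
      obtain ⟨r', g⟩ := a
      cases ho : o e'
      · rw [ho, if_neg Bool.false_ne_true] at he
        obtain rfl : r' = 0 := congrArg Prod.fst he
        obtain rfl : g = 1 := by simpa [b45lo] using he
        exact h4.trans ho
      · rw [ho, if_pos rfl] at he
        have h5 : r' + 1 = 0 := congrArg Prod.fst he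
        omega
    · exact hb 1 le_rfl (Or.inr rfl)
  · cases k
    · have hg : 1 ≤ wid N := hS.wN.ge
      show b45ex false o (N, 1) = false
      rw [b45_ex_mk _ _ le_rfl hg]
      by_contra hn
      have := hr (b45mk le_rfl hg)
      rw [if_pos (by simpa using hn)] at this
      exact this (Or.inr (by simp [b45hi, b45pr, b45mk]))
    · exact ht 1 le_rfl (by simp)

theorem b45_step (hS : Shape N sl wid) {k : Bool} {m : ℕ → Fin 4} (h : St N sl wid k m)
    (ha : Adj N sl μ m) (h3 : T3 N sl wid μ) {n : ℕ} {g : ℕ × ℕ → ℤ} (hf : SFlow N sl wid g)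
    (hm : MZero N sl μ g) (h0 : g (0, 0) = 0) (hne : ∃ a, Val N wid a ∧ g a ≠ 0)
    (hn : ∀ a, Val N wid a → a.2 < n → g a = 0) :
    ∃ g', SFlow N sl wid g' ∧ MZero N sl μ g' ∧ g' (0, 0) = 0 ∧ (∃ a, Val N wid a ∧ g' a ≠ 0) ∧
      ∀ a, Val N wid a → a.2 < n + 1 → g' a = 0 := by
  obtain ⟨f, -, -, -, -, hloc⟩ := h
  obtain ⟨w, hw⟩ : ∃ w : ℕ × ℕ → ℤ, w = fun a => ∑ p ∈ range a.2, g (a.1, p) := ⟨_, rfl⟩
  have hj : JC N sl wid μ w := hw ▸ jc_of_flow hS hf hm
  have hw0 : ∀ r, w (r, 0) = 0 := fun r => by simp [hw]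
  have hwe : ∀ r ≤ N, w (r, wid r) = 0 := fun r hr => by
    rw [hw]
    exact (flux hS hf r hr).trans h0
  have hmid : ∀ r ≤ N, ∀ c ≤ wid r, w (r, c) ≠ 0 → 0 < r ∧ r < N := by
    intro r hr c hc hne
    have hc0 : c ≠ 0 := fun h => hne (h ▸ hw0 r)
    have hc1 : c ≠ wid r := fun h => hne (h ▸ hwe r hr)
    have h1 := hS.w0
    have h2 := hS.wN
    constructor
    · rcases Nat.eq_zero_or_pos r with rfl | h
      · omega
      · exact h
    · rcases Nat.lt_or_eq_of_le hr with h | rfl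
      · exact h
      · omega
  have hout : ∀ r < N, ∀ j, ∀ v : ℤ, v ≠ 0 →
      (∀ c ≤ wid r, jb (sl r) (μ r) c = j → w (r, c) = v) →
      (∀ c ≤ wid (r + 1), ja (sl r) (μ r) c = j → w (r + 1, c) = v) →
      HasOut (sl r) (μ r) (wid r) (wid (r + 1)) (f r) (f (r + 1)) j →
      ∃ e' : b45E N wid, w (b45pr e') ≠ 0 ∧ (if f (b45pr e').1 (b45pr e').2 then
        b45hi N sl μ (b45pr e') else b45lo sl μ (b45pr e')) = (r + 1, j) := by
    rintro r hr j v hv hb ha' (⟨c, hc, hcj, hfc⟩ | ⟨c, hc, hcj, hfc⟩)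
    · refine ⟨b45mk hr.le hc, (hb c hc hcj).trans_ne hv, ?_⟩
      show (if f r c then b45hi N sl μ (r, c) else b45lo sl μ (r, c)) = _
      rw [hfc, if_pos rfl, b45_hi_lt hr, hcj]
    · refine ⟨b45mk (N := N) hr hc, (ha' c hc hcj).trans_ne hv, ?_⟩
      show (if f (r + 1) c then b45hi N sl μ (r + 1, c) else b45lo sl μ (r + 1, c)) = _
      rw [hfc, if_neg Bool.false_ne_true, b45_lo_succ, hcj]
  have hex : ∀ r < N, OEx (sl r) (μ r) (wid r) (wid (r + 1)) (f r) (f (r + 1)) := fun r hr =>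
    oex_of_floc (hS.fit r hr) (hS.step r hr) (hloc r hr) (ha r hr)
  obtain ⟨η, hη, hs, hW⟩ := flow_exists (E := b45E N wid) (fun e => b45lo sl μ (b45pr e))
    (fun e => b45hi N sl μ (b45pr e)) (fun e => f (b45pr e).1 (b45pr e).2)
    (fun e => w (b45pr e) ≠ 0) (by
      obtain ⟨⟨r, c⟩, ⟨hr, hc⟩, hg⟩ := hne
      dsimp only at hr hc
      have e : w (r, c + 1) = w (r, c) + g (r, c) := by simp [hw, Finset.sum_range_succ]
      by_cases h : w (r, c) = 0
      · refine ⟨b45mk hr (Nat.succ_le_of_lt hc), ?_⟩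
        show w (r, c + 1) ≠ 0
        rw [e, h, zero_add]
        exact hg
      · exact ⟨b45mk hr hc.le, h⟩) (by
      intro e he
      obtain ⟨hr, hc⟩ := b45_le e
      generalize b45pr e = a at he hr hc
      obtain ⟨r, c⟩ := a
      dsimp only at hr hc ⊢
      obtain ⟨h1, h2⟩ := hmid r hr c hc he
      cases hfc : f r c
      · rw [if_neg Bool.false_ne_true, b45_hi_lt h2]
        exact hout r h2 _ _ he (fun c' hc' h => (hj r h2).1 c' hc' c hc h)
          (fun c' hc' h => ((hj r h2).2.2 c hc c' hc' h.symm).symm) ((hex r h2).1 c hc)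
      · obtain ⟨r, rfl⟩ : ∃ r', r = r' + 1 := ⟨r - 1, by omega⟩
        rw [if_pos rfl, b45_lo_succ]
        exact hout r hr _ _ he (fun c' hc' h => (hj r hr).2.2 c' hc' c hc h)
          (fun c' hc' h => (hj r hr).2.1 c' hc' c hc h) ((hex r hr).2 c hc))
  have hd : DFlow N sl wid μ (b45ex 0 η) := b45_dflow fun r _ W => hW _
  have hz : ∀ r ≤ N, ∀ c ≤ wid r, w (r, c) = 0 → b45ex 0 η (r, c) = 0 := by
    intro r hr c hc h
    rw [b45_ex_mk _ _ hr hc]
    by_contra hn
    exact hs _ hn h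
  obtain ⟨hp, -⟩ := pot_of_dflow hS hd
  have hu0 : ∀ r ≤ N, ∑ c ∈ range (0 + 1), b45ex 0 η (r, c) = 0 := fun r hr => by
    rw [Finset.sum_range_one]
    exact hz r hr 0 (Nat.zero_le _) (hw0 r)
  obtain ⟨g', hf', hm', hne', hs'⟩ := h3 _ hp (hu0 0 (Nat.zero_le _)) (hu0 N le_rfl) (by
    by_contra hn
    push Not at hn
    obtain ⟨e, he⟩ := hη
    apply he
    rw [← b45_ex_pr 0 η e]
    obtain ⟨hr, hc⟩ := b45_le e
    generalize b45pr e = a at hr hc
    obtain ⟨r, c⟩ := a
    rcases Nat.lt_or_eq_of_le hc with hc' | hc'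
    · exact b45_part hn hr hc'
    · dsimp only at hr hc hc'
      exact hz r hr c hc (hc' ▸ hwe r hr))
  refine ⟨g', hf', hm', ?_, hne', fun a hv hlt => ?_⟩
  · by_contra hn'
    exact hs' (0, 0) ⟨Nat.zero_le _, by rw [hS.w0]; omega⟩ hn' (hu0 0 (Nat.zero_le _))
  · by_contra hn'
    refine hs' a hv hn' (Finset.sum_eq_zero fun c hc => ?_)
    have hc' := Finset.mem_range.mp hc
    have h1 := hv.2
    refine hz _ hv.1 c (by omega) ?_
    rw [hw]
    refine Finset.sum_eq_zero fun p hp => ?_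
    have hp' : p < c := Finset.mem_range.mp hp
    exact hn (a.1, p) ⟨hv.1, by dsimp only; omega⟩ (by dsimp only; omega)

theorem t1_of_st (hS : Shape N sl wid) {k : Bool} {m : ℕ → Fin 4} (h : St N sl wid k m)
    (ha : Adj N sl μ m) (h3 : T3 N sl wid μ) : T1 N sl wid μ := by
  intro g hf hm h0
  by_contra hne
  push Not at hne
  have hP : ∀ n, ∃ g', SFlow N sl wid g' ∧ MZero N sl μ g' ∧ g' (0, 0) = 0 ∧
      (∃ a, Val N wid a ∧ g' a ≠ 0) ∧ ∀ a, Val N wid a → a.2 < n → g' a = 0 := by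
    intro n
    induction n with
    | zero => exact ⟨g, hf, hm, h0, hne, fun a _ h => absurd h (Nat.not_lt_zero _)⟩
    | succ n ih =>
      obtain ⟨g', a, b, c, d, e⟩ := ih
      exact b45_step hS h ha h3 a b c d e
  obtain ⟨g', -, -, -, ⟨a, hv, hg⟩, hz⟩ := hP (∑ r ∈ range (N + 1), wid r)
  exact hg (hz a hv (hv.2.trans_le (Finset.single_le_sum (f := wid) (fun _ _ => Nat.zero_le _)
    (Finset.mem_range.mpr (Nat.lt_succ_of_le hv.1)))))

end Pool.Agent.P.MP_9ed2cf_gt.Nz
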