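import Mathlib
import Pool.Agent.P.MP_9ed2cf_gt.NzGDefs

set_option autoImplicit false

namespace Pool.Agent.P.MP_9ed2cf_gt.Nz

open Finset Pool.Agent.P.MP_9ed2cf_gt.H14

variable {N : ℕ} {sl : ℕ → Slice} {wid : ℕ → ℕ} {lab : ℕ → ℕ → Bool × Bool}

theorem g0_top (h : Rows N sl wid lab) (r p : ℕ) (hv : Val N wid (r, p)) :
    ∃ r' p', top N sl (r, p) = (r', p') ∧ Val N wid (r', p') ∧ (lab r' p').2 = (lab r p).2 ∧
      (((lab r' p').1 = (lab r p).1 ∧ bot N sl (r', p') = (r, p)) ∨
        ((lab r' p').1 = !(lab r p).1 ∧ top N sl (r', p') = (r, p))) := by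
  obtain ⟨h1, h2⟩ := hv
  simp only at h1 h2
  by_cases hN : r = N
  · subst hN
    have hp : p = 0 := by have := h.wN; omega
    subst hp
    refine ⟨0, 0, by simp [top], ⟨by simp, by simp [h.w0]⟩, by rw [h.lN], Or.inl ⟨by rw [h.lN], by simp [bot]⟩⟩
  have hr : r < N := lt_of_le_of_ne h1 hN
  have hf := h.fit r hr
  have hs := h.step r hr
  by_cases c1 : p < ps (sl r)
  · have e := h.left r hr p c1
    refine ⟨r + 1, p, by simp [top, hN, c1], ⟨hr, by simp only; omega⟩, by rw [e],
      Or.inl ⟨by rw [e], by simp [bot, c1]⟩⟩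
  by_cases c2 : ps (sl r) + kb (sl r) ≤ p
  · have e := h.right r hr (p - kb (sl r)) (by omega)
    rw [show p - kb (sl r) + kb (sl r) = p by omega] at e
    refine ⟨r + 1, p - kb (sl r) + ka (sl r), by simp [top, hN, c1, c2], ⟨hr, by simp only; omega⟩,
      by rw [e], Or.inl ⟨by rw [e], ?_⟩⟩
    have d1 : ¬ p - kb (sl r) + ka (sl r) < ps (sl r) := by omega
    have d2 : ps (sl r) + ka (sl r) ≤ p - kb (sl r) + ka (sl r) := by omega
    simp only [bot, Nat.add_one_ne_zero, if_false, Nat.add_sub_cancel, d1, d2, if_true]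
    congr 1
    omega
  cases hsl : sl r with
  | cross i e =>
    obtain ⟨e1, e2, e3, e4⟩ := h.cross r hr i e hsl
    rw [hsl] at hf hs c1 c2
    simp only [ps, kb, ka] at hf hs c1 c2
    have e : lab (r + 1) p = lab r p := by
      rcases (by omega : p = i ∨ p = i + 1) with rfl | rfl
      · rw [e1, e3]
      · rw [e2, e4]
    refine ⟨r + 1, p, by simp [top, hN, hsl, ps, kb, ka, c1, c2], ⟨hr, by simp only; omega⟩,
      by rw [e], Or.inl ⟨by rw [e], by simp [bot, hsl, ps, kb, ka, c1, c2]⟩⟩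
  | cup i d =>
    rw [hsl] at c1 c2
    simp only [ps, kb] at c1 c2
    omega
  | cap i d =>
    obtain ⟨β, e1, e2⟩ := h.cap r hr i d hsl
    rw [hsl] at hf hs c1 c2
    simp only [ps, kb, ka] at hf hs c1 c2
    rcases (by omega : p = i ∨ p = i + 1) with rfl | rfl
    · refine ⟨r, p + 1, by simp [top, hN, hsl, ps, kb, ka], ⟨h1, by simp only; omega⟩,
        by rw [e1, e2], Or.inr ⟨by rw [e1, e2], by simp [top, hN, hsl, ps, kb, ka]⟩⟩
    · refine ⟨r, i, by simp [top, hN, hsl, ps, kb, ka], ⟨h1, by simp only; omega⟩,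
        by rw [e1, e2], Or.inr ⟨by rw [e1, e2]; simp, by simp [top, hN, hsl, ps, kb, ka]⟩⟩

theorem g0_bot (h : Rows N sl wid lab) (r p : ℕ) (hv : Val N wid (r, p)) :
    ∃ r' p', bot N sl (r, p) = (r', p') ∧ Val N wid (r', p') ∧ (lab r' p').2 = (lab r p).2 ∧
      (((lab r' p').1 = (lab r p).1 ∧ top N sl (r', p') = (r, p)) ∨
        ((lab r' p').1 = !(lab r p).1 ∧ bot N sl (r', p') = (r, p))) := by
  obtain ⟨h1, h2⟩ := hv
  simp only at h1 h2
  cases r with
  | zero =>
    have hp : p = 0 := by have := h.w0; omega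
    subst hp
    refine ⟨N, 0, by simp [bot], ⟨by simp, by simp [h.wN]⟩, by rw [h.lN], Or.inl ⟨by rw [h.lN], by simp [top]⟩⟩
  | succ r =>
  have hr : r < N := h1
  have hN : r ≠ N := hr.ne
  have hf := h.fit r hr
  have hs := h.step r hr
  by_cases c1 : p < ps (sl r)
  · have e := h.left r hr p c1
    refine ⟨r, p, by simp [bot, c1], ⟨hr.le, by simp only; omega⟩, by rw [e],
      Or.inl ⟨by rw [e], by simp [top, hN, c1]⟩⟩
  by_cases c2 : ps (sl r) + ka (sl r) ≤ p
  · have e := h.right r hr (p - ka (sl r)) (by omega)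
    rw [show p - ka (sl r) + ka (sl r) = p by omega] at e
    refine ⟨r, p - ka (sl r) + kb (sl r), by simp [bot, c1, c2], ⟨hr.le, by simp only; omega⟩,
      by rw [e], Or.inl ⟨by rw [e], ?_⟩⟩
    have d1 : ¬ p - ka (sl r) + kb (sl r) < ps (sl r) := by omega
    have d2 : ps (sl r) + kb (sl r) ≤ p - ka (sl r) + kb (sl r) := by omega
    simp only [top, hN, if_false, Nat.add_sub_cancel, d1, d2, if_true]
    congr 1
    omega
  cases hsl : sl r with
  | cross i e =>
    obtain ⟨e1, e2, e3, e4⟩ := h.cross r hr i e hsl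
    rw [hsl] at hf hs c1 c2
    simp only [ps, kb, ka] at hf hs c1 c2
    have e : lab r p = lab (r + 1) p := by
      rcases (by omega : p = i ∨ p = i + 1) with rfl | rfl
      · rw [e1, e3]
      · rw [e2, e4]
    refine ⟨r, p, by simp [bot, hsl, ps, kb, ka, c1, c2], ⟨hr.le, by simp only; omega⟩,
      by rw [e], Or.inl ⟨by rw [e], by simp [top, hN, hsl, ps, kb, ka, c1, c2]⟩⟩
  | cap i d =>
    rw [hsl] at c1 c2
    simp only [ps, ka] at c1 c2
    omega
  | cup i d =>
    obtain ⟨β, e1, e2⟩ := h.cup r hr i d hsl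
    rw [hsl] at hf hs c1 c2
    simp only [ps, kb, ka] at hf hs c1 c2
    rcases (by omega : p = i ∨ p = i + 1) with rfl | rfl
    · refine ⟨r + 1, p + 1, by simp [bot, hsl, ps, kb, ka], ⟨h1, by simp only; omega⟩,
        by rw [e1, e2], Or.inr ⟨by rw [e1, e2], by simp [bot, hsl, ps, kb, ka]⟩⟩
    · refine ⟨r + 1, i, by simp [bot, hsl, ps, kb, ka], ⟨h1, by simp only; omega⟩,
        by rw [e1, e2], Or.inr ⟨by rw [e1, e2]; simp, by simp [bot, hsl, ps, kb, ka]⟩⟩

/-- one step in the direction `o` -/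
def g0_st (N : ℕ) (sl : ℕ → Slice) (lab : ℕ → ℕ → Bool × Bool) (o : Bool) (a : ℕ × ℕ) : ℕ × ℕ :=
  if up lab o a then top N sl a else bot N sl a

theorem g0_step (h : Rows N sl wid lab) (o : Bool) (a : ℕ × ℕ) (hv : Val N wid a) :
    Val N wid (g0_st N sl lab o a) ∧
      (lab (g0_st N sl lab o a).1 (g0_st N sl lab o a).2).2 = (lab a.1 a.2).2 ∧
      g0_st N sl lab (!o) (g0_st N sl lab o a) = a := by
  obtain ⟨r, p⟩ := a
  by_cases hu : up lab o (r, p) = true
  · obtain ⟨r', p', e, v, l2, hh⟩ := g0_top h r p hv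
    have e' : g0_st N sl lab o (r, p) = (r', p') := by simp only [g0_st, hu, if_true, e]
    rw [e']
    refine ⟨v, l2, ?_⟩
    simp only [up] at hu
    rcases hh with ⟨l1, b⟩ | ⟨l1, b⟩
    · have : up lab (!o) (r', p') = false := by
        simp only [up, l1, l2]
        revert hu
        cases (lab r p).1 <;> cases (lab r p).2 <;> cases o <;> simp
      simp [g0_st, this, b]
    · have : up lab (!o) (r', p') = true := by
        simp only [up, l1, l2]
        revert hu
        cases (lab r p).1 <;> cases (lab r p).2 <;> cases o <;> simp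
      simp [g0_st, this, b]
  · obtain ⟨r', p', e, v, l2, hh⟩ := g0_bot h r p hv
    have e' : g0_st N sl lab o (r, p) = (r', p') := by simp only [g0_st, hu, e]; simp
    rw [e']
    refine ⟨v, l2, ?_⟩
    simp only [up] at hu
    rcases hh with ⟨l1, b⟩ | ⟨l1, b⟩
    · have : up lab (!o) (r', p') = true := by
        simp only [up, l1, l2]
        revert hu
        cases (lab r p).1 <;> cases (lab r p).2 <;> cases o <;> simp
      simp [g0_st, this, b]
    · have : up lab (!o) (r', p') = false := by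
        simp only [up, l1, l2]
        revert hu
        cases (lab r p).1 <;> cases (lab r p).2 <;> cases o <;> simp
      simp [g0_st, this, b]

/-- sign of a slice -/
def g0_sg : Slice → Bool
  | .cross _ e => e
  | _ => false

theorem g0_x {s : Slice} (hx : IsX s) : s = .cross (ps s) (g0_sg s) := by
  obtain ⟨i, e, rfl⟩ := hx
  rfl

theorem g0_arm (h : Rows N sl wid lab) {r : ℕ} (hr : r < N) (hx : IsX (sl r)) (t : Bool) :
    Val N wid (arm sl r (inA false (g0_sg (sl r)) t)) ∧
      (lab (arm sl r (inA false (g0_sg (sl r)) t)).1 (arm sl r (inA false (g0_sg (sl r)) t)).2).2 = t ∧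
      g0_st N sl lab false (arm sl r (inA false (g0_sg (sl r)) t)) =
        arm sl r (outA false (g0_sg (sl r)) t) := by
  obtain ⟨i, e, hsl⟩ := hx
  obtain ⟨e1, e2, e3, e4⟩ := h.cross r hr i e hsl
  have hf := h.fit r hr
  have hs := h.step r hr
  have hN : r ≠ N := hr.ne
  rw [hsl] at hf hs
  simp only [ps, kb, ka] at hf hs
  cases t <;> cases e <;>
    simp [Val, arm, inA, outA, g0_st, up, top, bot, hsl, g0_sg, ps, kb, ka, e1, e2, e3, e4, hN] <;>
    omega

theorem real_exists (h : Rows N sl wid lab) :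
    ∃ (A V : Type) (_ : Fintype A) (_ : Fintype V) (P : Pl A V) (pos : A → ℕ × ℕ) (row : V → ℕ),
      Real N sl wid lab P false pos row ∧ Real N sl wid lab P.rev true pos row := by
  classical
  have fA : Finite {a : ℕ × ℕ // Val N wid a} := by
    apply Set.Finite.to_subtype (s := {a : ℕ × ℕ | Val N wid a})
    apply Set.Finite.subset ((range (N + 1) ×ˢ range ((range (N + 1)).sup wid)).finite_toSet)
    rintro ⟨r, p⟩ ⟨h1, h2⟩
    simp only [coe_product, coe_range, Set.mem_prod, Set.mem_Iio]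
    exact ⟨Nat.lt_succ_of_le h1, h2.trans_le (le_sup (f := wid) (mem_range.2 (Nat.lt_succ_of_le h1)))⟩
  have fV : Finite {r : ℕ // r < N ∧ IsX (sl r)} := by
    apply Set.Finite.to_subtype (s := {r : ℕ | r < N ∧ IsX (sl r)})
    exact (Set.finite_lt_nat N).subset fun r hr => hr.1
  let σ : Equiv.Perm {a : ℕ × ℕ // Val N wid a} :=
    { toFun := fun a => ⟨g0_st N sl lab false a.1, (g0_step h false a.1 a.2).1⟩
      invFun := fun a => ⟨g0_st N sl lab true a.1, (g0_step h true a.1 a.2).1⟩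
      left_inv := fun a => Subtype.ext (g0_step h false a.1 a.2).2.2
      right_inv := fun a => Subtype.ext (g0_step h true a.1 a.2).2.2 }
  let P : Pl {a : ℕ × ℕ // Val N wid a} {r : ℕ // r < N ∧ IsX (sl r)} :=
    { σ := σ
      inn := fun t x => ⟨arm sl x.1 (inA false (g0_sg (sl x.1)) t), (g0_arm h x.2.1 x.2.2 t).1⟩
      ty := fun a => (lab a.1.1 a.1.2).2
      s := fun x => g0_sg (sl x.1)
      inj := by
        intro t x t' x' e
        have e0 := congrArg Subtype.val e
        have e1 := (g0_arm h x.2.1 x.2.2 t).2.1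
        have e2 := (g0_arm h x'.2.1 x'.2.2 t').2.1
        simp only at e0
        rw [e0, e2] at e1
        subst e1
        have e3 := congrArg Prod.fst e0
        apply Subtype.ext
        cases t' <;> simpa [arm, inA] using e3
      ty_σ := fun a => (g0_step h false a.1 a.2).2.1
      ty_inn := fun t x => (g0_arm h x.2.1 x.2.2 t).2.1 }
  refine ⟨_, _, Fintype.ofFinite _, Fintype.ofFinite _, P, Subtype.val, Subtype.val,
    ⟨Subtype.val_injective, fun a => a.2, fun q hq => ⟨⟨q, hq⟩, rfl⟩, Subtype.val_injective,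
      fun x => x.2.1, fun x => g0_x x.2.2, fun r hr hx => ⟨⟨r, hr, hx⟩, rfl⟩, fun a => rfl,
      fun t x => rfl, fun t x => (g0_arm h x.2.1 x.2.2 t).2.2⟩,
    ⟨Subtype.val_injective, fun a => a.2, fun q hq => ⟨⟨q, hq⟩, rfl⟩, Subtype.val_injective,
      fun x => x.2.1, fun x => g0_x x.2.2, fun r hr hx => ⟨⟨r, hr, hx⟩, rfl⟩, fun a => rfl,
      fun t x => ?_, fun t x => ?_⟩⟩
  · refine ((g0_arm h x.2.1 x.2.2 t).2.2).trans ?_
    congr 1
    cases t <;> rfl
  · have : P.rev.out t x = P.inn t x := by simp [Pl.out, Pl.rev]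
    rw [this]
    show arm sl x.1 (inA false (g0_sg (sl x.1)) t) = arm sl x.1 (outA true (g0_sg (sl x.1)) t)
    congr 1
    cases t <;> rfl

end Pool.Agent.P.MP_9ed2cf_gt.Nz
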