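import Mathlib
import Pool.Agent.P.MP_9ed2cf_gt.NzJun
import Pool.Agent.P.MP_9ed2cf_gt.NzBasic

set_option autoImplicit false

namespace Pool.Agent.P.MP_9ed2cf_gt.Nz

open Finset Pool.Agent.P.MP_9ed2cf_gt.H14

variable {N : ℕ} {sl : ℕ → Slice} {wid : ℕ → ℕ} {lab : ℕ → ℕ → Bool × Bool}

variable {A V : Type} {P : Pl A V} {o : Bool} {pos : A → ℕ × ℕ} {row : V → ℕ}

theorem g1_lab (h : Rows N sl wid lab) (hR : Real N sl wid lab P o pos row) (x : V) :
    lab (row x) (ps (sl (row x))) = (true, P.s x) ∧
    lab (row x) (ps (sl (row x)) + 1) = (true, !P.s x) ∧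
    lab (row x + 1) (ps (sl (row x))) = (true, P.s x) ∧
    lab (row x + 1) (ps (sl (row x)) + 1) = (true, !P.s x) :=
  h.cross _ (hR.row_lt x) _ _ (hR.row_x x)

theorem g1_up_inn (h : Rows N sl wid lab) (hR : Real N sl wid lab P o pos row) (t : Bool) (x : V) :
    up lab o (pos (P.inn t x)) = !xor t o := by
  obtain ⟨h1, h2, h3, h4⟩ := g1_lab h hR x
  rw [hR.inn_eq]
  cases t <;> cases o <;> cases he : P.s x <;> simp [arm, inA, up, h1, h2, h3, h4, he]

theorem g1_up_out (h : Rows N sl wid lab) (hR : Real N sl wid lab P o pos row) (t : Bool) (x : V) :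
    up lab o (pos (P.out t x)) = !xor t o := by
  obtain ⟨h1, h2, h3, h4⟩ := g1_lab h hR x
  rw [hR.out_eq]
  cases t <;> cases o <;> cases he : P.s x <;> simp [arm, outA, up, h1, h2, h3, h4, he]

theorem g1_below (hR : Real N sl wid lab P o pos row) (g : ℕ × ℕ → ℤ) (x : V) :
    ∑ j ∈ range (kb (sl (row x))), g (row x, ps (sl (row x)) + j) =
      g (pos (P.inn o x)) + g (pos (P.out (!o) x)) := by
  have hk : kb (sl (row x)) = 2 := by rw [hR.row_x x]; rfl
  rw [hk, hR.inn_eq, hR.out_eq, sum_range_succ, sum_range_one]
  cases o <;> cases P.s x <;> simp [arm, inA, outA, add_comm]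

theorem g1_above (hR : Real N sl wid lab P o pos row) (g : ℕ × ℕ → ℤ) (x : V) :
    ∑ j ∈ range (ka (sl (row x))), g (row x + 1, ps (sl (row x)) + j) =
      g (pos (P.out o x)) + g (pos (P.inn (!o) x)) := by
  have hk : ka (sl (row x)) = 2 := by rw [hR.row_x x]; rfl
  rw [hk, hR.inn_eq, hR.out_eq, sum_range_succ, sum_range_one]
  cases o <;> cases P.s x <;> simp [arm, inA, outA, add_comm]

/-- a node is an entering arm exactly if it is directed into a crossing -/
theorem Real.pass_iff (h : Rows N sl wid lab) (hR : Real N sl wid lab P o pos row) (a : A) :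
    ¬ P.Pass a ↔
      (up lab o (pos a) = true ∧ (pos a).1 < N ∧ IsX (sl (pos a).1) ∧
        ps (sl (pos a).1) ≤ (pos a).2 ∧ (pos a).2 < ps (sl (pos a).1) + 2) ∨
      (up lab o (pos a) = false ∧ 0 < (pos a).1 ∧ IsX (sl ((pos a).1 - 1)) ∧
        ps (sl ((pos a).1 - 1)) ≤ (pos a).2 ∧ (pos a).2 < ps (sl ((pos a).1 - 1)) + 2) := by
  constructor
  · intro hp
    obtain ⟨t, x, rfl⟩ : ∃ t x, a = P.inn t x := by
      by_contra hc
      exact hp fun t x e => hc ⟨t, x, e⟩
    have hu := g1_up_inn h hR t x
    have hx : IsX (sl (row x)) := ⟨_, _, hR.row_x x⟩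
    have hl := hR.row_lt x
    rw [hu, hR.inn_eq]
    cases t <;> cases o <;> cases P.s x <;> simp [arm, inA, hx, hl]
  · rintro (⟨h1, h2, h3, h4, h5⟩ | ⟨h1, h2, h3, h4, h5⟩) hp
    · obtain ⟨x, hx⟩ := hR.row_surj _ h2 h3
      obtain ⟨l1, l2, -, -⟩ := g1_lab h hR x
      apply hp o x
      apply hR.pos_inj
      rw [hR.inn_eq]
      rw [← hx] at h4 h5
      unfold up at h1
      rw [← hx] at h1
      have hc : (pos a).2 = ps (sl (row x)) ∨ (pos a).2 = ps (sl (row x)) + 1 := by omega
      refine Prod.ext ?_ ?_
      · simp [arm, inA, hx]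
      · rcases hc with hc | hc
        · rw [hc, l1] at h1
          rw [hc]
          revert h1
          cases o <;> cases P.s x <;> simp [arm, inA]
        · rw [hc, l2] at h1
          rw [hc]
          revert h1
          cases o <;> cases P.s x <;> simp [arm, inA]
    · have hv := (hR.pos_val a).1
      obtain ⟨x, hx⟩ := hR.row_surj _ (by omega) h3
      obtain ⟨-, -, l1, l2⟩ := g1_lab h hR x
      apply hp (!o) x
      apply hR.pos_inj
      rw [hR.inn_eq]
      rw [← hx] at h4 h5
      have hx' : (pos a).1 = row x + 1 := by omega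
      unfold up at h1
      rw [hx'] at h1
      have hc : (pos a).2 = ps (sl (row x)) ∨ (pos a).2 = ps (sl (row x)) + 1 := by omega
      refine Prod.ext ?_ ?_
      · rw [hx']
        cases o <;> simp [arm, inA]
      · rcases hc with hc | hc
        · rw [hc, l1] at h1
          rw [hc]
          revert h1
          cases o <;> cases P.s x <;> simp [arm, inA]
        · rw [hc, l2] at h1
          rw [hc]
          revert h1
          cases o <;> cases P.s x <;> simp [arm, inA]

theorem g1_isX {s : Slice} (h : IsX s) : kb s = 2 ∧ ka s = 2 := by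
  obtain ⟨i, e, rfl⟩ := h
  exact ⟨rfl, rfl⟩

theorem g1_pass_up (h : Rows N sl wid lab) (hR : Real N sl wid lab P o pos row) {a : A} {r p : ℕ}
    (ha : pos a = (r, p)) (hu : up lab o (r, p) = true)
    (hn : IsX (sl r) → p < ps (sl r) ∨ ps (sl r) + 2 ≤ p) : P.Pass a := by
  by_contra hp
  have := (hR.pass_iff h a).1 hp
  rw [ha, hu] at this
  rcases this with ⟨-, -, h3, h4, h5⟩ | ⟨h1, -⟩
  · have := hn h3
    simp only at h4 h5
    omega
  · simp at h1

theorem g1_pass_down (h : Rows N sl wid lab) (hR : Real N sl wid lab P o pos row) {a : A}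
    {r p : ℕ} (ha : pos a = (r + 1, p)) (hu : up lab o (r + 1, p) = false)
    (hn : IsX (sl r) → p < ps (sl r) ∨ ps (sl r) + 2 ≤ p) : P.Pass a := by
  by_contra hp
  have := (hR.pass_iff h a).1 hp
  rw [ha, hu] at this
  rcases this with ⟨h1, -⟩ | ⟨-, -, h3, h4, h5⟩
  · simp at h1
  · simp only [Nat.add_sub_cancel] at h3 h4 h5
    have := hn h3
    omega

/-- a vertical step keeps the signed value of a conserved function -/
theorem g1_vert (h : Rows N sl wid lab) (hR : Real N sl wid lab P o pos row) {γ : A → ℤ}
    (hγ : P.Cons γ) {g : ℕ × ℕ → ℤ}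
    (hg : ∀ a, g (pos a) = if up lab o (pos a) then γ a else -γ a) {r p p' : ℕ}
    (v1 : Val N wid (r, p)) (v2 : Val N wid (r + 1, p')) (hl : lab (r + 1) p' = lab r p)
    (ht : top N sl (r, p) = (r + 1, p')) (hb : bot N sl (r + 1, p') = (r, p))
    (n1 : IsX (sl r) → p < ps (sl r) ∨ ps (sl r) + 2 ≤ p)
    (n2 : IsX (sl r) → p' < ps (sl r) ∨ ps (sl r) + 2 ≤ p') : g (r + 1, p') = g (r, p) := by
  obtain ⟨a, ha⟩ := hR.pos_surj _ v1
  obtain ⟨a', ha'⟩ := hR.pos_surj _ v2
  have hu : up lab o (r + 1, p') = up lab o (r, p) := by simp only [up, hl]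
  have e1 := hg a
  have e2 := hg a'
  rw [ha] at e1
  rw [ha', hu] at e2
  rw [e1, e2]
  cases hc : up lab o (r, p)
  · have hs : P.σ a' = a := by
      apply hR.pos_inj
      rw [hR.σ_eq, ha', hu, hc, ha]
      simpa using hb
    have := hγ.1 a' (g1_pass_down h hR ha' (hu.trans hc) n2)
    rw [hs] at this
    simp [this]
  · have hs : P.σ a = a' := by
      apply hR.pos_inj
      rw [hR.σ_eq, ha, hc, ha']
      simpa using ht
    have := hγ.1 a (g1_pass_up h hR ha hc n1)
    rw [hs] at this
    simp [this]

theorem g1_flip {q q' : ℕ × ℕ} {d β : Bool} (h1 : lab q.1 q.2 = (d, β))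
    (h2 : lab q'.1 q'.2 = (!d, β)) : up lab o q' = !up lab o q := by
  simp only [up, h1, h2]
  cases d <;> cases β <;> cases o <;> rfl

theorem Real.c2s (h : Rows N sl wid lab) (hR : Real N sl wid lab P o pos row) {γ : A → ℤ}
    (hγ : P.Cons γ) : ∃ g, SFlow N sl wid g ∧
      ∀ a, g (pos a) = if up lab o (pos a) then γ a else -γ a := by
  classical
  obtain ⟨g, hg⟩ : ∃ g : ℕ × ℕ → ℤ, ∀ a, g (pos a) = if up lab o (pos a) then γ a else -γ a :=
    ⟨Function.extend pos (fun a => if up lab o (pos a) then γ a else -γ a) 0,
      fun a => hR.pos_inj.extend_apply _ _ a⟩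
  refine ⟨g, ⟨fun r hr => ⟨fun p hp => ?_, fun p hp hw => ?_⟩, fun r hr => ?_⟩, hg⟩
  · have f1 := h.fit r hr
    have f2 := h.step r hr
    refine g1_vert h hR hγ hg ⟨by simp only; omega, by simp only; omega⟩
      ⟨by simp only; omega, by simp only; omega⟩ (h.left r hr p hp) ?_ ?_
      (fun _ => Or.inl hp) (fun _ => Or.inl hp)
    · simp [top, hr.ne, hp]
    · simp [bot, hp]
  · have f1 := h.fit r hr
    have f2 := h.step r hr
    refine g1_vert h hR hγ hg ⟨by simp only; omega, by simp only; omega⟩
      ⟨by simp only; omega, by simp only; omega⟩ (h.right r hr p hp) ?_ ?_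
      (fun hx => Or.inr (by have := g1_isX hx; omega))
      (fun hx => Or.inr (by have := g1_isX hx; omega))
    · have a1 : ¬ p + kb (sl r) < ps (sl r) := by omega
      simp [top, hr.ne, a1, hp]
    · have a1 : ¬ p + ka (sl r) < ps (sl r) := by omega
      simp [bot, a1, hp]
  · have f1 := h.fit r hr
    have f2 := h.step r hr
    rcases hs : sl r with ⟨i, e⟩ | ⟨i, d⟩ | ⟨i, d⟩
    · obtain ⟨x, rfl⟩ := hR.row_surj r hr ⟨_, _, hs⟩
      rw [← hs, g1_below hR, g1_above hR, hg, hg, hg, hg, g1_up_inn h hR, g1_up_out h hR,
        g1_up_inn h hR, g1_up_out h hR]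
      have := hγ.2 x
      cases o <;> simp <;> omega
    · obtain ⟨β, l1, l2⟩ := h.cup r hr i d hs
      rw [hs] at f1 f2
      simp only [ps, kb, ka] at f1 f2 ⊢
      rw [sum_range_zero, sum_range_succ, sum_range_one, add_zero]
      obtain ⟨a, ha⟩ := hR.pos_surj (r + 1, i) ⟨by simp only; omega, by simp only; omega⟩
      obtain ⟨a', ha'⟩ := hR.pos_surj (r + 1, i + 1) ⟨by simp only; omega, by simp only; omega⟩
      have hu : up lab o (r + 1, i + 1) = !up lab o (r + 1, i) := g1_flip l1 l2
      have nx : ¬ IsX (sl r) := by rw [hs]; rintro ⟨_, _, hh⟩; cases hh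
      have e1 := hg a
      have e2 := hg a'
      rw [ha] at e1
      rw [ha', hu] at e2
      rw [e1, e2]
      cases hc : up lab o (r + 1, i)
      · have hσ : P.σ a = a' := by
          apply hR.pos_inj
          rw [hR.σ_eq, ha, hc, ha']
          simp [bot, hs, ps, kb, ka]
        have := hγ.1 a (g1_pass_down h hR ha hc fun hx => absurd hx nx)
        rw [hσ] at this
        simp [this]
      · rw [hc] at hu
        have hσ : P.σ a' = a := by
          apply hR.pos_inj
          rw [hR.σ_eq, ha', hu, ha]
          simp [bot, hs, ps, kb, ka]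
        have := hγ.1 a' (g1_pass_down h hR ha' hu fun hx => absurd hx nx)
        rw [hσ] at this
        simp [this]
    · obtain ⟨β, l1, l2⟩ := h.cap r hr i d hs
      rw [hs] at f1 f2
      simp only [ps, kb, ka] at f1 f2 ⊢
      rw [sum_range_zero, sum_range_succ, sum_range_one, add_zero]
      obtain ⟨a, ha⟩ := hR.pos_surj (r, i) ⟨by simp only; omega, by simp only; omega⟩
      obtain ⟨a', ha'⟩ := hR.pos_surj (r, i + 1) ⟨by simp only; omega, by simp only; omega⟩
      have hu : up lab o (r, i + 1) = !up lab o (r, i) := g1_flip l1 l2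
      have nx : ¬ IsX (sl r) := by rw [hs]; rintro ⟨_, _, hh⟩; cases hh
      have e1 := hg a
      have e2 := hg a'
      rw [ha] at e1
      rw [ha', hu] at e2
      rw [e1, e2]
      cases hc : up lab o (r, i)
      · rw [hc] at hu
        have hσ : P.σ a' = a := by
          apply hR.pos_inj
          rw [hR.σ_eq, ha', hu, ha]
          simp [top, hr.ne, hs, ps, kb, ka]
        have := hγ.1 a' (g1_pass_up h hR ha' hu fun hx => absurd hx nx)
        rw [hσ] at this
        simp [this]
      · have hσ : P.σ a = a' := by
          apply hR.pos_inj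
          rw [hR.σ_eq, ha, hc, ha']
          simp [top, hr.ne, hs, ps, kb, ka]
        have := hγ.1 a (g1_pass_up h hR ha hc fun hx => absurd hx nx)
        rw [hσ] at this
        simp [this]

theorem Real.s2c (h : Rows N sl wid lab) (hR : Real N sl wid lab P o pos row) {g : ℕ × ℕ → ℤ}
    (hg : SFlow N sl wid g) :
    P.Cons fun a => if up lab o (pos a) then g (pos a) else -g (pos a) := by
  have link : g (N, 0) = g (0, 0) := by
    have := flux h.toShape hg N le_rfl
    rwa [h.wN, sum_range_one] at this
  have ulink : up lab o (N, 0) = up lab o (0, 0) := by simp only [up, h.lN]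
  refine ⟨fun a hp => ?_, fun x => ?_⟩
  · have hn := fun hh => (hR.pass_iff h a).2 hh hp
    have hv := hR.pos_val a
    simp only [hR.σ_eq]
    generalize pos a = q at hn hv
    obtain ⟨r, p⟩ := q
    obtain ⟨v1, v2⟩ := hv
    simp only at v1 v2 hn
    cases hc : up lab o (r, p)
    · simp only [Bool.false_eq_true, if_false]
      rcases r with _ | r
      · have : p = 0 := by rw [h.w0] at v2; omega
        subst this
        simp [bot, ulink, hc, link]
      · have hr : r < N := by omega
        have f1 := h.fit r hr
        have f2 := h.step r hr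
        by_cases c1 : p < ps (sl r)
        · have e : bot N sl (r + 1, p) = (r, p) := by simp [bot, c1]
          have u : up lab o (r, p) = false := by rw [← hc]; simp only [up, h.left r hr p c1]
          rw [e, u, (hg.1 r hr).1 p c1]
          simp
        · by_cases c2 : ps (sl r) + ka (sl r) ≤ p
          · obtain ⟨p0, rfl⟩ : ∃ p0, p = p0 + ka (sl r) := ⟨p - ka (sl r), by omega⟩
            have e : bot N sl (r + 1, p0 + ka (sl r)) = (r, p0 + kb (sl r)) := by
              simp [bot, c1, c2]
            have u : up lab o (r, p0 + kb (sl r)) = false := by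
              rw [← hc]; simp only [up, h.right r hr p0 (by omega)]
            rw [e, u, (hg.1 r hr).2 p0 (by omega) (by omega)]
            simp
          · have hf := hg.2 r hr
            rcases hs : sl r with ⟨i, e⟩ | ⟨i, d⟩ | ⟨i, d⟩
            · exfalso
              apply hn
              refine Or.inr ⟨hc, by omega, ?_⟩
              simp only [Nat.add_sub_cancel]
              rw [hs] at c1 c2 ⊢
              simp only [ps, ka] at c1 c2 ⊢
              exact ⟨⟨_, _, rfl⟩, by omega, by omega⟩
            · obtain ⟨β, l1, l2⟩ := h.cup r hr i d hs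
              have hu : up lab o (r + 1, i + 1) = !up lab o (r + 1, i) := g1_flip l1 l2
              rw [hs] at c1 c2 hf
              simp only [ps, kb, ka] at c1 c2 hf
              rw [sum_range_zero, sum_range_succ, sum_range_one, add_zero] at hf
              rcases (by omega : p = i ∨ p = i + 1) with rfl | rfl
              · have e : bot N sl (r + 1, p) = (r + 1, p + 1) := by simp [bot, hs, ps, kb, ka]
                rw [e, hu, hc]
                simp only [Bool.not_false, if_true]
                omega
              · have e : bot N sl (r + 1, i + 1) = (r + 1, i) := by simp [bot, hs, ps, kb, ka]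
                have u : up lab o (r + 1, i) = true := by
                  rw [hc] at hu
                  simpa using hu
                rw [e, u]
                simp only [if_true]
                omega
            · rw [hs] at c1 c2
              simp only [ps, ka] at c1 c2
              omega
    · simp only [if_true]
      rcases v1.eq_or_lt with rfl | hr
      · have : p = 0 := by rw [h.wN] at v2; omega
        subst this
        simp [top, ← ulink, hc, link]
      · have f1 := h.fit r hr
        have f2 := h.step r hr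
        by_cases c1 : p < ps (sl r)
        · have e : top N sl (r, p) = (r + 1, p) := by simp [top, hr.ne, c1]
          have u : up lab o (r + 1, p) = true := by rw [← hc]; simp only [up, h.left r hr p c1]
          rw [e, u, (hg.1 r hr).1 p c1]
          simp
        · by_cases c2 : ps (sl r) + kb (sl r) ≤ p
          · obtain ⟨p0, rfl⟩ : ∃ p0, p = p0 + kb (sl r) := ⟨p - kb (sl r), by omega⟩
            have e : top N sl (r, p0 + kb (sl r)) = (r + 1, p0 + ka (sl r)) := by
              simp [top, hr.ne, c1, c2]
            have u : up lab o (r + 1, p0 + ka (sl r)) = true := by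
              rw [← hc]; simp only [up, h.right r hr p0 (by omega)]
            rw [e, u, (hg.1 r hr).2 p0 (by omega) v2]
            simp
          · have hf := hg.2 r hr
            rcases hs : sl r with ⟨i, e⟩ | ⟨i, d⟩ | ⟨i, d⟩
            · exfalso
              apply hn
              refine Or.inl ⟨hc, hr, ?_⟩
              rw [hs] at c1 c2 ⊢
              simp only [ps, kb] at c1 c2 ⊢
              exact ⟨⟨_, _, rfl⟩, by omega, by omega⟩
            · rw [hs] at c1 c2
              simp only [ps, kb] at c1 c2
              omega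
            · obtain ⟨β, l1, l2⟩ := h.cap r hr i d hs
              have hu : up lab o (r, i + 1) = !up lab o (r, i) := g1_flip l1 l2
              rw [hs] at c1 c2 hf
              simp only [ps, kb, ka] at c1 c2 hf
              rw [sum_range_zero, sum_range_succ, sum_range_one, add_zero] at hf
              rcases (by omega : p = i ∨ p = i + 1) with rfl | rfl
              · have e : top N sl (r, p) = (r, p + 1) := by simp [top, hr.ne, hs, ps, kb, ka]
                rw [e, hu, hc]
                simp only [Bool.not_true, Bool.false_eq_true, if_false]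
                omega
              · have e : top N sl (r, i + 1) = (r, i) := by simp [top, hr.ne, hs, ps, kb, ka]
                have u : up lab o (r, i) = false := by
                  rw [hc] at hu
                  simpa using hu
                rw [e, u]
                simp only [Bool.false_eq_true, if_false]
                omega
  · have hf := hg.2 (row x) (hR.row_lt x)
    rw [g1_below hR, g1_above hR] at hf
    simp only [g1_up_inn h hR, g1_up_out h hR]
    cases o <;> simp at hf ⊢ <;> omega

end Pool.Agent.P.MP_9ed2cf_gt.Nz
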