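import Mathlib
import Pool.Agent.P.MP_9ed2cf_gt.NzGeo1

set_option autoImplicit false

namespace Pool.Agent.P.MP_9ed2cf_gt.Nz

open Finset Pool.Agent.P.MP_9ed2cf_gt.H14

variable {N : ℕ} {sl : ℕ → Slice} {wid : ℕ → ℕ} {lab : ℕ → ℕ → Bool × Bool}

variable {A V : Type} {P : Pl A V} {o : Bool} {pos : A → ℕ × ℕ} {row : V → ℕ}

theorem geo2_left {G : ℕ × ℕ → ℤ} (hG : SFlow N sl wid G) {r : ℕ} (hr : r < N) {g : ℕ}
    (hg : g ≤ ps (sl r)) : ∑ p ∈ range g, G (r + 1, p) = ∑ p ∈ range g, G (r, p) := by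
  refine sum_congr rfl fun p hp => (hG.1 r hr).1 p ?_
  have := mem_range.1 hp
  omega

theorem geo2_right {G : ℕ × ℕ → ℤ} (hG : SFlow N sl wid G) {r : ℕ} (hr : r < N) {g : ℕ}
    (hg : ps (sl r) ≤ g) (hw : g + kb (sl r) ≤ wid r) :
    ∑ p ∈ range (g + ka (sl r)), G (r + 1, p) = ∑ p ∈ range (g + kb (sl r)), G (r, p) := by
  induction g, hg using Nat.le_induction with
  | base =>
    rw [sum_range_add, sum_range_add, geo2_left hG hr le_rfl, hG.2 r hr]
  | succ g hg ih =>
    have e1 : g + 1 + ka (sl r) = g + ka (sl r) + 1 := by omega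
    have e2 : g + 1 + kb (sl r) = g + kb (sl r) + 1 := by omega
    rw [e1, e2, sum_range_succ, sum_range_succ, ih (by omega), (hG.1 r hr).2 g hg (by omega)]

/-- the value on the left (`c = true`) or on the right (`c = false`) of a directed node -/
def geo2F (lab : ℕ → ℕ → Bool × Bool) (S : ℕ → ℕ → ℤ) (c : Bool) (q : ℕ × ℕ) : ℤ :=
  if up lab false q = c then S q.1 q.2 else S q.1 (q.2 + 1)

structure Geo2S (N : ℕ) (sl : ℕ → Slice) (wid : ℕ → ℕ) (S : ℕ → ℕ → ℤ) : Prop where
  l0 : S N 0 = S 0 0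
  l1 : S N 1 = S 0 1
  left : ∀ r < N, ∀ g ≤ ps (sl r), S (r + 1) g = S r g
  right : ∀ r < N, ∀ g, ps (sl r) ≤ g → g + kb (sl r) ≤ wid r →
    S (r + 1) (g + ka (sl r)) = S r (g + kb (sl r))

theorem geo2_vl (h : Rows N sl wid lab) {S : ℕ → ℕ → ℤ} (hS : Geo2S N sl wid S) (c : Bool)
    {r p : ℕ} (hr : r < N) (hp : p < ps (sl r)) :
    geo2F lab S c (r + 1, p) = geo2F lab S c (r, p) := by
  simp only [geo2F, up, h.left r hr p hp, hS.left r hr p hp.le, hS.left r hr (p + 1) hp]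

theorem geo2_vr (h : Rows N sl wid lab) {S : ℕ → ℕ → ℤ} (hS : Geo2S N sl wid S) (c : Bool)
    {r p : ℕ} (hr : r < N) (hp : ps (sl r) ≤ p) (hw : p + kb (sl r) < wid r) :
    geo2F lab S c (r + 1, p + ka (sl r)) = geo2F lab S c (r, p + kb (sl r)) := by
  have e1 : p + ka (sl r) + 1 = p + 1 + ka (sl r) := by omega
  have e2 : p + kb (sl r) + 1 = p + 1 + kb (sl r) := by omega
  simp only [geo2F, up, h.right r hr p hp, hS.right r hr p hp hw.le, e1, e2,
    hS.right r hr (p + 1) (by omega) (by omega)]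

theorem geo2_link (h : Rows N sl wid lab) {S : ℕ → ℕ → ℤ} (hS : Geo2S N sl wid S) (c : Bool) :
    geo2F lab S c (0, 0) = geo2F lab S c (N, 0) := by
  simp only [geo2F, up, h.lN, zero_add, hS.l0, hS.l1]

theorem geo2_turn {S : ℕ → ℕ → ℤ} (c : Bool) {r i : ℕ} {d β : Bool} (h1 : lab r i = (d, β))
    (h2 : lab r (i + 1) = (!d, β)) (h3 : S r (i + 2) = S r i) :
    geo2F lab S c (r, i + 1) = geo2F lab S c (r, i) := by
  simp only [geo2F, up, h1, h2]
  cases d <;> cases β <;> cases c <;> simp [h3]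

theorem geo2_top (h : Rows N sl wid lab) {S : ℕ → ℕ → ℤ} (hS : Geo2S N sl wid S) (c : Bool)
    {q : ℕ × ℕ} (hq : Val N wid q)
    (hx : ¬ (q.1 < N ∧ IsX (sl q.1) ∧ ps (sl q.1) ≤ q.2 ∧ q.2 < ps (sl q.1) + 2)) :
    geo2F lab S c (top N sl q) = geo2F lab S c q := by
  obtain ⟨r, p⟩ := q
  obtain ⟨h1, h2⟩ := hq
  simp only at h1 h2 hx
  unfold top
  simp only
  by_cases e : r = N
  · subst e
    have : p = 0 := by have := h.wN; omega
    subst this
    rw [if_pos rfl]
    exact geo2_link h hS c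
  have hr : r < N := by omega
  rw [if_neg e]
  by_cases e1 : p < ps (sl r)
  · rw [if_pos e1]; exact geo2_vl h hS c hr e1
  rw [if_neg e1]
  by_cases e2 : ps (sl r) + kb (sl r) ≤ p
  · rw [if_pos e2]
    have := geo2_vr h hS c hr (p := p - kb (sl r)) (by omega) (by omega)
    rwa [Nat.sub_add_cancel (by omega)] at this
  rw [if_neg e2]
  have hfit := h.fit r hr
  have hL := hS.left r hr (ps (sl r)) le_rfl
  have hRt := hS.right r hr (ps (sl r)) le_rfl hfit
  rcases hs : sl r with ⟨i, e'⟩ | ⟨i, d⟩ | ⟨i, d⟩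
  · exfalso
    apply hx
    refine ⟨hr, ⟨i, e', hs⟩, by omega, ?_⟩
    rw [hs] at e2 ⊢
    simp only [ps, kb] at e2 ⊢
    omega
  · exfalso
    rw [hs] at e1 e2
    simp only [ps, kb] at e1 e2
    omega
  · obtain ⟨β, b1, b2⟩ := h.cap r hr i d hs
    rw [hs] at e1 e2 hL hRt
    simp only [ps, kb, ka, add_zero] at e1 e2 hL hRt ⊢
    have h3 : S r (i + 2) = S r i := by rw [← hRt, hL]
    rw [if_neg (by norm_num)]
    by_cases e3 : p = i
    · subst e3
      rw [if_pos rfl]
      exact geo2_turn c b1 b2 h3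
    · have : p = i + 1 := by omega
      subst this
      rw [if_neg e3, Nat.add_sub_cancel]
      exact (geo2_turn c b1 b2 h3).symm

theorem geo2_bot (h : Rows N sl wid lab) {S : ℕ → ℕ → ℤ} (hS : Geo2S N sl wid S) (c : Bool)
    {q : ℕ × ℕ} (hq : Val N wid q)
    (hx : ¬ (0 < q.1 ∧ IsX (sl (q.1 - 1)) ∧ ps (sl (q.1 - 1)) ≤ q.2 ∧
      q.2 < ps (sl (q.1 - 1)) + 2)) :
    geo2F lab S c (bot N sl q) = geo2F lab S c q := by
  obtain ⟨r, p⟩ := q
  obtain ⟨h1, h2⟩ := hq
  simp only at h1 h2 hx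
  unfold bot
  simp only
  rcases r with _ | r
  · have : p = 0 := by have := h.w0; omega
    subst this
    rw [if_pos rfl]
    exact (geo2_link h hS c).symm
  have hr : r < N := by omega
  rw [if_neg (by omega)]
  simp only [Nat.add_sub_cancel] at hx ⊢
  by_cases e1 : p < ps (sl r)
  · rw [if_pos e1]; exact (geo2_vl h hS c hr e1).symm
  rw [if_neg e1]
  have hstep := h.step r hr
  by_cases e2 : ps (sl r) + ka (sl r) ≤ p
  · rw [if_pos e2]
    have := geo2_vr h hS c hr (p := p - ka (sl r)) (by omega) (by omega)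
    rw [Nat.sub_add_cancel (by omega)] at this
    exact this.symm
  rw [if_neg e2]
  have hfit := h.fit r hr
  have hL := hS.left r hr (ps (sl r)) le_rfl
  have hRt := hS.right r hr (ps (sl r)) le_rfl hfit
  rcases hs : sl r with ⟨i, e'⟩ | ⟨i, d⟩ | ⟨i, d⟩
  · exfalso
    apply hx
    refine ⟨by omega, ⟨i, e', hs⟩, by omega, ?_⟩
    rw [hs] at e2 ⊢
    simp only [ps, ka] at e2 ⊢
    omega
  · obtain ⟨β, b1, b2⟩ := h.cup r hr i d hs
    rw [hs] at e1 e2 hL hRt
    simp only [ps, kb, ka, add_zero] at e1 e2 hL hRt ⊢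
    have h3 : S (r + 1) (i + 2) = S (r + 1) i := by rw [hRt, hL]
    rw [if_neg (by norm_num)]
    by_cases e3 : p = i
    · subst e3
      rw [if_pos rfl]
      exact geo2_turn c b1 b2 h3
    · have : p = i + 1 := by omega
      subst this
      rw [if_neg e3, Nat.add_sub_cancel]
      exact (geo2_turn c b1 b2 h3).symm
  · exfalso
    rw [hs] at e1 e2
    simp only [ps, ka] at e1 e2
    omega

theorem geo2_face (h : Rows N sl wid lab) (hR : Real N sl wid lab P false pos row)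
    {S : ℕ → ℕ → ℤ} (hS : Geo2S N sl wid S) (c : Bool) :
    P.FaceFn c fun a => geo2F lab S c (pos a) := by
  refine ⟨fun a ha => ?_, fun t x => ?_⟩
  · have hn := (hR.pass_iff h a).not.1 (not_not.2 ha)
    rw [not_or] at hn
    simp only
    rw [hR.σ_eq]
    by_cases hu : up lab false (pos a) = true
    · rw [if_pos hu]
      exact geo2_top h hS c (hR.pos_val a) fun hh => hn.1 ⟨hu, hh⟩
    · rw [if_neg hu]
      exact geo2_bot h hS c (hR.pos_val a) fun hh => hn.2 ⟨by simpa using hu, hh⟩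
  · simp only
    rw [hR.out_eq, hR.inn_eq]
    have hr := hR.row_lt x
    have hs := hR.row_x x
    obtain ⟨b1, b2, b3, b4⟩ := h.cross _ hr _ _ hs
    have hL := hS.left _ hr _ le_rfl
    have hRt := hS.right _ hr _ le_rfl (h.fit _ hr)
    have k1 : ka (sl (row x)) = 2 := by rw [hs]; rfl
    have k2 : kb (sl (row x)) = 2 := by rw [hs]; rfl
    rw [k1, k2] at hRt
    generalize P.s x = e at *
    cases e <;> cases t <;> cases c <;>
      simp [geo2F, up, arm, inA, outA, b1, b2, b3, b4, hL, hRt, add_assoc]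

theorem Real.planar (h : Rows N sl wid lab) (hR : Real N sl wid lab P false pos row) :
    P.Planar := by
  intro γ hγ
  obtain ⟨G, hG, hg⟩ := hR.c2s h hγ
  have hS : Geo2S N sl wid fun r g => -∑ p ∈ range g, G (r, p) := by
    refine ⟨by simp, ?_, fun r hr g hg => ?_, fun r hr g hg hw => ?_⟩
    · have := flux h.toShape hG N le_rfl
      rw [h.wN] at this
      rw [this]
      simp
    · rw [geo2_left hG hr hg]
    · rw [geo2_right hG hr hg hw]
  refine ⟨_, _, geo2_face h hR hS true, geo2_face h hR hS false, fun a => ?_⟩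
  have := hg a
  simp only [geo2F, sum_range_succ]
  by_cases hu : up lab false (pos a) = true
  · rw [if_pos hu] at this
    simp [hu, this]
  · rw [if_neg hu] at this
    have hu' : up lab false (pos a) = false := by simpa using hu
    simp [hu', this]

end Pool.Agent.P.MP_9ed2cf_gt.Nz
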