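import Mathlib
import Pool.Agent.P.MP_9ed2cf_gt.NzGeo1

set_option autoImplicit false

namespace Pool.Agent.P.MP_9ed2cf_gt.Nz

open Finset Pool.Agent.P.MP_9ed2cf_gt.H14

variable {N : ℕ} {sl : ℕ → Slice} {wid : ℕ → ℕ} {lab : ℕ → ℕ → Bool × Bool}

variable {A V : Type} {P : Pl A V} {o : Bool} {pos : A → ℕ × ℕ} {row : V → ℕ}

variable [Fintype A] {χ : V → Bool} {μ : ℕ → Bool × Bool} {b : A}

theorem Real.pot (h : Rows N sl wid lab) (hR : Real N sl wid lab P o pos row)
    (hm : Mark P o row χ μ) {u : ℕ × ℕ → ℤ} (hu : SPot N sl wid μ u) (a : A)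
    (ha : pos a ≠ if up lab o (0, 0) then (N, 0) else (0, 0)) :
    u (pos (P.nxt χ a)) = u (pos a) := by
  rcases Pl.pass_or (P := P) a with hp | ⟨t, x, rfl⟩
  · have hnp := (hR.pass_iff h a).not.1 (not_not.2 hp)
    have hv := hR.pos_val a
    have hl : up lab o (N, 0) = up lab o (0, 0) := by simp only [up, h.lN]
    rw [Pl.nxt_pass χ hp, hR.σ_eq]
    generalize pos a = q at ha hnp hv
    obtain ⟨r, p⟩ := q
    obtain ⟨hr, hp'⟩ := hv
    simp only at hr hp' hnp
    cases hup : up lab o (r, p)
    · rw [if_neg (by simp)]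
      rcases Nat.eq_zero_or_pos r with rfl | h0
      · have e : p = 0 := by have := h.w0; omega
        subst e
        rw [hup] at ha
        simp at ha
      obtain ⟨r, rfl⟩ : ∃ r', r = r' + 1 := ⟨r - 1, by omega⟩
      have hr' : r < N := hr
      have hs := h.step r hr'
      have hV := hu.1 r hr'
      have hC := (hu.2 r hr').1
      simp only [bot, Nat.add_sub_cancel, Nat.succ_ne_zero, if_false]
      simp only [Nat.add_sub_cancel, hup] at hnp
      split_ifs with h1 h2 h3 h4
      · exact (hV.1 p h1).symm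
      · have := hV.2 (p - ka (sl r)) (by omega) (by omega)
        rw [show p - ka (sl r) + ka (sl r) = p by omega] at this
        exact this.symm
      · exfalso
        apply hnp
        refine Or.inr ⟨trivial, by omega, ?_, by omega, ?_⟩
        · cases hsl : sl r with
          | cross i e => exact ⟨i, e, rfl⟩
          | cup i d => rw [hsl] at h3; simp [kb] at h3
          | cap i d => rw [hsl] at h1 h2; simp only [ps, ka] at h1 h2; omega
        · cases hsl : sl r <;> rw [hsl] at h1 h2 <;> simp only [ps, ka] at h1 h2 ⊢ <;> omega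
      · cases hsl : sl r with
        | cross i e => rw [hsl] at h3; simp [kb] at h3
        | cup i d =>
          rw [hsl] at h4
          simp only [ps] at h4
          subst h4
          exact (hC p d hsl).symm
        | cap i d => rw [hsl] at h3; simp [kb] at h3
      · cases hsl : sl r with
        | cross i e => rw [hsl] at h3; simp [kb] at h3
        | cup i d =>
          rw [hsl] at h1 h2 h4
          simp only [ps, ka] at h1 h2 h4
          have e : p = i + 1 := by omega
          subst e
          exact hC i d hsl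
        | cap i d => rw [hsl] at h3; simp [kb] at h3
    · rw [if_pos rfl]
      rcases Nat.eq_or_lt_of_le hr with rfl | hr'
      · have e : p = 0 := by have := h.wN; omega
        subst e
        rw [← hl, hup] at ha
        simp at ha
      have hV := hu.1 r hr'
      have hC := (hu.2 r hr').2.1
      simp only [top, if_neg hr'.ne]
      simp only [hup] at hnp
      split_ifs with h1 h2 h3 h4
      · exact hV.1 p h1
      · have := hV.2 (p - kb (sl r)) (by omega) (by omega)
        rw [show p - kb (sl r) + kb (sl r) = p by omega] at this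
        exact this
      · exfalso
        apply hnp
        refine Or.inl ⟨trivial, hr', ?_, by omega, ?_⟩
        · cases hsl : sl r with
          | cross i e => exact ⟨i, e, rfl⟩
          | cup i d => rw [hsl] at h1 h2; simp only [ps, kb] at h1 h2; omega
          | cap i d => rw [hsl] at h3; simp [ka] at h3
        · cases hsl : sl r <;> rw [hsl] at h1 h2 <;> simp only [ps, kb] at h1 h2 ⊢ <;> omega
      · cases hsl : sl r with
        | cross i e => rw [hsl] at h3; simp [ka] at h3
        | cup i d => rw [hsl] at h3; simp [ka] at h3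
        | cap i d =>
          rw [hsl] at h4
          simp only [ps] at h4
          subst h4
          exact (hC p d hsl).symm
      · cases hsl : sl r with
        | cross i e => rw [hsl] at h3; simp [ka] at h3
        | cup i d => rw [hsl] at h3; simp [ka] at h3
        | cap i d =>
          rw [hsl] at h1 h2 h4
          simp only [ps, kb] at h1 h2 h4
          have e : p = i + 1 := by omega
          subst e
          exact hC i d hsl
  · rw [Pl.nxt_inn, hR.inn_eq, hR.out_eq]
    refine (hu.2 (row x) (hR.row_lt x)).2.2 ⟨_, _, hR.row_x x⟩ _ _ ?_ ?_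
    · rw [hm x]
      exact (by decide : ∀ o e c : Bool, outA o e c ≠ outA o e (!c)) _ _ _
    · rw [hm x]
      exact (by decide : ∀ o e t c : Bool, inA o e t ≠ outA o e (!c)) _ _ _ _

omit [Fintype A] in
theorem Real.mzero_Geo3 (hR : Real N sl wid lab P o pos row) (hm : Mark P o row χ μ)
    {γ : A → ℤ} {g : ℕ × ℕ → ℤ} (hg : ∀ a, g (pos a) = if up lab o (pos a) then γ a else -γ a)
    (h0 : ∀ x, γ (P.out (!χ x) x) = 0) : MZero N sl μ g := by
  intro r hr hx
  obtain ⟨x, rfl⟩ := hR.row_surj r hr hx
  rw [hm x, ← hR.out_eq, hg, h0]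
  simp

theorem Real.t12 (h : Rows N sl wid lab) (hR : Real N sl wid lab P o pos row)
    (hm : Mark P o row χ μ) (hb : pos b = (0, 0)) (hT : P.Tree χ b) :
    T1 N sl wid μ ∧ T2 N sl wid μ := by
  refine ⟨fun g hg hz h0 q hq => ?_, fun u hu q hq => ?_⟩
  · obtain ⟨a, rfl⟩ := hR.pos_surj q hq
    have e := hT.flow_zero (hR.s2c h hg) (by simp only [hb, h0]; simp) (fun x => by
      have := hz (row x) (hR.row_lt x) ⟨_, _, hR.row_x x⟩
      rw [hm x, ← hR.out_eq] at this
      simp only [this]
      simp) a
    split_ifs at e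
    · exact e
    · exact neg_eq_zero.1 e
  · have hN : Val N wid (N, 0) := ⟨le_rfl, by have := h.wN; simp only; omega⟩
    obtain ⟨a₀, ha₀⟩ := hR.pos_surj _ hN
    obtain ⟨a, rfl⟩ := hR.pos_surj q hq
    have hl : up lab o (N, 0) = up lab o (0, 0) := by simp only [up, h.lN]
    obtain ⟨c, hc, hcT⟩ : ∃ c, (pos c = if up lab o (0, 0) then (N, 0) else (0, 0)) ∧
        P.Tree χ c := by
      cases hup : up lab o (0, 0)
      · exact ⟨b, by simp [hb], hT⟩
      · refine ⟨a₀, by simp [ha₀], Pl.Tree.cut ?_ ?_⟩
        · have e : P.σ a₀ = b := by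
            apply hR.pos_inj
            rw [hR.σ_eq, ha₀, hl, hup, hb]
            simp [top]
          rw [e]
          exact hT
        · by_contra hp
          rcases (hR.pass_iff h a₀).1 hp with h1 | h1
          · rw [ha₀] at h1
            exact lt_irrefl _ h1.2.1
          · rw [ha₀, hl, hup] at h1
            exact absurd h1.1 (by simp)
    have key := fun a' => hcT.pot (u := fun a => u (pos a))
      (fun a ha => hR.pot h hm hu a fun e => ha (hR.pos_inj (e.trans hc.symm))) a'
    have e1 := key a
    have e2 := key a₀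
    simp only [ha₀] at e1 e2
    rw [e1, e2]

theorem Real.t3 (h : Rows N sl wid lab) (hR : Real N sl wid lab P o pos row)
    (hm : Mark P o row χ μ) : T3 N sl wid μ := by
  rintro u hu h0 hN ⟨q, hq, hne⟩
  obtain ⟨a₀, rfl⟩ := hR.pos_surj q hq
  obtain ⟨γ, hγ, ⟨a, ha⟩, hs, hz⟩ := P.exists_flow χ (U := fun a => u (pos a) ≠ 0) (by
    intro a ha
    rw [hR.pot h hm hu a]
    · exact ha
    · intro e
      apply ha
      rw [e]
      split_ifs
      · exact hN
      · exact h0) ⟨a₀, hne⟩
  obtain ⟨g, hg, he⟩ := hR.c2s h hγ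
  refine ⟨g, hg, hR.mzero_Geo3 hm he hz, ⟨pos a, hR.pos_val a, ?_⟩, fun q hq hg0 => ?_⟩
  · rw [he]
    split_ifs
    · exact ha
    · exact neg_ne_zero.2 ha
  · obtain ⟨a', rfl⟩ := hR.pos_surj q hq
    refine hs a' fun e => hg0 ?_
    rw [he, e]
    simp

theorem Real.tree (h : Rows N sl wid lab) (hR : Real N sl wid lab P o pos row)
    (hm : Mark P o row χ μ) (hb : pos b = (0, 0)) (h1 : T1 N sl wid μ) : P.Tree χ b := by
  intro a₀
  by_contra hn
  obtain ⟨γ, hγ, ⟨a, ha⟩, hs, hz⟩ := P.exists_flow χ (U := fun a => ¬ P.Reach χ a b)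
    (fun a ha e => ha e.head) ⟨a₀, hn⟩
  obtain ⟨g, hg, he⟩ := hR.c2s h hγ
  have hb0 : γ b = 0 := by
    by_contra e
    exact hs b e (Pl.Reach.refl χ b)
  have e := h1 g hg (hR.mzero_Geo3 hm he hz) (by rw [← hb, he, hb0]; simp) _ (hR.pos_val a)
  rw [he] at e
  split_ifs at e
  · exact ha e
  · exact ha (neg_eq_zero.1 e)

end Pool.Agent.P.MP_9ed2cf_gt.Nz
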