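import Mathlib
import Pool.Agent.P.MP_9ed2cf_gt.NzGDefs

set_option autoImplicit false

namespace Pool.Agent.P.MP_9ed2cf_gt.Nz

open Finset Pool.Agent.P.MP_9ed2cf_gt.H14

theorem supp_rows {l l' : List (Bool × Bool)} {D : List Slice} (h : AltRun l D l') :
    ∃ R : ℕ → List (Bool × Bool), R 0 = l ∧ R D.length = l' ∧
      ∀ r < D.length, (D.getD r (.cap 0 false)).Alt (R r) (R (r + 1)) := by
  induction h with
  | nil l => exact ⟨fun _ => l, rfl, rfl, fun r hr => absurd hr (by simp)⟩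
  | @cons l l1 l2 s D hs _ ih =>
    obtain ⟨R, h0, hN, hR⟩ := ih
    refine ⟨fun r => Nat.casesOn r l R, rfl, hN, fun r hr => ?_⟩
    cases r with
    | zero => simpa [h0] using hs
    | succ r => simpa using hR r (by simpa using hr)

theorem supp_gl {α : Type} (p q : List α) (d : α) {g : ℕ} (h : g < p.length) :
    (p ++ q).getD g d = p.getD g d := by
  simp [List.getD_eq_getElem?_getD, List.getElem?_append_left h]

theorem supp_gr {α : Type} (p q : List α) (d : α) (j : ℕ) :
    (p ++ q).getD (p.length + j) d = q.getD j d := by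
  simp [List.getD_eq_getElem?_getD, List.getElem?_append_right]

theorem supp_gr0 {α : Type} (p q : List α) (d : α) :
    (p ++ q).getD p.length d = q.getD 0 d := supp_gr p q d 0

theorem rows_exists {D : List Slice} (h : IsAlternating D) :
    ∃ wid lab, Rows D.length (fun r => D.getD r (.cap 0 false)) wid lab := by
  obtain ⟨b, h⟩ := h
  obtain ⟨R, h0, hN, hR⟩ := supp_rows h
  refine ⟨fun r => (R r).length, fun r p => (R r).getD p (false, false), ⟨by simp [h0],
    by simp [hN], ?_, ?_⟩, by simp [h0, hN], ?_, ?_, ?_, ?_, ?_⟩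
  · intro r hr
    have := hR r hr
    revert this
    cases D.getD r (.cap 0 false) <;> simp only [Slice.Alt, ps, kb]
    · rintro ⟨p, q, rfl, h1, -⟩; simp [h1]
    · rintro ⟨p, q, c, rfl, h1, -⟩; simp [h1]
    · rintro ⟨p, q, c, rfl, h1, -⟩; simp [h1]
  · intro r hr
    have := hR r hr
    revert this
    cases D.getD r (.cap 0 false) <;> simp only [Slice.Alt, ka, kb]
    · rintro ⟨p, q, rfl, h1, h2⟩; simp [h1, h2]
    · rintro ⟨p, q, c, rfl, h1, h2⟩; simp [h1, h2]; omega
    · rintro ⟨p, q, c, rfl, h1, h2⟩; simp [h1, h2]; omega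
  · intro r hr
    have := hR r hr
    revert this
    cases D.getD r (.cap 0 false) <;> simp only [Slice.Alt, ps]
    · rintro ⟨p, q, rfl, h1, h2⟩ g hg; rw [h1, h2]
    · rintro ⟨p, q, c, rfl, h1, h2⟩ g hg; rw [h1, h2, supp_gl _ _ _ hg, supp_gl _ _ _ hg]
    · rintro ⟨p, q, c, rfl, h1, h2⟩ g hg; rw [h1, h2, supp_gl _ _ _ hg, supp_gl _ _ _ hg]
  · intro r hr
    have := hR r hr
    revert this
    cases D.getD r (.cap 0 false) <;> simp only [Slice.Alt, ps, ka, kb]
    · rintro ⟨p, q, rfl, h1, h2⟩ g hg; rw [h1, h2]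
    · rintro ⟨p, q, c, rfl, h1, h2⟩ g hg
      obtain ⟨j, rfl⟩ := Nat.exists_eq_add_of_le hg
      rw [h1, h2, add_assoc, add_assoc, supp_gr, supp_gr]
      simp
    · rintro ⟨p, q, c, rfl, h1, h2⟩ g hg
      obtain ⟨j, rfl⟩ := Nat.exists_eq_add_of_le hg
      rw [h1, h2, add_assoc, add_assoc, supp_gr, supp_gr]
      simp
  · intro r hr i e hs
    have := hR r hr
    rw [show D.getD r (.cap 0 false) = _ from hs] at this
    obtain ⟨p, q, rfl, h1, h2⟩ := this
    simp only [h1, h2, supp_gr, supp_gr0]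
    simp
  · intro r hr i e hs
    have := hR r hr
    rw [show D.getD r (.cap 0 false) = _ from hs] at this
    obtain ⟨p, q, c, rfl, h1, h2⟩ := this
    refine ⟨c, ?_⟩
    simp only [h2, supp_gr, supp_gr0]
    simp
  · intro r hr i e hs
    have := hR r hr
    rw [show D.getD r (.cap 0 false) = _ from hs] at this
    obtain ⟨p, q, c, rfl, h1, h2⟩ := this
    refine ⟨c, ?_⟩
    simp only [h1, supp_gr, supp_gr0]
    simp

theorem supp_A (t y : List Face) {i a b w : ℕ} (hl : t.length = w + 1) (hf : i + b ≤ w)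
    (hy : y.length = a + 1) :
    (t.take i ++ (y ++ t.drop (i + b + 1))).length + b = w + 1 + a ∧
    (∀ g < i, (t.take i ++ (y ++ t.drop (i + b + 1))).getD g ff = t.getD g ff) ∧
    (∀ g, i < g → (t.take i ++ (y ++ t.drop (i + b + 1))).getD (g + a) ff = t.getD (g + b) ff) ∧
    ∀ j ≤ a, (t.take i ++ (y ++ t.drop (i + b + 1))).getD (i + j) ff = y.getD j ff := by
  have hi : (t.take i).length = i := by simp; omega
  refine ⟨by simp; omega, fun g hg => ?_, fun g hg => ?_, fun j hj => ?_⟩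
  · rw [supp_gl _ _ _ (by omega)]
    simp [List.getD_eq_getElem?_getD, hg]
  · obtain ⟨j, rfl⟩ := Nat.exists_eq_add_of_lt hg
    have e1 : i + j + 1 + a = (t.take i).length + (y.length + j) := by omega
    rw [e1, supp_gr, supp_gr]
    simp only [List.getD_eq_getElem?_getD, List.getElem?_drop]
    congr 2
    omega
  · have e1 : i + j = (t.take i).length + j := by omega
    rw [e1, supp_gr, supp_gl _ _ _ (by omega)]

theorem supp_ext {t t' : List Face} (hl : t.length = t'.length)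
    (h : ∀ g < t.length, t.getD g ff = t'.getD g ff) : t = t' := by
  refine List.ext_getElem hl fun g h1 h2 => ?_
  have := h g h1
  rwa [List.getD_eq_getElem _ _ h1, List.getD_eq_getElem _ _ h2] at this

theorem supp_B (t y t' : List Face) {i a b w : ℕ} (hl : t.length = w + 1) (hf : i + b ≤ w)
    (hy : y.length = a + 1) (h0 : t'.length + b = w + 1 + a)
    (h1 : ∀ g < i, t'.getD g ff = t.getD g ff)
    (h2 : ∀ g, i < g → g + b ≤ w → t'.getD (g + a) ff = t.getD (g + b) ff)
    (h3 : ∀ j ≤ a, t'.getD (i + j) ff = y.getD j ff) :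
    t' = t.take i ++ (y ++ t.drop (i + b + 1)) := by
  obtain ⟨k0, k1, k2, k3⟩ := supp_A t y hl hf hy
  refine supp_ext (by omega) fun g hg => ?_
  by_cases c1 : g < i
  · rw [h1 g c1, k1 g c1]
  by_cases c2 : g ≤ i + a
  · obtain ⟨j, rfl⟩ := Nat.exists_eq_add_of_le (not_lt.1 c1)
    rw [h3 j (by omega), k3 j (by omega)]
  · obtain ⟨j, rfl⟩ : ∃ j, g = j + a := ⟨g - a, by omega⟩
    rw [h2 j (by omega) (by omega), k2 j (by omega)]

theorem supp_sum {ι : Type} [Fintype ι] (F : ι → AddMonoidAlgebra ℕ (ℤ × ℤ)) (e : ℤ × ℤ) :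
    (∑ i, F i).coeff e ≠ 0 ↔ ∃ i, (F i).coeff e ≠ 0 := by
  rw [AddMonoidAlgebra.coeff_sum, Finsupp.finsetSum_apply, Ne, Finset.sum_eq_zero_iff]
  simp

theorem supp_single (c : Bool) (a : ℤ × ℤ) (F : AddMonoidAlgebra ℕ (ℤ × ℤ)) (e : ℤ × ℤ) :
    ((if c = true then AddMonoidAlgebra.single a 1 else 0) * F).coeff e ≠ 0 ↔
      c = true ∧ F.coeff (e - a) ≠ 0 := by
  cases c
  · simp
  · simp [sub_eq_neg_add]

theorem supp_one (c : Bool) (F : AddMonoidAlgebra ℕ (ℤ × ℤ)) (e : ℤ × ℤ) :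
    ((if c = true then 1 else 0) * F).coeff e ≠ 0 ↔ c = true ∧ F.coeff e ≠ 0 := by
  cases c <;> simp

theorem supp_one' (c : Bool) (F : AddMonoidAlgebra ℕ (ℤ × ℤ)) (e : ℤ × ℤ) :
    ((if c = true then 0 else 1) * F).coeff e ≠ 0 ↔ c = false ∧ F.coeff e ≠ 0 := by
  cases c <;> simp

theorem supp_step (κ : Bool → Bool → Bool → ℤ × ℤ) (s : Slice)
    (G : List Face → AddMonoidAlgebra ℕ (ℤ × ℤ)) {w : ℕ} {t : List Face} (hl : t.length = w + 1)
    (hf : ps s + kb s ≤ w) (e : ℤ × ℤ) :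
    (fstep (fun a b c => (AddMonoidAlgebra.single (κ a b c) 1 : AddMonoidAlgebra ℕ (ℤ × ℤ)))
        s G t).coeff e ≠ 0 ↔
      ∃ (mx my : Fin 4) (t' : List Face), t'.length + kb s = w + 1 + ka s ∧
        FLoc s w mx (fun g => (t.getD g ff).1) (fun g => (t'.getD g ff).1) ∧
        FLoc s w my (fun g => (t.getD g ff).2) (fun g => (t'.getD g ff).2) ∧
        (G t').coeff (e - wt κ s mx my) ≠ 0 := by
  cases s with
  | cross i pos =>
    simp only [fstep, fcross, supp_sum, supp_single, FLoc, ps, kb, ka, wt] at hf ⊢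
    constructor
    · rintro ⟨mx, my, hc, hG⟩
      rw [Bool.and_eq_true] at hc
      obtain ⟨k0, k1, k2, k3⟩ := supp_A t [(outL mx (t.getD i ff).1, outL my (t.getD i ff).2),
        (outT mx, outT my), (outR mx (t.getD (i + 2) ff).1, outR my (t.getD (i + 2) ff).2)]
        (a := 2) hl hf rfl
      have a0 := k3 0 (by omega)
      have a1 := k3 1 (by omega)
      have a2 := k3 2 (by omega)
      rw [add_zero] at a0
      exact ⟨mx, my, _, k0, ⟨fun g hg => by rw [k1 g hg], fun g hg _ => by rw [k2 g hg], hc.1,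
        by rw [a0]; rfl, by rw [a1]; rfl, by rw [a2]; rfl⟩, ⟨fun g hg => by rw [k1 g hg],
        fun g hg _ => by rw [k2 g hg], hc.2, by rw [a0]; rfl, by rw [a1]; rfl, by rw [a2]; rfl⟩,
        hG⟩
    · rintro ⟨mx, my, t', h0, ⟨x1, x2, x3, x4, x5, x6⟩, ⟨y1, y2, y3, y4, y5, y6⟩, hG⟩
      refine ⟨mx, my, by rw [x3, y3]; rfl, ?_⟩
      have := supp_B t [(outL mx (t.getD i ff).1, outL my (t.getD i ff).2),
        (outT mx, outT my), (outR mx (t.getD (i + 2) ff).1, outR my (t.getD (i + 2) ff).2)] t'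
        (a := 2) hl hf rfl h0 (fun g hg => Prod.ext (x1 g hg) (y1 g hg))
        (fun g hg hg' => Prod.ext (x2 g hg hg') (y2 g hg hg')) (fun j hj => by
          interval_cases j
          · exact Prod.ext x4 y4
          · exact Prod.ext x5 y5
          · exact Prod.ext x6 y6)
      rw [this] at hG
      exact hG
  | cup i d =>
    simp only [fstep, fcup, supp_sum, supp_one', FLoc, ps, kb, ka, wt, sub_zero] at hf ⊢
    constructor
    · rintro ⟨z, hc, hG⟩
      rw [clash, Bool.or_eq_false_iff] at hc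
      obtain ⟨k0, k1, k2, k3⟩ := supp_A t [orF (t.getD i ff) (!z.1, !z.2), ff,
        orF (t.getD i ff) z] (a := 2) hl hf rfl
      have a0 := k3 0 (by omega)
      have a1 := k3 1 (by omega)
      have a2 := k3 2 (by omega)
      rw [add_zero] at a0
      exact ⟨0, 0, _, k0, ⟨fun g hg => by rw [k1 g hg], fun g hg _ => by rw [k2 g hg],
        by rw [a1]; rfl, z.1, hc.1, by rw [a0]; rfl, by rw [a2]; rfl⟩,
        ⟨fun g hg => by rw [k1 g hg], fun g hg _ => by rw [k2 g hg],
        by rw [a1]; rfl, z.2, hc.2, by rw [a0]; rfl, by rw [a2]; rfl⟩, hG⟩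
    · rintro ⟨mx, my, t', h0, ⟨x1, x2, x3, z1, x4, x5, x6⟩, ⟨y1, y2, y3, z2, y4, y5, y6⟩, hG⟩
      refine ⟨(z1, z2), by rw [clash, x4, y4]; rfl, ?_⟩
      have := supp_B t [orF (t.getD i ff) (!z1, !z2), ff, orF (t.getD i ff) (z1, z2)] t'
        (a := 2) hl hf rfl h0 (fun g hg => Prod.ext (x1 g hg) (y1 g hg))
        (fun g hg hg' => Prod.ext (x2 g hg hg') (y2 g hg hg')) (fun j hj => by
          interval_cases j
          · exact Prod.ext x5 y5
          · exact Prod.ext x3 y3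
          · exact Prod.ext x6 y6)
      rw [this] at hG
      exact hG
  | cap i d =>
    simp only [fstep, fcap, supp_one, FLoc, ps, kb, ka, wt, sub_zero] at hf ⊢
    constructor
    · rintro ⟨hc, hG⟩
      simp only [clash, Bool.and_eq_true, decide_eq_true_eq, Bool.not_eq_true',
        Bool.or_eq_false_iff] at hc
      obtain ⟨k0, k1, k2, k3⟩ := supp_A t [orF (t.getD i ff) (t.getD (i + 2) ff)] (a := 0)
        hl hf rfl
      have a0 := k3 0 (by omega)
      rw [add_zero] at a0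
      exact ⟨0, 0, _, k0, ⟨fun g hg => by rw [k1 g hg], fun g hg _ => by rw [k2 g hg],
        by rw [hc.1]; rfl, hc.2.1, by rw [a0]; rfl⟩,
        ⟨fun g hg => by rw [k1 g hg], fun g hg _ => by rw [k2 g hg],
        by rw [hc.1]; rfl, hc.2.2, by rw [a0]; rfl⟩, hG⟩
    · rintro ⟨mx, my, t', h0, ⟨x1, x2, x3, x4, x5⟩, ⟨y1, y2, y3, y4, y5⟩, hG⟩
      have hB : t.getD (i + 1) ff = tt := Prod.ext x3 y3
      refine ⟨by rw [clash, x4, y4, hB]; rfl, ?_⟩
      have := supp_B t [orF (t.getD i ff) (t.getD (i + 2) ff)] t'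
        (a := 0) hl hf rfl h0 (fun g hg => Prod.ext (x1 g hg) (y1 g hg))
        (fun g hg hg' => Prod.ext (x2 g hg hg') (y2 g hg hg')) (fun j hj => by
          interval_cases j
          exact Prod.ext x5 y5)
      rw [this] at hG
      exact hG

theorem supp_congr {s : Slice} {w w' : ℕ} {m : Fin 4} {f f' h h' : ℕ → Bool}
    (hf : ps s + kb s ≤ w) (hs : w' + kb s = w + ka s) (e : ∀ g ≤ w, f g = h g)
    (e' : ∀ g ≤ w', f' g = h' g) (H : FLoc s w m f f') : FLoc s w m h h' := by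
  obtain ⟨h1, h2, h3⟩ := H
  refine ⟨fun g hg => ?_, fun g hg hg' => ?_, ?_⟩
  · rw [← e g (by omega), ← e' g (by omega), h1 g hg]
  · rw [← e _ hg', ← e' _ (by omega), h2 g hg hg']
  · cases s with
    | cross i pos =>
      simp only [ps, kb, ka] at hf hs h3 ⊢
      rw [← e i (by omega), ← e (i + 1) (by omega), ← e (i + 2) (by omega), ← e' i (by omega),
        ← e' (i + 1) (by omega), ← e' (i + 2) (by omega)]
      exact h3
    | cup i d =>
      simp only [ps, kb, ka] at hf hs h3 ⊢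
      rw [← e i (by omega), ← e' i (by omega), ← e' (i + 1) (by omega), ← e' (i + 2) (by omega)]
      exact h3
    | cap i d =>
      simp only [ps, kb, ka] at hf hs h3 ⊢
      rw [← e i (by omega), ← e (i + 1) (by omega), ← e (i + 2) (by omega), ← e' i (by omega)]
      exact h3

theorem supp_gen (κ : Bool → Bool → Bool → ℤ × ℤ) (u : List Face) (D : List Slice) :
    ∀ (wid : ℕ → ℕ) (t : List Face) (e : ℤ × ℤ), t.length = wid 0 + 1 →
    u.length = wid D.length + 1 →
    (∀ r < D.length, ps (D.getD r (.cap 0 false)) + kb (D.getD r (.cap 0 false)) ≤ wid r) →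
    (∀ r < D.length, wid (r + 1) + kb (D.getD r (.cap 0 false)) =
      wid r + ka (D.getD r (.cap 0 false))) →
    ((frun (fun a b c => (AddMonoidAlgebra.single (κ a b c) 1 : AddMonoidAlgebra ℕ (ℤ × ℤ)))
        (fun t => if t = u then 1 else 0) D t).coeff e ≠ 0 ↔
      ∃ (mx my : ℕ → Fin 4) (f h : ℕ → ℕ → Bool),
        (∀ g ≤ wid 0, f 0 g = (t.getD g ff).1 ∧ h 0 g = (t.getD g ff).2) ∧
        (∀ g ≤ wid D.length, f D.length g = (u.getD g ff).1 ∧ h D.length g = (u.getD g ff).2) ∧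
        (∀ r < D.length, FLoc (D.getD r (.cap 0 false)) (wid r) (mx r) (f r) (f (r + 1)) ∧
          FLoc (D.getD r (.cap 0 false)) (wid r) (my r) (h r) (h (r + 1))) ∧
        e = ∑ r ∈ range D.length, wt κ (D.getD r (.cap 0 false)) (mx r) (my r)) := by
  induction D with
  | nil =>
    intro wid t e ht hu _ _
    simp only [frun, List.length_nil, range_zero, sum_empty] at hu ⊢
    constructor
    · intro h
      by_cases c : t = u
      · subst c
        refine ⟨fun _ => 0, fun _ => 0, fun _ g => (t.getD g ff).1, fun _ g => (t.getD g ff).2,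
          fun _ _ => ⟨rfl, rfl⟩, fun _ _ => ⟨rfl, rfl⟩, fun r hr => absurd hr (by simp), ?_⟩
        by_contra he
        apply h
        simp [AddMonoidAlgebra.one_def, Ne.symm he]
      · simp [c] at h
    · rintro ⟨_, _, f, h, h1, h2, -, rfl⟩
      have : t = u := supp_ext (by omega) fun g hg => Prod.ext
        ((h1 g (by omega)).1.symm.trans (h2 g (by omega)).1)
        ((h1 g (by omega)).2.symm.trans (h2 g (by omega)).2)
      simp [this]
  | cons s D ih =>
    intro wid t e ht hu hf hs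
    have hf0 : ps s + kb s ≤ wid 0 := hf 0 (by simp)
    have hs0 : wid 1 + kb s = wid 0 + ka s := hs 0 (by simp)
    have ih' := fun (t' : List Face) (e' : ℤ × ℤ) (h : t'.length = wid 1 + 1) =>
      ih (fun r => wid (r + 1)) t' e' h hu (fun r hr => hf (r + 1) (by simpa using hr))
        (fun r hr => hs (r + 1) (by simpa using hr))
    rw [frun, supp_step κ s _ ht hf0]
    simp only [List.length_cons, sum_range_succ', List.getD_cons_succ, List.getD_cons_zero]
    constructor
    · rintro ⟨m1, m2, t', h0, x, y, hG⟩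
      obtain ⟨mx, my, f, h, h1, h2, h3, h4⟩ := (ih' t' _ (by omega)).1 hG
      refine ⟨fun r => Nat.casesOn r m1 mx, fun r => Nat.casesOn r m2 my,
        fun r => Nat.casesOn r (fun g => (t.getD g ff).1) f,
        fun r => Nat.casesOn r (fun g => (t.getD g ff).2) h, fun _ _ => ⟨rfl, rfl⟩, h2,
        fun r hr => ?_, sub_eq_iff_eq_add.1 h4⟩
      cases r with
      | zero =>
        exact ⟨supp_congr hf0 hs0 (fun _ _ => rfl) (fun g hg => (h1 g hg).1.symm) x,
          supp_congr hf0 hs0 (fun _ _ => rfl) (fun g hg => (h1 g hg).2.symm) y⟩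
      | succ r => exact h3 r (by omega)
    · rintro ⟨mx, my, f, h, h1, h2, h3, h4⟩
      let t' : List Face := List.ofFn fun g : Fin (wid 1 + 1) => (f 1 g, h 1 g)
      have hl : t'.length = wid 1 + 1 := List.length_ofFn
      have hg : ∀ g ≤ wid 1, t'.getD g ff = (f 1 g, h 1 g) := fun g hg => by
        rw [List.getD_eq_getElem _ _ (by omega)]
        exact List.getElem_ofFn _
      have h30 := h3 0 (by omega)
      refine ⟨mx 0, my 0, t', by omega,
        supp_congr hf0 hs0 (fun g c => (h1 g c).1) (fun g c => by rw [hg g c]) h30.1,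
        supp_congr hf0 hs0 (fun g c => (h1 g c).2) (fun g c => by rw [hg g c]) h30.2,
        (ih' t' _ hl).2 ⟨fun r => mx (r + 1), fun r => my (r + 1), fun r => f (r + 1),
          fun r => h (r + 1), fun g c => by rw [hg g c]; exact ⟨rfl, rfl⟩, h2,
          fun r hr => h3 (r + 1) (by omega), sub_eq_iff_eq_add.2 h4⟩⟩

theorem supp_iff {D : List Slice} {wid : ℕ → ℕ}
    (hS : Shape D.length (fun r => D.getD r (.cap 0 false)) wid)
    (κ : Bool → Bool → Bool → ℤ × ℤ) (k : Face) (e : ℤ × ℤ) :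
    (frun (fun a b c => (AddMonoidAlgebra.single (κ a b c) 1 : AddMonoidAlgebra ℕ (ℤ × ℤ)))
        (fun t => if t = [tt, k] then 1 else 0) D [tt, k]).coeff e ≠ 0 ↔
      ∃ mx my, St D.length (fun r => D.getD r (.cap 0 false)) wid k.1 mx ∧
        St D.length (fun r => D.getD r (.cap 0 false)) wid k.2 my ∧
        e = ∑ r ∈ range D.length, wt κ (D.getD r (.cap 0 false)) (mx r) (my r) := by
  rw [supp_gen κ [tt, k] D wid [tt, k] e (by rw [hS.w0]; rfl) (by rw [hS.wN]; rfl) hS.fit hS.step,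
    hS.w0, hS.wN]
  constructor
  · rintro ⟨mx, my, f, h, h1, h2, h3, h4⟩
    exact ⟨mx, my, ⟨f, (h1 0 (by omega)).1, (h1 1 le_rfl).1, (h2 0 (by omega)).1, (h2 1 le_rfl).1,
      fun r hr => (h3 r hr).1⟩, ⟨h, (h1 0 (by omega)).2, (h1 1 le_rfl).2, (h2 0 (by omega)).2,
      (h2 1 le_rfl).2, fun r hr => (h3 r hr).2⟩, h4⟩
  · rintro ⟨mx, my, ⟨f, a1, a2, a3, a4, a5⟩, ⟨h, b1, b2, b3, b4, b5⟩, h4⟩
    refine ⟨mx, my, f, h, fun g hg => ?_, fun g hg => ?_, fun r hr => ⟨a5 r hr, b5 r hr⟩, h4⟩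
    · interval_cases g
      exacts [⟨a1, b1⟩, ⟨a2, b2⟩]
    · interval_cases g
      exacts [⟨a3, b3⟩, ⟨a4, b4⟩]

end Pool.Agent.P.MP_9ed2cf_gt.Nz
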