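import Mathlib
import Pool.Agent.P.MP_9ed2cf_gt.H14Main
import Pool.Agent.P.MP_9ed2cf_gt.NzAbs
import Pool.Agent.P.MP_9ed2cf_gt.NzB45
import Pool.Agent.P.MP_9ed2cf_gt.NzSupp
import Pool.Agent.P.MP_9ed2cf_gt.NzGeo0
import Pool.Agent.P.MP_9ed2cf_gt.NzGeo2
import Pool.Agent.P.MP_9ed2cf_gt.NzGeo3

set_option autoImplicit false

namespace Pool.Agent.P.MP_9ed2cf_gt.Nz

open Finset Pool.Agent.P.MP_9ed2cf_gt.H14

variable {N : ℕ} {sl : ℕ → Slice} {wid : ℕ → ℕ} {lab : ℕ → ℕ → Bool × Bool}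
variable {A V : Type} {P : Pl A V} {o : Bool} {pos : A → ℕ × ℕ} {row : V → ℕ}

/-- the class of a marker -/
def mk (o e : Bool) (m : Fin 4) : Bool := if o then iu e m else !io e m

theorem adj_outA (o e c : Bool) (m : Fin 4) : adj (outA o e (!c)) m = true ↔ mk o e m = c := by
  revert o e c m
  decide

theorem exists_mark (hR : Real N sl wid lab P o pos row) (χ : V → Bool) :
    ∃ μ, Mark P o row χ μ := by
  classical
  refine ⟨fun r => if h : ∃ x, row x = r then outA o (P.s h.choose) (!χ h.choose)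
    else (false, false), fun x => ?_⟩
  have h : ∃ y, row y = row x := ⟨x, rfl⟩
  have e : h.choose = x := hR.row_inj h.choose_spec
  simp only
  rw [dif_pos h, e]

theorem state_iff [Fintype A] (h : Rows N sl wid lab) (hR : Real N sl wid lab P o pos row) {b : A}
    (hb : pos b = (0, 0)) (k : Bool) (χ : V → Bool) :
    P.Tree χ b ↔ ∃ m, St N sl wid k m ∧ ∀ x, mk o (P.s x) (m (row x)) = χ x := by
  obtain ⟨μ, hm⟩ := exists_mark hR χ
  constructor
  · intro hT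
    obtain ⟨h1, h2⟩ := hR.t12 h hm hb hT
    obtain ⟨m, hs, ha⟩ := st_of_tree h.toShape h1 h2 k
    refine ⟨m, hs, fun x => (adj_outA _ _ _ _).1 ?_⟩
    rw [← hm x]
    exact ha _ (hR.row_lt x) ⟨_, _, hR.row_x x⟩
  · rintro ⟨m, hs, ha⟩
    refine hR.tree h hm hb (t1_of_st h.toShape hs (fun r hr hx => ?_) (hR.t3 h hm))
    obtain ⟨x, rfl⟩ := hR.row_surj r hr hx
    rw [hm x]
    exact (adj_outA _ _ _ _).2 (ha x)

theorem sc_eq [Fintype V] (P : Pl A V) (X Y : V → Bool) :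
    P.sc X Y = ∑ x, if X x = true ∧ Y x = false then (if P.s x then (1 : ℤ) else -1) else 0 := by
  classical
  simp only [Pl.sc, cn, Pl.sg, filter_filter, card_filter]
  push_cast
  rw [← sum_sub_distrib]
  refine sum_congr rfl fun x _ => ?_
  cases P.s x <;> cases X x <;> cases Y x <;> simp

theorem wt_sum [Fintype V] (hR : Real N sl wid lab P o pos row) (mx my : ℕ → Fin 4) :
    ∑ r ∈ range N, wt Kexp (sl r) (mx r) (my r) =
      (P.sc (fun x => mk true (P.s x) (my (row x))) (fun x => mk false (P.s x) (mx (row x))),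
        P.sc (fun x => mk false (P.s x) (mx (row x))) fun x => mk true (P.s x) (my (row x))) := by
  classical
  have h1 : ∑ r ∈ univ.image row, wt Kexp (sl r) (mx r) (my r) =
      ∑ r ∈ range N, wt Kexp (sl r) (mx r) (my r) := by
    refine sum_subset (fun r hr => ?_) fun r hr hn => ?_
    · obtain ⟨x, -, rfl⟩ := mem_image.1 hr
      exact mem_range.2 (hR.row_lt x)
    · cases e : sl r with
      | cross i s =>
        obtain ⟨x, hx⟩ := hR.row_surj r (mem_range.1 hr) ⟨i, s, e⟩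
        exact absurd (mem_image.2 ⟨x, mem_univ _, hx⟩) hn
      | cup i d => rfl
      | cap i d => rfl
  rw [← h1, sum_image fun x _ y _ e => hR.row_inj e, sc_eq, sc_eq]
  have h2 : ∀ (e : Bool) (a c : Fin 4), Kexp e (io e a) (iu e c) =
      ((if mk true e c = true ∧ mk false e a = false then (if e then (1 : ℤ) else -1) else 0),
        if mk false e a = true ∧ mk true e c = false then (if e then (1 : ℤ) else -1) else 0) := by
    intro e a c
    simp only [mk, Kexp]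
    cases io e a <;> cases iu e c <;> simp
  refine Prod.ext ?_ ?_
  · rw [Prod.fst_sum]
    refine sum_congr rfl fun x _ => ?_
    rw [hR.row_x x, wt, h2]
  · rw [Prod.snd_sum]
    refine sum_congr rfl fun x _ => ?_
    rw [hR.row_x x, wt, h2]

/-- the support of the pair count is empty or the set of lattice points of an octagon -/
theorem supp_oct (D : List Slice) (hD : IsAlternating D) (k : Fin 4) :
    (∀ e, (pairCount D k).coeff e = 0) ∨ ∃ w a1 a2 n1 n2 : ℤ, ∀ e : ℤ × ℤ,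
      (pairCount D k).coeff e ≠ 0 ↔ (-a2 ≤ e.2 ∧ e.2 ≤ a1 ∧ -a2 ≤ e.1 ∧ e.1 ≤ a1 ∧
        e.2 - e.1 ≤ w ∧ e.1 - e.2 ≤ w ∧ -n2 ≤ e.2 + e.1 ∧ e.2 + e.1 ≤ n1) := by
  obtain ⟨wid, lab, h⟩ := rows_exists hD
  obtain ⟨A, V, _, _, P, pos, row, hR, hR'⟩ := real_exists h
  obtain ⟨b, hb⟩ := hR.pos_surj (0, 0) ⟨Nat.zero_le _, by rw [h.w0]; exact Nat.one_pos⟩
  have key : ∀ e : ℤ × ℤ, (pairCount D k).coeff e ≠ 0 ↔ P.InS b e.2 e.1 := by
    intro e
    refine (supp_iff h.toShape Kexp (nUp k) e).trans ?_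
    constructor
    · rintro ⟨mx, my, hx, hy, rfl⟩
      rw [wt_sum hR]
      exact ⟨_, _, (state_iff h hR hb _ _).2 ⟨mx, hx, fun _ => rfl⟩,
        (state_iff h hR' hb _ _).2 ⟨my, hy, fun _ => rfl⟩, rfl, rfl⟩
    · rintro ⟨X, Y, hX, hY, e1, e2⟩
      obtain ⟨mx, hx, ex⟩ := (state_iff h hR hb (nUp k).1 X).1 hX
      obtain ⟨my, hy, ey⟩ := (state_iff h hR' hb (nUp k).2 Y).1 hY
      refine ⟨mx, my, hx, hy, ?_⟩
      have ey' : ∀ x, mk true (P.s x) (my (row x)) = Y x := ey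
      rw [wt_sum hR, funext ex, funext ey']
      exact Prod.ext e2 e1
  by_cases hne : ∃ i j, P.InS b i j
  · obtain ⟨w, a1, a2, n1, n2, ho⟩ := Pl.oct (hR.planar h) b hne
    exact Or.inr ⟨w, a1, a2, n1, n2, fun e => (key e).trans (ho _ _)⟩
  · refine Or.inl fun e => ?_
    by_contra h0
    exact hne ⟨_, _, (key e).1 h0⟩

theorem hull_supp (D : List Slice) (hD : IsAlternating D) (k : Fin 4) (p : ℤ × ℤ)
    (hp : ((p.1 : ℝ), (p.2 : ℝ)) ∈ convexHull ℝ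
      ((fun q : ℤ × ℤ => ((q.1 : ℝ), (q.2 : ℝ))) '' {q | (pairCount D k).coeff q ≠ 0})) :
    (pairCount D k).coeff p ≠ 0 := by
  rcases supp_oct D hD k with h0 | ⟨w, a1, a2, n1, n2, ho⟩
  · have : {q | (pairCount D k).coeff q ≠ 0} = ∅ := by
      ext q
      simp [h0 q]
    rw [this] at hp
    simp at hp
  · let C : Set (ℝ × ℝ) := {z | -(a2 : ℝ) ≤ z.2 ∧ z.2 ≤ a1 ∧ -(a2 : ℝ) ≤ z.1 ∧ z.1 ≤ a1 ∧
      z.2 - z.1 ≤ w ∧ z.1 - z.2 ≤ w ∧ -(n2 : ℝ) ≤ z.2 + z.1 ∧ z.2 + z.1 ≤ n1}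
    have hC : Convex ℝ C := by
      rintro x ⟨x1, x2, x3, x4, x5, x6, x7, x8⟩ y ⟨y1, y2, y3, y4, y5, y6, y7, y8⟩ s t hs ht hst
      obtain rfl : t = 1 - s := by linarith
      simp only [C, Set.mem_setOf_eq, Prod.fst_add, Prod.snd_add, Prod.smul_fst, Prod.smul_snd,
        smul_eq_mul]
      refine ⟨?_, ?_, ?_, ?_, ?_, ?_, ?_, ?_⟩ <;> nlinarith
    have hsub : (fun q : ℤ × ℤ => ((q.1 : ℝ), (q.2 : ℝ))) '' {q | (pairCount D k).coeff q ≠ 0} ⊆
        C := by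
      rintro _ ⟨q, hq, rfl⟩
      have := (ho q).1 hq
      simp only [C, Set.mem_setOf_eq]
      exact_mod_cast this
    have := convexHull_min hsub hC hp
    simp only [C, Set.mem_setOf_eq] at this
    exact (ho p).2 (by exact_mod_cast this)

theorem main (D : List Slice) (hD : IsAlternating D) (k : Fin 4) :
    ∃ a : ℤ × ℤ →₀ ℤ,
      (∀ (A : Type) [CommRing A] (s0 s1 Y : Aˣ),
        (Y : A) ^ 2 = ((s0 : A) ^ 2 - 1) * (1 - (s1 : A) ^ 2) →
        LG s0 s1 Y D k = a.sum fun ij n =>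
          (n : A) * (((s0 ^ 2) ^ ij.1 * (s1 ^ 2) ^ ij.2 : Aˣ) : A)) ∧
      ∀ p : ℤ × ℤ, ((p.1 : ℝ), (p.2 : ℝ)) ∈ convexHull ℝ
        ((fun q : ℤ × ℤ => ((q.1 : ℝ), (q.2 : ℝ))) '' {q | a q ≠ 0}) → a p ≠ 0 := by
  let ε : ℤˣ := (D.map Slice.sgn).prod
  let b : ℤ × ℤ →₀ ℕ := (pairCount D k).coeff
  let a : ℤ × ℤ →₀ ℤ := Finsupp.onFinset b.support
    (fun ij => ((ε * (-1) ^ (ij.1 + ij.2) : ℤˣ) : ℤ) * (b ij : ℤ))
    (fun ij h => Finsupp.mem_support_iff.2 fun e => h (by rw [e]; simp))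
  have ha : ∀ q, a q ≠ 0 ↔ b q ≠ 0 := fun q => by
    simp only [a, Finsupp.onFinset_apply, ne_eq, mul_eq_zero, Units.ne_zero, false_or,
      Nat.cast_eq_zero]
  refine ⟨a, fun A _ s0 s1 Y hY => ?_, fun p hp => ?_⟩
  · rw [LG_eq D hD k s0 s1 Y hY, AddMonoidAlgebra.lift_apply, Finsupp.mul_sum,
      Finsupp.onFinset_sum _ (fun _ => by simp)]
    refine sum_congr rfl fun ij _ => ?_
    have h1 : ∀ (x : Aˣ) (m : ℤ), (((-x) ^ m : Aˣ) : A) =
        ((((-1 : ℤˣ) ^ m : ℤˣ) : ℤ) : A) * ((x ^ m : Aˣ) : A) := by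
      intro x m
      rw [neg_eq_neg_one_mul x, mul_zpow, neg_one_zpow_eq_ite, neg_one_zpow_eq_ite]
      split_ifs <;> simp
    simp only [chi, MonoidHom.coe_mk, OneHom.coe_mk, toAdd_ofAdd, Units.val_mul, h1, zpow_add,
      nsmul_eq_mul, ε, b]
    push_cast
    ring
  · simp only [ha] at hp ⊢
    exact hull_supp D hD k p hp

end Pool.Agent.P.MP_9ed2cf_gt.Nz
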