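import Pool.Agent.P.MP_9ed2cf_gt.Coef

/-! Matrix identities by computation. -/

set_option autoImplicit false
set_option maxRecDepth 100000
set_option exponentiation.threshold 30000

namespace Pool.Agent.P.MP_9ed2cf_gt

abbrev R2 : Type := List (List ℤ)

def S2 : Kd R2 where
  A := lift (lift intAr)
  N := liftNr (liftNr intNr)
  ev := lev (lev (fun n : ℤ => ((n : ℤ) : ℤ)) (2 ^ ((47 + 1) * (0 + 1)))) (2 ^ ((47 + 1) * (55 + 1)))
  D := 55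
  w := 47
  t := 3135
  good := good_lift (good_lift (good_int ℤ) _) _
  ok := nrOk_lift (nrOk_lift nrOk_int)
  dec := dec_lift (t := 55) (dec_lift (dec_int 55 47))

abbrev P2 : Type := KP S2

abbrev E : Type := P2 × P2

def A2 : Ar P2 := kAr S2

def mxl : R2 → ℕ
  | [] => 0
  | a :: t => KP.mx a.length (mxl t)

theorem le_mxl : ∀ (p : R2), ∀ a ∈ p, a.length ≤ mxl p
  | [], _, h => absurd h List.not_mem_nil
  | b :: t, a, h => by
    rcases List.mem_cons.1 h with rfl | h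
    · exact (KP.le_mx _ _).1
    · exact (le_mxl t a h).trans (KP.le_mx _ _).2

def ofR (p : R2) : P2 :=
  ⟨p, lev (lev (fun n : ℤ => n) (Int.ofNat (Nat.pow 2 ((47 + 1) * (0 + 1)))))
      (Int.ofNat (Nat.pow 2 ((47 + 1) * (55 + 1)))) p, S2.N.n1 p,
    Nat.pred (KP.mx p.length (mxl p)), by rw [← pow2, ← pow2]; rfl, le_rfl, by
      have h := KP.le_mx p.length (mxl p)
      refine ⟨by rw [Nat.pred_eq_sub_one]; omega, fun a ha => ⟨?_, fun _ _ => trivial⟩⟩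
      have := le_mxl p a ha
      rw [Nat.pred_eq_sub_one]
      omega⟩

def mkE (u v : R2) : E := (ofR u, ofR v)

def y2 : R2 := [[-1, 0, 1], [], [1, 0, -1]]

def AE : Ar E := quad A2 (ofR y2)

abbrev M4 : Type := Fin 4 → Fin 4 → Fin 4 → Fin 4 → E

def lk (k : ℕ) : List (ℕ × R2 × R2) → E
  | [] => AE.zero
  | x :: t => cond (Nat.beq x.1 k) (mkE x.2.1 x.2.2) (lk k t)

def tb (t : List (ℕ × R2 × R2)) : M4 := fun c d a b => lk (64 * c.1 + 16 * d.1 + 4 * a.1 + b.1) t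

def tB0 : List (ℕ × R2 × R2) :=
  [(0, ([[], [], [], [], [0, 0, 1]], [])), (20, ([[], [], [], [0, 0, 1]], [])), (40, ([[], [], [],
  [0, 0, 1]], [])), (60, ([[], [], [0, 0, 1]], [])), (65, ([[], [], [], [0, 0, 1]], [])), (80,
  ([[1], [], [-1]], [])), (85, ([[], [], [0, 0, -1]], [])), (90, ([[-1], [], [0, 0, 1]], [])),
  (105, ([[], [], [], [0, 0, 0, -1]], [])), (120, ([], [[], [0, 1]])), (125, ([[], [], [0, 0, 0,
  1]], [])), (130, ([[], [], [], [0, 0, 1]], [])), (150, ([[], [], [], [0, 0, 0, -1]], [])), (160,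
  ([[], [], [0, 0, 1], [], [0, 0, -1]], [])), (170, ([[], [], [0, 0, -1]], [])), (180, ([], [[],
  [], [0, 0, -1]])), (190, ([[], [], [0, 0, 0, 1]], [])), (195, ([[], [], [0, 0, 1]], [])), (210,
  ([], [[], [0, 1]])), (215, ([[], [], [0, 0, 0, 1]], [])), (225, ([], [[], [], [0, 0, -1]])),
  (235, ([[], [], [0, 0, 0, 1]], [])), (240, ([[-1, 0, 1], [], [1, 0, -1]], [])), (245, ([[], [],
  [0, 0, 1, 0, -1]], [])), (250, ([[1, 0, -1]], [])), (255, ([[], [], [0, 0, 0, 0, 1]], []))]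

def tB1 : List (ℕ × R2 × R2) :=
  [(0, ([[], [], [0, 0, -2, 0, 1], [], [0, 0, 2, 0, -2], [], [0, 0, 0, 0, 1]], [])), (5, ([[], [],
  [], [], [0, 0, 0, 0, 2, 0, -1], [], [0, 0, 0, 0, -2, 0, 1]], [])), (10, ([[], [], [0, 0, 2, 0,
  -1], [], [0, 0, -2, 0, 1]], [])), (15, ([[], [], [], [], [0, 0, 0, 0, -1, 0, 1], [], [0, 0, 0,
  0, 1, 0, -1]], [])), (20, ([[], [], [], [0, 0, 0, 0, -1], [], [0, 0, 0, 0, 1]], [])), (30, ([],
  [[], [], [], [0, 0, 0, 1]])), (40, ([[], [], [], [0, 0, 0, 0, -1], [], [0, 0, 0, 0, 1]], [])),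
  (45, ([], [[], [], [], [], [0, 0, 0, 0, -1]])), (65, ([[], [], [], [0, 0, 0, 0, -1], [], [0, 0,
  0, 0, 1]], [])), (75, ([], [[], [], [], [0, 0, 0, 1]])), (80, ([[2, 0, -2], [], [-2, 0, 3], [],
  [0, 0, -1]], [])), (85, ([[], [], [0, 0, -2, 0, 2], [], [0, 0, 2, 0, -2]], [])), (90, ([[-2, 0,
  2], [], [2, 0, -3], [], [0, 0, 0, 0, 1]], [])), (95, ([[], [], [0, 0, 2, 0, -2], [], [0, 0, -1,
  0, 1]], [])), (105, ([[], [], [], [0, 0, 0, 1], [], [0, 0, 0, 0, 0, -1]], [])), (120, ([], [[],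
  [], [], [0, 0, 0, 1]])), (125, ([[], [], [], [], [0, 0, 0, -1, 0, 1]], [])), (130, ([[], [], [],
  [0, 0, 0, 0, -1], [], [0, 0, 0, 0, 1]], [])), (135, ([], [[], [], [], [], [0, 0, 0, 0, -1]])),
  (150, ([[], [], [], [0, 0, 0, 1], [], [0, 0, 0, 0, 0, -1]], [])), (160, ([[], [], [0, 0, 2, 0,
  -2], [], [0, 0, -2, 0, 3], [], [0, 0, 0, 0, -1]], [])), (165, ([[], [], [], [], [0, 0, 0, 0, -3,
  0, 2], [], [0, 0, 0, 0, 2, 0, -1]], [])), (170, ([[], [], [0, 0, -2, 0, 2], [], [0, 0, 2, 0,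
  -2]], [])), (175, ([[], [], [], [], [0, 0, 0, 0, 2, 0, -2], [], [0, 0, 0, 0, -1, 0, 1]], [])),
  (180, ([], [[], [], [], [], [0, 0, 0, 0, -1]])), (190, ([[], [], [], [], [0, 0, 0, -1, 0, 1]],
  [])), (210, ([], [[], [], [], [0, 0, 0, 1]])), (215, ([[], [], [], [], [0, 0, 0, -1, 0, 1]],
  [])), (225, ([], [[], [], [], [], [0, 0, 0, 0, -1]])), (235, ([[], [], [], [], [0, 0, 0, -1, 0,
  1]], [])), (240, ([[-2, 0, 2], [], [2, 0, -3, 0, 1], [], [0, 0, 1, 0, -1]], [])), (245, ([[],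
  [], [0, 0, 2, 0, -2], [], [0, 0, -2, 0, 3, 0, -1]], [])), (250, ([[2, 0, -2], [], [-2, 0, 3, 0,
  -1]], [])), (255, ([[], [], [0, 0, -2, 0, 2], [], [0, 0, 1, 0, -2, 0, 1]], []))]

def tB2 : List (ℕ × R2 × R2) :=
  [(0, ([[], [], [0, 0, 0, 0, 1], [], [0, 0, 0, 0, -2, 0, 1], [], [0, 0, 0, 0, 1, 0, -2], [], [0,
  0, 0, 0, 0, 0, 1]], [])), (5, ([[], [], [], [], [0, 0, 0, 0, 0, 0, -1], [], [0, 0, 0, 0, 0, 0,
  3, 0, -1], [], [0, 0, 0, 0, 0, 0, -2, 0, 1]], [])), (10, ([[], [], [0, 0, 0, 0, -1], [], [0, 0,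
  0, 0, 3, 0, -1], [], [0, 0, 0, 0, -2, 0, 1]], [])), (15, ([[], [], [], [], [0, 0, 0, 0, -1, 0,
  1], [], [0, 0, 0, 0, 1, 0, -2, 0, 1], [], [0, 0, 0, 0, 0, 0, 1, 0, -1]], [])), (20, ([[], [],
  [], [0, 0, 0, 0, 1], [], [0, 0, 0, 0, -1, 0, -1], [], [0, 0, 0, 0, 0, 0, 1]], [])), (30, ([],
  [[], [], [], [0, 0, 0, -1], [], [0, 0, 0, 0, 0, 1]])), (40, ([[], [], [], [0, 0, 0, 0, 1], [],
  [0, 0, 0, 0, -1, 0, -1], [], [0, 0, 0, 0, 0, 0, 1]], [])), (45, ([], [[], [], [], [], [0, 0, 0,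
  0, 1], [], [0, 0, 0, 0, 0, 0, -1]])), (65, ([[], [], [], [0, 0, 0, 0, 1], [], [0, 0, 0, 0, -1,
  0, -1], [], [0, 0, 0, 0, 0, 0, 1]], [])), (75, ([], [[], [], [], [0, 0, 0, -1], [], [0, 0, 0, 0,
  0, 1]])), (80, ([[], [], [0, 0, 1, 0, -2], [], [0, 0, -1, 0, 3], [], [0, 0, 0, 0, -1]], [])),
  (85, ([[], [], [], [], [0, 0, 0, 0, -2, 0, 2], [], [0, 0, 0, 0, 2, 0, -2]], [])), (90, ([[], [],
  [0, 0, -1, 0, 2], [], [0, 0, 2, 0, -4], [], [0, 0, 0, 0, 0, 0, 1]], [])), (95, ([[], [], [], [],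
  [0, 0, -1, 0, 3, 0, -2], [], [0, 0, 0, 0, -1, 0, 1]], [])), (105, ([[], [], [], [0, 0, 0, -1],
  [], [0, 0, 0, 0, 0, 2], [], [0, 0, 0, 0, 0, 0, 0, -1]], [])), (120, ([], [[], [], [], [0, 0, 0,
  -1], [], [0, 0, 0, 0, 0, 1]])), (125, ([[], [], [], [], [0, 0, 0, 1, 0, -1], [], [0, 0, 0, 0, 0,
  -1, 0, 1]], [])), (130, ([[], [], [], [0, 0, 0, 0, 1], [], [0, 0, 0, 0, -1, 0, -1], [], [0, 0,
  0, 0, 0, 0, 1]], [])), (135, ([], [[], [], [], [], [0, 0, 0, 0, 1], [], [0, 0, 0, 0, 0, 0,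
  -1]])), (150, ([[], [], [], [0, 0, 0, -1], [], [0, 0, 0, 0, 0, 2], [], [0, 0, 0, 0, 0, 0, 0,
  -1]], [])), (160, ([[], [], [], [], [0, 0, 0, 0, 1, 0, -2], [], [0, 0, 0, 0, -1, 0, 3], [], [0,
  0, 0, 0, 0, 0, -1]], [])), (165, ([[], [], [], [], [0, 0, 0, 0, 1], [], [0, 0, 0, 0, 0, 0, -4,
  0, 2], [], [0, 0, 0, 0, 0, 0, 2, 0, -1]], [])), (170, ([[], [], [], [], [0, 0, 0, 0, -2, 0, 2],
  [], [0, 0, 0, 0, 2, 0, -2]], [])), (175, ([[], [], [], [], [], [], [0, 0, 0, 0, -1, 0, 3, 0,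
  -2], [], [0, 0, 0, 0, 0, 0, -1, 0, 1]], [])), (180, ([], [[], [], [], [], [0, 0, 0, 0, 1], [],
  [0, 0, 0, 0, 0, 0, -1]])), (190, ([[], [], [], [], [0, 0, 0, 1, 0, -1], [], [0, 0, 0, 0, 0, -1,
  0, 1]], [])), (210, ([], [[], [], [], [0, 0, 0, -1], [], [0, 0, 0, 0, 0, 1]])), (215, ([[], [],
  [], [], [0, 0, 0, 1, 0, -1], [], [0, 0, 0, 0, 0, -1, 0, 1]], [])), (225, ([], [[], [], [], [],
  [0, 0, 0, 0, 1], [], [0, 0, 0, 0, 0, 0, -1]])), (235, ([[], [], [], [], [0, 0, 0, 1, 0, -1], [],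
  [0, 0, 0, 0, 0, -1, 0, 1]], [])), (240, ([[], [], [0, 0, -1, 0, 1], [], [0, 0, 1, 0, -2, 0, 1],
  [], [0, 0, 0, 0, 1, 0, -1]], [])), (245, ([[], [], [], [], [0, 0, 0, 0, 1, 0, -1], [], [0, 0, 0,
  0, -2, 0, 3, 0, -1]], [])), (250, ([[], [], [0, 0, 1, 0, -1], [], [0, 0, -2, 0, 3, 0, -1]],
  [])), (255, ([[], [], [], [], [0, 0, 1, 0, -2, 0, 1], [], [0, 0, 0, 0, 1, 0, -2, 0, 1]], []))]

def tD : List (ℕ × R2 × R2) :=
  [(0, ([[], [], [], [], [], [], [0, 0, 1]], [])), (5, ([[], [], [], [], [0, 0, -1], [], [0, 0,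
  1]], [])), (10, ([[], [], [], [], [0, 0, -1], [], [0, 0, 1]], [])), (15, ([[], [], [], [], [0,
  0, -1, 0, 1], [], [0, 0, 1, 0, -1]], [])), (17, ([[], [], [], [], [0, 0, 1]], [])), (27, ([],
  [[], [], [], [0, 0, 1]])), (34, ([[], [], [], [], [0, 0, 1]], [])), (39, ([], [[], [], [], [],
  [0, 0, 0, -1]])), (51, ([[], [], [0, 0, 1]], [])), (68, ([[], [], [], [], [0, 0, 1]], [])), (78,
  ([], [[], [], [], [0, 0, 1]])), (80, ([[], [], [1], [], [-1]], [])), (85, ([[], [], [2, 0, -1],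
  [], [-1, 0, 0, 0, 1]], [])), (90, ([[], [], [2, 0, -1], [], [-1]], [])), (95, ([[], [], [2, 0,
  -2], [], [-1, 0, 1]], [])), (102, ([[], [], [], [], [0, 0, 0, 0, 1]], [])), (114, ([], [[], [],
  [0, 1]])), (119, ([[], [], [0, 0, 1], [], [0, 0, -1, 0, 1]], [])), (136, ([[], [], [], [], [0,
  0, 1]], [])), (141, ([], [[], [], [], [], [0, 0, 0, -1]])), (153, ([[], [], [], [], [0, 0, 0, 0,
  1]], [])), (160, ([[], [], [], [], [0, 0, 1], [], [0, 0, -1]], [])), (165, ([[], [], [], [], [0,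
  0, 2, 0, -1], [], [0, 0, -1]], [])), (170, ([[], [], [], [], [0, 0, 2], [], [0, 0, -1]], [])),
  (175, ([[], [], [], [], [0, 0, 2, 0, -2], [], [0, 0, -1, 0, 1]], [])), (177, ([], [[], [], [],
  [0, 0, -1]])), (187, ([[], [], [0, 0, 1], [], [0, 0, -1, 0, 1]], [])), (204, ([[], [], [0, 0,
  1]], [])), (216, ([], [[], [], [0, 1]])), (221, ([[], [], [0, 0, 1], [], [0, 0, -1, 0, 1]],
  [])), (228, ([], [[], [], [], [0, 0, -1]])), (238, ([[], [], [0, 0, 1], [], [0, 0, -1, 0, 1]],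
  [])), (240, ([[], [], [-1, 0, 1], [], [1, 0, -1]], [])), (245, ([[], [], [-2, 0, 2], [], [1, 0,
  -1]], [])), (250, ([[], [], [-2, 0, 2], [], [1, 0, -1]], [])), (255, ([[], [], [-2, 0, 3], [],
  [1, 0, -2, 0, 1]], []))]

def tRi : List (ℕ × R2 × R2) :=
  [(0, ([[0, 0, 1]], [])), (17, ([[0, 0, 1], [], [0, 0, -1]], [])), (20, ([[], [0, 0, 1]], [])),
  (34, ([[0, 0, 1], [], [0, 0, -1]], [])), (40, ([[], [0, 0, 1]], [])), (51, ([[-1, 0, 1], [], [1,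
  0, -1]], [])), (54, ([], [[], [0, 1]])), (57, ([], [[-1]])), (60, ([[], [], [0, 0, 1]], [])),
  (65, ([[], [0, 0, 1]], [])), (85, ([[], [], [0, 0, -1]], [])), (99, ([], [[], [0, 1]])), (105,
  ([[], [0, -1]], [])), (119, ([[], [], [1, 0, -1]], [])), (125, ([[], [], [0, 1]], [])), (130,
  ([[], [0, 0, 1]], [])), (147, ([], [[-1]])), (150, ([[], [0, -1]], [])), (153, ([[1], [], [0, 0,
  -1]], [])), (170, ([[], [], [0, 0, -1]], [])), (187, ([[], [], [1, 0, -1]], [])), (190, ([[],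
  [], [0, 1]], [])), (195, ([[], [], [0, 0, 1]], [])), (215, ([[], [], [0, 1]], [])), (235, ([[],
  [], [0, 1]], [])), (255, ([[], [], [1]], []))]

def RP (k : ℕ) : E :=
  if k = 1111 then (mkE [[], [], [1]] []) else if k = 2222 ∨ k = 3333 then (mkE [[-1]] [])
  else if k = 4444 then (mkE [[0, 0, 1]] [])
  else if k = 2112 ∨ k = 1221 ∨ k = 3113 ∨ k = 1331 then (mkE [[], [1]] [])
  else if k = 2121 ∨ k = 3131 then (mkE [[-1], [], [1]] [])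
  else if k = 4224 ∨ k = 2442 ∨ k = 4334 ∨ k = 3443 then (mkE [[0, 1]] [])
  else if k = 4242 ∨ k = 4343 then (mkE [[-1, 0, 1]] [])
  else if k = 4114 ∨ k = 1441 then (mkE [[1]] [])
  else if k = 4141 then (mkE y2 [])
  else if k = 2323 then (mkE [[-1], [], [0, 0, 1]] [])
  else if k = 3223 ∨ k = 2332 then (mkE [[], [0, -1]] [])
  else if k = 2341 ∨ k = 4123 then (mkE [] [[], [0, -1]])
  else if k = 3241 ∨ k = 4132 then (mkE [] [[1]]) else (mkE [] [])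

def RM : M4 := fun c d a b => RP (1000 * (c + 1) + 100 * (d + 1) + 10 * (a + 1) + (b + 1))

def qE : E := (mkE [[], [], [0, 0, 1]] [])

def mE : Fin 4 → E := ![(mkE [[1]] []), (mkE [[], [], [0, 0, -1]] []), (mkE [[-1]] []), qE]

def nE : Fin 4 → E := ![qE, (mkE [[-1]] []), (mkE [[], [], [0, 0, -1]] []), (mkE [[1]] [])]

def s4 (f : Fin 4 → E) : E := AE.add (AE.add (AE.add (f 0) (f 1)) (f 2)) (f 3)

def all4 (p : Fin 4 → Bool) : Bool := p 0 && p 1 && p 2 && p 3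

def mulz (x y : E) : E := cond (AE.isZ x) AE.zero (AE.mul x y)

def mm (M N : M4) : M4 := fun c d a b => s4 fun e => s4 fun f => mulz (M c d e f) (N e f a b)

def ms (x : E) (M : M4) : M4 := fun c d a b => mulz (M c d a b) x

def ma (M N : M4) : M4 := fun c d a b => AE.add (M c d a b) (N c d a b)

def m1 : M4 := fun c d a b => if (c, d) = (a, b) then (mkE [[1]] []) else (mkE [] [])

def eqE (x y : E) : Bool := AE.isZ (AE.add x (AE.sc (-1) y))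

def eqM (M N : M4) : Bool :=
  all4 fun c => all4 fun d => all4 fun a => all4 fun b => eqE (M c d a b) (N c d a b)

def trP (M : M4) : M4 := fun e c a b => mulz (M c b e a) (AE.mul (nE e) (mE b))

def tlP (M : M4) : M4 := fun d e a b => M a d b e

def clP (M1 M2 M3 : M4) : E :=
  s4 fun e1 => s4 fun e2 => s4 fun c1 => s4 fun d1 => mulz (M1 c1 d1 0 e1) <| s4 fun d2 =>
    mulz (M2 d1 d2 e1 e2) (mulz (M3 d2 c1 e2 0)
      (AE.mul (AE.mul (nE e1) (nE e2)) (AE.mul (mE d1) (mE d2))))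

def hE : List ℤ → E
  | [] => (mkE [] [])
  | c :: l => AE.add (AE.ofInt c) (AE.mul qE (hE l))

def GE (i j k : Fin 3) : E :=
  AE.add (AE.add (hE (gC i j k)) (AE.mul (mkE [[0, 0, -1], [], [-1]] []) (hE (gB i j k))))
    (AE.mul (mkE [[0, 0, 0, 0, 1], [], [], [], [1]] []) (hE (gA i j k)))

def bP : Fin 3 → M4 := ![tb tB0, tb tB1, tb tB2]

theorem ck1 : eqM (mm RM (tb tRi)) (ms qE m1) = true := by decide +kernel

theorem ck2 : eqM (tb tB0) (trP RM) = true := by decide +kernel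

theorem ck3 : eqM (mm (tb tB0) (tlP RM)) (tb tD) = true := by decide +kernel

theorem ck4 : eqM (mm (tb tD) (tb tB0)) (ms qE (ma (tb tB0) (tb tB1))) = true := by decide +kernel

theorem ck5 : eqM (mm (tb tD) (tb tB1)) (ms qE (ma (tb tB1) (tb tB2))) = true := by decide +kernel

theorem ck6 : eqM (mm (tb tD) (tb tB2)) (ms qE (ms qE (tb tB2))) = true := by decide +kernel

theorem ck7 : eqM (mm (tlP (tb tRi)) (tb tB0)) (ms qE (ms qE m1)) = true := by decide +kernel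

theorem ck8 : eqM (mm (trP (tb tRi)) (tlP RM)) (ms qE (ms qE m1)) = true := by decide +kernel

theorem ck9 : ∀ i j k : Fin 3, eqE (AE.mul (mkE [[], [], [1]] []) (clP (bP i) (bP j) (bP k)))
    (AE.mul (hE [0, 0, 0, 0, 0, 1]) (GE i j k)) = true := by decide +kernel

end Pool.Agent.P.MP_9ed2cf_gt
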